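import Pool.Agent.Lib.MP_5cdc53_co.General

/-!
Linearized polynomials over an extension `K` of a finite field `k` (used in `PG`, `AG`).
-/

set_option autoImplicit false

namespace Pool.Agent.Lib.MP_5cdc53_co.PP.Lin

open Finset Polynomial

variable {k K : Type} [Field k] [Fintype k] [Field K] [Fintype K] [Algebra k K]

variable (k K) in
/-- the power map `x ↦ x ^ (q ^ t)` as a linear map -/
noncomputable def frobL (t : ℕ) : K →ₗ[k] K := ((FiniteField.frobeniusAlgHom k K) ^ t).toLinearMap

lemma frobL_apply (t : ℕ) (x : K) : frobL k K t x = x ^ (Fintype.card k ^ t) := by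
  simp only [frobL, AlgHom.toLinearMap_apply, AlgHom.coe_pow, FiniteField.coe_frobeniusAlgHom,
    pow_iterate]

variable (k) in
/-- the common kernel -/
noncomputable def ker {r s : ℕ} (D : Fin r → Fin s → K) : Submodule k K :=
  ⨅ ρ, LinearMap.ker (∑ t : Fin s, (LinearMap.mulLeft k (D ρ t)).comp (frobL k K t))

lemma mem_ker {r s : ℕ} (D : Fin r → Fin s → K) (x : K) :
    x ∈ ker k D ↔ ∀ ρ, D ρ ⬝ᵥ (fun t : Fin s => x ^ (Fintype.card k ^ (t : ℕ))) = 0 := by
  simp only [ker, Submodule.mem_iInf, LinearMap.mem_ker, LinearMap.sum_apply,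
    LinearMap.comp_apply, LinearMap.mulLeft_apply, frobL_apply, dotProduct]

lemma finrank_ker_lt {r s : ℕ} (D : Fin r → Fin s → K) (hD : D ≠ 0) :
    Module.finrank k (ker k D) < s := by
  classical
  obtain ⟨ρ, hρ⟩ := Function.ne_iff.1 hD
  obtain ⟨t₀, ht₀⟩ := Function.ne_iff.1 hρ
  have hq : 1 < Fintype.card k := Fintype.one_lt_card
  set q := Fintype.card k with hqdef
  have hs : 0 < s := lt_of_le_of_lt (Nat.zero_le _) t₀.2
  let P : K[X] := ∑ t : Fin s, C (D ρ t) * X ^ (q ^ (t : ℕ))
  have hcoeff : P.coeff (q ^ (t₀ : ℕ)) = D ρ t₀ := by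
    simp only [P, finsetSum_coeff, coeff_C_mul, coeff_X_pow]
    rw [Finset.sum_eq_single t₀]
    · simp
    · intro t _ ht
      have : q ^ (t₀ : ℕ) ≠ q ^ (t : ℕ) := by
        intro h
        exact ht (Fin.ext (Nat.pow_right_injective hq h).symm)
      simp [this]
    · intro h
      exact absurd (mem_univ _) h
  have hP : P ≠ 0 := by
    intro h
    rw [h, coeff_zero] at hcoeff
    exact ht₀ hcoeff.symm
  have hdeg : P.natDegree ≤ q ^ (s - 1) := by
    refine natDegree_sum_le_of_forall_le _ _ fun t _ => ?_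
    refine (natDegree_C_mul_X_pow_le _ _).trans ?_
    exact Nat.pow_le_pow_right (by omega) (by have := t.2; omega)
  have hcard : Nat.card (ker k D) ≤ q ^ (s - 1) := by
    refine le_trans ?_ hdeg
    refine le_trans ?_ (P.card_roots')
    refine le_trans ?_ (Multiset.toFinset_card_le _)
    rw [← Fintype.card_coe, ← Nat.card_eq_fintype_card (α := P.roots.toFinset)]
    refine Nat.card_le_card_of_injective
      (fun x : ker k D => (⟨(x : K), ?_⟩ : P.roots.toFinset)) ?_
    · rw [Multiset.mem_toFinset, mem_roots hP, IsRoot.def]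
      have h := (mem_ker D (x : K)).1 x.2 ρ
      simpa [P, eval_finsetSum, dotProduct] using h
    · intro x y h
      exact Subtype.ext (congrArg (fun z : P.roots.toFinset => (z : K)) h)
  have hc : Nat.card (ker k D) = q ^ Module.finrank k (ker k D) := by
    rw [Module.natCard_eq_pow_finrank (K := k), Nat.card_eq_fintype_card]
  rw [hc] at hcard
  have := (Nat.pow_le_pow_iff_right hq).1 hcard
  omega

end Pool.Agent.Lib.MP_5cdc53_co.PP.Lin
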