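import Pool.Agent.Lib.MP_5cdc53_co.PP.Stmts
import Pool.Agent.Lib.MP_5cdc53_co.PP.Lin72

/-!
Positive part: affine spaces and their truncations (module AG).
-/

set_option autoImplicit false

namespace Pool.Agent.Lib.MP_5cdc53_co.PP

open Finset
open Pool.Agent.Lib.MP_5cdc53_co (Zs fullGrowth_of_vectors)

namespace AGAux

variable {k K : Type} [Field k] [Fintype k] [Field K] [Finite K] [Algebra k K]

/-- the points of a subspace on an affine hyperplane -/
lemma card_slice (φ : K →ₗ[k] k) (W : Submodule k K) (s : ℕ) (hW : Module.finrank k W < s + 1) :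
    Nat.card {x : K // φ x = 1 ∧ x ∈ W} = 0 ∨
      ∃ i < s, Nat.card {x : K // φ x = 1 ∧ x ∈ W} = Fintype.card k ^ i := by
  by_cases h : Nonempty {x : K // φ x = 1 ∧ x ∈ W}
  · right
    obtain ⟨x₀, h1, h2⟩ := h
    let U : Submodule k K := W ⊓ LinearMap.ker φ
    have hlt : U < W := by
      refine lt_of_le_of_ne inf_le_left fun he => ?_
      have : x₀ ∈ U := he ▸ h2
      have h3 : φ x₀ = 0 := this.2
      rw [h1] at h3
      exact one_ne_zero h3
    have hf : Module.finrank k U < Module.finrank k W := Submodule.finrank_lt_finrank_of_lt hlt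
    refine ⟨Module.finrank k U, by omega, ?_⟩
    have hc : Nat.card U = Fintype.card k ^ Module.finrank k U := by
      rw [Module.natCard_eq_pow_finrank (K := k), Nat.card_eq_fintype_card]
    rw [← hc]
    refine Nat.card_congr
      { toFun := fun x => ⟨x.1 - x₀, W.sub_mem x.2.2 h2, ?_⟩
        invFun := fun y => ⟨y.1 + x₀, ?_, W.add_mem y.2.1 h2⟩
        left_inv := fun x => by simp
        right_inv := fun y => by simp }
    · change φ (x.1 - x₀) = 0
      rw [map_sub, x.2.1, h1, sub_self]
    · have h3 : φ y.1 = 0 := y.2.2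
      rw [map_add, h3, h1, zero_add]
  · left
    rw [not_nonempty_iff] at h
    exact Nat.card_of_isEmpty

/-- the number of points of an affine hyperplane -/
lemma card_hyperplane (φ : K →ₗ[k] k) (hφ : φ ≠ 0) (m : ℕ) (hm : Module.finrank k K = m + 1) :
    Nat.card {x : K // φ x = 1} = Fintype.card k ^ m := by
  have hs : Function.Surjective φ := LinearMap.surjective hφ
  obtain ⟨x₀, h1⟩ := hs 1
  have hf : Module.finrank k (LinearMap.ker φ) = m := by
    have h := LinearMap.finrank_range_add_finrank_ker φ
    rw [LinearMap.range_eq_top.2 hs, finrank_top, Module.finrank_self, hm] at h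
    omega
  have hc : Nat.card (LinearMap.ker φ) = Fintype.card k ^ m := by
    rw [Module.natCard_eq_pow_finrank (K := k), Nat.card_eq_fintype_card, hf]
  rw [← hc]
  refine Nat.card_congr
    { toFun := fun x => ⟨x.1 - x₀, ?_⟩
      invFun := fun y => ⟨y.1 + x₀, ?_⟩
      left_inv := fun x => by simp
      right_inv := fun y => by simp }
  · rw [LinearMap.mem_ker, map_sub, x.2, h1, sub_self]
  · have h3 : φ y.1 = 0 := y.2
    rw [map_add, h3, h1, zero_add]

end AGAux

open AGAux in
/-- **AG** -/
theorem stAG : StAG := by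
  classical
  intro q m s hq hs hsm
  obtain ⟨p, a, hp, ha, rfl⟩ := hq
  have : Fact (Nat.Prime p) := ⟨hp.nat_prime⟩
  let k := GaloisField p a
  have : Fintype k := Fintype.ofFinite k
  have hk : Fintype.card k = p ^ a := by
    rw [← Nat.card_eq_fintype_card]
    exact GaloisField.card p a ha.ne'
  have : NeZero (m + 1) := ⟨Nat.succ_ne_zero m⟩
  let K := FiniteField.Extension k p (m + 1)
  have : Fintype K := Fintype.ofFinite K
  have hfin : Module.finrank k K = m + 1 := FiniteField.finrank_extension k p (m + 1)
  obtain ⟨φ, hφ⟩ : ∃ φ : K →ₗ[k] k, φ ≠ 0 := by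
    have : Nontrivial (K →ₗ[k] k) := by
      have : Nontrivial (Module.Dual k K) := inferInstance
      exact this
    exact exists_ne 0
  have : Fintype {x : K // φ x = 1} := Fintype.ofFinite _
  have hN : Fintype.card {x : K // φ x = 1} = (p ^ a) ^ m := by
    rw [← Nat.card_eq_fintype_card, card_hyperplane φ hφ m hfin, hk]
  have hq1 : 1 < p ^ a := by
    rw [← hk]
    exact Fintype.one_lt_card
  let e : Fin ((p ^ a) ^ m) ≃ {x : K // φ x = 1} := (Fintype.equivFinOfCardEq hN).symm
  let v : Fin ((p ^ a) ^ m) → Fin (s + 1) → K := fun i t => (e i).1 ^ (Fintype.card k ^ (t : ℕ))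
  have hinj : Function.Injective (fun i : ℕ => (p ^ a) ^ i) := Nat.pow_right_injective hq1
  refine fullGrowth_of_vectors (K := K) (k := (p ^ a) ^ m) (s := s + 1) ?_ v _ ?_ ?_ ?_
  · positivity
  · simp only [mem_insert, mem_image, mem_range, not_or, not_exists, not_and]
    refine ⟨by positivity, fun i hi h => ?_⟩
    have := hinj h
    omega
  · rw [card_insert_of_notMem, card_image_of_injective _ hinj, card_range]
    simp only [mem_image, mem_range, not_exists, not_and]
    intro i _ h
    have : 0 < (p ^ a) ^ i := by positivity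
    omega
  · intro r D hD
    have h1 : (Zs v D).card = Nat.card {x : K // φ x = 1 ∧ x ∈ Lin.ker k D} := by
      rw [← Fintype.card_coe, ← Nat.card_eq_fintype_card]
      refine Nat.card_congr ((Equiv.subtypeEquiv e (q := fun x => x.1 ∈ Lin.ker k D)
        fun i => ?_).trans (Equiv.subtypeSubtypeEquivSubtypeInter _ _))
      rw [Lin.mem_ker]
      simp only [Zs, mem_filter, mem_univ, true_and, v]
    rw [h1]
    rcases card_slice φ (Lin.ker k D) s (Lin.finrank_ker_lt D hD) with h | ⟨i, hi, h⟩
    · rw [h]
      exact mem_insert_self _ _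
    · rw [h, hk]
      exact mem_insert_of_mem (mem_image_of_mem _ (mem_range.2 hi))

end Pool.Agent.Lib.MP_5cdc53_co.PP
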