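import Mathlib
import Pool.Agent.Lib.MP_5cdc53_co.Defs

/-!
# Blueprint (helper45): full growth of plane and space parameters forces a prime power

Every module proves one (or a few) of the `St...` propositions below.  Nothing here is assumed
anywhere in the final hand-in; the modules are theorems `stX : StX` (or `StY → ... → StX`).
-/

set_option autoImplicit false

namespace Pool.Agent.Lib.MP_5cdc53_co.PP

open Finset

/-! ## Part D: tetrahedron removal lemma (3-uniform, four vertex classes) -/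

/-- `Ω`: quadruples of vertices. -/
abbrev Om (n : ℕ) : Type := Fin 4 → Fin n

/-- `f` depends only on the coordinates in `s`. -/
def Dep {n : ℕ} {β : Type} (s : Finset (Fin 4)) (f : Om n → β) : Prop :=
  ∀ x y : Om n, (∀ i ∈ s, x i = y i) → f x = f y

/-- conditional expectation of `f` given the label `l` (uniform measure on a finite type) -/
noncomputable def ce {Ω T : Type} [Fintype Ω] [DecidableEq T] (l : Ω → T) (f : Ω → ℝ) (x : Ω) : ℝ :=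
  (∑ y ∈ univ.filter (fun y => l y = l x), f y) / ((univ.filter (fun y => l y = l x)).card : ℝ)

/-- the composite label of a face `e`: the labels of the faces `e.erase i`, `i ∈ e` -/
def lab {n : ℕ} (b : Finset (Fin 4) → Om n → ℕ) (e : Finset (Fin 4)) (x : Om n) : Fin 4 → ℕ :=
  fun i => if i ∈ e then b (e.erase i) x else 0

/-- `u` is `η`-uniform on the face `e`: no correlation with products of functions of the
subfaces `e.erase i`. -/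
def Unif {n : ℕ} (e : Finset (Fin 4)) (u : Om n → ℝ) (η : ℝ) : Prop :=
  ∀ g : Fin 4 → Om n → ℝ, (∀ i x, 0 ≤ g i x ∧ g i x ≤ 1) → (∀ i ∈ e, Dep (e.erase i) (g i)) →
    |∑ x, u x * ∏ i ∈ e, g i x| ≤ η * (n : ℝ) ^ 4

/-- D1a: basic facts on `ce`. -/
def StCE : Prop := ∀ (Ω T : Type) [Fintype Ω] [DecidableEq T] (l : Ω → T) (f : Ω → ℝ),
  (∀ x y, l x = l y → ce l f x = ce l f y) ∧
  (∀ g : Ω → ℝ, (∀ x y, l x = l y → g x = g y) → ∑ x, f x * g x = ∑ x, ce l f x * g x) ∧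
  ((∀ x, 0 ≤ f x ∧ f x ≤ 1) → ∀ x, 0 ≤ ce l f x ∧ ce l f x ≤ 1) ∧
  ((∀ x, 0 ≤ f x) → ∀ x, 0 ≤ ce l f x)

/-- D1b: Pythagoras for a refinement `l'` of `l`, and the energy increment. -/
def StEnergy : Prop := ∀ (Ω T T' : Type) [Fintype Ω] [DecidableEq T] [DecidableEq T']
  (l : Ω → T) (l' : Ω → T') (f : Ω → ℝ), (∀ x y, l' x = l' y → l x = l y) →
  (∑ x, (ce l' f x - ce l f x) ^ 2 = ∑ x, (ce l' f x) ^ 2 - ∑ x, (ce l f x) ^ 2) ∧
  (∀ g : Ω → ℝ, (∀ x y, l' x = l' y → g x = g y) → (∀ x, |g x| ≤ 1) →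
    (∑ x, (f x - ce l f x) * g x) ^ 2 ≤
      (Fintype.card Ω : ℝ) * (∑ x, (ce l' f x) ^ 2 - ∑ x, (ce l f x) ^ 2))

/-- total energy of a system of labels -/
noncomputable def energy {n : ℕ} {Φ : Type} [Fintype Φ] (e : Φ → Finset (Fin 4))
    (h : Φ → Om n → ℝ) (b : Finset (Fin 4) → Om n → ℕ) : ℝ :=
  ∑ φ, ∑ x, (ce (lab b (e φ)) (h φ) x) ^ 2

/-- D2a: non-uniformity is witnessed by sets: if `u` is not `η`-uniform on `e`, there are sets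
(0/1-valued functions of the subfaces) with correlation `> η`. -/
def StSets : Prop := ∀ (n : ℕ) (e : Finset (Fin 4)) (u : Om n → ℝ) (η : ℝ), 0 ≤ η →
  ¬ Unif e u η → ∃ g : Fin 4 → Om n → ℝ, (∀ i x, g i x = 0 ∨ g i x = 1) ∧
    (∀ i ∈ e, Dep (e.erase i) (g i)) ∧ η * (n : ℝ) ^ 4 < |∑ x, u x * ∏ i ∈ e, g i x|

/-- D2b: one step of the energy increment: either all `h φ - ce` are `η`-uniform or there is a
refinement with at most twice as many labels and energy larger by `η² n⁴`. -/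
def StStep : Prop := ∀ (n : ℕ) (Φ : Type) [Fintype Φ] (e : Φ → Finset (Fin 4))
  (h : Φ → Om n → ℝ) (η : ℝ) (K : ℕ) (b : Finset (Fin 4) → Om n → ℕ), 0 < n → 0 < η →
  (∀ φ x, 0 ≤ h φ x ∧ h φ x ≤ 1) → (∀ s, Dep s (b s)) → (∀ s x, b s x < K) →
  (∀ φ, Unif (e φ) (fun x => h φ x - ce (lab b (e φ)) (h φ) x) η) ∨
  ∃ b' : Finset (Fin 4) → Om n → ℕ, (∀ s, Dep s (b' s)) ∧ (∀ s x, b' s x < 2 * K) ∧
    (∀ s x y, b' s x = b' s y → b s x = b s y) ∧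
    energy e h b + η ^ 2 * (n : ℝ) ^ 4 ≤ energy e h b'

/-- D3: strong regularity lemma. -/
def StStrong : Prop := ∀ (p : ℕ) (ε : ℝ) (F : ℕ → ℝ), 0 < ε → (∀ K, 0 < F K) →
  ∃ K₀ : ℕ, ∀ (n : ℕ), 0 < n → ∀ (Φ : Type) [Fintype Φ] (e : Φ → Finset (Fin 4))
    (h : Φ → Om n → ℝ), Fintype.card Φ ≤ p → (∀ φ x, 0 ≤ h φ x ∧ h φ x ≤ 1) →
  ∃ K, 1 ≤ K ∧ K ≤ K₀ ∧ ∃ b b' : Finset (Fin 4) → Om n → ℕ,
    (∀ s, Dep s (b s)) ∧ (∀ s, Dep s (b' s)) ∧ (∀ s x, b s x < K) ∧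
    (∀ s x y, b' s x = b' s y → b s x = b s y) ∧
    ∀ φ, ∑ x, (ce (lab b' (e φ)) (h φ) x - ce (lab b (e φ)) (h φ) x) ^ 2 ≤ ε * (n : ℝ) ^ 4 ∧
      Unif (e φ) (fun x => h φ x - ce (lab b' (e φ)) (h φ) x) (F K)

/-- D4: a uniform function of the face `e` does not correlate with any finite product of
functions each of which misses a coordinate of `e` (it may use the coordinates outside `e`). -/
def StUnifProd : Prop := ∀ (n : ℕ) (e : Finset (Fin 4)) (u : Om n → ℝ) (η : ℝ), 0 < n → 0 ≤ η →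
  Dep e u → Unif e u η → ∀ (ι : Type) [Fintype ι] (R : ι → Om n → ℝ) (m : ι → Fin 4),
  (∀ t x, 0 ≤ R t x ∧ R t x ≤ 1) → (∀ t, m t ∈ e ∧ Dep (univ.erase (m t)) (R t)) →
  |∑ x, u x * ∏ t, R t x| ≤ η * (n : ℝ) ^ 4

/-- D5: independence of functions of disjoint sets of coordinates. -/
def StIndep : Prop := ∀ (n : ℕ) (s t : Finset (Fin 4)) (f g : Om n → ℝ), Disjoint s t →
  Dep s f → Dep t g → (∑ x, f x * g x) * (n : ℝ) ^ 4 = (∑ x, f x) * ∑ x, g x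

/-- the six pairs -/
def pairs : Finset (Finset (Fin 4)) := univ.filter (fun s => s.card = 2)

/-- the pairs not containing `i` -/
def sub2 (i : Fin 4) : Finset (Finset (Fin 4)) := pairs.filter (fun s => i ∉ s)

/-- density of `C` -/
noncomputable def dens {n : ℕ} (C : Om n → ℝ) : ℝ := (∑ x, C x) / (n : ℝ) ^ 4

/-- data of the counting lemma: `H i` is the triple function omitting `i`, `S i` its fine
conditional expectation, `A s` the indicator of an atom of the pair `s`, `B s` its fine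
conditional expectation (given cells), `C i` the indicator of a cell of the vertex `i`. -/
structure Cnt {n : ℕ} (H S : Fin 4 → Om n → ℝ) (σ : Fin 4 → ℝ)
    (A B : Finset (Fin 4) → Om n → ℝ) (C : Fin 4 → Om n → ℝ) (d : Finset (Fin 4) → ℝ)
    (a ρ τ η2 η3 : ℝ) : Prop where
  npos : 0 < n
  H01 : ∀ i x, 0 ≤ H i x ∧ H i x ≤ 1
  S01 : ∀ i x, 0 ≤ S i x ∧ S i x ≤ 1
  HDep : ∀ i, Dep (univ.erase i) (H i)
  SDep : ∀ i, Dep (univ.erase i) (S i)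
  A01 : ∀ s x, A s x = 0 ∨ A s x = 1
  ADep : ∀ s, Dep s (A s)
  B01 : ∀ s x, 0 ≤ B s x ∧ B s x ≤ 1
  BDep : ∀ s, Dep s (B s)
  C01 : ∀ i x, C i x = 0 ∨ C i x = 1
  CDep : ∀ i, Dep {i} (C i)
  σ01 : ∀ i, a ≤ σ i ∧ σ i ≤ 1
  d01 : ∀ s, 0 ≤ d s ∧ d s ≤ 1
  u3 : ∀ i, Unif (univ.erase i) (fun x => H i x - S i x) η3
  u2 : ∀ s ∈ pairs, Unif s (fun x => A s x - B s x) η2
  r3 : ∀ i, ∑ x, |S i x - σ i| * ((∏ s ∈ sub2 i, A s x) * ∏ j ∈ univ.erase i, C j x) ≤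
    ρ * ∑ x, ((∏ s ∈ sub2 i, A s x) * ∏ j ∈ univ.erase i, C j x)
  r2 : ∀ s ∈ pairs, ∑ x, |B s x - d s| * ∏ j ∈ s, C j x ≤ τ * ∑ x, ∏ j ∈ s, C j x
  a01 : 0 ≤ a ∧ a ≤ 1
  ρ01 : 0 ≤ ρ ∧ ρ ≤ 1
  τ0 : 0 ≤ τ
  η20 : 0 ≤ η2
  η30 : 0 ≤ η3

/-- D6: replacing `A s` by the constant `d s` in a sum; `R` is a finite product of functions
each of which misses a coordinate of `s`. -/
def StEdge : Prop := ∀ (n : ℕ) (s : Finset (Fin 4)) (A B : Om n → ℝ) (C : Fin 4 → Om n → ℝ)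
  (d τ η : ℝ), 0 < n → s ∈ pairs → Dep s A → Dep s B → (∀ x, 0 ≤ A x ∧ A x ≤ 1) →
  (∀ x, 0 ≤ B x ∧ B x ≤ 1) → (∀ i x, C i x = 0 ∨ C i x = 1) → (∀ i, Dep {i} (C i)) →
  0 ≤ d → d ≤ 1 → 0 ≤ τ → 0 ≤ η → Unif s (fun x => A x - B x) η →
  (∑ x, |B x - d| * ∏ j ∈ s, C j x ≤ τ * ∑ x, ∏ j ∈ s, C j x) →
  ∀ (ι : Type) [Fintype ι] (R : ι → Om n → ℝ) (m : ι → Fin 4),
  (∀ t x, 0 ≤ R t x ∧ R t x ≤ 1) → (∀ t, m t ∈ s ∧ Dep (univ.erase (m t)) (R t)) →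
  |∑ x, A x * ((∏ t, R t x) * ∏ j, C j x) - d * ∑ x, (∏ t, R t x) * ∏ j, C j x| ≤
    (τ * (∏ i, dens (C i)) + η) * (n : ℝ) ^ 4

/-- D7: the counting lemma. -/
def StCount : Prop := ∀ (n : ℕ) (H S : Fin 4 → Om n → ℝ) (σ : Fin 4 → ℝ)
  (A B : Finset (Fin 4) → Om n → ℝ) (C : Fin 4 → Om n → ℝ) (d : Finset (Fin 4) → ℝ)
  (a ρ τ η2 η3 : ℝ), Cnt H S σ A B C d a ρ τ η2 η3 →
  (a ^ 4 * ((∏ i, dens (C i)) * ((∏ s ∈ pairs, d s) - 6 * τ) - 6 * η2)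
    - 4 * (ρ * (∏ i, dens (C i)) * (∏ s ∈ pairs, d s) + 6 * (∏ i, dens (C i)) * τ + 6 * η2)
    - 4 * η3) * (n : ℝ) ^ 4
  ≤ ∑ x, (∏ i, H i x) * ((∏ s ∈ pairs, A s x) * ∏ i, C i x)

/-- D8a: a set with injective projections (omitting `i`) has few points in a set that does not
depend on the coordinate `i`. -/
def StFew : Prop := ∀ (n : ℕ) (i : Fin 4) (M D : Finset (Om n)),
  (∀ x ∈ M, ∀ y ∈ M, (∀ j, j ≠ i → x j = y j) → x = y) →
  (∀ x y : Om n, (∀ j, j ≠ i → x j = y j) → x ∈ D → y ∈ D) →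
  (M ∩ D).card * n ≤ D.card

/-- D8b: the measures of the bad sets. -/
def StBad : Prop :=
  (∀ (Ω T : Type) [Fintype Ω] [DecidableEq T] (l : Ω → T) (f : Ω → ℝ) (ε : ℝ), 0 ≤ ε →
    (∀ x, f x = 0 ∨ f x = 1) →
    ((univ.filter (fun x => f x = 1 ∧ ce l f x < ε)).card : ℝ) ≤ ε * Fintype.card Ω) ∧
  (∀ (Ω T : Type) [Fintype Ω] [DecidableEq T] (l : Ω → T) (f : Ω → ℝ) (ε E : ℝ), 0 < ε →
    (∀ x, 0 ≤ f x) → ∑ x, f x ≤ E →
    ((univ.filter (fun x => ε < ce l f x)).card : ℝ) ≤ E / ε) ∧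
  (∀ (Ω : Type) [Fintype Ω] (l : Ω → ℕ) (L : ℕ) (ε : ℝ), 0 ≤ ε → 0 < L → (∀ x, l x < L) →
    ((univ.filter (fun x => ((univ.filter (fun y => l y = l x)).card : ℝ) <
      ε / L * Fintype.card Ω)).card : ℝ) ≤ ε * Fintype.card Ω) ∧
  (∀ (Ω T : Type) [Fintype Ω] [DecidableEq T] (l : Ω → T) (f : Ω → ℝ) (ε : ℝ) (x : Ω), 0 ≤ ε →
    ce l (fun y => (f y) ^ 2) x ≤ ε →
    ∑ y ∈ univ.filter (fun y => l y = l x), |f y| ≤
      Real.sqrt ε * (univ.filter (fun y => l y = l x)).card)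

/-- D9: the tetrahedron theorem. -/
def StTet : Prop := ∀ c : ℝ, 0 < c → ∃ N : ℕ, ∀ n, N ≤ n → ∀ M : Finset (Om n),
  (∀ i : Fin 4, ∀ x ∈ M, ∀ y ∈ M, (∀ j, j ≠ i → x j = y j) → x = y) →
  c * (n : ℝ) ^ 3 ≤ M.card →
  (n : ℝ) ^ 3 < ((univ.filter (fun x : Om n => ∀ i : Fin 4, ∃ y ∈ M, ∀ j, j ≠ i → x j = y j)).card : ℝ)

/-! ## Part A: reductions between pairs -/

/-- weak growth: `c n^|L|` members for infinitely many `n` -/
def WG (k : ℕ) (L : Finset ℕ) : Prop := ∃ c : ℝ, 0 < c ∧ ∀ N : ℕ, ∃ n, N ≤ n ∧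
  ∃ F : Finset (Finset (Fin n)), IsSystem n k L F ∧ c * (n : ℝ) ^ L.card ≤ F.card

/-- A0 -/
def StFG : Prop := ∀ (k : ℕ) (L : Finset ℕ), FullGrowth k L → WG k L

/-- A1: trivial upper bound -/
def StTriv : Prop := ∀ (k : ℕ) (L : Finset ℕ), ∃ C : ℕ, ∀ n : ℕ, 1 ≤ n →
  ∀ F : Finset (Finset (Fin n)), IsSystem n k L F → F.card ≤ C * n ^ L.card

/-- A2: popular trace on a member -/
def StTrace : Prop := ∀ (n k : ℕ) (L : Finset ℕ) (F : Finset (Finset (Fin n)))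
  (X : Finset (Fin n)), IsSystem n k L F → X ∈ F → ∃ E, E ⊆ X ∧ ∃ G, G ⊆ F ∧
    (∀ Y ∈ G, Y ≠ X ∧ Y ∩ X = E) ∧ F.card ≤ 1 + 2 ^ k * G.card

/-- A3: subtract the minimum -/
def StSub : Prop := ∀ (k : ℕ) (L : Finset ℕ) (a : ℕ), a ∈ L → (∀ l ∈ L, a ≤ l) →
  (∀ l ∈ L, l < k) → WG k L → WG (k - a) (L.image (fun l => l - a))

/-- A4: drop the minimum -/
def StBot : Prop := ∀ (k : ℕ) (L : Finset ℕ) (a : ℕ), a ∈ L → (∀ l ∈ L, a ≤ l) →
  (∀ l ∈ L, l < k) → WG k L → WG k (L.erase a)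

/-- A5: pass to the rich kernels of maximal size -/
def StTop : Prop := ∀ (k : ℕ) (L : Finset ℕ) (b : ℕ), b ∈ L → (∀ l ∈ L, l ≤ b) → b < k →
  WG k L → WG b (L.erase b)

/-- A6a: the kernel of an `(n, k, {b, c})`-system with more than `C n` members -/
def StKer2 : Prop := ∀ (b c k : ℕ), b < c → c < k → ∃ C : ℕ, ∀ n : ℕ, 1 ≤ n →
  ∀ F : Finset (Finset (Fin n)), IsSystem n k {b, c} F → C * n < F.card →
  ∃ D : Finset (Fin n), D.card = b ∧ (∀ X ∈ F, D ⊆ X) ∧ ∃ X ∈ F, ∃ Y ∈ F, X ∩ Y = D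

/-- A6: quotient by atoms -/
def StQuo : Prop := ∀ b c k : ℕ, 0 < b → b < c → c < k → WG k {0, b, c} →
  ∃ c' k' : ℕ, c = b * c' ∧ k = b * k' ∧ WG k' {0, 1, c'}

/-- A7: reduction of a pair with four consecutive entries -/
def StRed : Prop := ∀ (k : ℕ) (L : Finset ℕ) (a b c e f v : ℕ), (∀ l ∈ L, l < k) →
  a ∈ L → b ∈ L → c ∈ L → e ∈ insert k L → a < b → b < c → c < e →
  (∀ x ∈ insert k L, a ≤ x → x ≤ e → x = a ∨ x = b ∨ x = c ∨ x = e) →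
  c - a = f * (b - a) → e - a = v * (b - a) → WG k L → WG v {0, 1, f}

/-! ## Part B, C: planes on the members, configurations, colouring -/

/-- `A x y` is the line through `x, y` in every member of `M` that contains `x, y`. -/
structure Lines {n : ℕ} (v f : ℕ) (M : Finset (Finset (Fin n)))
    (A : Fin n → Fin n → Finset (Fin n)) : Prop where
  card : ∀ F ∈ M, F.card = v
  line : ∀ F ∈ M, ∀ x ∈ F, ∀ y ∈ F, x ≠ y → x ∈ A x y ∧ y ∈ A x y ∧ A x y ⊆ F ∧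
    (A x y).card = f ∧ ∀ z ∈ A x y, ∀ w ∈ A x y, z ≠ w → A z w = A x y
  inter : ∀ F ∈ M, ∀ G ∈ M, F ≠ G → ∀ x ∈ F ∩ G, ∀ y ∈ F ∩ G, x ≠ y → F ∩ G = A x y

/-- B: after deleting `O(n²)` members all pairs are rich -/
def StLines : Prop := ∀ v f : ℕ, 2 ≤ f → f < v → ∃ K : ℕ, ∀ n : ℕ, 1 ≤ n →
  ∀ F : Finset (Finset (Fin n)), IsSystem n v {0, 1, f} F → ∃ M, M ⊆ F ∧
    ∃ A : Fin n → Fin n → Finset (Fin n), Lines v f M A ∧ F.card ≤ M.card + K * n ^ 2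

/-- a finite projective plane of order `q` on the point set `P`; `A x y` is the line through
`x ≠ y` -/
structure IsPlane {α : Type} [DecidableEq α] (P : Finset α) (A : α → α → Finset α) (q : ℕ) :
    Prop where
  card : P.card = q ^ 2 + q + 1
  line : ∀ x ∈ P, ∀ y ∈ P, x ≠ y → x ∈ A x y ∧ y ∈ A x y ∧ A x y ⊆ P ∧
    (A x y).card = q + 1 ∧ ∀ z ∈ A x y, ∀ w ∈ A x y, z ≠ w → A z w = A x y

/-- a Desargues configuration that does not close: `0` is the centre, `1,2,3` and `4,5,6` are the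
two triangles, `7,8,9` the meets of the sides `12`, `13`, `23` -/
structure Cfg {α : Type} (A : α → α → Finset α) (p : Fin 10 → α) : Prop where
  inj : Function.Injective p
  l1 : p 4 ∈ A (p 0) (p 1)
  l2 : p 5 ∈ A (p 0) (p 2)
  l3 : p 6 ∈ A (p 0) (p 3)
  m12 : p 7 ∈ A (p 1) (p 2)
  m12' : p 7 ∈ A (p 4) (p 5)
  m13 : p 8 ∈ A (p 1) (p 3)
  m13' : p 8 ∈ A (p 4) (p 6)
  m23 : p 9 ∈ A (p 2) (p 3)
  m23' : p 9 ∈ A (p 5) (p 6)
  n012 : p 2 ∉ A (p 0) (p 1)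
  n013 : p 3 ∉ A (p 0) (p 1)
  n023 : p 3 ∉ A (p 0) (p 2)
  n123 : p 3 ∉ A (p 1) (p 2)
  nc : p 9 ∉ A (p 7) (p 8)

/-- C1a: one colouring step -/
def StColor1 : Prop := ∀ (n v : ℕ) (M : Finset (Finset (Fin n))) (z : Finset (Fin n) → Fin n),
  (∀ F ∈ M, F.card = v ∧ z F ∈ F) →
  ∃ S : Finset (Fin n), M.card ≤ 2 ^ v * (M.filter (fun F => F ∩ S = {z F})).card

/-- C1: colouring -/
def StColor : Prop := ∀ (n v : ℕ) (M : Finset (Finset (Fin n)))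
  (p : Finset (Fin n) → Fin 10 → Fin n),
  (∀ F ∈ M, F.card = v ∧ (∀ i, p F i ∈ F)) →
  ∃ M', M' ⊆ M ∧ ∃ S : Fin 10 → Finset (Fin n), (∀ F ∈ M', ∀ i, F ∩ S i = {p F i}) ∧
    M.card ≤ 2 ^ (10 * v) * M'.card

/-- C2: few coloured members with a non-closing Desargues configuration -/
def StFewCfg : Prop := ∀ (v f : ℕ) (c : ℝ), 0 < c → ∃ N : ℕ, ∀ n, N ≤ n →
  ∀ (M : Finset (Finset (Fin n))) (A : Fin n → Fin n → Finset (Fin n)), Lines v f M A →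
  ∀ (p : Finset (Fin n) → Fin 10 → Fin n) (S : Fin 10 → Finset (Fin n)),
  (∀ F ∈ M, Cfg A (p F) ∧ ∀ i, F ∩ S i = {p F i}) → (M.card : ℝ) < c * (n : ℝ) ^ 3

/-- C3: the plane pair forces a prime power -/
def StPlane : Prop := ∀ q : ℕ, 2 ≤ q → WG (q ^ 2 + q + 1) {0, 1, q + 1} → IsPrimePow q

/-! ## Part M: Desarguesian planes have prime power order -/

/-- M1: the ten points are distinct -/
def StCfgInj : Prop := ∀ (α : Type) [DecidableEq α] (P : Finset α) (A : α → α → Finset α)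
  (q : ℕ), IsPlane P A q → ∀ p : Fin 10 → α, (∀ i, p i ∈ P) →
  p 0 ≠ p 1 → p 0 ≠ p 2 → p 0 ≠ p 3 → p 0 ≠ p 4 → p 0 ≠ p 5 → p 0 ≠ p 6 →
  p 1 ≠ p 4 → p 2 ≠ p 5 → p 3 ≠ p 6 →
  p 4 ∈ A (p 0) (p 1) → p 5 ∈ A (p 0) (p 2) → p 6 ∈ A (p 0) (p 3) →
  p 7 ∈ A (p 1) (p 2) → p 7 ∈ A (p 4) (p 5) → p 8 ∈ A (p 1) (p 3) → p 8 ∈ A (p 4) (p 6) →
  p 9 ∈ A (p 2) (p 3) → p 9 ∈ A (p 5) (p 6) →
  p 2 ∉ A (p 0) (p 1) → p 3 ∉ A (p 0) (p 1) → p 3 ∉ A (p 0) (p 2) → p 3 ∉ A (p 1) (p 2) →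
  p 6 ∉ A (p 4) (p 5) → Function.Injective p

/-- an affine plane given by directions; all lines have at least three points -/
structure Aff (V D : Type) (dir : V → V → D) : Prop where
  symm : ∀ x y, dir x y = dir y x
  trans : ∀ x y z, x ≠ y → x ≠ z → y ≠ z → dir x y = dir x z → dir y z = dir x y
  meet : ∀ x y u v, u ≠ v → ∃! z, (z = x ∨ dir x z = u) ∧ (z = y ∨ dir y z = v)
  three : ∀ x u, ∃ y z, x ≠ y ∧ x ≠ z ∧ y ≠ z ∧ dir x y = u ∧ dir x z = u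
  dirs : ∃ u v w : D, u ≠ v ∧ u ≠ w ∧ v ≠ w

/-- proper parallelogram `a b / x d` -/
def Par {V D : Type} (dir : V → V → D) (a b x d : V) : Prop :=
  a ≠ b ∧ a ≠ x ∧ dir a x ≠ dir a b ∧ x ≠ d ∧ dir x d = dir a b ∧ b ≠ d ∧ dir b d = dir a x

/-- minor Desargues -/
def MD {V D : Type} (dir : V → V → D) : Prop := ∀ a b x d y e : V, Par dir a b x d →
  Par dir a b y e → x ≠ y → dir x y ≠ dir a b → d ≠ e ∧ dir d e = dir x y

/-- M2: translations exist -/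
def StTrans : Prop := ∀ (V D : Type) (dir : V → V → D), Aff V D dir → MD dir →
  ∀ a b : V, a ≠ b → ∃ σ : Equiv.Perm V, (∀ x y, x ≠ y → dir (σ x) (σ y) = dir x y) ∧
    σ a = b ∧ ∀ x, σ x ≠ x

/-- M3: a transitive group of translations forces a prime power -/
def StGroup : Prop := ∀ (V D : Type) [Fintype V] [Nonempty V] (dir : V → V → D), Aff V D dir →
  (∀ a b : V, a ≠ b → ∃ σ : Equiv.Perm V, (∀ x y, x ≠ y → dir (σ x) (σ y) = dir x y) ∧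
    σ a = b ∧ ∀ x, σ x ≠ x) → ∃ p k : ℕ, p.Prime ∧ Fintype.card V = p ^ k

/-- M4: the affine plane of a projective plane without non-closing configurations -/
def StAff : Prop := ∀ (α : Type) [DecidableEq α] (P : Finset α) (A : α → α → Finset α) (q : ℕ),
  3 ≤ q → IsPlane P A q → (∀ p : Fin 10 → α, (∀ i, p i ∈ P) → ¬ Cfg A p) →
  ∃ (V D : Type) (_ : Fintype V) (dir : V → V → D), Fintype.card V = q ^ 2 ∧ Aff V D dir ∧ MD dir

/-- M5: Desarguesian planes have prime power order -/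
def StDes : Prop := ∀ (α : Type) [DecidableEq α] (P : Finset α) (A : α → α → Finset α) (q : ℕ),
  2 ≤ q → IsPlane P A q → (∀ p : Fin 10 → α, (∀ i, p i ∈ P) → ¬ Cfg A p) → IsPrimePow q

/-! ## Part E: positive part -/

/-- E1: blow up and add common points -/
def StBlow : Prop := ∀ (k : ℕ) (L : Finset ℕ) (l d : ℕ), 1 ≤ d → (∀ x ∈ L, x < k) →
  FullGrowth k L → FullGrowth (l + d * k) (L.image (fun x => l + d * x))

/-- E2: projective spaces and their truncations -/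
def StPG : Prop := ∀ q m s : ℕ, IsPrimePow q → 1 ≤ s → s ≤ m + 1 →
  FullGrowth (∑ j ∈ range (m + 1), q ^ j) ((range s).image (fun i => ∑ j ∈ range i, q ^ j))

/-- E3: affine spaces and their truncations -/
def StAG : Prop := ∀ q m s : ℕ, IsPrimePow q → 1 ≤ s → s ≤ m →
  FullGrowth (q ^ m) (insert 0 ((range s).image (fun i => q ^ i)))

end Pool.Agent.Lib.MP_5cdc53_co.PP
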