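import Pool.Agent.Lib.MP_5cdc53_co.PP.Stmts

/-!
# Blueprint, part 2 (helper45): the affine planes

All statements needed for: `WG (q^2) {0, 1, q}` forces a prime power.
-/

set_option autoImplicit false

namespace Pool.Agent.Lib.MP_5cdc53_co.PP

open Finset

/-- a Desargues configuration of the second kind: `0` is the centre, `1,2,3` and `4,5,6` are the
two triangles, `7,8` the meets of the sides `12`, `13`, and `9` is the meet of the axis `78` with
the side `23` of the first triangle; it does not lie on the side `56`. -/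
structure Cfg2 {α : Type} (A : α → α → Finset α) (p : Fin 10 → α) : Prop where
  n01 : p 0 ≠ p 1
  n02 : p 0 ≠ p 2
  n03 : p 0 ≠ p 3
  n12 : p 1 ≠ p 2
  n13 : p 1 ≠ p 3
  n23 : p 2 ≠ p 3
  n45 : p 4 ≠ p 5
  n46 : p 4 ≠ p 6
  n56 : p 5 ≠ p 6
  n78 : p 7 ≠ p 8
  l1 : p 4 ∈ A (p 0) (p 1)
  l2 : p 5 ∈ A (p 0) (p 2)
  l3 : p 6 ∈ A (p 0) (p 3)
  m12 : p 7 ∈ A (p 1) (p 2)
  m12' : p 7 ∈ A (p 4) (p 5)
  m13 : p 8 ∈ A (p 1) (p 3)
  m13' : p 8 ∈ A (p 4) (p 6)
  m23 : p 9 ∈ A (p 2) (p 3)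
  m78 : p 9 ∈ A (p 7) (p 8)
  n012 : p 2 ∉ A (p 0) (p 1)
  n013 : p 3 ∉ A (p 0) (p 1)
  n023 : p 3 ∉ A (p 0) (p 2)
  n123 : p 3 ∉ A (p 1) (p 2)
  n723 : p 7 ∉ A (p 2) (p 3)
  nc : p 9 ∉ A (p 5) (p 6)

/-- F2: few coloured members with a configuration of the second kind -/
def StFewCfg2 : Prop := ∀ (v f : ℕ) (c : ℝ), 0 < c → ∃ N : ℕ, ∀ n, N ≤ n →
  ∀ (M : Finset (Finset (Fin n))) (A : Fin n → Fin n → Finset (Fin n)), Lines v f M A →
  ∀ (p : Finset (Fin n) → Fin 10 → Fin n) (S : Fin 10 → Finset (Fin n)),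
  (∀ F ∈ M, Cfg2 A (p F) ∧ ∀ i, F ∩ S i = {p F i}) → (M.card : ℝ) < c * (n : ℝ) ^ 3

/-- a finite affine plane of order `q` on the point set `P`; `A x y` is the line through
`x ≠ y` -/
structure IsAPlane {α : Type} [DecidableEq α] (P : Finset α) (A : α → α → Finset α) (q : ℕ) :
    Prop where
  card : P.card = q ^ 2
  line : ∀ x ∈ P, ∀ y ∈ P, x ≠ y → x ∈ A x y ∧ y ∈ A x y ∧ A x y ⊆ P ∧
    (A x y).card = q ∧ ∀ z ∈ A x y, ∀ w ∈ A x y, z ≠ w → A z w = A x y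

/-- Comp: every affine plane is a projective plane minus a line -/
def StComp : Prop := ∀ (α : Type) [DecidableEq α] (P : Finset α) (A : α → α → Finset α) (q : ℕ),
  2 ≤ q → IsAPlane P A q →
  ∃ (β : Type) (_ : DecidableEq β) (P' : Finset β) (A' : β → β → Finset β) (ι : α → β) (s t : β),
    IsPlane P' A' q ∧ s ∈ P' ∧ t ∈ P' ∧ s ≠ t ∧ Function.Injective ι ∧
    (∀ x ∈ P, ι x ∈ P' ∧ ι x ∉ A' s t) ∧ (∀ y ∈ P', y ∉ A' s t → ∃ x ∈ P, ι x = y) ∧
    (∀ x ∈ P, ∀ y ∈ P, x ≠ y → ∀ w ∈ P, (ι w ∈ A' (ι x) (ι y) ↔ w ∈ A x y))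

/-- minor Desargues, restricted to points outside `Lp` and directions `≠ z` -/
def MD2 {V D : Type} (dir : V → V → D) (Lp : V → Prop) (z : D) : Prop :=
  ∀ a b x d y e : V, ¬ Lp a → ¬ Lp b → ¬ Lp x → ¬ Lp d → ¬ Lp y → ¬ Lp e →
  Par dir a b x d → Par dir a b y e → x ≠ y → dir x y ≠ dir a b → dir a b ≠ z → dir a x ≠ z →
  dir a y ≠ z → d ≠ e ∧ dir d e = dir x y

/-- `Lp` is a line with direction `z` -/
structure Aff2 (V D : Type) (dir : V → V → D) (Lp : V → Prop) (z : D) : Prop where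
  ex : ∃ x, Lp x
  line : ∀ x y, Lp x → x ≠ y → (Lp y ↔ dir x y = z)

/-- every line has at least `q` points -/
def Big {V D : Type} (dir : V → V → D) (q : ℕ) : Prop :=
  ∀ (x : V) (u : D), ∃ S : Finset V, q ≤ S.card ∧ ∀ y ∈ S, y = x ∨ dir x y = u

/-- Aff2: the affine plane `P \ axis` of a projective plane of order `q` in which all
configurations of the second kind avoiding the line `A s t` close; `Lp` is the trace of the line
`A s t`. -/
def StAff2 : Prop := ∀ (α : Type) [DecidableEq α] (P : Finset α) (A : α → α → Finset α) (q : ℕ)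
  (s t : α), 3 ≤ q → IsPlane P A q → s ∈ P → t ∈ P → s ≠ t →
  (∀ p : Fin 10 → α, (∀ i, p i ∈ P ∧ p i ∉ A s t) → ¬ Cfg2 A p) →
  ∃ (V D : Type) (_ : Fintype V) (dir : V → V → D) (Lp : V → Prop) (z : D),
    Fintype.card V = q ^ 2 ∧ Aff V D dir ∧ Aff2 V D dir Lp z ∧ Big dir q ∧ MD2 dir Lp z

/-- Trans2: translations exist -/
def StTrans2 : Prop := ∀ (V D : Type) (dir : V → V → D) (Lp : V → Prop) (z : D), Aff V D dir →
  Aff2 V D dir Lp z → Big dir 7 → MD2 dir Lp z →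
  ∀ a b : V, a ≠ b → ∃ σ : Equiv.Perm V, (∀ x y, x ≠ y → dir (σ x) (σ y) = dir x y) ∧
    σ a = b ∧ ∀ x, σ x ≠ x

/-- BR6: there is no projective plane of order 6 (Bruck-Ryser) -/
def StBR6 : Prop := ∀ (α : Type) [DecidableEq α] (P : Finset α) (A : α → α → Finset α),
  ¬ IsPlane P A 6

/-- Des2: affine planes in which all configurations of the second kind close have prime power
order -/
def StDes2 : Prop := ∀ (α : Type) [DecidableEq α] (P : Finset α) (A : α → α → Finset α) (q : ℕ),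
  2 ≤ q → IsAPlane P A q → (∀ p : Fin 10 → α, (∀ i, p i ∈ P) → ¬ Cfg2 A p) → IsPrimePow q

/-- Plane2: the affine pair forces a prime power -/
def StPlane2 : Prop := ∀ q : ℕ, 2 ≤ q → WG (q ^ 2) {0, 1, q} → IsPrimePow q

end Pool.Agent.Lib.MP_5cdc53_co.PP
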