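import Mathlib
import Pool.Agent.Lib.MP_5cdc53_co.PP.Stmts2

/-!
# PP, module AffP2 (helper27): the affine plane of a projective plane without configurations of
the second kind off a line
-/

set_option autoImplicit false

namespace Pool.Agent.Lib.MP_5cdc53_co.PP

open Finset

namespace AffP2

variable {α : Type} [DecidableEq α] {P : Finset α} {A : α → α → Finset α} {q : ℕ}

lemma left (h : IsPlane P A q) {x y : α} (hx : x ∈ P) (hy : y ∈ P) (hxy : x ≠ y) :
    x ∈ A x y := (h.line x hx y hy hxy).1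

lemma right (h : IsPlane P A q) {x y : α} (hx : x ∈ P) (hy : y ∈ P) (hxy : x ≠ y) :
    y ∈ A x y := (h.line x hx y hy hxy).2.1

lemma sub (h : IsPlane P A q) {x y : α} (hx : x ∈ P) (hy : y ∈ P) (hxy : x ≠ y) :
    A x y ⊆ P := (h.line x hx y hy hxy).2.2.1

lemma cardA (h : IsPlane P A q) {x y : α} (hx : x ∈ P) (hy : y ∈ P) (hxy : x ≠ y) :
    (A x y).card = q + 1 := (h.line x hx y hy hxy).2.2.2.1

lemma eqA (h : IsPlane P A q) {x y z w : α} (hx : x ∈ P) (hy : y ∈ P) (hxy : x ≠ y)
    (hz : z ∈ A x y) (hw : w ∈ A x y) (hzw : z ≠ w) : A z w = A x y :=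
  (h.line x hx y hy hxy).2.2.2.2 z hz w hw hzw

lemma comm (h : IsPlane P A q) {x y : α} (hx : x ∈ P) (hy : y ∈ P) (hxy : x ≠ y) :
    A y x = A x y :=
  eqA h hx hy hxy (right h hx hy hxy) (left h hx hy hxy) (Ne.symm hxy)

/-- any two lines meet -/
lemma meet (h : IsPlane P A q) {x y z w : α} (hx : x ∈ P) (hy : y ∈ P) (hxy : x ≠ y)
    (hz : z ∈ P) (hw : w ∈ P) (hzw : z ≠ w) : ∃ r, r ∈ A x y ∧ r ∈ A z w := by
  classical
  by_cases hzl : z ∈ A x y
  · exact ⟨z, hzl, left h hz hw hzw⟩
  have hne : ∀ u ∈ A x y, z ≠ u := by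
    intro u hu he
    exact hzl (he ▸ hu)
  have hPu : ∀ u ∈ A x y, u ∈ P := fun u hu => sub h hx hy hxy hu
  have hdisj : ∀ u ∈ A x y, ∀ v ∈ A x y, u ≠ v →
      Disjoint ((A z u).erase z) ((A z v).erase z) := by
    intro u hu v hv huv
    rw [Finset.disjoint_left]
    intro t ht1 ht2
    rw [Finset.mem_erase] at ht1 ht2
    have e1 : A z t = A z u := eqA h hz (hPu u hu) (hne u hu) (left h hz (hPu u hu) (hne u hu))
      ht1.2 (Ne.symm ht1.1)
    have e2 : A z t = A z v := eqA h hz (hPu v hv) (hne v hv) (left h hz (hPu v hv) (hne v hv))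
      ht2.2 (Ne.symm ht2.1)
    have hu' : u ∈ A z u := right h hz (hPu u hu) (hne u hu)
    have hv' : v ∈ A z u := by
      rw [← e1, e2]
      exact right h hz (hPu v hv) (hne v hv)
    have e3 : A u v = A z u := eqA h hz (hPu u hu) (hne u hu) hu' hv' huv
    have e4 : A u v = A x y := eqA h hx hy hxy hu hv huv
    apply hzl
    rw [← e4, e3]
    exact left h hz (hPu u hu) (hne u hu)
  have hcardU : ((A x y).biUnion (fun u => (A z u).erase z)).card = (q + 1) * q := by
    rw [Finset.card_biUnion hdisj]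
    have : ∀ u ∈ A x y, ((A z u).erase z).card = q := by
      intro u hu
      rw [Finset.card_erase_of_mem (left h hz (hPu u hu) (hne u hu)),
        cardA h hz (hPu u hu) (hne u hu)]
      rfl
    rw [Finset.sum_congr rfl this, Finset.sum_const, cardA h hx hy hxy]
    rfl
  have hsub : (A x y).biUnion (fun u => (A z u).erase z) ⊆ P.erase z := by
    intro t ht
    rw [Finset.mem_biUnion] at ht
    obtain ⟨u, hu, ht⟩ := ht
    rw [Finset.mem_erase] at ht
    exact Finset.mem_erase.mpr ⟨ht.1, sub h hz (hPu u hu) (hne u hu) ht.2⟩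
  have hcardP : (P.erase z).card = (q + 1) * q := by
    rw [Finset.card_erase_of_mem hz, h.card]
    have : q ^ 2 + q + 1 = (q + 1) * q + 1 := by ring
    rw [this]
    rfl
  have heq := Finset.eq_of_subset_of_card_le hsub (by rw [hcardP, hcardU])
  have hwm : w ∈ (A x y).biUnion (fun u => (A z u).erase z) := by
    rw [heq]
    exact Finset.mem_erase.mpr ⟨Ne.symm hzw, hw⟩
  rw [Finset.mem_biUnion] at hwm
  obtain ⟨u, hu, hwu⟩ := hwm
  rw [Finset.mem_erase] at hwu
  refine ⟨u, hu, ?_⟩
  have e1 : A z w = A z u := eqA h hz (hPu u hu) (hne u hu) (left h hz (hPu u hu) (hne u hu))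
      hwu.2 hzw
  rw [e1]
  exact right h hz (hPu u hu) (hne u hu)

end AffP2

open AffP2 in
/-- M4': the affine plane `P \ axis` of a projective plane without configurations of the second
kind off the line `A s t` -/
theorem stAff2 : StAff2 := by
  classical
  intro α _ P A q s t hq h hs ht hst hno
  have hL0sub : A s t ⊆ P := sub h hs ht hst
  have hL0card : (A s t).card = q + 1 := cardA h hs ht hst
  -- a point off the line
  have hxex : ∃ x ∈ P, x ∉ A s t := by
    by_contra hcon
    push Not at hcon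
    have h1 : P.card ≤ (A s t).card := Finset.card_le_card hcon
    rw [h.card, hL0card] at h1
    nlinarith
  obtain ⟨y0, hy0, hy0L⟩ := hxex
  have hsL : s ∈ A s t := left h hs ht hst
  have hxy0 : s ≠ y0 := fun hh => hy0L (hh ▸ hsL)
  set l0 := A s y0 with hl0
  have hl0sub : l0 ⊆ P := sub h hs hy0 hxy0
  have hl0card : l0.card = q + 1 := cardA h hs hy0 hxy0
  have hsl0 : s ∈ l0 := left h hs hy0 hxy0
  have hl0eq : ∀ {z w : α}, z ∈ l0 → w ∈ l0 → z ≠ w → A z w = l0 := by
    intro z w hz hw hzw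
    exact eqA h hs hy0 hxy0 hz hw hzw
  have hL0eq : ∀ {z w : α}, z ∈ A s t → w ∈ A s t → z ≠ w → A z w = A s t := by
    intro z w hz hw hzw
    exact eqA h hs ht hst hz hw hzw
  -- the only common point of the two lines
  have hcom : ∀ u, u ∈ l0 → u ∈ A s t → u = s := by
    intro u hu1 hu2
    by_contra hne
    have e1 : A u s = l0 := hl0eq hu1 hsl0 hne
    have e2 : A u s = A s t := hL0eq hu2 hsL hne
    apply hy0L
    rw [← e2, e1]
    exact right h hs hy0 hxy0
  -- uniqueness of the point on l0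
  have huniq : ∀ {x y u v : α}, x ∈ P → y ∈ P → x ≠ y → x ∉ l0 → u ∈ l0 → v ∈ l0 → u ∈ A x y →
      v ∈ A x y → u = v := by
    intro x y u v hx hy hxy hxl hu hv hu' hv'
    by_contra hne
    have e1 : A u v = A x y := eqA h hx hy hxy hu' hv' hne
    have e2 : A u v = l0 := hl0eq hu hv hne
    apply hxl
    rw [← e2, e1]
    exact left h hx hy hxy
  let V := {x // x ∈ P ∧ x ∉ l0}
  let D := {u // u ∈ l0}
  let d0 : D := ⟨s, hsl0⟩
  have hex : ∀ x y : V, ∃ u : D, x ≠ y → (u : α) ∈ A x y := by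
    intro x y
    by_cases hxy : x = y
    · exact ⟨d0, fun hh => absurd hxy hh⟩
    · have hxy' : (x : α) ≠ y := fun hh => hxy (Subtype.ext hh)
      obtain ⟨r, hr1, hr2⟩ := meet h hs hy0 hxy0 x.2.1 y.2.1 hxy'
      exact ⟨⟨r, hr1⟩, fun _ => hr2⟩
  choose dir hdir using hex
  have hne_lift : ∀ {x y : V}, x ≠ y → (x : α) ≠ y := fun hxy hh => hxy (Subtype.ext hh)
  have hdir_uniq : ∀ (x y : V) (u : D), x ≠ y → (u : α) ∈ A x y → dir x y = u := by
    intro x y u hxy hu
    apply Subtype.ext
    exact huniq x.2.1 y.2.1 (hne_lift hxy) x.2.2 (dir x y).2 u.2 (hdir x y hxy) hu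
  have hxu : ∀ (x : V) (u : D), (x : α) ≠ u := by
    intro x u hh
    exact x.2.2 (hh ▸ u.2)
  have hDP : ∀ u : D, (u : α) ∈ P := fun u => hl0sub u.2
  -- key equivalence
  have hK : ∀ (x z : V) (u : D), (z = x ∨ dir x z = u) ↔ (z : α) ∈ A x u := by
    intro x z u
    constructor
    · rintro (rfl | hd)
      · exact left h z.2.1 (hDP u) (hxu z u)
      · by_cases hzx : z = x
        · subst hzx
          exact left h z.2.1 (hDP u) (hxu z u)
        · have h1 : (u : α) ∈ A x z := by
            rw [← hd]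
            exact hdir x z (Ne.symm hzx)
          have e1 : A x u = A x z := eqA h x.2.1 z.2.1 (hne_lift (Ne.symm hzx))
            (left h x.2.1 z.2.1 (hne_lift (Ne.symm hzx))) h1 (hxu x u)
          rw [e1]
          exact right h x.2.1 z.2.1 (hne_lift (Ne.symm hzx))
    · intro hz
      by_cases hzx : z = x
      · exact Or.inl hzx
      · right
        apply hdir_uniq x z u (Ne.symm hzx)
        have e1 : A x z = A x u := eqA h x.2.1 (hDP u) (hxu x u)
          (left h x.2.1 (hDP u) (hxu x u)) hz (hne_lift (Ne.symm hzx))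
        rw [e1]
        exact right h x.2.1 (hDP u) (hxu x u)
  have hsymm : ∀ x y : V, dir x y = dir y x := by
    intro x y
    by_cases hxy : x = y
    · rw [hxy]
    · apply hdir_uniq x y _ hxy
      rw [comm h y.2.1 x.2.1 (hne_lift (Ne.symm hxy))]
      exact hdir y x (Ne.symm hxy)
  have htrans : ∀ x y z : V, x ≠ y → x ≠ z → y ≠ z → dir x y = dir x z → dir y z = dir x y := by
    intro x y z hxy hxz hyz he
    have hy : (y : α) ∈ A x (dir x y) := (hK x y _).mp (Or.inr rfl)
    have hz : (z : α) ∈ A x (dir x y) := (hK x z _).mp (Or.inr he.symm)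
    apply hdir_uniq y z _ hyz
    rw [eqA h x.2.1 (hDP _) (hxu x _) hy hz (hne_lift hyz)]
    exact right h x.2.1 (hDP _) (hxu x _)
  have hnl : ∀ (x : V) (u : D) (r : α), r ∈ A x u → r ≠ u → r ∉ l0 := by
    intro x u r hr hru hrl
    exact hru (huniq x.2.1 (hDP u) (hxu x u) x.2.2 hrl u.2 hr (right h x.2.1 (hDP u) (hxu x u)))
  have hAff : Aff V D dir := by
    refine ⟨hsymm, htrans, ?_, ?_, ?_⟩
    · intro x y u v huv
      obtain ⟨r, hr1, hr2⟩ := meet h x.2.1 (hDP u) (hxu x u) y.2.1 (hDP v) (hxu y v)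
      have hrl : r ∉ l0 := by
        intro hrl
        have h1 : r = u := huniq x.2.1 (hDP u) (hxu x u) x.2.2 hrl u.2 hr1
          (right h x.2.1 (hDP u) (hxu x u))
        have h2 : r = v := huniq y.2.1 (hDP v) (hxu y v) y.2.2 hrl v.2 hr2
          (right h y.2.1 (hDP v) (hxu y v))
        exact huv (Subtype.ext (h1.symm.trans h2))
      have hrP : r ∈ P := sub h x.2.1 (hDP u) (hxu x u) hr1
      refine ⟨⟨r, hrP, hrl⟩, ⟨(hK x ⟨r, hrP, hrl⟩ u).mpr hr1, (hK y ⟨r, hrP, hrl⟩ v).mpr hr2⟩, ?_⟩
      rintro z ⟨hz1, hz2⟩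
      have hz1' := (hK x z u).mp hz1
      have hz2' := (hK y z v).mp hz2
      apply Subtype.ext
      by_contra hzr
      change (z : α) ≠ r at hzr
      have e1 : A z r = A x u := eqA h x.2.1 (hDP u) (hxu x u) hz1' hr1 hzr
      have e2 : A z r = A y v := eqA h y.2.1 (hDP v) (hxu y v) hz2' hr2 hzr
      have hu1 : (u : α) ∈ A x u := right h x.2.1 (hDP u) (hxu x u)
      have hv1 : (v : α) ∈ A x u := by
        rw [← e1, e2]
        exact right h y.2.1 (hDP v) (hxu y v)
      exact huv (Subtype.ext (huniq x.2.1 (hDP u) (hxu x u) x.2.2 u.2 v.2 hu1 hv1))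
    · intro x u
      have hc : 1 < (((A x u).erase x).erase u).card := by
        rw [Finset.card_erase_of_mem, Finset.card_erase_of_mem, cardA h x.2.1 (hDP u) (hxu x u)]
        · omega
        · exact left h x.2.1 (hDP u) (hxu x u)
        · exact Finset.mem_erase.mpr ⟨Ne.symm (hxu x u), right h x.2.1 (hDP u) (hxu x u)⟩
      obtain ⟨y, hy, z, hz, hyz⟩ := Finset.one_lt_card.mp hc
      rw [Finset.mem_erase, Finset.mem_erase] at hy hz
      have hyl : y ∉ l0 := hnl x u y hy.2.2 hy.1
      have hzl : z ∉ l0 := hnl x u z hz.2.2 hz.1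
      have hyP : y ∈ P := sub h x.2.1 (hDP u) (hxu x u) hy.2.2
      have hzP : z ∈ P := sub h x.2.1 (hDP u) (hxu x u) hz.2.2
      have hxy : x ≠ (⟨y, hyP, hyl⟩ : V) := by
        intro hh
        exact hy.2.1 (by rw [hh])
      have hxz : x ≠ (⟨z, hzP, hzl⟩ : V) := by
        intro hh
        exact hz.2.1 (by rw [hh])
      refine ⟨⟨y, hyP, hyl⟩, ⟨z, hzP, hzl⟩, hxy, hxz, ?_, ?_, ?_⟩
      · intro hh
        exact hyz (congrArg Subtype.val hh)
      · exact ((hK x ⟨y, hyP, hyl⟩ u).mpr hy.2.2).resolve_left (Ne.symm hxy)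
      · exact ((hK x ⟨z, hzP, hzl⟩ u).mpr hz.2.2).resolve_left (Ne.symm hxz)
    · have hc : 2 < l0.card := by rw [hl0card]; omega
      obtain ⟨a, b, c, ha, hb, hc', hab, hac, hbc⟩ := Finset.two_lt_card_iff.mp hc
      exact ⟨⟨a, ha⟩, ⟨b, hb⟩, ⟨c, hc'⟩, fun hh => hab (congrArg Subtype.val hh),
        fun hh => hac (congrArg Subtype.val hh), fun hh => hbc (congrArg Subtype.val hh)⟩
  let Lp : V → Prop := fun x => (x : α) ∈ A s t
  -- points with direction d0
  have hLpK : ∀ (x y : V), Lp x → x ≠ y → (Lp y ↔ dir x y = d0) := by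
    intro x y hx hxy
    have hxs : (x : α) ≠ s := hxu x d0
    have e1 : A (x : α) s = A s t := hL0eq hx hsL hxs
    constructor
    · intro hy
      apply hdir_uniq x y d0 hxy
      change s ∈ A (x : α) y
      rw [hL0eq hx hy (hne_lift hxy)]
      exact hsL
    · intro hd
      have h2 : (y : α) ∈ A (x : α) (d0 : α) := (hK x y d0).mp (Or.inr hd)
      change (y : α) ∈ A s t
      rw [← e1]
      exact h2
  have hAff2 : Aff2 V D dir Lp d0 := by
    refine ⟨?_, hLpK⟩
    have htl : t ∉ l0 := fun hh => hst (hcom t hh (right h hs ht hst)).symm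
    exact ⟨⟨t, ht, htl⟩, right h hs ht hst⟩
  have hBig : Big dir q := by
    intro x u
    have hS : ∀ y ∈ (A (x : α) (u : α)).erase u, y ∈ P ∧ y ∉ l0 := by
      intro y hy
      rw [Finset.mem_erase] at hy
      exact ⟨sub h x.2.1 (hDP u) (hxu x u) hy.2, hnl x u y hy.2 hy.1⟩
    refine ⟨((A (x : α) (u : α)).erase u).subtype (fun y => y ∈ P ∧ y ∉ l0), ?_, ?_⟩
    · rw [Finset.card_subtype, Finset.filter_true_of_mem hS, Finset.card_erase_of_mem
        (right h x.2.1 (hDP u) (hxu x u)), cardA h x.2.1 (hDP u) (hxu x u)]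
      omega
    · intro y hy
      rw [Finset.mem_subtype, Finset.mem_erase] at hy
      exact (hK x y u).mpr hy.2
  have hA : ∀ (x : V) (u : D), A u x = A x u := fun x u => comm h x.2.1 (hDP u) (hxu x u)
  have hoff : ∀ u : D, u ≠ d0 → (u : α) ∉ A s t := by
    intro u hu hh
    exact hu (Subtype.ext (hcom u u.2 hh))
  -- the closing of the configurations
  have hcore : ∀ a b x d y e : V, ¬ Lp a → ¬ Lp b → ¬ Lp x → ¬ Lp d → ¬ Lp y → ¬ Lp e →
      Par dir a b x d → Par dir a b y e → x ≠ y → dir x y ≠ dir a b → dir a b ≠ d0 →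
      dir a x ≠ d0 → dir a y ≠ d0 → dir a x ≠ dir a y → d ≠ e → dir x y ≠ d0 →
      dir d e = dir x y := by
    rintro a b x d y e La Lb Lx Ld Ly Le ⟨hab, hax, haxo, hxd, hxdo, hbd, hbdu⟩
      ⟨-, hay, hayo, hye, hyeo, hbe, hbev⟩ hxy hxyo ho0 hax0 hay0 huv hde hxy0
    by_contra hneg
    set o := dir a b with ho
    let p : Fin 10 → α := ![(o : α), (a : α), (x : α), (y : α), (b : α), (d : α), (e : α),
      (dir a x : α), (dir a y : α), (dir x y : α)]
    have c4 : (b : α) ∈ A (o : α) (a : α) := by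
      rw [hA a o]; exact (hK a b o).mp (Or.inr rfl)
    have c5 : (d : α) ∈ A (o : α) (x : α) := by
      rw [hA x o]; exact (hK x d o).mp (Or.inr hxdo)
    have c6 : (e : α) ∈ A (o : α) (y : α) := by
      rw [hA y o]; exact (hK y e o).mp (Or.inr hyeo)
    have c7 : (dir a x : α) ∈ A (a : α) (x : α) := hdir a x hax
    have c7' : (dir a x : α) ∈ A (b : α) (d : α) := by
      rw [← hbdu]; exact hdir b d hbd
    have c8 : (dir a y : α) ∈ A (a : α) (y : α) := hdir a y hay
    have c8' : (dir a y : α) ∈ A (b : α) (e : α) := by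
      rw [← hbev]; exact hdir b e hbe
    have n2 : (x : α) ∉ A (o : α) (a : α) := by
      rw [hA a o]
      intro hh
      rcases (hK a x o).mpr hh with h1 | h1
      · exact hax h1.symm
      · exact haxo h1
    have n3 : (y : α) ∉ A (o : α) (a : α) := by
      rw [hA a o]
      intro hh
      rcases (hK a y o).mpr hh with h1 | h1
      · exact hay h1.symm
      · exact hayo h1
    have n3' : (y : α) ∉ A (o : α) (x : α) := by
      rw [hA x o]
      intro hh
      rcases (hK x y o).mpr hh with h1 | h1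
      · exact hxy h1.symm
      · exact hxyo h1
    have n3'' : (y : α) ∉ A (a : α) (x : α) := by
      intro hh
      have e1 : A a y = A a x := eqA h a.2.1 x.2.1 (hne_lift hax)
        (left h a.2.1 x.2.1 (hne_lift hax)) hh (hne_lift hay)
      apply huv
      symm
      apply hdir_uniq a y _ hay
      rw [e1]
      exact c7
    have n9 : (dir x y : α) ∈ A (x : α) (y : α) := hdir x y hxy
    have n7 : (dir a x : α) ∉ A (x : α) (y : α) := by
      intro hh
      have e1 : dir x y = dir a x := hdir_uniq x y _ hxy hh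
      have h1 : dir x a = dir x y := by rw [hsymm x a, e1]
      have h2 := htrans x a y (Ne.symm hax) hxy hay h1
      apply huv
      rw [h2, hsymm x a]
    have nc : (dir x y : α) ∉ A (d : α) (e : α) := by
      intro hh
      exact hneg (hdir_uniq d e _ hde hh)
    have n78 : (dir a x : α) ≠ (dir a y : α) := fun hh => huv (Subtype.ext hh)
    have hp : ∀ i, p i ∈ P ∧ p i ∉ A s t := by
      intro i
      fin_cases i
      · exact ⟨hDP o, hoff o ho0⟩
      · exact ⟨a.2.1, La⟩
      · exact ⟨x.2.1, Lx⟩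
      · exact ⟨y.2.1, Ly⟩
      · exact ⟨b.2.1, Lb⟩
      · exact ⟨d.2.1, Ld⟩
      · exact ⟨e.2.1, Le⟩
      · exact ⟨hDP _, hoff _ hax0⟩
      · exact ⟨hDP _, hoff _ hay0⟩
      · exact ⟨hDP _, hoff _ hxy0⟩
    refine hno p hp ⟨(hxu a o).symm, (hxu x o).symm, (hxu y o).symm, hne_lift hax, hne_lift hay,
      hne_lift hxy, hne_lift hbd, hne_lift hbe, hne_lift hde, n78, c4, c5, c6, c7, c7', c8, c8',
      n9, ?_, n2, n3, n3', n3'', n7, nc⟩
    change (dir x y : α) ∈ A (dir a x : α) (dir a y : α)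
    rw [hl0eq (dir a x).2 (dir a y).2 n78]
    exact (dir x y).2
  have hMD : MD2 dir Lp d0 := by
    intro a b x d y e La Lb Lx Ld Ly Le hP1 hP2 hxy hxyo ho0 hax0 hay0
    obtain ⟨hab, hax, haxo, hxd, hxdo, hbd, hbdu⟩ := id hP1
    obtain ⟨-, hay, hayo, hye, hyeo, hbe, hbev⟩ := id hP2
    have hde : d ≠ e := by
      intro hh
      subst hh
      apply hxyo
      have h1 : dir d x = dir d y := by rw [hsymm d x, hsymm d y, hxdo, hyeo]
      have h2 := htrans d x y (Ne.symm hxd) (Ne.symm hye) hxy h1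
      rw [h2, hsymm d x, hxdo]
    refine ⟨hde, ?_⟩
    by_cases huv : dir a x = dir a y
    · have h1 := htrans a x y hax hay hxy huv
      have h2 := htrans b d e hbd hbe hde (by rw [hbdu, hbev, huv])
      rw [h2, h1, hbdu]
    · by_cases hxy0 : dir x y = d0
      · by_cases hde0 : dir d e = d0
        · rw [hde0, hxy0]
        · -- exchange the triangles
          have hba : dir b a = dir a b := hsymm b a
          have hP1' : Par dir b a d x := by
            refine ⟨Ne.symm hab, hbd, ?_, Ne.symm hxd, ?_, hax, ?_⟩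
            · rw [hbdu, hba]; exact haxo
            · rw [hsymm d x, hxdo, hba]
            · exact hbdu.symm
          have hP2' : Par dir b a e y := by
            refine ⟨Ne.symm hab, hbe, ?_, Ne.symm hye, ?_, hay, ?_⟩
            · rw [hbev, hba]; exact hayo
            · rw [hsymm e y, hyeo, hba]
            · exact hbev.symm
          have hdeo : dir d e ≠ dir b a := by
            intro hh
            -- then x, d, e, y are collinear
            apply hxyo
            have h1 : dir d e = dir d x := by rw [hh, hba, hsymm d x, hxdo]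
            by_cases hex : e = x
            · rw [← hex, hsymm e y, hyeo]
            · have h2 : dir e x = dir d e := htrans d e x hde (Ne.symm hxd) hex h1
              have h3 : dir e x = dir e y := by rw [h2, hh, hba, hsymm e y, hyeo]
              have h4 := htrans e x y hex (Ne.symm hye) hxy h3
              rw [h4, h2, hh, hba]
          have := hcore b a d x e y Lb La Ld Lx Le Ly hP1' hP2' hde hdeo
            (by rw [hba]; exact ho0) (by rw [hbdu]; exact hax0) (by rw [hbev]; exact hay0)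
            (by rw [hbdu, hbev]; exact huv) hxy hde0
          exact this.symm
      · exact hcore a b x d y e La Lb Lx Ld Ly Le hP1 hP2 hxy hxyo ho0 hax0 hay0 huv hde hxy0
  have hmem : ∀ x, x ∈ P \ l0 ↔ (x ∈ P ∧ x ∉ l0) := fun x => Finset.mem_sdiff
  refine ⟨V, D, Fintype.subtype (P \ l0) hmem, dir, Lp, d0, ?_, hAff, hAff2, hBig, hMD⟩
  rw [Fintype.subtype_card, Finset.card_sdiff_of_subset hl0sub, h.card, hl0card]
  omega

end Pool.Agent.Lib.MP_5cdc53_co.PP
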