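import Pool.Agent.Lib.MP_5cdc53_co.PP.Stmts2

/-!
Module BR6: there is no projective plane of order `6` (Bruck and Ryser).
-/

set_option autoImplicit false

namespace Pool.Agent.Lib.MP_5cdc53_co.PP

open Finset

namespace BR6

/-- elimination: one can satisfy `(a y + c)_i ^ 2 = y_i ^ 2` for all `i` -/
theorem elim : ∀ (n : ℕ) (a : Fin n → Fin n → ℚ) (c : Fin n → ℚ),
    ∃ y : Fin n → ℚ, ∀ i, (∑ j, a i j * y j + c i) ^ 2 = y i ^ 2
  | 0, _, _ => ⟨fun _ => 0, fun i => i.elim0⟩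
  | n + 1, a, c => by
    -- choose the sign
    obtain ⟨ε, hε, hε2⟩ : ∃ ε : ℚ, a 0 0 - ε ≠ 0 ∧ ε ^ 2 = 1 := by
      by_cases h : a 0 0 = 1
      · exact ⟨-1, by rw [h]; norm_num, by norm_num⟩
      · exact ⟨1, sub_ne_zero.2 h, by norm_num⟩
    obtain ⟨y, hy⟩ := elim n
      (fun i j => a i.succ j.succ - a i.succ 0 * a 0 j.succ / (a 0 0 - ε))
      (fun i => c i.succ - a i.succ 0 * c 0 / (a 0 0 - ε))
    set s : ℚ := -(∑ j : Fin n, a 0 j.succ * y j + c 0) / (a 0 0 - ε) with hs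
    refine ⟨Fin.cons s y, fun i => ?_⟩
    rw [Fin.sum_univ_succ]
    simp only [Fin.cons_zero, Fin.cons_succ]
    refine Fin.cases ?_ (fun i => ?_) i
    · simp only [Fin.cons_zero]
      have h1 : a 0 0 * s + ∑ j : Fin n, a 0 j.succ * y j + c 0 = ε * s := by
        have h2 : (a 0 0 - ε) * s = -(∑ j : Fin n, a 0 j.succ * y j + c 0) := by
          rw [hs, mul_div_cancel₀ _ hε]
        linear_combination h2
      rw [h1, mul_pow, hε2, one_mul]
    · simp only [Fin.cons_succ]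
      rw [← hy i]
      congr 1
      have h3 : ∑ j : Fin n, (a i.succ j.succ - a i.succ 0 * a 0 j.succ / (a 0 0 - ε)) * y j
          = ∑ j : Fin n, a i.succ j.succ * y j
            - a i.succ 0 / (a 0 0 - ε) * ∑ j : Fin n, a 0 j.succ * y j := by
        rw [Finset.mul_sum, ← Finset.sum_sub_distrib]
        refine Finset.sum_congr rfl fun j _ => ?_
        ring
      rw [h3, hs]
      ring

/-- the same for linear forms, with a normalised last coordinate -/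
theorem elimL (n : ℕ) (L : Fin n → ((Fin (n + 1) → ℚ) →ₗ[ℚ] ℚ)) :
    ∃ y : Fin (n + 1) → ℚ, y 0 = 1 ∧ ∀ i, (L i y) ^ 2 = (y i.succ) ^ 2 := by
  obtain ⟨y, hy⟩ := elim n (fun i j => L i (Pi.single j.succ 1)) (fun i => L i (Pi.single 0 1))
  refine ⟨Fin.cons 1 y, by simp, fun i => ?_⟩
  rw [Fin.cons_succ, ← hy i]
  congr 1
  have h1 := LinearMap.pi_apply_eq_sum_univ (L i) (Fin.cons 1 y)
  rw [Fin.sum_univ_succ] at h1
  simp only [Fin.cons_zero, Fin.cons_succ, smul_eq_mul, one_mul] at h1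
  have e : ∀ k : Fin (n + 1), (fun j : Fin (n + 1) => if k = j then (1 : ℚ) else 0)
      = Pi.single k 1 := by
    intro k
    ext j
    by_cases h : k = j
    · subst h; simp
    · simp [h, Ne.symm h]
  simp only [e] at h1
  rw [h1, add_comm]
  congr 1
  exact Finset.sum_congr rfl fun j _ => mul_comm _ _

/-- the arithmetic: `6 a ^ 2 = b ^ 2 + c ^ 2` has only the trivial solution -/
theorem three_dvd {b c : ℤ} (h : (3 : ℤ) ∣ b ^ 2 + c ^ 2) : (3 : ℤ) ∣ b ∧ (3 : ℤ) ∣ c := by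
  have hb : b % 3 = 0 ∨ b % 3 = 1 ∨ b % 3 = 2 := by omega
  have hc : c % 3 = 0 ∨ c % 3 = 1 ∨ c % 3 = 2 := by omega
  have h1 : (b ^ 2 + c ^ 2) % 3 = 0 := Int.emod_eq_zero_of_dvd h
  rw [Int.add_emod, pow_two, pow_two, Int.mul_emod, Int.mul_emod c] at h1
  rcases hb with hb | hb | hb <;> rcases hc with hc | hc | hc <;> rw [hb, hc] at h1 <;>
    first
    | (exact ⟨Int.dvd_of_emod_eq_zero hb, Int.dvd_of_emod_eq_zero hc⟩)
    | (norm_num at h1)

theorem arith : ∀ (N : ℕ) (a b c : ℤ), c.natAbs ≤ N → 6 * a ^ 2 = b ^ 2 + c ^ 2 → c = 0 := by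
  intro N
  induction N with
  | zero =>
    intro a b c hc _
    omega
  | succ N ih =>
    intro a b c hc h
    by_contra hc0
    obtain ⟨⟨b', rfl⟩, ⟨c', rfl⟩⟩ := three_dvd (b := b) (c := c) (by rw [← h]; exact ⟨2 * a ^ 2, by ring⟩)
    have h2 : 2 * a ^ 2 = 3 * (b' ^ 2 + c' ^ 2) := by linarith
    have h3 : (3 : ℤ) ∣ a := by
      have h4 : (3 : ℤ) ∣ 2 * a ^ 2 := ⟨_, h2⟩
      have h5 : (3 : ℤ) ∣ a ^ 2 := by
        rcases Int.prime_three.dvd_or_dvd h4 with h6 | h6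
        · norm_num at h6
        · exact h6
      exact Int.prime_three.dvd_of_dvd_pow h5
    obtain ⟨a', rfl⟩ := h3
    have h4 : 6 * a' ^ 2 = b' ^ 2 + c' ^ 2 := by linarith
    have h5 : c'.natAbs ≤ N := by omega
    have h6 := ih a' b' c' h5 h4
    exact hc0 (by rw [h6]; norm_num)

theorem arithQ (u s : ℚ) : 6 * u ^ 2 ≠ 1 + s ^ 2 := by
  intro h
  have hu : u = u.num / u.den := (Rat.num_div_den u).symm
  have hs : s = s.num / s.den := (Rat.num_div_den s).symm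
  have hu0 : (u.den : ℚ) ≠ 0 := by exact_mod_cast u.den_ne_zero
  have hs0 : (s.den : ℚ) ≠ 0 := by exact_mod_cast s.den_ne_zero
  have h1 : 6 * ((u.num : ℚ) * s.den) ^ 2 = ((s.num : ℚ) * u.den) ^ 2 + ((u.den : ℚ) * s.den) ^ 2 := by
    rw [hu, hs] at h
    have h2 : 6 * ((u.num : ℚ) / u.den) ^ 2 * (u.den ^ 2 * s.den ^ 2)
        = (1 + ((s.num : ℚ) / s.den) ^ 2) * (u.den ^ 2 * s.den ^ 2) := by rw [h]
    have e1 : 6 * ((u.num : ℚ) / u.den) ^ 2 * (u.den ^ 2 * s.den ^ 2)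
        = 6 * ((u.num : ℚ) * s.den) ^ 2 := by
      field_simp
    have e2 : (1 + ((s.num : ℚ) / s.den) ^ 2) * ((u.den : ℚ) ^ 2 * s.den ^ 2)
        = ((s.num : ℚ) * u.den) ^ 2 + ((u.den : ℚ) * s.den) ^ 2 := by
      field_simp
      ring
    rw [e1, e2] at h2
    exact h2
  have h3 : 6 * ((u.num : ℤ) * s.den) ^ 2 = ((s.num : ℤ) * u.den) ^ 2 + ((u.den : ℤ) * s.den) ^ 2 := by
    exact_mod_cast h1
  have h4 := arith _ _ _ _ le_rfl h3
  have h5 : ((u.den : ℤ) * s.den) ≠ 0 := by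
    have := u.den_ne_zero
    have := s.den_ne_zero
    positivity
  exact h5 h4

/-- an equivalence `11 * 4 = 44` -/
noncomputable def e44 : Fin 11 × Fin 4 ≃ Fin (43 + 1) :=
  Fintype.equivOfCardEq (by simp)

/-- the quaternion matrix of norm `6` -/
def qm : Fin 4 → Fin 4 → ℚ
  | 0, 0 => 2 | 0, 1 => -1 | 0, 2 => -1 | 0, 3 => 0
  | 1, 0 => 1 | 1, 1 => 2 | 1, 2 => 0 | 1, 3 => 1
  | 2, 0 => 1 | 2, 1 => 0 | 2, 2 => 2 | 2, 3 => -1
  | 3, 0 => 0 | 3, 1 => -1 | 3, 2 => 1 | 3, 3 => 2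

/-- the change of variables -/
noncomputable def wf (k : Fin (43 + 1)) : (Fin (43 + 1) → ℚ) →ₗ[ℚ] ℚ :=
  ∑ l : Fin 4, (qm (e44.symm k).2 l / 6) • LinearMap.proj (e44 ((e44.symm k).1, l))

theorem wf_sq (y : Fin (43 + 1) → ℚ) : 6 * ∑ k, (wf k y) ^ 2 = ∑ k, (y k) ^ 2 := by
  rw [← e44.sum_comp (fun k => (wf k y) ^ 2), ← e44.sum_comp (fun k => (y k) ^ 2),
    Fintype.sum_prod_type, Fintype.sum_prod_type, Finset.mul_sum]
  refine Finset.sum_congr rfl fun b _ => ?_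
  simp only [wf, Equiv.symm_apply_apply, LinearMap.sum_apply, LinearMap.smul_apply,
    LinearMap.proj_apply, smul_eq_mul]
  simp only [Fin.sum_univ_four, qm]
  ring

section plane

variable {α : Type} [DecidableEq α] {P : Finset α} {A : α → α → Finset α}

/-- the lines -/
def Ls (P : Finset α) (A : α → α → Finset α) : Finset (Finset α) :=
  P.offDiag.image (fun z => A z.1 z.2)

theorem mem_Ls (h : IsPlane P A 6) {l : Finset α} (hl : l ∈ Ls P A) :
    l ⊆ P ∧ l.card = 7 ∧ ∀ z ∈ l, ∀ w ∈ l, z ≠ w → A z w = l := by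
  unfold Ls at hl
  rw [mem_image] at hl
  obtain ⟨⟨x, y⟩, hxy, rfl⟩ := hl
  rw [mem_offDiag] at hxy
  obtain ⟨-, -, h1, h2, h3⟩ := h.line x hxy.1 y hxy.2.1 hxy.2.2
  exact ⟨h1, h2, h3⟩

theorem pair_Ls (h : IsPlane P A 6) {x y : α} (hx : x ∈ P) (hy : y ∈ P) (hxy : x ≠ y) :
    ((Ls P A).filter (fun l => x ∈ l ∧ y ∈ l)) = {A x y} := by
  ext l
  rw [mem_filter, mem_singleton]
  constructor
  · rintro ⟨hl, hxl, hyl⟩
    exact ((mem_Ls h hl).2.2 x hxl y hyl hxy).symm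
  · rintro rfl
    obtain ⟨h1, h2, -⟩ := h.line x hx y hy hxy
    refine ⟨?_, h1, h2⟩
    unfold Ls
    rw [mem_image]
    exact ⟨(x, y), mem_offDiag.2 ⟨hx, hy, hxy⟩, rfl⟩

theorem deg_Ls (h : IsPlane P A 6) {x : α} (hx : x ∈ P) :
    ((Ls P A).filter (fun l => x ∈ l)).card = 7 := by
  have h1 : ∑ y ∈ P.erase x, ((Ls P A).filter (fun l => x ∈ l ∧ y ∈ l)).card = 42 := by
    have : ∀ y ∈ P.erase x, ((Ls P A).filter (fun l => x ∈ l ∧ y ∈ l)).card = 1 := by
      intro y hy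
      rw [mem_erase] at hy
      rw [pair_Ls h hx hy.2 (Ne.symm hy.1), card_singleton]
    rw [Finset.sum_congr rfl this, Finset.sum_const, card_erase_of_mem hx, h.card]
    norm_num
  have h2 : ∑ y ∈ P.erase x, ((Ls P A).filter (fun l => x ∈ l ∧ y ∈ l)).card
      = ∑ l ∈ (Ls P A).filter (fun l => x ∈ l), 6 := by
    have e1 : ∀ y ∈ P.erase x, ((Ls P A).filter (fun l => x ∈ l ∧ y ∈ l)).card
        = (((Ls P A).filter (fun l => x ∈ l)).filter (fun l => y ∈ l)).card := by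
      intro y _
      rw [filter_filter]
    rw [Finset.sum_congr rfl e1]
    have e2 := Finset.sum_card_bipartiteAbove_eq_sum_card_bipartiteBelow
      (s := P.erase x) (t := (Ls P A).filter (fun l => x ∈ l)) (fun y l => y ∈ l)
    unfold Finset.bipartiteAbove Finset.bipartiteBelow at e2
    rw [e2]
    refine Finset.sum_congr rfl fun l hl => ?_
    rw [mem_filter] at hl
    obtain ⟨h3, h4, -⟩ := mem_Ls h hl.1
    have e3 : (P.erase x).filter (fun y => y ∈ l) = l.erase x := by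
      ext y
      simp only [mem_filter, mem_erase]
      constructor
      · rintro ⟨⟨h5, -⟩, h6⟩
        exact ⟨h5, h6⟩
      · rintro ⟨h5, h6⟩
        exact ⟨⟨h5, h3 h6⟩, h6⟩
    rw [e3, card_erase_of_mem hl.2, h4]
  rw [h1, Finset.sum_const, smul_eq_mul] at h2
  omega

theorem card_Ls (h : IsPlane P A 6) : (Ls P A).card = 43 := by
  have e2 := Finset.sum_card_bipartiteAbove_eq_sum_card_bipartiteBelow
      (s := P) (t := Ls P A) (fun y l => y ∈ l)
  unfold Finset.bipartiteAbove Finset.bipartiteBelow at e2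
  rw [Finset.sum_congr rfl fun x hx => deg_Ls h hx] at e2
  have e3 : ∀ l ∈ Ls P A, (P.filter (fun y => y ∈ l)).card = 7 := by
    intro l hl
    obtain ⟨h3, h4, -⟩ := mem_Ls h hl
    have : P.filter (fun y => y ∈ l) = l := by
      ext y
      simp only [mem_filter]
      exact ⟨fun h => h.2, fun h => ⟨h3 h, h⟩⟩
    rw [this, h4]
  rw [Finset.sum_congr rfl e3, Finset.sum_const, Finset.sum_const, h.card] at e2
  simp only [smul_eq_mul] at e2
  omega

/-- the quadratic identity -/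
theorem ident (h : IsPlane P A 6) (w : α → ℚ) :
    ∑ l ∈ Ls P A, (∑ x ∈ l, w x) ^ 2 = 6 * ∑ x ∈ P, (w x) ^ 2 + (∑ x ∈ P, w x) ^ 2 := by
  have h1 : ∀ l ∈ Ls P A, (∑ x ∈ l, w x) ^ 2
      = ∑ x ∈ P, ∑ y ∈ P, if x ∈ l ∧ y ∈ l then w x * w y else 0 := by
    intro l hl
    obtain ⟨h3, -, -⟩ := mem_Ls h hl
    have e1 : ∑ x ∈ l, w x = ∑ x ∈ P, if x ∈ l then w x else 0 := by
      rw [← Finset.sum_filter]
      congr 1
      ext y
      simp only [mem_filter]
      exact ⟨fun h => ⟨h3 h, h⟩, fun h => h.2⟩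
    rw [pow_two, e1, Finset.sum_mul_sum]
    refine Finset.sum_congr rfl fun x _ => Finset.sum_congr rfl fun y _ => ?_
    by_cases hx : x ∈ l <;> by_cases hy : y ∈ l <;> simp [hx, hy]
  rw [Finset.sum_congr rfl h1, Finset.sum_comm]
  have h2 : ∀ x ∈ P, ∑ l ∈ Ls P A, ∑ y ∈ P, (if x ∈ l ∧ y ∈ l then w x * w y else 0)
      = 6 * (w x) ^ 2 + w x * ∑ y ∈ P, w y := by
    intro x hx
    rw [Finset.sum_comm]
    have h3 : ∀ y ∈ P, ∑ l ∈ Ls P A, (if x ∈ l ∧ y ∈ l then w x * w y else 0)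
        = (if x = y then 6 * (w x * w y) else 0) + w x * w y := by
      intro y hy
      rw [← Finset.sum_filter, Finset.sum_const]
      by_cases hxy : x = y
      · subst hxy
        have e1 : (Ls P A).filter (fun l => x ∈ l ∧ x ∈ l) = (Ls P A).filter (fun l => x ∈ l) := by
          ext l; simp
        rw [e1, deg_Ls h hx, if_pos rfl, nsmul_eq_mul]
        push_cast
        ring
      · rw [pair_Ls h hx hy hxy, card_singleton, if_neg hxy]
        simp
    rw [Finset.sum_congr rfl h3, Finset.sum_add_distrib, Finset.sum_ite_eq, if_pos hx,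
      Finset.mul_sum]
    ring
  rw [Finset.sum_congr rfl h2, Finset.sum_add_distrib, ← Finset.mul_sum, ← Finset.sum_mul]
  ring

end plane

end BR6

open BR6

/-- module BR6 -/
theorem stBR6 : StBR6 := by
  intro α _ P A h
  have hPc : P.card = 43 := by rw [h.card]; norm_num
  have hLc : (Ls P A).card = 43 := card_Ls h
  -- enumerations
  set eP : P ≃ Fin 43 := P.equivFinOfCardEq hPc
  set eL : Ls P A ≃ Fin 43 := (Ls P A).equivFinOfCardEq hLc
  -- the weight of a point as a linear form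
  set W : α → ((Fin (43 + 1) → ℚ) →ₗ[ℚ] ℚ) := fun x =>
    if hx : x ∈ P then wf (eP ⟨x, hx⟩).succ else 0 with hW
  obtain ⟨y, hy0, hy⟩ := elimL 43 (fun i => ∑ x ∈ (eL.symm i).1, W x)
  have hid := ident h (fun x => W x y)
  -- sum over the lines
  have h1 : ∑ l ∈ Ls P A, (∑ x ∈ l, W x y) ^ 2 = ∑ i : Fin 43, (y i.succ) ^ 2 := by
    rw [← Finset.sum_coe_sort (Ls P A), ← eL.symm.sum_comp]
    refine Finset.sum_congr rfl fun i _ => ?_
    rw [← hy i]
    simp only [LinearMap.sum_apply]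
  -- sum over the points
  have h2 : ∑ x ∈ P, (W x y) ^ 2 = ∑ i : Fin 43, (wf i.succ y) ^ 2 := by
    rw [← Finset.sum_coe_sort P, ← eP.sum_comp (fun i => (wf i.succ y) ^ 2)]
    refine Finset.sum_congr rfl fun x _ => ?_
    simp only [hW, x.2, dif_pos]
  rw [h1, h2] at hid
  have h3 := wf_sq y
  rw [Fin.sum_univ_succ, Fin.sum_univ_succ (fun k => y k ^ 2), hy0] at h3
  apply arithQ (wf 0 y) (∑ x ∈ P, W x y)
  linarith

end Pool.Agent.Lib.MP_5cdc53_co.PP
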