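import Pool.Agent.Lib.MP_5cdc53_co.PP.Stmts

/-!
Part D: few points of a set with injective projections, and the measures of the bad sets.
-/

set_option autoImplicit false

namespace Pool.Agent.Lib.MP_5cdc53_co.PP

open Finset

theorem stFew : StFew := by
  classical
  intro n i M D hM hD
  have h1 : ((M ∩ D) ×ˢ (univ : Finset (Fin n))).card ≤ D.card := by
    refine Finset.card_le_card_of_injOn (fun p => Function.update p.1 i p.2) ?_ ?_
    · intro p hp
      rw [Finset.mem_coe, Finset.mem_product, Finset.mem_inter] at hp
      refine hD p.1 _ (fun j hj => ?_) hp.1.2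
      simp only
      rw [Function.update_of_ne hj]
    · intro p hp q hq h
      rw [Finset.mem_coe, Finset.mem_product, Finset.mem_inter] at hp hq
      simp only at h
      have h2 : p.2 = q.2 := by
        have := congrFun h i
        simpa using this
      have h3 : p.1 = q.1 := by
        refine hM _ hp.1.1 _ hq.1.1 fun j hj => ?_
        have := congrFun h j
        simpa [Function.update_of_ne hj] using this
      exact Prod.ext h3 h2
  rwa [Finset.card_product, Finset.card_univ, Fintype.card_fin] at h1

theorem stBad (hCE : StCE) : StBad := by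
  classical
  refine ⟨?_, ?_, ?_, ?_⟩
  · intro Ω T _ _ l f ε hε hf
    obtain ⟨c1, c2, -, -⟩ := hCE Ω T l f
    have h1 := c2 (fun x => if ce l f x < ε then 1 else 0) (fun x y h => by
      rw [c1 x y h])
    have h2 : ((univ.filter (fun x => f x = 1 ∧ ce l f x < ε)).card : ℝ) =
        ∑ x, f x * (if ce l f x < ε then 1 else 0) := by
      rw [Finset.card_filter]
      push_cast
      refine Finset.sum_congr rfl fun x _ => ?_
      rcases hf x with h | h <;> by_cases h' : ce l f x < ε <;> simp [h, h']
    rw [h2, h1]
    calc ∑ x, ce l f x * (if ce l f x < ε then 1 else 0) ≤ ∑ _x : Ω, ε := by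
          refine Finset.sum_le_sum fun x _ => ?_
          by_cases h' : ce l f x < ε
          · rw [if_pos h', mul_one]; exact h'.le
          · rw [if_neg h', mul_zero]; exact hε
      _ = ε * Fintype.card Ω := by
          rw [Finset.sum_const, Finset.card_univ, nsmul_eq_mul, mul_comm]
  · intro Ω T _ _ l f ε E hε hf hE
    obtain ⟨-, c2, -, c4⟩ := hCE Ω T l f
    have h1 := c2 (fun _ => 1) (fun _ _ _ => rfl)
    simp only [mul_one] at h1
    rw [le_div_iff₀ hε]
    calc ((univ.filter (fun x => ε < ce l f x)).card : ℝ) * ε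
        = ∑ _x ∈ univ.filter (fun x => ε < ce l f x), ε := by
          rw [Finset.sum_const, nsmul_eq_mul]
      _ ≤ ∑ x ∈ univ.filter (fun x => ε < ce l f x), ce l f x := by
          refine Finset.sum_le_sum fun x hx => ?_
          exact ((Finset.mem_filter.mp hx).2).le
      _ ≤ ∑ x, ce l f x :=
          Finset.sum_le_sum_of_subset_of_nonneg (Finset.filter_subset _ _)
            fun x _ _ => c4 hf x
      _ ≤ E := by rw [← h1]; exact hE
  · intro Ω _ l L ε hε hL hl
    have hL' : (0 : ℝ) < L := by exact_mod_cast hL
    have hc : 0 ≤ ε / L * (Fintype.card Ω : ℝ) := by positivity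
    set c : ℝ := ε / L * (Fintype.card Ω : ℝ) with hcdef
    set S : Finset Ω := univ.filter (fun x =>
      ((univ.filter (fun y => l y = l x)).card : ℝ) < c) with hS
    have h1 : S.card = ∑ a ∈ Finset.range L, (S.filter (fun x => l x = a)).card :=
      Finset.card_eq_sum_card_fiberwise fun x _ => by
        rw [Finset.mem_coe, Finset.mem_range]; exact hl x
    have h2 : ∀ a ∈ Finset.range L, ((S.filter (fun x => l x = a)).card : ℝ) ≤ c := by
      intro a _
      rcases (S.filter (fun x => l x = a)).eq_empty_or_nonempty with h | ⟨x, hx⟩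
      · rw [h]; simpa using hc
      · rw [Finset.mem_filter, hS, Finset.mem_filter] at hx
        have h3 : S.filter (fun x => l x = a) ⊆ univ.filter (fun y => l y = l x) := by
          intro y hy
          rw [Finset.mem_filter] at hy
          rw [Finset.mem_filter]
          exact ⟨Finset.mem_univ _, by rw [hy.2, hx.2]⟩
        have h4 : ((S.filter (fun x => l x = a)).card : ℝ) ≤
            ((univ.filter (fun y => l y = l x)).card : ℝ) := by
          exact_mod_cast Finset.card_le_card h3
        exact h4.trans hx.1.2.le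
    rw [h1]
    push_cast
    calc ∑ a ∈ Finset.range L, ((S.filter (fun x => l x = a)).card : ℝ)
        ≤ ∑ _a ∈ Finset.range L, c := Finset.sum_le_sum h2
      _ = ε * Fintype.card Ω := by
          rw [Finset.sum_const, Finset.card_range, nsmul_eq_mul, hcdef]
          field_simp
  · intro Ω T _ _ l f ε x hε hx
    set A : Finset Ω := univ.filter (fun y => l y = l x) with hA
    have hpos : (0 : ℝ) < (A.card : ℝ) := by
      have : x ∈ A := by rw [hA, Finset.mem_filter]; exact ⟨Finset.mem_univ _, rfl⟩
      exact_mod_cast Finset.card_pos.mpr ⟨x, this⟩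
    have h1 : ∑ y ∈ A, (f y) ^ 2 ≤ ε * A.card := by
      unfold ce at hx
      rw [div_le_iff₀ hpos] at hx
      exact hx
    have h2 : (∑ y ∈ A, |f y|) ^ 2 ≤ (A.card : ℝ) * ∑ y ∈ A, |f y| ^ 2 := by
      exact sq_sum_le_card_mul_sum_sq
    simp only [sq_abs] at h2
    have h3 : (∑ y ∈ A, |f y|) ^ 2 ≤ (Real.sqrt ε * A.card) ^ 2 := by
      rw [mul_pow, Real.sq_sqrt hε]
      calc _ ≤ _ := h2
        _ ≤ (A.card : ℝ) * (ε * A.card) := mul_le_mul_of_nonneg_left h1 hpos.le
        _ = _ := by ring
    exact le_of_sq_le_sq h3 (by positivity)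

end Pool.Agent.Lib.MP_5cdc53_co.PP
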