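import Pool.Agent.Lib.MP_5cdc53_co.PP.Stmts
import Pool.Agent.Lib.MP_5cdc53_co.General

/-!
# PP-Blow: blowing up the points and adding common points
-/

set_option autoImplicit false

namespace Pool.Agent.Lib.MP_5cdc53_co.PP

open Finset

/-- blowing every point up `d` times and adding `l` common points -/
theorem blow_le {n n' k l d : ℕ} {L : Finset ℕ} (hd : 1 ≤ d) (hn : l + d * n' ≤ n)
    {F : Finset (Finset (Fin n'))} (hF : IsSystem n' k L F) :
    F.card ≤ m n (l + d * k) (L.image (fun x => l + d * x)) := by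
  classical
  obtain ⟨φ⟩ : Nonempty (Fin l ⊕ (Fin d × Fin n') ↪ Fin n) := by
    apply Function.Embedding.nonempty_of_card_le
    simpa using hn
  let B : Finset (Fin n') → Finset (Fin n) := fun X =>
    ((univ : Finset (Fin l)).disjSum ((univ : Finset (Fin d)) ×ˢ X)).map φ
  have hBc : ∀ X, (B X).card = l + d * X.card := by
    intro X
    simp [B]
  have hBi : ∀ X Y, B X ∩ B Y = B (X ∩ Y) := by
    intro X Y
    simp only [B]
    rw [← Finset.map_inter]
    congr 1
    ext z
    rcases z with z | z <;> simp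
  have hBinj : Function.Injective B := by
    intro X Y h
    ext z
    have h2 : φ (Sum.inr (⟨0, hd⟩, z)) ∈ B X ↔ φ (Sum.inr (⟨0, hd⟩, z)) ∈ B Y := by rw [h]
    simpa [B] using h2
  have hsys : IsSystem n (l + d * k) (L.image (fun x => l + d * x)) (F.image B) := by
    constructor
    · intro A hA
      obtain ⟨X, hX, rfl⟩ := mem_image.1 hA
      rw [hBc, hF.1 X hX]
    · intro A hA A' hA' hne
      obtain ⟨X, hX, rfl⟩ := mem_image.1 hA
      obtain ⟨Y, hY, rfl⟩ := mem_image.1 hA'
      have hXY : X ≠ Y := fun h => hne (by rw [h])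
      rw [hBi, hBc]
      exact mem_image_of_mem _ (hF.2 X hX Y hY hXY)
  have := le_m hsys
  rwa [card_image_of_injective _ hBinj] at this

/-- the maximum is attained -/
theorem m_attained (n k : ℕ) (L : Finset ℕ) :
    ∃ F : Finset (Finset (Fin n)), IsSystem n k L F ∧ F.card = m n k L := by
  have h : m n k L ∈ {N | ∃ F : Finset (Finset (Fin n)), IsSystem n k L F ∧ F.card = N} := by
    apply Nat.sSup_mem
    · exact ⟨0, ∅, ⟨by simp, by simp⟩, by simp⟩
    · refine ⟨Fintype.card (Finset (Fin n)), ?_⟩
      rintro _ ⟨F, _, rfl⟩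
      exact Finset.card_le_univ F
  exact h

theorem stBlow : StBlow := by
  intro k L l d hd _ hfull
  obtain ⟨c, hc, N, hN⟩ := hfull
  have hcard : (L.image (fun x => l + d * x)).card = L.card := by
    apply card_image_of_injective
    intro a b hab
    have h2 : d * a = d * b := Nat.add_left_cancel hab
    exact Nat.eq_of_mul_eq_mul_left (by omega) h2
  refine ⟨c * (1 / (2 * d)) ^ L.card, by positivity, l + d * N + 2 * (l + d), ?_⟩
  intro n hn
  set n' := (n - l) / d with hn'
  have hdn : d * n' ≤ n - l := Nat.mul_div_le _ _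
  have h1 : l + d * n' ≤ n := by omega
  have h2 : N ≤ n' := by
    rw [hn', Nat.le_div_iff_mul_le (by omega)]
    rw [mul_comm]
    omega
  have h3 : n - l < d * (n' + 1) := by
    rw [hn']
    exact Nat.lt_mul_div_succ _ (by omega)
  have h4 : (n : ℝ) / (2 * d) ≤ n' := by
    have hdpos : (0 : ℝ) < d := by exact_mod_cast hd
    rw [div_le_iff₀ (by positivity)]
    have h5 : n ≤ n' * (2 * d) := by
      have e1 : d * (n' + 1) = d * n' + d := by ring
      have e2 : n' * (2 * d) = 2 * (d * n') := by ring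
      rw [e1] at h3
      rw [e2]
      omega
    exact_mod_cast h5
  obtain ⟨F, hF, hFc⟩ := m_attained n' k L
  have h6 := blow_le hd h1 hF
  rw [hFc] at h6
  rw [hcard]
  calc c * (1 / (2 * d)) ^ L.card * (n : ℝ) ^ L.card
      = c * ((n : ℝ) / (2 * d)) ^ L.card := by
        rw [mul_assoc, ← mul_pow]
        congr 2
        ring
    _ ≤ c * (n' : ℝ) ^ L.card := by gcongr
    _ < (m n' k L : ℝ) := hN n' h2
    _ ≤ _ := by exact_mod_cast h6

end Pool.Agent.Lib.MP_5cdc53_co.PP
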