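import Pool.Agent.Lib.MP_5cdc53_co.PP.Stmts

set_option autoImplicit false

namespace Pool.Agent.Lib.MP_5cdc53_co.PP

open Finset

theorem cell_card_pos {Ω T : Type} [Fintype Ω] [DecidableEq T] (l : Ω → T) (x : Ω) :
    (0 : ℝ) < ((univ.filter (fun y => l y = l x)).card : ℝ) := by
  have : 0 < (univ.filter (fun y => l y = l x)).card :=
    Finset.card_pos.2 ⟨x, Finset.mem_filter.2 ⟨mem_univ _, rfl⟩⟩
  exact_mod_cast this

theorem ce_congr {Ω T : Type} [Fintype Ω] [DecidableEq T] (l : Ω → T) (f : Ω → ℝ) (x y : Ω)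
    (h : l x = l y) : ce l f x = ce l f y := by
  unfold ce; rw [h]

theorem ce_mul_card {Ω T : Type} [Fintype Ω] [DecidableEq T] (l : Ω → T) (f : Ω → ℝ) (x : Ω) :
    ce l f x * ((univ.filter (fun y => l y = l x)).card : ℝ) = ∑ y ∈ univ.filter (fun y => l y = l x), f y := by
  unfold ce
  rw [div_mul_cancel₀ _ (cell_card_pos l x).ne']

theorem ce_sum_mul {Ω T : Type} [Fintype Ω] [DecidableEq T] (l : Ω → T) (f g : Ω → ℝ)
    (hg : ∀ x y, l x = l y → g x = g y) : ∑ x, f x * g x = ∑ x, ce l f x * g x := by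
  classical
  -- both sides fibrewise
  have h1 : ∀ F : Ω → ℝ, ∑ x, F x = ∑ t ∈ univ.image l, ∑ x ∈ univ.filter (fun x => l x = t), F x := by
    intro F
    rw [Finset.sum_fiberwise_of_maps_to (fun x _ => Finset.mem_image_of_mem l (mem_univ x))]
  rw [h1, h1 (fun x => ce l f x * g x)]
  refine Finset.sum_congr rfl fun t ht => ?_
  obtain ⟨x0, -, rfl⟩ := Finset.mem_image.1 ht
  have e1 : ∑ x ∈ univ.filter (fun x => l x = l x0), f x * g x =
      (∑ x ∈ univ.filter (fun x => l x = l x0), f x) * g x0 := by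
    rw [Finset.sum_mul]
    refine Finset.sum_congr rfl fun x hx => ?_
    rw [hg x x0 (Finset.mem_filter.1 hx).2]
  have e2 : ∑ x ∈ univ.filter (fun x => l x = l x0), ce l f x * g x =
      ∑ x ∈ univ.filter (fun x => l x = l x0), ce l f x0 * g x0 := by
    refine Finset.sum_congr rfl fun x hx => ?_
    have := (Finset.mem_filter.1 hx).2
    rw [hg x x0 this, ce_congr l f x x0 this]
  rw [e1, e2, Finset.sum_const, nsmul_eq_mul, ← ce_mul_card]
  ring

theorem stCE : StCE := by
  intro Ω T _ _ l f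
  refine ⟨fun x y h => ce_congr l f x y h, fun g hg => ce_sum_mul l f g hg, fun hf x => ?_, fun hf x => ?_⟩
  · unfold ce
    constructor
    · exact div_nonneg (Finset.sum_nonneg fun y _ => (hf y).1) (cell_card_pos l x).le
    · rw [div_le_one (cell_card_pos l x)]
      calc ∑ y ∈ univ.filter (fun y => l y = l x), f y
          ≤ ∑ y ∈ univ.filter (fun y => l y = l x), (1 : ℝ) := Finset.sum_le_sum fun y _ => (hf y).2
        _ = _ := by simp
  · unfold ce
    exact div_nonneg (Finset.sum_nonneg fun y _ => hf y) (cell_card_pos l x).le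

theorem stEnergy : StEnergy := by
  intro Ω T T' _ _ _ l l' f href
  have hm : ∀ x y, l' x = l' y → ce l f x = ce l f y := fun x y h => ce_congr l f x y (href x y h)
  have h1 : ∑ x, ce l' f x * ce l f x = ∑ x, (ce l f x) ^ 2 := by
    rw [← ce_sum_mul l' f (ce l f) hm, ce_sum_mul l f (ce l f) (fun x y h => ce_congr l f x y h)]
    exact Finset.sum_congr rfl fun x _ => (sq _).symm
  have hpyth : ∑ x, (ce l' f x - ce l f x) ^ 2 = ∑ x, (ce l' f x) ^ 2 - ∑ x, (ce l f x) ^ 2 := by
    have : ∀ x, (ce l' f x - ce l f x) ^ 2 = (ce l' f x) ^ 2 - 2 * (ce l' f x * ce l f x) + (ce l f x) ^ 2 := by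
      intro x; ring
    rw [Finset.sum_congr rfl fun x _ => this x, Finset.sum_add_distrib, Finset.sum_sub_distrib,
      ← Finset.mul_sum, h1]
    ring
  refine ⟨hpyth, fun g hg hg1 => ?_⟩
  have h2 : ∑ x, (f x - ce l f x) * g x = ∑ x, (ce l' f x - ce l f x) * g x := by
    simp only [sub_mul, Finset.sum_sub_distrib]
    rw [ce_sum_mul l' f g hg]
  rw [h2, ← hpyth]
  have h3 := Finset.sum_mul_sq_le_sq_mul_sq univ (fun x => ce l' f x - ce l f x) g
  have h4 : ∑ x, g x ^ 2 ≤ (Fintype.card Ω : ℝ) := by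
    calc ∑ x, g x ^ 2 ≤ ∑ _x : Ω, (1 : ℝ) := by
          refine Finset.sum_le_sum fun x _ => ?_
          have := hg1 x
          rw [← sq_abs]
          have h0 : 0 ≤ |g x| := abs_nonneg _
          nlinarith
      _ = _ := by simp
  have h5 : 0 ≤ ∑ x, (ce l' f x - ce l f x) ^ 2 := Finset.sum_nonneg fun x _ => sq_nonneg _
  nlinarith

end Pool.Agent.Lib.MP_5cdc53_co.PP
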