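import Pool.Agent.Lib.MP_5cdc53_co.PP.Stmts

/-!
PP-CfgInj: the ten points of a Desargues configuration in a projective plane are distinct.
-/

set_option autoImplicit false

namespace Pool.Agent.Lib.MP_5cdc53_co.PP

namespace CfgInjM

variable {α : Type} [DecidableEq α] {P : Finset α} {A : α → α → Finset α} {q : ℕ}

theorem eqline (hP : IsPlane P A q) {x y z w : α} (hx : x ∈ P) (hy : y ∈ P) (hxy : x ≠ y)
    (hz : z ∈ A x y) (hw : w ∈ A x y) (hzw : z ≠ w) : A z w = A x y :=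
  (hP.line x hx y hy hxy).2.2.2.2 z hz w hw hzw

theorem memL (hP : IsPlane P A q) {x y : α} (hx : x ∈ P) (hy : y ∈ P) (hxy : x ≠ y) :
    x ∈ A x y := (hP.line x hx y hy hxy).1

theorem memR (hP : IsPlane P A q) {x y : α} (hx : x ∈ P) (hy : y ∈ P) (hxy : x ≠ y) :
    y ∈ A x y := (hP.line x hx y hy hxy).2.1

theorem comm (hP : IsPlane P A q) {x y : α} (hx : x ∈ P) (hy : y ∈ P) (hxy : x ≠ y) :
    A y x = A x y :=
  eqline hP hx hy hxy (memR hP hx hy hxy) (memL hP hx hy hxy) hxy.symm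

/-- a triangle -/
structure Tri (P : Finset α) (A : α → α → Finset α) (x y z : α) : Prop where
  hx : x ∈ P
  hy : y ∈ P
  hz : z ∈ P
  xy : x ≠ y
  xz : x ≠ z
  yz : y ≠ z
  n : z ∉ A x y

theorem tri12 (hP : IsPlane P A q) {x y z : α} (h : Tri P A x y z) : Tri P A y x z :=
  ⟨h.hy, h.hx, h.hz, h.xy.symm, h.yz, h.xz, by
    rw [comm hP h.hx h.hy h.xy]; exact h.n⟩

theorem tri23 (hP : IsPlane P A q) {x y z : α} (h : Tri P A x y z) : Tri P A x z y :=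
  ⟨h.hx, h.hz, h.hy, h.xz, h.xy, h.yz.symm, fun hy => h.n (by
    rw [eqline hP h.hx h.hz h.xz (memL hP h.hx h.hz h.xz) hy h.xy]
    exact memR hP h.hx h.hz h.xz)⟩

theorem s1 (hP : IsPlane P A q) {o a b a' b' : α} (h : Tri P A o a b) (ha' : a' ∈ P)
    (hb' : b' ∈ P) (h1 : a' ∈ A o a) (h2 : o ≠ a') (h3 : b' ∈ A o b) (h4 : o ≠ b') :
    b' ∉ A o a ∧ a' ∉ A o b ∧ a ≠ b' ∧ b ≠ a' ∧ a' ≠ b' ∧ Tri P A o a' b' := by
  have e1 : A o a' = A o a := eqline hP h.hx h.hy h.xy (memL hP h.hx h.hy h.xy) h1 h2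
  have e2 : A o b' = A o b := eqline hP h.hx h.hz h.xz (memL hP h.hx h.hz h.xz) h3 h4
  have n1 : b' ∉ A o a := by
    intro hb
    have e3 : A o b' = A o a := eqline hP h.hx h.hy h.xy (memL hP h.hx h.hy h.xy) hb h4
    apply h.n
    rw [← e3, e2]
    exact memR hP h.hx h.hz h.xz
  have n2 : a' ∉ A o b := by
    intro hb
    have e3 : A o a' = A o b := eqline hP h.hx h.hz h.xz (memL hP h.hx h.hz h.xz) hb h2
    apply h.n
    rw [← e1, e3]
    exact memR hP h.hx h.hz h.xz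
  have d1 : a ≠ b' := fun he => n1 (he ▸ memR hP h.hx h.hy h.xy)
  have d2 : b ≠ a' := fun he => n2 (he ▸ memR hP h.hx h.hz h.xz)
  have d3 : a' ≠ b' := fun he => n1 (he ▸ h1)
  exact ⟨n1, n2, d1, d2, d3, ⟨h.hx, ha', hb', h2, h4, d3, by rw [e1]; exact n1⟩⟩

theorem s2a (hP : IsPlane P A q) {o a b a' b' r : α} (h : Tri P A o a b) (ha' : a' ∈ P)
    (hb' : b' ∈ P) (h1 : a' ∈ A o a) (h2 : o ≠ a') (h3 : b' ∈ A o b) (h4 : o ≠ b')
    (h5 : a ≠ a') (h6 : r ∈ A a b) (h7 : r ∈ A a' b') : r ∉ A o a := by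
  obtain ⟨n1, n2, d1, d2, d3, t⟩ := s1 hP h ha' hb' h1 h2 h3 h4
  intro hr
  have hra : r = a := by
    by_contra hne
    have e1 : A r a = A a b := eqline hP h.hy h.hz h.yz h6 (memL hP h.hy h.hz h.yz) hne
    have e2 : A r a = A o a := eqline hP h.hx h.hy h.xy hr (memR hP h.hx h.hy h.xy) hne
    apply h.n
    rw [← e2, e1]
    exact memR hP h.hy h.hz h.yz
  subst hra
  have e1 : A r a' = A a' b' := eqline hP ha' hb' d3 h7 (memL hP ha' hb' d3) h5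
  have e2 : A r a' = A o r := eqline hP h.hx h.hy h.xy (memR hP h.hx h.hy h.xy) h1 h5
  apply n1
  rw [← e2, e1]
  exact memR hP ha' hb' d3

theorem s2 (hP : IsPlane P A q) {o a b a' b' r : α} (h : Tri P A o a b) (ha' : a' ∈ P)
    (hb' : b' ∈ P) (h1 : a' ∈ A o a) (h2 : o ≠ a') (h3 : b' ∈ A o b) (h4 : o ≠ b')
    (h5 : a ≠ a') (h5' : b ≠ b') (h6 : r ∈ A a b) (h7 : r ∈ A a' b') :
    o ≠ r ∧ a ≠ r ∧ b ≠ r ∧ a' ≠ r ∧ b' ≠ r := by
  obtain ⟨n1, n2, d1, d2, d3, t⟩ := s1 hP h ha' hb' h1 h2 h3 h4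
  have m1 := s2a hP h ha' hb' h1 h2 h3 h4 h5 h6 h7
  have m2 : r ∉ A o b := by
    refine s2a hP (tri23 hP h) hb' ha' h3 h4 h1 h2 h5' ?_ ?_
    · rw [comm hP h.hy h.hz h.yz]; exact h6
    · rw [comm hP ha' hb' d3]; exact h7
  exact ⟨fun he => m1 (he ▸ memL hP h.hx h.hy h.xy), fun he => m1 (he ▸ memR hP h.hx h.hy h.xy),
    fun he => m2 (he ▸ memR hP h.hx h.hz h.xz), fun he => m1 (he ▸ h1), fun he => m2 (he ▸ h3)⟩

/-- two sides of a triangle meet in the vertex only -/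
theorem side (hP : IsPlane P A q) {a b c r : α} (h : Tri P A a b c) (h1 : r ∈ A a b)
    (h2 : r ∈ A a c) : r = a := by
  by_contra hne
  have e1 : A r a = A a b := eqline hP h.hx h.hy h.xy h1 (memL hP h.hx h.hy h.xy) hne
  have e2 : A r a = A a c := eqline hP h.hx h.hz h.xz h2 (memL hP h.hx h.hz h.xz) hne
  apply h.n
  rw [← e1, e2]
  exact memR hP h.hx h.hz h.xz

end CfgInjM

open CfgInjM in
/-- M1: the ten points are distinct -/
theorem stCfgInj : StCfgInj := by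
  intro α _ P A q hP p hp h01 h02 h03 h04 h05 h06 h14 h25 h36 l1 l2 l3 m12 m12' m13 m13' m23 m23'
    n012 n013 n023 n123 n456
  have h12 : p 1 ≠ p 2 := fun he => n012 (he ▸ memR hP (hp 0) (hp 1) h01)
  have h13 : p 1 ≠ p 3 := fun he => n013 (he ▸ memR hP (hp 0) (hp 1) h01)
  have h23 : p 2 ≠ p 3 := fun he => n023 (he ▸ memR hP (hp 0) (hp 2) h02)
  have t012 : Tri P A (p 0) (p 1) (p 2) := ⟨hp 0, hp 1, hp 2, h01, h02, h12, n012⟩
  have t013 : Tri P A (p 0) (p 1) (p 3) := ⟨hp 0, hp 1, hp 3, h01, h03, h13, n013⟩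
  have t023 : Tri P A (p 0) (p 2) (p 3) := ⟨hp 0, hp 2, hp 3, h02, h03, h23, n023⟩
  have t123 : Tri P A (p 1) (p 2) (p 3) := ⟨hp 1, hp 2, hp 3, h12, h13, h23, n123⟩
  obtain ⟨-, -, h15, h24, h45, -⟩ := s1 hP t012 (hp 4) (hp 5) l1 h04 l2 h05
  obtain ⟨-, -, h16, h34, h46, -⟩ := s1 hP t013 (hp 4) (hp 6) l1 h04 l3 h06
  obtain ⟨-, -, h26, h35, h56, -⟩ := s1 hP t023 (hp 5) (hp 6) l2 h05 l3 h06
  obtain ⟨h07, h17, h27, h47, h57⟩ := s2 hP t012 (hp 4) (hp 5) l1 h04 l2 h05 h14 h25 m12 m12'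
  obtain ⟨h08, h18, h38, h48, h68⟩ := s2 hP t013 (hp 4) (hp 6) l1 h04 l3 h06 h14 h36 m13 m13'
  obtain ⟨h09, h29, h39, h59, h69⟩ := s2 hP t023 (hp 5) (hp 6) l2 h05 l3 h06 h25 h36 m23 m23'
  have t456 : Tri P A (p 4) (p 5) (p 6) := ⟨hp 4, hp 5, hp 6, h45, h46, h56, n456⟩
  have t231 := tri23 hP (tri12 hP t123)
  have t564 := tri23 hP (tri12 hP t456)
  have h19 : p 1 ≠ p 9 := fun he => t231.n (he ▸ m23)
  have h49 : p 4 ≠ p 9 := fun he => t564.n (he ▸ m23')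
  have h28 : p 2 ≠ p 8 := fun he => (tri23 hP t123).n (he ▸ m13)
  have h58 : p 5 ≠ p 8 := fun he => (tri23 hP t456).n (he ▸ m13')
  have h37 : p 3 ≠ p 7 := fun he => n123 (he ▸ m12)
  have h67 : p 6 ≠ p 7 := fun he => n456 (he ▸ m12')
  have h78 : p 7 ≠ p 8 := by
    intro he
    exact h17 (side hP t123 m12 (he ▸ m13)).symm
  have h79 : p 7 ≠ p 9 := by
    intro he
    have h1 : p 7 ∈ A (p 2) (p 1) := by rw [comm hP (hp 1) (hp 2) h12]; exact m12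
    exact h27 (side hP (tri12 hP t123) h1 (he ▸ m23)).symm
  have h89 : p 8 ≠ p 9 := by
    intro he
    have h1 : p 8 ∈ A (p 3) (p 1) := by rw [comm hP (hp 1) (hp 3) h13]; exact m13
    have h2 : p 8 ∈ A (p 3) (p 2) := by rw [comm hP (hp 2) (hp 3) h23]; exact he ▸ m23
    exact h38 (side hP (tri12 hP (tri23 hP t123)) h1 h2).symm
  have key : ∀ i j : Fin 10, i < j → p i ≠ p j := by
    intro i j hij
    fin_cases i <;> fin_cases j <;> first
      | exact absurd hij (by decide)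
      | assumption
  intro i j hij
  rcases lt_trichotomy i j with h | h | h
  · exact absurd hij (key i j h)
  · exact h
  · exact absurd hij.symm (key j i h)

end Pool.Agent.Lib.MP_5cdc53_co.PP
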