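import Pool.Agent.Lib.MP_5cdc53_co.PP.Stmts

/-!
PP-Color: random colouring of the ground set, ten times.
-/

set_option autoImplicit false

namespace Pool.Agent.Lib.MP_5cdc53_co.PP

open Finset

namespace ColorAux

/-- the sets `S` with `F ∩ S = {z}` -/
lemma card_colorings {n v : ℕ} (F : Finset (Fin n)) (z : Fin n) (hF : F.card = v) (hz : z ∈ F) :
    2 ^ (n - v) ≤ ((univ : Finset (Finset (Fin n))).filter (fun S => F ∩ S = {z})).card := by
  classical
  have h1 : (Fᶜ).card = n - v := by rw [Finset.card_compl, Fintype.card_fin, hF]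
  rw [← h1, ← Finset.card_powerset]
  refine Finset.card_le_card_of_injOn (fun T => insert z T) ?_ ?_
  · intro T hT
    have hT' : T ⊆ Fᶜ := Finset.mem_powerset.1 hT
    simp only [coe_filter, mem_univ, true_and, Set.mem_ofPred_eq]
    ext x
    simp only [mem_inter, mem_insert, mem_singleton]
    constructor
    · rintro ⟨hx, hx' | hx'⟩
      · exact hx'
      · exact absurd hx (Finset.mem_compl.1 (hT' hx'))
    · rintro rfl
      exact ⟨hz, Or.inl rfl⟩
  · intro T hT T' hT' h
    have hT1 : T ⊆ Fᶜ := Finset.mem_powerset.1 hT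
    have hT2 : T' ⊆ Fᶜ := Finset.mem_powerset.1 hT'
    have hz1 : z ∉ T := fun h => Finset.mem_compl.1 (hT1 h) hz
    have hz2 : z ∉ T' := fun h => Finset.mem_compl.1 (hT2 h) hz
    have h' : insert z T = insert z T' := h
    rw [← Finset.erase_insert hz1, ← Finset.erase_insert hz2, h']

end ColorAux

/-- C1a -/
theorem stColor1 : StColor1 := by
  classical
  intro n v M z hM
  by_contra hcon
  push Not at hcon
  rcases M.eq_empty_or_nonempty with hM0 | ⟨F₀, hF₀⟩
  · have := hcon ∅
    simp [hM0] at this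
  have hvn : v ≤ n := by
    have h1 := (hM F₀ hF₀).1
    rw [← h1]
    exact (Finset.card_le_univ F₀).trans (by simp)
  have h1 : M.card * 2 ^ (n - v) ≤
      ∑ S : Finset (Fin n), (M.filter (fun F => F ∩ S = {z F})).card := by
    have h2 : ∑ S : Finset (Fin n), (M.filter (fun F => F ∩ S = {z F})).card =
        ∑ F ∈ M, ((univ : Finset (Finset (Fin n))).filter (fun S => F ∩ S = {z F})).card := by
      simp_rw [Finset.card_filter]
      exact Finset.sum_comm
    rw [h2, ← smul_eq_mul, ← Finset.sum_const]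
    exact Finset.sum_le_sum fun F hF => ColorAux.card_colorings F (z F) (hM F hF).1 (hM F hF).2
  have h3 : ∑ S : Finset (Fin n), 2 ^ v * (M.filter (fun F => F ∩ S = {z F})).card <
      ∑ _S : Finset (Fin n), M.card :=
    Finset.sum_lt_sum_of_nonempty ⟨∅, Finset.mem_univ _⟩ fun S _ => hcon S
  rw [← Finset.mul_sum, Finset.sum_const, smul_eq_mul, Finset.card_univ, Fintype.card_finset,
    Fintype.card_fin] at h3
  have h4 : 2 ^ v * (M.card * 2 ^ (n - v)) = 2 ^ n * M.card := by
    have : 2 ^ n = 2 ^ v * 2 ^ (n - v) := by rw [← pow_add]; congr 1; omega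
    rw [this]; ring
  have h5 := Nat.mul_le_mul_left (2 ^ v) h1
  omega

/-- C1 -/
theorem stColor : StColor := by
  classical
  intro n v M p hM
  have key : ∀ j : ℕ, j ≤ 10 → ∃ M', M' ⊆ M ∧ ∃ S : Fin 10 → Finset (Fin n),
      (∀ F ∈ M', ∀ i : Fin 10, i.val < j → F ∩ S i = {p F i}) ∧
      M.card ≤ 2 ^ (j * v) * M'.card := by
    intro j
    induction j with
    | zero =>
      intro _
      exact ⟨M, Finset.Subset.refl _, fun _ => ∅, fun F _ i hi => absurd hi (Nat.not_lt_zero _),
        by simp⟩
    | succ j ih =>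
      intro hj
      obtain ⟨M', hM', S, hS, hc⟩ := ih (by omega)
      obtain ⟨T, hT⟩ := stColor1 n v M' (fun F => p F ⟨j, by omega⟩)
        (fun F hF => ⟨(hM F (hM' hF)).1, (hM F (hM' hF)).2 _⟩)
      refine ⟨M'.filter (fun F => F ∩ T = {p F ⟨j, by omega⟩}),
        (Finset.filter_subset _ _).trans hM', Function.update S ⟨j, by omega⟩ T, ?_, ?_⟩
      · intro F hF i hi
        have hF' := Finset.mem_filter.1 hF
        by_cases hij : i = ⟨j, by omega⟩
        · rw [hij, Function.update_self]
          exact hF'.2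
        · rw [Function.update_of_ne hij]
          refine hS F hF'.1 i ?_
          have : i.val ≠ j := fun h => hij (Fin.ext h)
          omega
      · calc M.card ≤ 2 ^ (j * v) * M'.card := hc
          _ ≤ 2 ^ (j * v) * (2 ^ v * (M'.filter (fun F => F ∩ T = {p F ⟨j, by omega⟩})).card) :=
            Nat.mul_le_mul_left _ hT
          _ = 2 ^ ((j + 1) * v) * (M'.filter (fun F => F ∩ T = {p F ⟨j, by omega⟩})).card := by
            rw [← mul_assoc, ← pow_add]; congr 2; ring
  obtain ⟨M', hM', S, hS, hc⟩ := key 10 le_rfl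
  exact ⟨M', hM', S, fun F hF i => hS F hF i i.isLt, hc⟩

end Pool.Agent.Lib.MP_5cdc53_co.PP
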