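import Pool.Agent.Lib.MP_5cdc53_co.PP.Stmts

/-!
# The counting lemma for tetrahedra
-/

set_option autoImplicit false

namespace Pool.Agent.Lib.MP_5cdc53_co.PP

open Finset

namespace CountLemma

variable {n : ℕ}

lemma Dep.mono {β : Type} {s t : Finset (Fin 4)} {f : Om n → β} (h : Dep s f) (hst : s ⊆ t) :
    Dep t f := fun x y hxy => h x y (fun i hi => hxy i (hst hi))

/-- a finite product of functions with values in `[0,1]`, each missing a coordinate of `s` -/
def Good (s : Finset (Fin 4)) (f : Om n → ℝ) : Prop :=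
  ∃ (ι : Type) (_ : Fintype ι) (R : ι → Om n → ℝ) (m : ι → Fin 4),
    (∀ t x, 0 ≤ R t x ∧ R t x ≤ 1) ∧ (∀ t, m t ∈ s ∧ Dep (univ.erase (m t)) (R t)) ∧
    ∀ x, f x = ∏ t, R t x

lemma Good.one (s : Finset (Fin 4)) : Good s (fun _ : Om n => (1 : ℝ)) :=
  ⟨Empty, inferInstance, fun e => e.elim, fun e => e.elim, fun e => e.elim, fun e => e.elim,
    fun x => by simp⟩

lemma Good.single {s t : Finset (Fin 4)} {f : Om n → ℝ} (hd : Dep t f)
    (h01 : ∀ x, 0 ≤ f x ∧ f x ≤ 1) (hst : ∃ j ∈ s, j ∉ t) : Good s f := by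
  obtain ⟨j, hjs, hjt⟩ := hst
  refine ⟨Unit, inferInstance, fun _ => f, fun _ => j, fun _ => h01, fun _ => ⟨hjs, ?_⟩,
    fun x => by simp⟩
  refine Dep.mono hd ?_
  intro i hi
  rw [mem_erase]
  refine ⟨fun h => hjt ?_, mem_univ _⟩
  have h' : i = j := h
  rwa [h'] at hi

lemma Good.mul {s : Finset (Fin 4)} {f g : Om n → ℝ} (hf : Good s f) (hg : Good s g) :
    Good s (fun x => f x * g x) := by
  obtain ⟨ι, hι, R, m, h1, h2, h3⟩ := hf
  obtain ⟨κ, hκ, R', m', h1', h2', h3'⟩ := hg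
  refine ⟨ι ⊕ κ, inferInstance, Sum.elim R R', Sum.elim m m', ?_, ?_, ?_⟩
  · rintro (t | t) x
    · exact h1 t x
    · exact h1' t x
  · rintro (t | t)
    · exact h2 t
    · exact h2' t
  · intro x
    simp only [Fintype.prod_sum_type, Sum.elim_inl, Sum.elim_inr]
    rw [h3, h3']

lemma Good.prod {κ : Type} {s : Finset (Fin 4)} (T : Finset κ) (f : κ → Om n → ℝ)
    (h : ∀ k ∈ T, Good s (f k)) : Good s (fun x => ∏ k ∈ T, f k x) := by
  classical
  induction T using Finset.induction_on with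
  | empty => simpa using Good.one (n := n) s
  | insert a T ha ih =>
    have h1 := (h a (mem_insert_self a T)).mul (ih (fun k hk => h k (mem_insert_of_mem hk)))
    simpa [Finset.prod_insert ha] using h1

lemma exists_of_ne {s t : Finset (Fin 4)} (hs : s ∈ pairs) (ht : t ∈ pairs) (hst : s ≠ t) :
    ∃ j ∈ s, j ∉ t := by
  by_contra hcon
  push Not at hcon
  have hsub : s ⊆ t := fun j hj => hcon j hj
  simp only [pairs, mem_filter, mem_univ, true_and] at hs ht
  exact hst (Finset.eq_of_subset_of_card_le hsub (by omega))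

lemma exists_of_card {s t : Finset (Fin 4)} (h : t.card < s.card) : ∃ j ∈ s, j ∉ t :=
  Finset.exists_mem_notMem_of_card_lt_card h

lemma card_of_mem_pairs {s : Finset (Fin 4)} (hs : s ∈ pairs) : s.card = 2 := by
  simpa [pairs] using hs

lemma card_erase3 (i : Fin 4) : (univ.erase i : Finset (Fin 4)).card = 3 := by
  rw [card_erase_of_mem (mem_univ i)]
  rfl

lemma card_pairs : pairs.card = 6 := by decide

lemma card_sub2 (i : Fin 4) : (sub2 i).card = 3 := by
  revert i; decide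

lemma card_in2 (i : Fin 4) : (pairs.filter (fun s => i ∈ s)).card = 3 := by
  revert i; decide

/-- the product rule for the cells -/
lemma sum_cells (hI : StIndep) (hn : 0 < n) {C : Fin 4 → Om n → ℝ} (hC : ∀ i, Dep {i} (C i))
    (T : Finset (Fin 4)) : ∀ f : Om n → ℝ, Dep (univ \ T) f →
      ∑ x, f x * ∏ j ∈ T, C j x = (∏ j ∈ T, dens (C j)) * ∑ x, f x := by
  have hW : (0 : ℝ) < (n : ℝ) ^ 4 := by positivity
  induction T using Finset.induction_on with
  | empty => intro f _; simp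
  | insert a T ha ih =>
    intro f hf
    have hdep : Dep (univ.erase a) (fun x => f x * ∏ j ∈ T, C j x) := by
      intro x y hxy
      have h1 : f x = f y := by
        refine hf x y (fun i hi => hxy i ?_)
        rw [mem_sdiff, mem_insert] at hi
        rw [mem_erase]
        exact ⟨fun h => hi.2 (Or.inl h), mem_univ _⟩
      have h2 : ∏ j ∈ T, C j x = ∏ j ∈ T, C j y := by
        refine Finset.prod_congr rfl (fun j hj => hC j x y (fun i hi => hxy i ?_))
        rw [mem_singleton] at hi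
        subst hi
        rw [mem_erase]
        exact ⟨fun h => ha (h ▸ hj), mem_univ _⟩
      simp only [h1, h2]
    have hdis : Disjoint (univ.erase a : Finset (Fin 4)) {a} := by
      rw [Finset.disjoint_singleton_right]; simp
    have h3 := hI n (univ.erase a) {a} (fun x => f x * ∏ j ∈ T, C j x) (C a) hdis hdep (hC a)
    have h4 : Dep (univ \ T) f := by
      refine Dep.mono hf ?_
      intro i hi
      rw [mem_sdiff] at hi ⊢
      exact ⟨mem_univ _, fun h => hi.2 (mem_insert_of_mem h)⟩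
    rw [ih f h4] at h3
    have h5 : ∑ x, f x * ∏ j ∈ insert a T, C j x = ∑ x, (f x * ∏ j ∈ T, C j x) * C a x := by
      refine Finset.sum_congr rfl (fun x _ => ?_)
      rw [Finset.prod_insert ha]; ring
    rw [h5, Finset.prod_insert ha]
    have h6 : ∑ x, C a x = dens (C a) * (n : ℝ) ^ 4 := by
      unfold dens; field_simp
    rw [h6] at h3
    have h7 : (∑ x, (f x * ∏ j ∈ T, C j x) * C a x) * (n : ℝ) ^ 4 =
        (dens (C a) * (∏ j ∈ T, dens (C j)) * ∑ x, f x) * (n : ℝ) ^ 4 := by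
      rw [h3]; ring
    exact mul_right_cancel₀ hW.ne' h7

/-- replacing the indicators `A s`, `s ∈ T`, by the constants `d s` -/
lemma replace (hE : StEdge) {A B : Finset (Fin 4) → Om n → ℝ}
    {C : Fin 4 → Om n → ℝ} {d : Finset (Fin 4) → ℝ} {τ η : ℝ} (hn : 0 < n)
    (A01 : ∀ s x, A s x = 0 ∨ A s x = 1) (ADep : ∀ s, Dep s (A s))
    (B01 : ∀ s x, 0 ≤ B s x ∧ B s x ≤ 1) (BDep : ∀ s, Dep s (B s))
    (C01 : ∀ i x, C i x = 0 ∨ C i x = 1) (CDep : ∀ i, Dep {i} (C i))
    (d01 : ∀ s, 0 ≤ d s ∧ d s ≤ 1)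
    (u2 : ∀ s ∈ pairs, Unif s (fun x => A s x - B s x) η)
    (r2 : ∀ s ∈ pairs, ∑ x, |B s x - d s| * ∏ j ∈ s, C j x ≤ τ * ∑ x, ∏ j ∈ s, C j x)
    (τ0 : 0 ≤ τ) (η0 : 0 ≤ η) (T : Finset (Finset (Fin 4))) :
    T ⊆ pairs → ∀ f : Om n → ℝ, (∀ s ∈ T, Good s f) →
      |∑ x, (∏ s ∈ T, A s x) * (f x * ∏ j, C j x) - (∏ s ∈ T, d s) * ∑ x, f x * ∏ j, C j x| ≤
        T.card * ((τ * (∏ i, dens (C i)) + η) * (n : ℝ) ^ 4) := by
  have A01' : ∀ s x, 0 ≤ A s x ∧ A s x ≤ 1 := by
    intro s x; rcases A01 s x with h | h <;> rw [h] <;> norm_num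
  induction T using Finset.induction_on with
  | empty => intro _ f _; simp
  | insert s T hs ih =>
    intro hT f hf
    have hsp : s ∈ pairs := hT (mem_insert_self s T)
    have hTp : T ⊆ pairs := fun t ht => hT (mem_insert_of_mem ht)
    have hg : Good s (fun x => (∏ t ∈ T, A t x) * f x) := by
      refine Good.mul (Good.prod T A (fun t ht => ?_)) (hf s (mem_insert_self s T))
      exact Good.single (ADep t) (A01' t)
        (exists_of_ne hsp (hTp ht) (fun h => hs (h ▸ ht)))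
    obtain ⟨ι, hι, R, m, h1, h2, h3⟩ := hg
    have hedge := hE n s (A s) (B s) C (d s) τ η hn hsp (ADep s) (BDep s) (A01' s) (B01 s) C01
      CDep (d01 s).1 (d01 s).2 τ0 η0 (u2 s hsp) (r2 s hsp) ι R m h1 h2
    have hih := ih hTp f (fun t ht => hf t (mem_insert_of_mem ht))
    have e1 : ∑ x, A s x * ((∏ t, R t x) * ∏ j, C j x) =
        ∑ x, (∏ t ∈ insert s T, A t x) * (f x * ∏ j, C j x) := by
      refine Finset.sum_congr rfl (fun x _ => ?_)
      rw [← h3 x, Finset.prod_insert hs]; ring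
    have e2 : ∑ x, (∏ t, R t x) * ∏ j, C j x =
        ∑ x, (∏ t ∈ T, A t x) * (f x * ∏ j, C j x) := by
      refine Finset.sum_congr rfl (fun x _ => ?_)
      rw [← h3 x]; ring
    rw [e1, e2] at hedge
    rw [Finset.prod_insert hs, Finset.card_insert_of_notMem hs]
    set X := ∑ x, (∏ t ∈ insert s T, A t x) * (f x * ∏ j, C j x)
    set Y := ∑ x, (∏ t ∈ T, A t x) * (f x * ∏ j, C j x)
    set Z := ∑ x, f x * ∏ j, C j x
    set D := ∏ t ∈ T, d t
    set E := (τ * (∏ i, dens (C i)) + η) * (n : ℝ) ^ 4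
    have h4 : X - d s * D * Z = (X - d s * Y) + d s * (Y - D * Z) := by ring
    rw [h4]
    have h5 : |d s * (Y - D * Z)| ≤ |Y - D * Z| := by
      rw [abs_mul, abs_of_nonneg (d01 s).1]
      exact mul_le_of_le_one_left (abs_nonneg _) (d01 s).2
    calc |(X - d s * Y) + d s * (Y - D * Z)| ≤ |X - d s * Y| + |d s * (Y - D * Z)| :=
          abs_add_le _ _
      _ ≤ E + T.card * E := by linarith
      _ = ((T.card + 1 : ℕ) : ℝ) * E := by push_cast; ring

end CountLemma

open CountLemma in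
/-- D7: the counting lemma. -/
theorem stCount (hUP : StUnifProd) (hI : StIndep) (hE : StEdge) : StCount := by
  intro n H S σ A B C d a ρ τ η2 η3 h
  have hn := h.npos
  have hW : (0 : ℝ) < (n : ℝ) ^ 4 := by
    have : (0 : ℝ) < n := by exact_mod_cast hn
    positivity
  have A01' : ∀ s x, 0 ≤ A s x ∧ A s x ≤ 1 := by
    intro s x; rcases h.A01 s x with h' | h' <;> rw [h'] <;> norm_num
  have C01' : ∀ s x, 0 ≤ C s x ∧ C s x ≤ 1 := by
    intro s x; rcases h.C01 s x with h' | h' <;> rw [h'] <;> norm_num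
  set Γ := ∏ i, dens (C i) with hΓ
  set D := ∏ s ∈ pairs, d s with hD
  set W := (n : ℝ) ^ 4 with hWdef
  have hΓ0 : 0 ≤ Γ := by
    refine Finset.prod_nonneg (fun i _ => ?_)
    unfold dens
    exact div_nonneg (Finset.sum_nonneg (fun x _ => (C01' i x).1)) hW.le
  have rep := replace hE hn h.A01 h.ADep h.B01 h.BDep h.C01 h.CDep h.d01 h.u2 h.r2 h.τ0 h.η20
  set E := (τ * Γ + η2) * W with hEdef
  have hE0 : 0 ≤ E := by
    have := h.τ0; have := h.η20
    positivity
  -- goodness facts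
  have goodA3 : ∀ i, ∀ s ∈ pairs, Good (univ.erase i) (A s) := fun i s hs =>
    Good.single (h.ADep s) (A01' s)
      (exists_of_card (by rw [card_of_mem_pairs hs, card_erase3]; norm_num))
  have goodC3 : ∀ i j, Good (univ.erase i) (C j) := fun i j =>
    Good.single (h.CDep j) (C01' j)
      (exists_of_card (by rw [card_singleton, card_erase3]; norm_num))
  have goodH : ∀ i j, j ≠ i → Good (univ.erase i) (H j) := fun i j hj =>
    Good.single (h.HDep j) (h.H01 j) ⟨j, by simp [hj], by simp⟩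
  have goodS : ∀ i j, j ≠ i → Good (univ.erase i) (S j) := fun i j hj =>
    Good.single (h.SDep j) (h.S01 j) ⟨j, by simp [hj], by simp⟩
  have goodG : ∀ i, Good (univ.erase i) (fun x => (∏ s ∈ pairs, A s x) * ∏ j, C j x) := fun i =>
    (Good.prod pairs A (goodA3 i)).mul (Good.prod univ C (fun j _ => goodC3 i j))
  have up : ∀ i (f : Om n → ℝ), Good (univ.erase i) f →
      |∑ x, (H i x - S i x) * f x| ≤ η3 * W := by
    intro i f hf
    obtain ⟨ι, hι, R, m, h1, h2, h3⟩ := hf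
    have hdep : Dep (univ.erase i) (fun x => H i x - S i x) := by
      intro x y hxy
      have e1 := h.HDep i x y hxy
      have e2 := h.SDep i x y hxy
      simp only [e1, e2]
    have := hUP n (univ.erase i) (fun x => H i x - S i x) η3 hn h.η30 hdep (h.u3 i) ι R m h1 h2
    simpa only [h3] using this
  -- (1)
  set G : Om n → ℝ := fun x => (∏ s ∈ pairs, A s x) * ∏ j, C j x with hG
  have hG0 : ∀ x, 0 ≤ G x := fun x =>
    mul_nonneg (Finset.prod_nonneg (fun s _ => (A01' s x).1))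
      (Finset.prod_nonneg (fun j _ => (C01' j x).1))
  have step1 : ∑ x, (∏ i, S i x) * G x - 4 * (η3 * W) ≤ ∑ x, (∏ i, H i x) * G x := by
    have u0 := up 0 (fun x => (H 1 x * (H 2 x * H 3 x)) * G x)
      (((goodH 0 1 (by decide)).mul ((goodH 0 2 (by decide)).mul (goodH 0 3 (by decide)))).mul
        (goodG 0))
    have u1 := up 1 (fun x => (S 0 x * (H 2 x * H 3 x)) * G x)
      (((goodS 1 0 (by decide)).mul ((goodH 1 2 (by decide)).mul (goodH 1 3 (by decide)))).mul
        (goodG 1))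
    have u2 := up 2 (fun x => (S 0 x * (S 1 x * H 3 x)) * G x)
      (((goodS 2 0 (by decide)).mul ((goodS 2 1 (by decide)).mul (goodH 2 3 (by decide)))).mul
        (goodG 2))
    have u3 := up 3 (fun x => (S 0 x * (S 1 x * S 2 x)) * G x)
      (((goodS 3 0 (by decide)).mul ((goodS 3 1 (by decide)).mul (goodS 3 2 (by decide)))).mul
        (goodG 3))
    have key : ∑ x, (∏ i, H i x) * G x - ∑ x, (∏ i, S i x) * G x =
        ∑ x, (H 0 x - S 0 x) * ((H 1 x * (H 2 x * H 3 x)) * G x) +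
        ∑ x, (H 1 x - S 1 x) * ((S 0 x * (H 2 x * H 3 x)) * G x) +
        ∑ x, (H 2 x - S 2 x) * ((S 0 x * (S 1 x * H 3 x)) * G x) +
        ∑ x, (H 3 x - S 3 x) * ((S 0 x * (S 1 x * S 2 x)) * G x) := by
      rw [← Finset.sum_sub_distrib, ← Finset.sum_add_distrib, ← Finset.sum_add_distrib,
        ← Finset.sum_add_distrib]
      refine Finset.sum_congr rfl (fun x _ => ?_)
      simp only [Fin.prod_univ_four]
      ring
    have a0 := (abs_le.1 u0).1
    have a1 := (abs_le.1 u1).1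
    have a2 := (abs_le.1 u2).1
    have a3 := (abs_le.1 u3).1
    linarith
  -- (2)
  have σ0 : ∀ i, 0 ≤ σ i := fun i => h.a01.1.trans (h.σ01 i).1
  have point : ∀ x, (∏ i, σ i) - ∑ i, |S i x - σ i| ≤ ∏ i, S i x := by
    intro x
    simp only [Fin.prod_univ_four, Fin.sum_univ_four]
    have b0 := abs_nonneg (S 0 x - σ 0)
    have b1 := abs_nonneg (S 1 x - σ 1)
    have b2 := abs_nonneg (S 2 x - σ 2)
    have b3 := abs_nonneg (S 3 x - σ 3)
    have c0 := neg_abs_le (S 0 x - σ 0)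
    have c1 := neg_abs_le (S 1 x - σ 1)
    have c2 := neg_abs_le (S 2 x - σ 2)
    have c3 := neg_abs_le (S 3 x - σ 3)
    have s0 := h.S01 0 x
    have s1 := h.S01 1 x
    have s2 := h.S01 2 x
    have s3 := h.S01 3 x
    have t0 := σ0 0
    have t1 := σ0 1
    have t2 := σ0 2
    have t3 := σ0 3
    have v0 := (h.σ01 0).2
    have v1 := (h.σ01 1).2
    have v2 := (h.σ01 2).2
    have v3 := (h.σ01 3).2
    have gen : ∀ p q r : ℝ, 0 ≤ q → q ≤ 1 → -|r| ≤ p → -|r| ≤ p * q := by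
      intro p q r hq0 hq1 hp
      rcases le_total 0 p with hp0 | hp0
      · exact (neg_nonpos.2 (abs_nonneg r)).trans (mul_nonneg hp0 hq0)
      · have : p ≤ p * q := by nlinarith
        linarith
    have m01 : ∀ p q : ℝ, 0 ≤ p → p ≤ 1 → 0 ≤ q → q ≤ 1 → 0 ≤ p * q ∧ p * q ≤ 1 :=
      fun p q hp0 hp1 hq0 hq1 => ⟨mul_nonneg hp0 hq0, mul_le_one₀ hp1 hq0 hq1⟩
    have q1 := m01 _ _ s1.1 s1.2 (m01 _ _ s2.1 s2.2 s3.1 s3.2).1 (m01 _ _ s2.1 s2.2 s3.1 s3.2).2
    have q2 := m01 _ _ t0 v0 (m01 _ _ s2.1 s2.2 s3.1 s3.2).1 (m01 _ _ s2.1 s2.2 s3.1 s3.2).2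
    have q3 := m01 _ _ (m01 _ _ t0 v0 t1 v1).1 (m01 _ _ t0 v0 t1 v1).2 s3.1 s3.2
    have q4 := m01 _ _ (m01 _ _ t0 v0 t1 v1).1 (m01 _ _ t0 v0 t1 v1).2 t2 v2
    have g0 := gen _ _ _ q1.1 q1.2 c0
    have g1 := gen _ _ _ q2.1 q2.2 c1
    have g2 := gen _ _ _ q3.1 q3.2 c2
    have g3 := gen _ _ _ q4.1 q4.2 c3
    have key : S 0 x * S 1 x * S 2 x * S 3 x - σ 0 * σ 1 * σ 2 * σ 3 =
        (S 0 x - σ 0) * (S 1 x * (S 2 x * S 3 x)) + (S 1 x - σ 1) * (σ 0 * (S 2 x * S 3 x)) +
        (S 2 x - σ 2) * (σ 0 * σ 1 * S 3 x) + (S 3 x - σ 3) * (σ 0 * σ 1 * σ 2) := by ring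
    linarith
  have step2 : (∏ i, σ i) * ∑ x, G x - ∑ i, ∑ x, |S i x - σ i| * G x ≤
      ∑ x, (∏ i, S i x) * G x := by
    rw [Finset.sum_comm, Finset.mul_sum, ← Finset.sum_sub_distrib]
    refine Finset.sum_le_sum (fun x _ => ?_)
    rw [← Finset.sum_mul, ← sub_mul]
    exact mul_le_mul_of_nonneg_right (point x) (hG0 x)
  -- cells
  have cells : ∑ x, ∏ j, C j x = Γ * W := by
    have := sum_cells hI hn h.CDep univ (fun _ => (1 : ℝ)) (fun _ _ _ => rfl)
    simp only [one_mul] at this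
    rw [this]
    simp [Om, hWdef, hΓ]
  -- (3)
  have step3 : (D * Γ - 6 * τ * Γ - 6 * η2) * W ≤ ∑ x, G x := by
    have h1 := rep pairs (Finset.Subset.refl _) (fun _ => (1 : ℝ)) (fun s _ => Good.one s)
    simp only [one_mul] at h1
    rw [cells, card_pairs] at h1
    have h2 := (abs_le.1 h1).1
    have h3 : ∑ x, (∏ s ∈ pairs, A s x) * ∏ j, C j x = ∑ x, G x := rfl
    rw [h3] at h2
    push_cast at h2
    have h4 : (D * Γ - 6 * τ * Γ - 6 * η2) * W = D * (Γ * W) - 6 * E := by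
      rw [hEdef]; ring
    rw [h4]
    linarith
  -- (4)
  have step4 : ∀ i, ∑ x, |S i x - σ i| * G x ≤ (ρ * Γ * D + 6 * Γ * τ + 6 * η2) * W := by
    intro i
    have hu01 : ∀ x, 0 ≤ |S i x - σ i| ∧ |S i x - σ i| ≤ 1 := by
      intro x
      refine ⟨abs_nonneg _, abs_le.2 ⟨?_, ?_⟩⟩
      · have := (h.S01 i x).1; have := (h.σ01 i).2; linarith
      · have := (h.S01 i x).2; have := σ0 i; linarith
    have huDep : Dep (univ.erase i) (fun x => |S i x - σ i|) := by
      intro x y hxy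
      have e2 := h.SDep i x y hxy
      simp only [e2]
    set T := pairs.filter (fun s => i ∈ s) with hT
    have hsub : sub2 i ⊆ pairs := Finset.filter_subset _ _
    have hTsub : T ⊆ pairs := Finset.filter_subset _ _
    have hsplit : ∀ g : Finset (Fin 4) → ℝ,
        ∏ s ∈ pairs, g s = (∏ s ∈ T, g s) * ∏ s ∈ sub2 i, g s := by
      intro g
      rw [hT, sub2]
      exact (Finset.prod_filter_mul_prod_filter_not pairs (fun s => i ∈ s) g).symm
    have h1 := rep T hTsub (fun x => |S i x - σ i| * ∏ s ∈ sub2 i, A s x) (by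
      intro s hs
      have hs1 : s ∈ pairs := hTsub hs
      have hs2 : i ∈ s := (Finset.mem_filter.1 hs).2
      refine Good.mul (Good.single huDep hu01 ⟨i, hs2, by simp⟩)
        (Good.prod (sub2 i) A (fun t ht => ?_))
      refine Good.single (h.ADep t) (A01' t) (exists_of_ne hs1 (hsub ht) ?_)
      rintro rfl
      exact (Finset.mem_filter.1 ht).2 hs2)
    have h2 := rep (sub2 i) hsub (fun _ => (1 : ℝ)) (fun s _ => Good.one s)
    simp only [one_mul] at h2
    rw [cells, card_sub2] at h2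
    rw [card_in2] at h1
    push_cast at h1 h2
    -- the sum without the cell `C i`
    have h3 : ∀ f : Om n → ℝ, Dep (univ.erase i) f →
        ∑ x, (f x * ∏ s ∈ sub2 i, A s x) * ∏ j, C j x =
          dens (C i) * ∑ x, f x * ((∏ s ∈ sub2 i, A s x) * ∏ j ∈ univ.erase i, C j x) := by
      intro f hf
      have hdep : Dep (univ \ {i}) (fun x => f x * ((∏ s ∈ sub2 i, A s x) *
          ∏ j ∈ univ.erase i, C j x)) := by
        rw [Finset.sdiff_singleton_eq_erase]
        intro x y hxy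
        have e1 : f x = f y := hf x y hxy
        have e2 : ∏ s ∈ sub2 i, A s x = ∏ s ∈ sub2 i, A s y := by
          refine Finset.prod_congr rfl (fun s hs => h.ADep s x y (fun j hj => hxy j ?_))
          rw [mem_erase]
          exact ⟨fun hji => (Finset.mem_filter.1 hs).2 (hji ▸ hj), mem_univ _⟩
        have e3 : ∏ j ∈ univ.erase i, C j x = ∏ j ∈ univ.erase i, C j y := by
          refine Finset.prod_congr rfl (fun j hj => h.CDep j x y (fun k hk => hxy k ?_))
          rw [mem_singleton] at hk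
          exact hk ▸ hj
        simp only [e1, e2, e3]
      have := sum_cells hI hn h.CDep {i} _ hdep
      simp only [Finset.prod_singleton] at this
      rw [← this]
      refine Finset.sum_congr rfl (fun x _ => ?_)
      rw [← Finset.mul_prod_erase univ (fun j => C j x) (mem_univ i)]
      ring
    have h4 := h3 (fun x => |S i x - σ i|) huDep
    have h5 := h3 (fun _ => (1 : ℝ)) (fun _ _ _ => rfl)
    simp only [one_mul] at h5
    have hdens0 : 0 ≤ dens (C i) := by
      unfold dens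
      exact div_nonneg (Finset.sum_nonneg (fun x _ => (C01' i x).1)) hW.le
    have h6 := mul_le_mul_of_nonneg_left (h.r3 i) hdens0
    have h7 : ∑ x, |S i x - σ i| * G x =
        ∑ x, (∏ s ∈ T, A s x) * (|S i x - σ i| * (∏ s ∈ sub2 i, A s x) * ∏ j, C j x) := by
      refine Finset.sum_congr rfl (fun x _ => ?_)
      rw [hG]
      simp only
      rw [hsplit (fun s => A s x)]
      ring
    have hdT0 : 0 ≤ ∏ s ∈ T, d s := Finset.prod_nonneg (fun s _ => (h.d01 s).1)
    have hdT1 : ∏ s ∈ T, d s ≤ 1 := Finset.prod_le_one (fun s _ => (h.d01 s).1)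
      (fun s _ => (h.d01 s).2)
    have h8 := (abs_le.1 h1).2
    have h9 := (abs_le.1 h2).2
    rw [h7]
    set P := ∑ x, (∏ s ∈ T, A s x) * (|S i x - σ i| * (∏ s ∈ sub2 i, A s x) * ∏ j, C j x)
    set Q := ∑ x, |S i x - σ i| * (∏ s ∈ sub2 i, A s x) * ∏ j, C j x
    set R := ∑ x, (∏ s ∈ sub2 i, A s x) * ∏ j, C j x
    set dT := ∏ s ∈ T, d s
    set dS := ∏ s ∈ sub2 i, d s
    have h10 : Q ≤ ρ * R := by
      calc Q = dens (C i) * ∑ x, |S i x - σ i| * ((∏ s ∈ sub2 i, A s x) *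
              ∏ j ∈ univ.erase i, C j x) := h4
        _ ≤ dens (C i) * (ρ * ∑ x, ((∏ s ∈ sub2 i, A s x) * ∏ j ∈ univ.erase i, C j x)) := h6
        _ = ρ * R := by rw [h5]; ring
    have h11 : R ≤ dS * (Γ * W) + 3 * E := by linarith
    have hD' : D = dT * dS := hsplit d
    have hρ0 := h.ρ01.1
    have hρ1 := h.ρ01.2
    have h12 : dT * Q ≤ dT * (ρ * (dS * (Γ * W) + 3 * E)) :=
      mul_le_mul_of_nonneg_left (h10.trans (mul_le_mul_of_nonneg_left h11 hρ0)) hdT0
    have h13 : dT * (ρ * (3 * E)) ≤ 3 * E := by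
      have : dT * ρ ≤ 1 := mul_le_one₀ hdT1 hρ0 hρ1
      nlinarith
    have h14 : (ρ * Γ * D + 6 * Γ * τ + 6 * η2) * W = dT * (ρ * (dS * (Γ * W))) + 6 * E := by
      rw [hD', hEdef]; ring
    rw [h14]
    linarith
  have step4' : ∑ i, ∑ x, |S i x - σ i| * G x ≤ 4 * ((ρ * Γ * D + 6 * Γ * τ + 6 * η2) * W) := by
    calc ∑ i, ∑ x, |S i x - σ i| * G x ≤
        ∑ i : Fin 4, (ρ * Γ * D + 6 * Γ * τ + 6 * η2) * W := Finset.sum_le_sum (fun i _ => step4 i)
      _ = _ := by simp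
  have hσa : a ^ 4 ≤ ∏ i, σ i := by
    have : ∏ i : Fin 4, a ≤ ∏ i, σ i :=
      Finset.prod_le_prod (fun i _ => h.a01.1) (fun i _ => (h.σ01 i).1)
    simpa using this
  have hG1 : 0 ≤ ∑ x, G x := Finset.sum_nonneg (fun x _ => hG0 x)
  have ha4 : 0 ≤ a ^ 4 := by positivity
  have h20 : a ^ 4 * ((D * Γ - 6 * τ * Γ - 6 * η2) * W) ≤ (∏ i, σ i) * ∑ x, G x :=
    (mul_le_mul_of_nonneg_left step3 ha4).trans (mul_le_mul_of_nonneg_right hσa hG1)
  have hfin : (a ^ 4 * (Γ * (D - 6 * τ) - 6 * η2) - 4 * (ρ * Γ * D + 6 * Γ * τ + 6 * η2)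
      - 4 * η3) * W = a ^ 4 * ((D * Γ - 6 * τ * Γ - 6 * η2) * W)
        - 4 * ((ρ * Γ * D + 6 * Γ * τ + 6 * η2) * W) - 4 * (η3 * W) := by ring
  rw [hfin]
  linarith

end Pool.Agent.Lib.MP_5cdc53_co.PP
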