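import Pool.Agent.Lib.MP_5cdc53_co.PP.Stmts

/-!
PP-Des: Desarguesian planes have prime power order.
-/

set_option autoImplicit false

namespace Pool.Agent.Lib.MP_5cdc53_co.PP

/-- M5 -/
theorem stDes (hT : StTrans) (hG : StGroup) (hA : StAff) : StDes := by
  intro α _ P A q hq hP hC
  rcases Nat.lt_or_ge q 3 with h3 | h3
  · obtain rfl : q = 2 := by omega
    exact Nat.prime_two.isPrimePow
  · obtain ⟨V, D, _, dir, hV, hAff, hMD⟩ := hA α P A q h3 hP hC
    have hne : Nonempty V := by
      apply Fintype.card_pos_iff.1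
      rw [hV]
      positivity
    obtain ⟨p, k, hp, hk⟩ := hG V D dir hAff (hT V D dir hAff hMD)
    rw [hV] at hk
    have hd : q ∣ p ^ k := by
      rw [← hk, sq]
      exact dvd_mul_left q q
    obtain ⟨j, -, hj⟩ := (Nat.dvd_prime_pow hp).1 hd
    rw [isPrimePow_nat_iff]
    refine ⟨p, j, hp, ?_, hj.symm⟩
    rcases Nat.eq_zero_or_pos j with h0 | h0
    · rw [h0, pow_zero] at hj
      omega
    · exact h0

end Pool.Agent.Lib.MP_5cdc53_co.PP
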