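import Pool.Agent.Lib.MP_5cdc53_co.PP.Stmts2

/-!
PP-Des2: affine planes in which all configurations of the second kind close have prime power
order.
-/

set_option autoImplicit false

namespace Pool.Agent.Lib.MP_5cdc53_co.PP

open Finset

/-- pulling a configuration of the second kind back along an embedding preserving lines -/
theorem des2_pull {α β : Type} {A : α → α → Finset α} {A' : β → β → Finset β} {ι : α → β}
    {x : Fin 10 → α} {p : Fin 10 → β} (hx : ∀ i, ι (x i) = p i)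
    (hA : ∀ i j k, x i ≠ x j → (p k ∈ A' (p i) (p j) ↔ x k ∈ A (x i) (x j)))
    (h : Cfg2 A' p) : Cfg2 A x := by
  have hne : ∀ i j, p i ≠ p j → x i ≠ x j := by
    intro i j hij he
    apply hij
    rw [← hx i, ← hx j, he]
  exact
    { n01 := hne _ _ h.n01
      n02 := hne _ _ h.n02
      n03 := hne _ _ h.n03
      n12 := hne _ _ h.n12
      n13 := hne _ _ h.n13
      n23 := hne _ _ h.n23
      n45 := hne _ _ h.n45
      n46 := hne _ _ h.n46
      n56 := hne _ _ h.n56
      n78 := hne _ _ h.n78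
      l1 := (hA 0 1 4 (hne _ _ h.n01)).1 h.l1
      l2 := (hA 0 2 5 (hne _ _ h.n02)).1 h.l2
      l3 := (hA 0 3 6 (hne _ _ h.n03)).1 h.l3
      m12 := (hA 1 2 7 (hne _ _ h.n12)).1 h.m12
      m12' := (hA 4 5 7 (hne _ _ h.n45)).1 h.m12'
      m13 := (hA 1 3 8 (hne _ _ h.n13)).1 h.m13
      m13' := (hA 4 6 8 (hne _ _ h.n46)).1 h.m13'
      m23 := (hA 2 3 9 (hne _ _ h.n23)).1 h.m23
      m78 := (hA 7 8 9 (hne _ _ h.n78)).1 h.m78
      n012 := fun hc => h.n012 ((hA 0 1 2 (hne _ _ h.n01)).2 hc)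
      n013 := fun hc => h.n013 ((hA 0 1 3 (hne _ _ h.n01)).2 hc)
      n023 := fun hc => h.n023 ((hA 0 2 3 (hne _ _ h.n02)).2 hc)
      n123 := fun hc => h.n123 ((hA 1 2 3 (hne _ _ h.n12)).2 hc)
      n723 := fun hc => h.n723 ((hA 2 3 7 (hne _ _ h.n23)).2 hc)
      nc := fun hc => h.nc ((hA 5 6 9 (hne _ _ h.n56)).2 hc) }

/-- Des2 -/
theorem stDes2 (hC : StComp) (hA : StAff2) (hT : StTrans2) (hG : StGroup) (hB : StBR6) :
    StDes2 := by
  intro α _ P A q hq hP hN
  obtain ⟨β, _, P', A', ι, s, t, hP', hs, ht, hst, hinj, hι, hsurj, hline⟩ := hC α P A q hq hP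
  rcases Nat.lt_or_ge q 7 with h7 | h7
  · interval_cases q
    · exact Nat.prime_two.isPrimePow
    · exact Nat.prime_three.isPrimePow
    · rw [isPrimePow_nat_iff]
      exact ⟨2, 2, Nat.prime_two, by norm_num, by norm_num⟩
    · exact Nat.prime_five.isPrimePow
    · exact absurd hP' (hB β P' A')
  · have hN' : ∀ p : Fin 10 → β, (∀ i, p i ∈ P' ∧ p i ∉ A' s t) → ¬ Cfg2 A' p := by
      intro p hp hc
      choose x hxP hx using fun i => hsurj (p i) (hp i).1 (hp i).2
      refine hN x hxP (des2_pull hx ?_ hc)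
      intro i j k hij
      have := hline (x i) (hxP i) (x j) (hxP j) hij (x k) (hxP k)
      rw [hx, hx, hx] at this
      exact this
    obtain ⟨V, D, _, dir, Lp, z, hV, hAff, hAff2, hBig, hMD⟩ :=
      hA β P' A' q s t (by omega) hP' hs ht hst hN'
    have hne : Nonempty V := by
      apply Fintype.card_pos_iff.1
      rw [hV]
      positivity
    have hBig7 : Big dir 7 := by
      intro x u
      obtain ⟨S, hS, hS'⟩ := hBig x u
      exact ⟨S, le_trans h7 hS, hS'⟩
    obtain ⟨p, k, hp, hk⟩ := hG V D dir hAff (hT V D dir Lp z hAff hAff2 hBig7 hMD)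
    rw [hV] at hk
    have hd : q ∣ p ^ k := by
      rw [← hk, sq]
      exact dvd_mul_left q q
    obtain ⟨j, -, hj⟩ := (Nat.dvd_prime_pow hp).1 hd
    rw [isPrimePow_nat_iff]
    refine ⟨p, j, hp, ?_, hj.symm⟩
    rcases Nat.eq_zero_or_pos j with h0 | h0
    · rw [h0, pow_zero] at hj
      omega
    · exact h0

end Pool.Agent.Lib.MP_5cdc53_co.PP
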