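import Pool.Agent.Lib.MP_5cdc53_co.PP.Stmts

/-!
# PP/Edge: replacing the indicator of an atom by a constant (helper45)
-/

set_option autoImplicit false

namespace Pool.Agent.Lib.MP_5cdc53_co.PP

open Finset

theorem dep_mono_edge {n : ℕ} {β : Type} {s t : Finset (Fin 4)} (h : s ⊆ t) {f : Om n → β}
    (hf : Dep s f) : Dep t f := fun x y hxy => hf x y (fun i hi => hxy i (h hi))

theorem card_Om_edge (n : ℕ) : ∑ _x : Om n, (1 : ℝ) = (n : ℝ) ^ 4 := by
  simp [Om]

theorem sum_prodC_edge (hI : StIndep) (n : ℕ) (hn : 0 < n) (C : Fin 4 → Om n → ℝ)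
    (hC : ∀ i, Dep {i} (C i)) (T : Finset (Fin 4)) :
    ∑ x, ∏ j ∈ T, C j x = (∏ j ∈ T, dens (C j)) * (n : ℝ) ^ 4 := by
  have hn4 : (0 : ℝ) < (n : ℝ) ^ 4 := by positivity
  induction T using Finset.induction_on with
  | empty => simp [Om]
  | insert i T hi ih =>
    have h1 := hI n {i} T (C i) (fun x => ∏ j ∈ T, C j x) (by simpa using hi) (hC i)
      (fun x y hxy => Finset.prod_congr rfl
        (fun j hj => hC j x y (fun k hk => by
          rw [Finset.mem_singleton] at hk; subst hk; exact hxy _ hj)))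
    simp only [Finset.prod_insert hi]
    rw [ih] at h1
    have h2 : ∑ x, C i x = dens (C i) * (n : ℝ) ^ 4 := by
      unfold dens; field_simp
    rw [h2] at h1
    have h3 : (∑ x, C i x * ∏ j ∈ T, C j x) * (n : ℝ) ^ 4 =
      (dens (C i) * ∏ j ∈ T, dens (C j)) * (n : ℝ) ^ 4 * (n : ℝ) ^ 4 := by
      rw [h1]; ring
    exact mul_right_cancel₀ hn4.ne' h3

theorem stEdge (hU : StUnifProd) (hI : StIndep) : StEdge := by
  intro n s A B C d τ η hn hs hA hB hA01 hB01 hC01 hC hd0 hd1 hτ hη hunif hr ι _ R m hR hm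
  classical
  have hn4 : (0 : ℝ) < (n : ℝ) ^ 4 := by positivity
  have hscard : s.card = 2 := by
    unfold pairs at hs; simpa using hs
  have hC01' : ∀ i x, 0 ≤ C i x ∧ C i x ≤ 1 := by
    intro i x
    rcases hC01 i x with h | h <;> rw [h] <;> norm_num
  have hex : ∀ j : Fin 4, ∃ i ∈ s, i ≠ j := fun j =>
    Finset.exists_mem_ne (by rw [hscard]; norm_num) j
  choose w hw hwne using hex
  -- first part
  have h1 := hU n s (fun x => A x - B x) η hn hη
    (fun x y hxy => by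
      show A x - B x = A y - B y
      rw [hA x y hxy, hB x y hxy]) hunif (ι ⊕ Fin 4) (Sum.elim R C) (Sum.elim m w)
    (by
      rintro (t | j) x
      · exact hR t x
      · exact hC01' j x)
    (by
      rintro (t | j)
      · exact hm t
      · refine ⟨hw j, ?_⟩
        refine dep_mono_edge ?_ (hC j)
        intro k hk
        rw [Finset.mem_singleton] at hk
        subst hk
        exact Finset.mem_erase.2 ⟨(hwne k).symm, Finset.mem_univ _⟩)
  simp only [Fintype.prod_sum_type, Sum.elim_inl, Sum.elim_inr] at h1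
  -- second part
  have hsplit : ∀ x, ∏ j, C j x = (∏ j ∈ s, C j x) * ∏ j ∈ sᶜ, C j x := fun x =>
    (Finset.prod_mul_prod_compl s _).symm
  have hdepS : Dep s (fun x => |B x - d| * ∏ j ∈ s, C j x) := by
    intro x y hxy
    show |B x - d| * ∏ j ∈ s, C j x = |B y - d| * ∏ j ∈ s, C j y
    rw [hB x y hxy]
    congr 1
    exact Finset.prod_congr rfl (fun j hj => hC j x y (fun k hk => by
      rw [Finset.mem_singleton] at hk; subst hk; exact hxy _ hj))
  have hdepT : Dep sᶜ (fun x => ∏ j ∈ sᶜ, C j x) := by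
    intro x y hxy
    exact Finset.prod_congr rfl (fun j hj => hC j x y (fun k hk => by
      rw [Finset.mem_singleton] at hk; subst hk; exact hxy _ hj))
  have h2 := hI n s sᶜ _ _ (disjoint_compl_right) hdepS hdepT
  have h3 := sum_prodC_edge hI n hn C hC s
  have h4 := sum_prodC_edge hI n hn C hC sᶜ
  have h5 := sum_prodC_edge hI n hn C hC univ
  have h5' : ∏ j, dens (C j) = (∏ j ∈ s, dens (C j)) * ∏ j ∈ sᶜ, dens (C j) :=
    (Finset.prod_mul_prod_compl s _).symm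
  have hdens0 : ∀ j, 0 ≤ dens (C j) := fun j => by
    unfold dens
    exact div_nonneg (Finset.sum_nonneg (fun x _ => (hC01' j x).1)) hn4.le
  have hG0 : 0 ≤ ∏ j ∈ sᶜ, dens (C j) := Finset.prod_nonneg (fun j _ => hdens0 j)
  have h6 : ∑ x, (|B x - d| * ∏ j ∈ s, C j x) * ∏ j ∈ sᶜ, C j x ≤
      τ * (∏ j, dens (C j)) * (n : ℝ) ^ 4 := by
    have h7 : (∑ x, (|B x - d| * ∏ j ∈ s, C j x) * ∏ j ∈ sᶜ, C j x) * (n : ℝ) ^ 4 ≤
        (τ * (∏ j, dens (C j)) * (n : ℝ) ^ 4) * (n : ℝ) ^ 4 := by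
      rw [h2, h4, h5']
      have h8 : (∑ x, |B x - d| * ∏ j ∈ s, C j x) * ((∏ j ∈ sᶜ, dens (C j)) * (n : ℝ) ^ 4) ≤
          (τ * ((∏ j ∈ s, dens (C j)) * (n : ℝ) ^ 4)) * ((∏ j ∈ sᶜ, dens (C j)) * (n : ℝ) ^ 4) := by
        apply mul_le_mul_of_nonneg_right _ (by positivity)
        rw [← h3]; exact hr
      refine h8.trans (le_of_eq ?_)
      ring
    exact le_of_mul_le_mul_right h7 hn4
  have hP0 : ∀ x, 0 ≤ ∏ t, R t x := fun x => Finset.prod_nonneg (fun t _ => (hR t x).1)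
  have hP1 : ∀ x, ∏ t, R t x ≤ 1 := fun x => Finset.prod_le_one (fun t _ => (hR t x).1)
    (fun t _ => (hR t x).2)
  have h9 : |∑ x, (B x - d) * ((∏ t, R t x) * ∏ j, C j x)| ≤
      τ * (∏ j, dens (C j)) * (n : ℝ) ^ 4 := by
    refine (Finset.abs_sum_le_sum_abs _ _).trans (le_trans (Finset.sum_le_sum ?_) h6)
    intro x _
    have hC0 : 0 ≤ ∏ j, C j x := Finset.prod_nonneg (fun j _ => (hC01' j x).1)
    rw [abs_mul, abs_of_nonneg (mul_nonneg (hP0 x) hC0), mul_assoc, ← hsplit x]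
    apply mul_le_mul_of_nonneg_left _ (abs_nonneg _)
    calc (∏ t, R t x) * ∏ j, C j x ≤ 1 * ∏ j, C j x :=
          mul_le_mul_of_nonneg_right (hP1 x) hC0
      _ = ∏ j, C j x := one_mul _
  have h10 : ∑ x, A x * ((∏ t, R t x) * ∏ j, C j x) - d * ∑ x, (∏ t, R t x) * ∏ j, C j x =
      ∑ x, (A x - B x) * ((∏ t, R t x) * ∏ j, C j x) +
      ∑ x, (B x - d) * ((∏ t, R t x) * ∏ j, C j x) := by
    rw [Finset.mul_sum, ← Finset.sum_sub_distrib, ← Finset.sum_add_distrib]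
    exact Finset.sum_congr rfl (fun x _ => by ring)
  rw [h10]
  calc |∑ x, (A x - B x) * ((∏ t, R t x) * ∏ j, C j x) +
      ∑ x, (B x - d) * ((∏ t, R t x) * ∏ j, C j x)| ≤ _ := abs_add_le _ _
    _ ≤ η * (n : ℝ) ^ 4 + τ * (∏ j, dens (C j)) * (n : ℝ) ^ 4 := add_le_add h1 h9
    _ = (τ * (∏ i, dens (C i)) + η) * (n : ℝ) ^ 4 := by ring

end Pool.Agent.Lib.MP_5cdc53_co.PP
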