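import Pool.Agent.Lib.MP_5cdc53_co.PP.Stmts2

/-! Module FewCfg2: few coloured members carry a configuration of the second kind. -/

set_option autoImplicit false

namespace Pool.Agent.Lib.MP_5cdc53_co.PP

open Finset

namespace FewCfg2Aux

variable {n v f : ℕ} {M : Finset (Finset (Fin n))} {A : Fin n → Fin n → Finset (Fin n)}
  {p : Finset (Fin n) → Fin 10 → Fin n} {S : Fin 10 → Finset (Fin n)}

theorem memF (hp : ∀ F ∈ M, Cfg2 A (p F) ∧ ∀ i, F ∩ S i = {p F i}) {F : Finset (Fin n)}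
    (hF : F ∈ M) (i : Fin 10) : p F i ∈ F ∧ p F i ∈ S i := by
  have h := (hp F hF).2 i
  have h2 : p F i ∈ F ∩ S i := by
    rw [h]
    exact mem_singleton_self _
  exact mem_inter.1 h2

theorem recog (hp : ∀ F ∈ M, Cfg2 A (p F) ∧ ∀ i, F ∩ S i = {p F i}) {F : Finset (Fin n)}
    (hF : F ∈ M) {i : Fin 10} {r : Fin n} (h1 : r ∈ F) (h2 : r ∈ S i) : r = p F i := by
  have h := (hp F hF).2 i
  have h3 : r ∈ F ∩ S i := mem_inter.2 ⟨h1, h2⟩
  rw [h] at h3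
  exact mem_singleton.1 h3

theorem keyK (hL : Lines v f M A) (hp : ∀ F ∈ M, Cfg2 A (p F) ∧ ∀ i, F ∩ S i = {p F i})
    {F G : Finset (Fin n)} (hF : F ∈ M) (hG : G ∈ M) (a b i : Fin 10) (hab : p F a ≠ p F b)
    (ha : p F a = p G a) (hb : p F b = p G b) (hr : p F i ∈ A (p F a) (p F b)) :
    p F i = p G i := by
  have h1 : p F a ∈ G := ha ▸ (memF hp hG a).1
  have h2 : p F b ∈ G := hb ▸ (memF hp hG b).1
  have h3 := (hL.line G hG _ h1 _ h2 hab).2.2.1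
  exact recog hp hG (h3 hr) (memF hp hF i).2

/-- three agreeing non-collinear points -/
theorem agree (hL : Lines v f M A) (hp : ∀ F ∈ M, Cfg2 A (p F) ∧ ∀ i, F ∩ S i = {p F i})
    {F G : Finset (Fin n)} (hF : F ∈ M) (hG : G ∈ M) (a b i : Fin 10) (hab : p F a ≠ p F b)
    (ha : p F a = p G a) (hb : p F b = p G b) (hi : p F i = p G i)
    (hn : p F i ∉ A (p F a) (p F b)) : F = G := by
  by_contra hne
  have h1 : p F a ∈ F ∩ G := mem_inter.2 ⟨(memF hp hF a).1, ha ▸ (memF hp hG a).1⟩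
  have h2 : p F b ∈ F ∩ G := mem_inter.2 ⟨(memF hp hF b).1, hb ▸ (memF hp hG b).1⟩
  have h3 : p F i ∈ F ∩ G := mem_inter.2 ⟨(memF hp hF i).1, hi ▸ (memF hp hG i).1⟩
  rw [hL.inter F hF G hG hne _ h1 _ h2 hab] at h3
  exact hn h3

/-- the four marked points of a member -/
def xF (p : Finset (Fin n) → Fin 10 → Fin n) (F : Finset (Fin n)) : Om n :=
  ![p F 0, p F 1, p F 2, p F 3]

theorem agree3 (hL : Lines v f M A) (hp : ∀ F ∈ M, Cfg2 A (p F) ∧ ∀ i, F ∩ S i = {p F i})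
    {F G : Finset (Fin n)} (hF : F ∈ M) (hG : G ∈ M) (i : Fin 4)
    (h : ∀ j, j ≠ i → xF p F j = xF p G j) : F = G := by
  have hc := (hp F hF).1
  have e0 : i ≠ 0 → p F 0 = p G 0 := fun hi => h 0 hi.symm
  have e1 : i ≠ 1 → p F 1 = p G 1 := fun hi => h 1 hi.symm
  have e2 : i ≠ 2 → p F 2 = p G 2 := fun hi => h 2 hi.symm
  have e3 : i ≠ 3 → p F 3 = p G 3 := fun hi => h 3 hi.symm
  fin_cases i
  · exact agree hL hp hF hG 1 2 3 hc.n12 (e1 (by decide)) (e2 (by decide)) (e3 (by decide))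
      hc.n123
  · exact agree hL hp hF hG 0 2 3 hc.n02 (e0 (by decide)) (e2 (by decide)) (e3 (by decide))
      hc.n023
  · exact agree hL hp hF hG 0 1 3 hc.n01 (e0 (by decide)) (e1 (by decide)) (e3 (by decide))
      hc.n013
  · exact agree hL hp hF hG 0 1 2 hc.n01 (e0 (by decide)) (e1 (by decide)) (e2 (by decide))
      hc.n012

/-- the faces of a tetrahedron -/
structure Tq (M : Finset (Finset (Fin n))) (p : Finset (Fin n) → Fin 10 → Fin n) (x : Om n)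
    (F : Fin 4 → Finset (Fin n)) : Prop where
  mem : ∀ i, F i ∈ M
  a01 : x 1 = p (F 0) 1
  a02 : x 2 = p (F 0) 2
  a03 : x 3 = p (F 0) 3
  a10 : x 0 = p (F 1) 0
  a12 : x 2 = p (F 1) 2
  a13 : x 3 = p (F 1) 3
  a20 : x 0 = p (F 2) 0
  a21 : x 1 = p (F 2) 1
  a23 : x 3 = p (F 2) 3
  a30 : x 0 = p (F 3) 0
  a31 : x 1 = p (F 3) 1
  a32 : x 2 = p (F 3) 2

theorem determined (hL : Lines v f M A) (hp : ∀ F ∈ M, Cfg2 A (p F) ∧ ∀ i, F ∩ S i = {p F i})
    {x x' : Om n} {F F' : Fin 4 → Finset (Fin n)} (h : Tq M p x F) (h' : Tq M p x' F')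
    (e1 : p (F 3) 4 = p (F' 3) 4) (e2 : p (F 3) 5 = p (F' 3) 5) (e3 : p (F 2) 6 = p (F' 2) 6) :
    x = x' := by
  -- facts on one tetrahedron
  have fact : ∀ {x : Om n} {F : Fin 4 → Finset (Fin n)}, Tq M p x F →
      p (F 3) 4 = p (F 2) 4 ∧ p (F 3) 5 = p (F 1) 5 ∧ p (F 2) 6 = p (F 1) 6 ∧
      p (F 3) 7 = p (F 0) 7 ∧ p (F 2) 8 = p (F 0) 8 ∧ p (F 1) 9 = p (F 0) 9 := by
    intro x F h
    have m := h.mem
    have c := fun i => (hp _ (m i)).1
    refine ⟨?_, ?_, ?_, ?_, ?_, ?_⟩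
    · exact keyK hL hp (m 3) (m 2) 0 1 4 (c 3).n01 (by rw [← h.a30, ← h.a20])
        (by rw [← h.a31, ← h.a21]) (c 3).l1
    · exact keyK hL hp (m 3) (m 1) 0 2 5 (c 3).n02 (by rw [← h.a30, ← h.a10])
        (by rw [← h.a32, ← h.a12]) (c 3).l2
    · exact keyK hL hp (m 2) (m 1) 0 3 6 (c 2).n03 (by rw [← h.a20, ← h.a10])
        (by rw [← h.a23, ← h.a13]) (c 2).l3
    · exact keyK hL hp (m 3) (m 0) 1 2 7 (c 3).n12 (by rw [← h.a31, ← h.a01])
        (by rw [← h.a32, ← h.a02]) (c 3).m12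
    · exact keyK hL hp (m 2) (m 0) 1 3 8 (c 2).n13 (by rw [← h.a21, ← h.a01])
        (by rw [← h.a23, ← h.a03]) (c 2).m13
    · exact keyK hL hp (m 1) (m 0) 2 3 9 (c 1).n23 (by rw [← h.a12, ← h.a02])
        (by rw [← h.a13, ← h.a03]) (c 1).m23
  obtain ⟨f1, f2, f3, f4, f5, f6⟩ := fact h
  obtain ⟨g1, g2, g3, g4, g5, g6⟩ := fact h'
  have m := h.mem
  have m' := h'.mem
  have c := fun i => (hp _ (m i)).1
  have k7 : p (F 3) 7 = p (F' 3) 7 :=
    keyK hL hp (m 3) (m' 3) 4 5 7 (c 3).n45 e1 e2 (c 3).m12'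
  have k8 : p (F 2) 8 = p (F' 2) 8 :=
    keyK hL hp (m 2) (m' 2) 4 6 8 (c 2).n46 (by rw [← f1, e1, g1]) e3 (c 2).m13'
  have k70 : p (F 0) 7 = p (F' 0) 7 := by rw [← f4, k7, g4]
  have k80 : p (F 0) 8 = p (F' 0) 8 := by rw [← f5, k8, g5]
  have k90 : p (F 0) 9 = p (F' 0) 9 :=
    keyK hL hp (m 0) (m' 0) 7 8 9 (c 0).n78 k70 k80 (c 0).m78
  have hF1 : F 1 = F' 1 :=
    agree hL hp (m 1) (m' 1) 5 6 9 (c 1).n56 (by rw [← f2, e2, g2]) (by rw [← f3, e3, g3])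
      (by rw [f6, k90, g6]) (c 1).nc
  have x0 : x 0 = x' 0 := by rw [h.a10, h'.a10, hF1]
  have x2 : x 2 = x' 2 := by rw [h.a12, h'.a12, hF1]
  have x3 : x 3 = x' 3 := by rw [h.a13, h'.a13, hF1]
  have hF0 : F 0 = F' 0 :=
    agree hL hp (m 0) (m' 0) 2 3 7 (c 0).n23 (by rw [← h.a02, ← h'.a02, x2])
      (by rw [← h.a03, ← h'.a03, x3]) k70 (c 0).n723
  have x1 : x 1 = x' 1 := by rw [h.a01, h'.a01, hF0]
  funext i
  fin_cases i
  · exact x0
  · exact x1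
  · exact x2
  · exact x3

end FewCfg2Aux

open FewCfg2Aux

theorem stFewCfg2 (hT : StTet) : StFewCfg2 := by
  classical
  intro v f c hc
  obtain ⟨N, hN⟩ := hT c hc
  refine ⟨N, fun n hn M A hL p S hp => ?_⟩
  by_contra hcon
  rw [not_lt] at hcon
  have hinj : ∀ F ∈ M, ∀ G ∈ M, xF p F = xF p G → F = G := by
    intro F hF G hG h
    exact agree3 hL hp hF hG 0 (fun j _ => by rw [h])
  have h1 := hN n hn (M.image (xF p)) ?_ ?_
  · -- the injection
    have hfaces : ∀ x ∈ univ.filter (fun x : Om n => ∀ i : Fin 4, ∃ y ∈ M.image (xF p),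
        ∀ j, j ≠ i → x j = y j), ∃ F, Tq M p x F := by
      intro x hx
      rw [mem_filter] at hx
      have h2 : ∀ i : Fin 4, ∃ F ∈ M, ∀ j, j ≠ i → x j = xF p F j := by
        intro i
        obtain ⟨y, hy, hxy⟩ := hx.2 i
        obtain ⟨F, hF, rfl⟩ := mem_image.1 hy
        exact ⟨F, hF, hxy⟩
      choose F hF hFx using h2
      exact ⟨F, hF, hFx 0 1 (by decide), hFx 0 2 (by decide), hFx 0 3 (by decide),
        hFx 1 0 (by decide), hFx 1 2 (by decide), hFx 1 3 (by decide),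
        hFx 2 0 (by decide), hFx 2 1 (by decide), hFx 2 3 (by decide),
        hFx 3 0 (by decide), hFx 3 1 (by decide), hFx 3 2 (by decide)⟩
    choose! F hF using hfaces
    have hcard : (univ.filter (fun x : Om n => ∀ i : Fin 4, ∃ y ∈ M.image (xF p),
        ∀ j, j ≠ i → x j = y j)).card ≤ (univ : Finset (Fin n × Fin n × Fin n)).card := by
      refine card_le_card_of_injOn
        (fun x => (p (F x 3) 4, p (F x 3) 5, p (F x 2) 6)) (fun _ _ => mem_univ _) ?_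
      intro x hx y hy hxy
      simp only [Prod.mk.injEq] at hxy
      exact determined hL hp (hF x hx) (hF y hy) hxy.1 hxy.2.1 hxy.2.2
    rw [card_univ, Fintype.card_prod, Fintype.card_prod, Fintype.card_fin] at hcard
    have h3 : (((univ.filter (fun x : Om n => ∀ i : Fin 4, ∃ y ∈ M.image (xF p),
        ∀ j, j ≠ i → x j = y j)).card : ℕ) : ℝ) ≤ ((n * (n * n) : ℕ) : ℝ) := by
      exact_mod_cast hcard
    push_cast at h3
    nlinarith
  · intro i x hx y hy h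
    obtain ⟨F, hF, rfl⟩ := mem_image.1 hx
    obtain ⟨G, hG, rfl⟩ := mem_image.1 hy
    rw [agree3 hL hp hF hG i h]
  · rw [card_image_of_injOn (fun F hF G hG h => hinj F hF G hG h)]
    exact hcon

end Pool.Agent.Lib.MP_5cdc53_co.PP
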