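import Mathlib

/-!
# Definitions used by the final statement (helper45)
-/

set_option autoImplicit false

namespace Pool.Agent.Lib.MP_5cdc53_co

/-- `PlaneType q k L`: the set `L ∪ {k}` has four consecutive elements `a < b < c < e`
(`a, b, c` in `L`) whose differences are those of the numbers `0, 1, q + 1, q ^ 2 + q + 1`
(points, lines, plane of a projective plane of order `q`) or `0, 1, q, q ^ 2` (affine plane),
multiplied by `b - a`. -/
def PlaneType (q k : ℕ) (L : Finset ℕ) : Prop :=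
  ∃ a ∈ L, ∃ b ∈ L, ∃ c ∈ L, ∃ e ∈ insert k L, a < b ∧ b < c ∧ c < e ∧
    (∀ x ∈ insert k L, a ≤ x → x ≤ e → x = a ∨ x = b ∨ x = c ∨ x = e) ∧
    ((c - a = (q + 1) * (b - a) ∧ e - a = (q ^ 2 + q + 1) * (b - a)) ∨
      (c - a = q * (b - a) ∧ e - a = q ^ 2 * (b - a)))

/-- `Geom q k L`: up to a shift `l` and a factor `d ≥ 1` the pair `(k, L)` consists of the flat
sizes of a projective space of order `q` and dimension `m ≥ 2` (or of its truncation to
`s ≥ 4` flat sizes), of an affine space of order `q` and dimension `m ≥ 2` (or of a truncation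
keeping the sizes `0, 1, q, ..., q ^ (s - 1)`, `s ≥ 3`), or of an inversive plane of order `q`. -/
def Geom (q k : ℕ) (L : Finset ℕ) : Prop :=
  ∃ l d : ℕ, 1 ≤ d ∧
    ((∃ m s : ℕ, 2 ≤ m ∧ s ≤ m + 1 ∧ (s = m + 1 ∨ 4 ≤ s) ∧
        k = l + d * ∑ j ∈ Finset.range (m + 1), q ^ j ∧
        L = (Finset.range s).image (fun i => l + d * ∑ j ∈ Finset.range i, q ^ j)) ∨
      (∃ m s : ℕ, 2 ≤ m ∧ s ≤ m ∧ (s = m ∨ 3 ≤ s) ∧ k = l + d * q ^ m ∧
        L = insert l ((Finset.range s).image (fun i => l + d * q ^ i))) ∨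
      (k = l + d * (q ^ 2 + 1) ∧ L = {l, l + d, l + d * 2, l + d * (q + 1)}))

end Pool.Agent.Lib.MP_5cdc53_co
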