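import Pool.Agent.Lib.MP_5cdc53_co.PP.Stmts2
import Pool.Agent.Lib.MP_5cdc53_co.PP.FinalDefs
import Pool.Agent.Lib.MP_5cdc53_co.PP.Blow
import Pool.Agent.Lib.MP_5cdc53_co.Spherical

/-!
# PP/Final: the final statement from the module statements (helper45)
-/

set_option autoImplicit false

namespace Pool.Agent.Lib.MP_5cdc53_co.PP

open Finset

theorem final_nec (hRed : StRed) (hP : StPlane) (hP2 : StPlane2) :
    ∀ (q k : ℕ) (L : Finset ℕ), 2 ≤ q → (∀ l ∈ L, l < k) → PlaneType q k L → WG k L →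
      IsPrimePow q := by
  rintro q k L hq hL ⟨a, ha, b, hb, c, hc, e, he, hab, hbc, hce, hcons, h | h⟩ hF
  · exact hP q hq (hRed k L a b c e (q + 1) (q ^ 2 + q + 1) hL ha hb hc he hab hbc hce hcons
      h.1 h.2 hF)
  · exact hP2 q hq (hRed k L a b c e q (q ^ 2) hL ha hb hc he hab hbc hce hcons
      h.1 h.2 hF)

/-- no weak growth means `m(n, k, L) = o(n ^ |L|)` -/
theorem final_tendsto {k : ℕ} {L : Finset ℕ} (h : ¬ WG k L) :
    Filter.Tendsto (fun n : ℕ => (m n k L : ℝ) / (n : ℝ) ^ L.card) Filter.atTop (nhds 0) := by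
  rw [Metric.tendsto_atTop]
  intro ε hε
  unfold WG at h
  push Not at h
  obtain ⟨N, hN⟩ := h ε hε
  refine ⟨N, fun n hn => ?_⟩
  obtain ⟨F, hF, hFc⟩ := m_attained n k L
  have h1 := hN n hn F hF
  rw [hFc] at h1
  have h2 : (0 : ℝ) ≤ (m n k L : ℝ) := Nat.cast_nonneg _
  have h3 : (0 : ℝ) < (n : ℝ) ^ L.card := by
    by_contra h4
    have h5 : (0 : ℝ) ≤ (n : ℝ) ^ L.card := by positivity
    have h6 : (n : ℝ) ^ L.card = 0 := le_antisymm (not_lt.1 h4) h5
    rw [h6] at h1
    linarith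
  rw [Real.dist_eq, sub_zero, abs_of_nonneg (div_nonneg h2 h3.le), div_lt_iff₀ h3]
  exact h1

theorem final_geomsum_lt {q : ℕ} (hq : 2 ≤ q) {i j : ℕ} (hij : i < j) :
    ∑ t ∈ range i, q ^ t < ∑ t ∈ range j, q ^ t := by
  refine Finset.sum_lt_sum_of_subset (Finset.range_subset_range.2 hij.le)
    (Finset.mem_range.2 hij) (by simp) (by positivity) (fun _ _ _ => by positivity)

theorem final_pg {q : ℕ} (hq : 2 ≤ q) {l d m s : ℕ} (hd : 1 ≤ d) (hm : 2 ≤ m) (hs : s ≤ m + 1)
    (hs' : s = m + 1 ∨ 4 ≤ s) :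
    PlaneType q (l + d * ∑ j ∈ range (m + 1), q ^ j)
      ((range s).image (fun i => l + d * ∑ j ∈ range i, q ^ j)) ∧
    ∀ x ∈ (range s).image (fun i => l + d * ∑ j ∈ range i, q ^ j),
      x < l + d * ∑ j ∈ range (m + 1), q ^ j := by
  have hs3 : 3 ≤ s := by omega
  set S : ℕ → ℕ := fun i => ∑ j ∈ range i, q ^ j with hS
  have hlt : ∀ i j, i < j → l + d * S i < l + d * S j := by
    intro i j hij
    have := final_geomsum_lt hq hij
    have h2 : d * S i < d * S j := Nat.mul_lt_mul_of_pos_left this hd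
    omega
  have hle : ∀ i j, l + d * S i ≤ l + d * S j → i ≤ j := by
    intro i j hij
    by_contra hh
    push Not at hh
    exact absurd (hlt j i hh) (by omega)
  have S0 : S 0 = 0 := by simp [hS]
  have S1 : S 1 = 1 := by simp [hS]
  have S2 : S 2 = q + 1 := by simp [hS, Finset.sum_range_succ]; ring
  have S3 : S 3 = q ^ 2 + q + 1 := by simp [hS, Finset.sum_range_succ]; ring
  have hmem : ∀ i, i < s → l + d * S i ∈ (range s).image (fun i => l + d * S i) :=
    fun i hi => Finset.mem_image.2 ⟨i, Finset.mem_range.2 hi, rfl⟩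
  refine ⟨⟨l + d * S 0, hmem 0 (by omega), l + d * S 1, hmem 1 (by omega), l + d * S 2,
    hmem 2 (by omega), l + d * S 3, ?_, hlt _ _ (by omega), hlt _ _ (by omega),
    hlt _ _ (by omega), ?_, Or.inl ⟨?_, ?_⟩⟩, ?_⟩
  · by_cases h4 : 4 ≤ s
    · exact Finset.mem_insert_of_mem (hmem 3 (by omega))
    · have : m = 2 := by omega
      subst this
      exact Finset.mem_insert_self _ _
  · intro x hx _ hx2
    have : ∃ i, x = l + d * S i := by
      rcases Finset.mem_insert.1 hx with h1 | h1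
      · exact ⟨m + 1, h1⟩
      · obtain ⟨i, _, hi⟩ := Finset.mem_image.1 h1
        exact ⟨i, hi.symm⟩
    obtain ⟨i, rfl⟩ := this
    have hi := hle i 3 hx2
    have : i = 0 ∨ i = 1 ∨ i = 2 ∨ i = 3 := by omega
    rcases this with rfl | rfl | rfl | rfl
    · exact Or.inl rfl
    · exact Or.inr (Or.inl rfl)
    · exact Or.inr (Or.inr (Or.inl rfl))
    · exact Or.inr (Or.inr (Or.inr rfl))
  · rw [S0, S1, S2]
    have h1 : l + d * (q + 1) - (l + d * 0) = d * (q + 1) := by omega
    have h2 : l + d * 1 - (l + d * 0) = d := by omega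
    rw [h1, h2, mul_comm]
  · rw [S0, S1, S3]
    have h1 : l + d * (q ^ 2 + q + 1) - (l + d * 0) = d * (q ^ 2 + q + 1) := by omega
    have h2 : l + d * 1 - (l + d * 0) = d := by omega
    rw [h1, h2, mul_comm]
  · intro x hx
    obtain ⟨i, hi, rfl⟩ := Finset.mem_image.1 hx
    exact hlt i (m + 1) (by rw [Finset.mem_range] at hi; omega)

theorem final_ag {q : ℕ} (hq : 2 ≤ q) {l d m s : ℕ} (hd : 1 ≤ d) (hm : 2 ≤ m) (hs : s ≤ m)
    (hs' : s = m ∨ 3 ≤ s) :
    PlaneType q (l + d * q ^ m) (insert l ((range s).image (fun i => l + d * q ^ i))) ∧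
    ∀ x ∈ insert l ((range s).image (fun i => l + d * q ^ i)), x < l + d * q ^ m := by
  have hs3 : 2 ≤ s := by omega
  have hlt : ∀ i j, i < j → l + d * q ^ i < l + d * q ^ j := by
    intro i j hij
    have : q ^ i < q ^ j := Nat.pow_lt_pow_right (by omega) hij
    have h2 : d * q ^ i < d * q ^ j := Nat.mul_lt_mul_of_pos_left this hd
    omega
  have hle : ∀ i j, l + d * q ^ i ≤ l + d * q ^ j → i ≤ j := by
    intro i j hij
    by_contra hh
    push Not at hh
    exact absurd (hlt j i hh) (by omega)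
  have hl : ∀ i, l < l + d * q ^ i := by
    intro i
    have : 0 < d * q ^ i := by positivity
    omega
  have hmem : ∀ i, i < s → l + d * q ^ i ∈ insert l ((range s).image (fun i => l + d * q ^ i)) :=
    fun i hi => Finset.mem_insert_of_mem (Finset.mem_image.2 ⟨i, Finset.mem_range.2 hi, rfl⟩)
  refine ⟨⟨l, Finset.mem_insert_self _ _, l + d * q ^ 0, hmem 0 (by omega), l + d * q ^ 1,
    hmem 1 (by omega), l + d * q ^ 2, ?_, hl 0, hlt _ _ (by omega), hlt _ _ (by omega), ?_,
    Or.inr ⟨?_, ?_⟩⟩, ?_⟩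
  · by_cases h4 : 3 ≤ s
    · exact Finset.mem_insert_of_mem (hmem 2 (by omega))
    · have : m = 2 := by omega
      subst this
      exact Finset.mem_insert_self _ _
  · intro x hx _ hx2
    have : x = l ∨ ∃ i, x = l + d * q ^ i := by
      rcases Finset.mem_insert.1 hx with h1 | h1
      · exact Or.inr ⟨m, h1⟩
      · rcases Finset.mem_insert.1 h1 with h1 | h1
        · exact Or.inl h1
        · obtain ⟨i, _, hi⟩ := Finset.mem_image.1 h1
          exact Or.inr ⟨i, hi.symm⟩
    rcases this with rfl | ⟨i, rfl⟩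
    · exact Or.inl rfl
    have hi := hle i 2 hx2
    have : i = 0 ∨ i = 1 ∨ i = 2 := by omega
    rcases this with rfl | rfl | rfl
    · exact Or.inr (Or.inl rfl)
    · exact Or.inr (Or.inr (Or.inl rfl))
    · exact Or.inr (Or.inr (Or.inr rfl))
  · have h1 : l + d * q ^ 1 - l = d * q ^ 1 := by omega
    have h2 : l + d * q ^ 0 - l = d * q ^ 0 := by omega
    rw [h1, h2]; ring
  · have h1 : l + d * q ^ 2 - l = d * q ^ 2 := by omega
    have h2 : l + d * q ^ 0 - l = d * q ^ 0 := by omega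
    rw [h1, h2]; ring
  · intro x hx
    rcases Finset.mem_insert.1 hx with rfl | h1
    · exact hl m
    · obtain ⟨i, hi, rfl⟩ := Finset.mem_image.1 h1
      exact hlt i m (by rw [Finset.mem_range] at hi; omega)

theorem final_inv {q : ℕ} (hq : 2 ≤ q) {l d : ℕ} (hd : 1 ≤ d) :
    PlaneType q (l + d * (q ^ 2 + 1)) {l, l + d, l + d * 2, l + d * (q + 1)} ∧
    ∀ x ∈ ({l, l + d, l + d * 2, l + d * (q + 1)} : Finset ℕ), x < l + d * (q ^ 2 + 1) := by
  have hqq : q < q ^ 2 := by nlinarith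
  have h1 : d * 2 < d * (q + 1) := Nat.mul_lt_mul_of_pos_left (by omega) hd
  have h2 : d * (q + 1) < d * (q ^ 2 + 1) := Nat.mul_lt_mul_of_pos_left (by omega) hd
  refine ⟨⟨l + d, by simp, l + d * 2, by simp, l + d * (q + 1), by simp, l + d * (q ^ 2 + 1),
    Finset.mem_insert_self _ _, by omega, by omega, by omega, ?_, Or.inr ⟨?_, ?_⟩⟩, ?_⟩
  · intro x hx h3 _
    simp only [Finset.mem_insert, Finset.mem_singleton] at hx
    rcases hx with rfl | rfl | rfl | rfl | rfl
    · exact Or.inr (Or.inr (Or.inr rfl))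
    · omega
    · exact Or.inl rfl
    · exact Or.inr (Or.inl rfl)
    · exact Or.inr (Or.inr (Or.inl rfl))
  · have h3 : l + d * (q + 1) - (l + d) = d * q := by
      have : d * (q + 1) = d * q + d := by ring
      omega
    have h4 : l + d * 2 - (l + d) = d := by omega
    rw [h3, h4, mul_comm]
  · have h3 : l + d * (q ^ 2 + 1) - (l + d) = d * q ^ 2 := by
      have : d * (q ^ 2 + 1) = d * q ^ 2 + d := by ring
      omega
    have h4 : l + d * 2 - (l + d) = d := by omega
    rw [h3, h4, mul_comm]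
  · intro x hx
    simp only [Finset.mem_insert, Finset.mem_singleton] at hx
    rcases hx with rfl | rfl | rfl | rfl <;> omega

theorem final_geom {q k : ℕ} {L : Finset ℕ} (hq : 2 ≤ q) (h : Geom q k L) :
    PlaneType q k L ∧ ∀ x ∈ L, x < k := by
  rcases h with ⟨l, d, hd, ⟨m, s, h1, h2, h3, rfl, rfl⟩ | ⟨m, s, h1, h2, h3, rfl, rfl⟩ | ⟨rfl, rfl⟩⟩
  · exact final_pg hq hd h1 h2 h3
  · exact final_ag hq hd h1 h2 h3
  · exact final_inv hq hd

theorem final_pos (hB : StBlow) (hPG : StPG) (hAG : StAG) {q k : ℕ} {L : Finset ℕ}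
    (hq : IsPrimePow q) (h : Geom q k L) : FullGrowth k L := by
  have hq2 : 2 ≤ q := hq.two_le
  rcases h with ⟨l, d, hd, ⟨m, s, h1, h2, h3, rfl, rfl⟩ | ⟨m, s, h1, h2, h3, rfl, rfl⟩ | ⟨rfl, rfl⟩⟩
  · have h4 := hPG q m s hq (by omega) h2
    have h5 := (final_pg (l := 0) (d := 1) hq2 le_rfl h1 h2 h3).2
    have h6 := hB _ _ l d hd (by
      intro x hx
      have := h5 x (by simpa using hx)
      simpa using this) h4
    rw [Finset.image_image] at h6
    exact h6
  · have h4 := hAG q m s hq (by omega) h2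
    have h5 := (final_ag (l := 0) (d := 1) hq2 le_rfl h1 h2 h3).2
    have h6 := hB _ _ l d hd (by
      intro x hx
      have := h5 x (by simpa using hx)
      simpa using this) h4
    rw [Finset.image_insert, Finset.image_image] at h6
    exact h6
  · have h4 := full_sphere q 2 hq le_rfl
    have h5 := (final_inv (l := 0) (d := 1) hq2 le_rfl).2
    have h6 := hB _ _ l d hd (by
      intro x hx
      have := h5 x (by simpa using hx)
      simpa using this) h4
    simp only [Finset.image_insert, Finset.image_singleton, mul_zero, add_zero, mul_one] at h6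
    exact h6

theorem final_main (hFG : StFG) (hRed : StRed) (hP : StPlane) (hP2 : StPlane2) (hB : StBlow)
    (hPG : StPG) (hAG : StAG) (q : ℕ) (hq : 2 ≤ q) :
    (∀ (k : ℕ) (L : Finset ℕ), (∀ l ∈ L, l < k) → PlaneType q k L → ¬ IsPrimePow q →
      Filter.Tendsto (fun n : ℕ => (m n k L : ℝ) / (n : ℝ) ^ L.card) Filter.atTop (nhds 0)) ∧
    (∀ (k : ℕ) (L : Finset ℕ), Geom q k L → (FullGrowth k L ↔ IsPrimePow q)) := by
  have hn := final_nec hRed hP hP2
  refine ⟨fun k L hL hT hF => final_tendsto (fun hW => hF (hn q k L hq hL hT hW)),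
    fun k L hG => ⟨fun hF => ?_, fun h => ?_⟩⟩
  · exact hn q k L hq (final_geom hq hG).2 (final_geom hq hG).1 (hFG k L hF)
  · exact final_pos hB hPG hAG h hG

end Pool.Agent.Lib.MP_5cdc53_co.PP
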