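import Pool.Agent.Lib.MP_5cdc53_co.PP.Stmts

/-!
PP-Group: a transitive group of translations forces a prime power.
-/

set_option autoImplicit false

namespace Pool.Agent.Lib.MP_5cdc53_co.PP

namespace GroupM

variable {V D : Type} {dir : V → V → D}

theorem app_inv (σ : Equiv.Perm V) (x : V) : σ (σ⁻¹ x) = x := σ.apply_symm_apply x

/-- `z` is on the line through `x` with direction `u` -/
def On (dir : V → V → D) (x : V) (u : D) (z : V) : Prop := z = x ∨ dir x z = u

theorem on_symm (h : Aff V D dir) {x : V} {u : D} {z : V} (hz : On dir x u z) :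
    On dir z u x := by
  rcases hz with rfl | hz
  · exact Or.inl rfl
  · exact Or.inr (by rw [h.symm]; exact hz)

theorem on_trans (h : Aff V D dir) {x : V} {u : D} {w z : V} (hw : On dir x u w)
    (hz : On dir w u z) : On dir x u z := by
  by_cases hwx : w = x
  · subst hwx; exact hz
  by_cases hzw : z = w
  · subst hzw; exact hw
  by_cases hzx : z = x
  · exact Or.inl hzx
  have h1 : dir x w = u := hw.resolve_left hwx
  have h2 : dir w z = u := hz.resolve_left hzw
  have h3 : dir w x = dir w z := by rw [h.symm w x, h1, h2]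
  have h4 := h.trans w x z hwx (Ne.symm hzw) (Ne.symm hzx) h3
  right
  rw [h4, h.symm w x, h1]

theorem on_uniq (h : Aff V D dir) {x y : V} {u v : D} (huv : u ≠ v) {z z' : V}
    (h1 : On dir x u z) (h2 : On dir y v z) (h3 : On dir x u z') (h4 : On dir y v z') :
    z = z' := (h.meet x y u v huv).unique ⟨h1, h2⟩ ⟨h3, h4⟩

theorem exists_dir_ne (h : Aff V D dir) (u : D) : ∃ v, v ≠ u := by
  obtain ⟨a, b, c, hab, hac, hbc⟩ := h.dirs
  by_cases ha : a = u
  · exact ⟨b, fun hb => hab (ha.trans hb.symm)⟩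
  · exact ⟨a, ha⟩

/-- a point off the line through `x` of direction `u` -/
theorem exists_off (h : Aff V D dir) (x : V) (u : D) : ∃ w, ¬ On dir x u w := by
  obtain ⟨v, hv⟩ := exists_dir_ne h u
  obtain ⟨y, z, hxy, -, -, hd, -⟩ := h.three x v
  refine ⟨y, fun hy => ?_⟩
  rcases hy with hy | hy
  · exact hxy hy.symm
  · exact hv (hd.symm.trans hy)

/-- dilatations -/
def Dil (dir : V → V → D) (σ : Equiv.Perm V) : Prop :=
  ∀ x y, x ≠ y → dir (σ x) (σ y) = dir x y

/-- translations -/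
def Tr (dir : V → V → D) (σ : Equiv.Perm V) : Prop := Dil dir σ ∧ (σ = 1 ∨ ∀ x, σ x ≠ x)

theorem dil_on {σ : Equiv.Perm V} (hσ : Dil dir σ) {x : V} {u : D} {z : V}
    (hz : On dir x u z) : On dir (σ x) u (σ z) := by
  rcases hz with rfl | hz
  · exact Or.inl rfl
  · by_cases hzx : z = x
    · exact Or.inl (by rw [hzx])
    · right
      rw [hσ x z (Ne.symm hzx)]
      exact hz

/-- the direction of a fixed-point-free dilatation -/
theorem dir_const (h : Aff V D dir) {σ : Equiv.Perm V} (hσ : Dil dir σ)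
    (hf : ∀ x, σ x ≠ x) (x y : V) : dir x (σ x) = dir y (σ y) := by
  by_contra hne
  obtain ⟨z, ⟨h1, h2⟩, -⟩ := h.meet x y _ _ hne
  have h3 : On dir x (dir x (σ x)) (σ z) :=
    on_trans h (Or.inr rfl) (dil_on hσ h1)
  have h4 : On dir y (dir y (σ y)) (σ z) :=
    on_trans h (Or.inr rfl) (dil_on hσ h2)
  exact hf z (on_uniq h hne h3 h4 h1 h2)

theorem tr_eq_one {σ : Equiv.Perm V} (hσ : Tr dir σ) {x : V} (hx : σ x = x) : σ = 1 :=
  hσ.2.resolve_right (fun hf => hf x hx)

/-- the line through `x` and its image -/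
theorem tr_on (h : Aff V D dir) {σ : Equiv.Perm V} (hσ : Tr dir σ) (a x : V) :
    On dir x (dir a (σ a)) (σ x) := by
  rcases hσ.2 with rfl | hf
  · exact Or.inl rfl
  · exact Or.inr (dir_const h hσ.1 hf x a)

theorem tr_ext_off (h : Aff V D dir) {σ τ : Equiv.Perm V} (hσ : Tr dir σ) (hτ : Tr dir τ)
    {a y : V} (ha : σ a = τ a) (hy : ¬ On dir a (dir a (σ a)) y) : σ y = τ y := by
  have h1 : On dir y (dir a (σ a)) (σ y) := tr_on h hσ a y
  have h2 : On dir y (dir a (σ a)) (τ y) := by rw [ha]; exact tr_on h hτ a y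
  have h3 : On dir (σ a) (dir a y) (σ y) := dil_on hσ.1 (Or.inr rfl)
  have h4 : On dir (σ a) (dir a y) (τ y) := by rw [ha]; exact dil_on hτ.1 (Or.inr rfl)
  have hne : dir a (σ a) ≠ dir a y := fun he => hy (Or.inr he.symm)
  exact on_uniq h hne h1 h3 h2 h4

theorem tr_ext (h : Aff V D dir) {σ τ : Equiv.Perm V} (hσ : Tr dir σ) (hτ : Tr dir τ)
    {a : V} (ha : σ a = τ a) : σ = τ := by
  ext y
  by_cases hy : On dir a (dir a (σ a)) y
  · by_cases h1 : σ = 1
    · subst h1
      have : τ = 1 := tr_eq_one hτ (x := a) (by rw [← ha]; rfl)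
      rw [this]
    · have hf : ∀ x, σ x ≠ x := hσ.2.resolve_left h1
      obtain ⟨b, hb⟩ := exists_off h a (dir a (σ a))
      have h2 := tr_ext_off h hσ hτ ha hb
      refine tr_ext_off h hσ hτ h2 (fun hy' => hb ?_)
      have h3 : dir b (σ b) = dir a (σ a) := dir_const h hσ.1 hf b a
      rw [h3] at hy'
      exact on_trans h hy (on_symm h hy')
  · exact tr_ext_off h hσ hτ ha hy

theorem dil_mul {σ τ : Equiv.Perm V} (hσ : Dil dir σ) (hτ : Dil dir τ) : Dil dir (σ * τ) := by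
  intro x y hxy
  rw [Equiv.Perm.mul_apply, Equiv.Perm.mul_apply, hσ _ _ (fun he => hxy (τ.injective he)),
    hτ x y hxy]

theorem dil_inv {σ : Equiv.Perm V} (hσ : Dil dir σ) : Dil dir σ⁻¹ := by
  intro x y hxy
  have h1 := hσ (σ⁻¹ x) (σ⁻¹ y) (fun he => hxy (σ⁻¹.injective he))
  rw [app_inv, app_inv] at h1
  exact h1.symm

theorem tr_one : Tr dir (1 : Equiv.Perm V) := ⟨fun _ _ _ => rfl, Or.inl rfl⟩

theorem tr_inv {σ : Equiv.Perm V} (hσ : Tr dir σ) : Tr dir σ⁻¹ := by
  refine ⟨dil_inv hσ.1, ?_⟩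
  rcases hσ.2 with rfl | hf
  · left; simp
  · right
    intro x hx
    apply hf x
    have := congrArg σ hx
    rw [app_inv] at this
    exact this.symm

theorem tr_mul (h : Aff V D dir) {σ τ : Equiv.Perm V} (hσ : Tr dir σ) (hτ : Tr dir τ) :
    Tr dir (σ * τ) := by
  refine ⟨dil_mul hσ.1 hτ.1, ?_⟩
  by_cases hf : ∀ x, (σ * τ) x ≠ x
  · exact Or.inr hf
  · left
    push Not at hf
    obtain ⟨x, hx⟩ := hf
    have h1 : τ x = σ⁻¹ x := by
      rw [Equiv.Perm.mul_apply] at hx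
      rw [Equiv.Perm.eq_inv_iff_eq, hx]
    have h2 := tr_ext h hτ (tr_inv hσ) h1
    rw [h2, mul_inv_cancel]

/-- the group of translations -/
def T (h : Aff V D dir) : Subgroup (Equiv.Perm V) where
  carrier := {σ | Tr dir σ}
  mul_mem' := fun ha hb => tr_mul h ha hb
  one_mem' := tr_one
  inv_mem' := fun ha => tr_inv ha

/-- the translations of direction `u` -/
def Td (h : Aff V D dir) (u : D) : Subgroup (Equiv.Perm V) where
  carrier := {σ | Tr dir σ ∧ ∀ x, On dir x u (σ x)}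
  mul_mem' := fun {a b} ha hb => ⟨tr_mul h ha.1 hb.1, fun x => on_trans h (hb.2 x) (ha.2 (b x))⟩
  one_mem' := ⟨tr_one, fun _ => Or.inl rfl⟩
  inv_mem' := fun {a} ha => ⟨tr_inv ha.1, fun x => by
    have h1 := ha.2 (a⁻¹ x)
    rw [app_inv] at h1
    exact on_symm h h1⟩

theorem Td_le (h : Aff V D dir) (u : D) : Td h u ≤ T h := fun _ ha => ha.1

theorem mem_Td (h : Aff V D dir) {σ : Equiv.Perm V} (hσ : σ ∈ T h) (a : V) :
    σ ∈ Td h (dir a (σ a)) := ⟨hσ, fun x => tr_on h hσ a x⟩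

theorem Td_inter [Nonempty V] (h : Aff V D dir) {u v : D} (huv : u ≠ v) {σ : Equiv.Perm V}
    (h1 : σ ∈ Td h u) (h2 : σ ∈ Td h v) : σ = 1 := by
  obtain ⟨a⟩ := ‹Nonempty V›
  refine tr_eq_one h1.1 (x := a) ?_
  exact on_uniq h huv (h1.2 a) (h2.2 a) (Or.inl rfl) (Or.inl rfl)

theorem comm_off (h : Aff V D dir) {u v : D} (huv : u ≠ v) {σ τ : Equiv.Perm V}
    (hσ : σ ∈ Td h u) (hτ : τ ∈ Td h v) : σ * τ = τ * σ := by
  ext x
  rw [Equiv.Perm.mul_apply, Equiv.Perm.mul_apply]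
  exact on_uniq h huv (x := τ x) (y := σ x) (hσ.2 _) (dil_on hσ.1.1 (hτ.2 x))
    (dil_on hτ.1.1 (hσ.2 x)) (hτ.2 _)

end GroupM

open GroupM in
/-- M3: a transitive group of translations forces a prime power -/
theorem stGroup : StGroup := by
  intro V D _ _ dir h htr
  classical
  obtain ⟨a⟩ := ‹Nonempty V›
  have hV : Nonempty V := ⟨a⟩
  -- transitivity
  have hex : ∀ b : V, ∃ σ ∈ T h, σ a = b := by
    intro b
    by_cases hab : a = b
    · exact ⟨1, (T h).one_mem, hab⟩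
    · obtain ⟨σ, h1, h2, h3⟩ := htr a b hab
      exact ⟨σ, ⟨h1, Or.inr h3⟩, h2⟩
  -- cardinality
  have hcard : Nat.card (T h) = Fintype.card V := by
    rw [← Nat.card_eq_fintype_card]
    refine Nat.card_eq_of_bijective (fun τ : T h => (τ : Equiv.Perm V) a) ⟨?_, ?_⟩
    · intro σ τ hst
      exact Subtype.ext (tr_ext h σ.2 τ.2 hst)
    · intro b
      obtain ⟨σ, h1, h2⟩ := hex b
      exact ⟨⟨σ, h1⟩, h2⟩
  -- elements outside of a direction
  have hout : ∀ u : D, ∃ ρ ∈ T h, ρ ∉ Td h u := by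
    intro u
    obtain ⟨w, hw⟩ := exists_off h a u
    obtain ⟨ρ, h1, h2⟩ := hex w
    exact ⟨ρ, h1, fun h3 => hw (h2 ▸ h3.2 a)⟩
  -- commutation with an element outside
  have hc1 : ∀ u : D, ∀ σ ∈ Td h u, ∀ τ ∈ T h, τ ∉ Td h u → σ * τ = τ * σ := by
    intro u σ hσ τ hτ hτu
    have h1 := mem_Td h hτ a
    refine comm_off h (fun he => hτu ?_) hσ h1
    rw [he]
    exact h1
  have hcomm : ∀ σ ∈ T h, ∀ τ ∈ T h, σ * τ = τ * σ := by
    intro σ hσ τ hτ
    have h1 := mem_Td h hτ a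
    by_cases h2 : σ ∈ Td h (dir a (τ a))
    · obtain ⟨ρ, h3, h4⟩ := hout (dir a (τ a))
      have h5 := hc1 _ τ h1 ρ h3 h4
      have h6 : σ * ρ ∉ Td h (dir a (τ a)) := by
        intro h7
        apply h4
        have := (Td h (dir a (τ a))).mul_mem ((Td h (dir a (τ a))).inv_mem h2) h7
        simpa [mul_assoc] using this
      have h8 := hc1 _ τ h1 (σ * ρ) ((T h).mul_mem hσ h3) h6
      -- τ σ ρ = σ ρ τ = σ τ ρ
      have h9 : (σ * τ) * ρ = (τ * σ) * ρ := by
        rw [mul_assoc, h5, ← mul_assoc, ← h8, mul_assoc]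
      exact mul_right_cancel h9
    · exact (hc1 _ τ h1 σ hσ h2).symm
  -- a prime
  have hV2 : Fintype.card V ≠ 1 := by
    obtain ⟨u, -⟩ := h.dirs
    obtain ⟨y, z, hay, -⟩ := h.three a u
    intro h1
    have := Fintype.card_le_one_iff.1 h1.le a y
    exact hay this
  obtain ⟨p, hp, hpd⟩ := Nat.exists_prime_and_dvd hV2
  have : Fact p.Prime := ⟨hp⟩
  have : Finite (T h) := inferInstance
  obtain ⟨s, hs⟩ := exists_prime_orderOf_dvd_card' (G := T h) p (by rw [hcard]; exact hpd)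
  set σ : Equiv.Perm V := (s : Equiv.Perm V) with hσdef
  have hσT : σ ∈ T h := s.2
  have hσ1 : σ ≠ 1 := by
    intro h1
    have : s = 1 := Subtype.ext h1
    rw [this, orderOf_one] at hs
    exact hp.one_lt.ne hs
  have hσp : σ ^ p = 1 := by
    have : s ^ p = 1 := by rw [← hs]; exact pow_orderOf_eq_one s
    have h2 := congrArg (fun t : T h => (t : Equiv.Perm V)) this
    simpa using h2
  have hσu := mem_Td h hσT a
  set u : D := dir a (σ a) with hu
  have hmulpow : ∀ x ∈ T h, ∀ y ∈ T h, ∀ n : ℕ, (x * y) ^ n = x ^ n * y ^ n := by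
    intro x hx y hy n
    exact (show Commute x y from hcomm x hx y hy).mul_pow n
  have hoff : ∀ τ ∈ T h, τ ∉ Td h u → τ ^ p = 1 := by
    intro τ hτ hτu
    by_contra hne
    have h1 := mem_Td h hτ a
    set v : D := dir a (τ a) with hv
    have hστ : σ * τ ∈ T h := (T h).mul_mem hσT hτ
    have h2 := mem_Td h hστ a
    set w : D := dir a ((σ * τ) a) with hw
    have h3 : τ ^ p ∈ Td h w := by
      have : (σ * τ) ^ p = τ ^ p := by rw [hmulpow σ hσT τ hτ, hσp, one_mul]
      rw [← this]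
      exact (Td h w).pow_mem h2 p
    have h4 : τ ^ p ∈ Td h v := (Td h v).pow_mem h1 p
    have h5 : v = w := by
      by_contra h6
      exact hne (Td_inter h h6 h4 h3)
    rw [← h5] at h2
    have h6 : σ ∈ Td h v := by
      have := (Td h v).mul_mem h2 ((Td h v).inv_mem h1)
      simpa [mul_assoc] using this
    have h7 : u = v := by
      by_contra h8
      exact hσ1 (Td_inter h h8 hσu h6)
    exact hτu (h7 ▸ h1)
  have hall : ∀ τ ∈ T h, τ ^ p = 1 := by
    intro τ hτ
    by_cases hτu : τ ∈ Td h u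
    · obtain ⟨ρ, h3, h4⟩ := hout u
      have h5 := hoff ρ h3 h4
      have h6 : τ * ρ ∉ Td h u := by
        intro h7
        apply h4
        have := (Td h u).mul_mem ((Td h u).inv_mem hτu) h7
        simpa [mul_assoc] using this
      have h7 := hoff (τ * ρ) ((T h).mul_mem hτ h3) h6
      rw [hmulpow τ hτ ρ h3, h5, mul_one] at h7
      exact h7
    · exact hoff τ hτ hτu
  have hpg : IsPGroup p (T h) := by
    intro g
    refine ⟨1, ?_⟩
    rw [pow_one]
    apply Subtype.ext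
    simpa using hall g g.2
  obtain ⟨k, hk⟩ := hpg.exists_card_eq
  exact ⟨p, k, hp, by rw [← hcard, hk]⟩

end Pool.Agent.Lib.MP_5cdc53_co.PP
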