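import Pool.Agent.Lib.MP_5cdc53_co.PP.Stmts3

/-!
# PP-KerG: the kernel of an `(n, k, L)`-system with more than `C n ^ (|L| - 1)` members
-/

set_option autoImplicit false

namespace Pool.Agent.Lib.MP_5cdc53_co.PP

open Finset

/-- a subfamily whose members pairwise meet in more than `b` points -/
theorem kerG_erase {n k b : ℕ} {L : Finset ℕ} (F G : Finset (Finset (Fin n)))
    (hF : IsSystem n k L F) (hG : G ⊆ F)
    (h : ∀ Y ∈ G, ∀ Z ∈ G, Y ≠ Z → b < (Y ∩ Z).card) : IsSystem n k (L.erase b) G := by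
  refine ⟨fun Y hY => hF.1 Y (hG hY), fun Y hY Z hZ hne => ?_⟩
  have h1 := h Y hY Z hZ hne
  exact Finset.mem_erase.2 ⟨by omega, hF.2 Y (hG hY) Z (hG hZ) hne⟩

theorem stKerG (hTriv : StTriv) (hTrace : StTrace) : StKerG := by
  classical
  intro k L b hb hmin _
  obtain ⟨C', hC'⟩ := hTriv k (L.erase b)
  refine ⟨1 + 2 ^ k * ((k + 1) * C'), ?_⟩
  intro n hn F hF hbig
  have hcardL : (L.erase b).card = L.card - 1 := Finset.card_erase_of_mem hb
  set s := L.card - 1 with hs
  have hns : 1 ≤ n ^ s := Nat.one_le_pow _ _ hn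
  have hFne : F.Nonempty := Finset.card_pos.1 (by omega)
  obtain ⟨X, hX⟩ := hFne
  obtain ⟨E, hE, G, hG, hY, hcard⟩ := hTrace n k L F X hF hX
  have hGbig : (k + 1) * (C' * n ^ s) < G.card := by
    by_contra hlt
    push Not at hlt
    have h2 : 2 ^ k * G.card ≤ 2 ^ k * ((k + 1) * (C' * n ^ s)) := Nat.mul_le_mul_left _ hlt
    have h3 : (1 + 2 ^ k * ((k + 1) * C')) * n ^ s =
        n ^ s + 2 ^ k * ((k + 1) * (C' * n ^ s)) := by ring
    omega
  have hexp : (k + 1) * (C' * n ^ s) = k * (C' * n ^ s) + C' * n ^ s := by ring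
  have hs' : ∀ Y ∈ G, E ⊆ Y := by
    intro Z hZ
    rw [← (hY Z hZ).2]
    exact Finset.inter_subset_left
  have hGne : G.Nonempty := Finset.card_pos.1 (by omega)
  obtain ⟨Y0, hY0⟩ := hGne
  have hEL : E.card ∈ L := by
    have h2 := hF.2 Y0 (hG hY0) X hX (hY Y0 hY0).1
    rw [(hY Y0 hY0).2] at h2
    exact h2
  have hEb : E.card = b := by
    by_contra hne
    have hlt : b < E.card := lt_of_le_of_ne (hmin _ hEL) (Ne.symm hne)
    have h1 := hC' n hn G (kerG_erase F G hF hG (fun Y hY1 Z hZ1 _ =>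
      lt_of_lt_of_le hlt (Finset.card_le_card (Finset.subset_inter (hs' Y hY1) (hs' Z hZ1)))))
    rw [hcardL] at h1
    omega
  refine ⟨E, hEb, ?_, X, hX, Y0, hG hY0, ?_⟩
  · intro Z hZ
    have hex : ∃ Y ∈ G, Disjoint Y (Z \ E) := by
      by_contra hno
      push Not at hno
      have hcov : G ⊆ (Z \ E).biUnion (fun x => G.filter (fun Y => x ∈ Y)) := by
        intro Y hY1
        have h1 := hno Y hY1
        rw [Finset.not_disjoint_iff] at h1
        obtain ⟨x, hxY, hxU⟩ := h1
        rw [Finset.mem_biUnion]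
        exact ⟨x, hxU, Finset.mem_filter.2 ⟨hY1, hxY⟩⟩
      have h1 : ((Z \ E).biUnion (fun x => G.filter (fun Y => x ∈ Y))).card ≤
          (Z \ E).card * (C' * n ^ s) := by
        refine Finset.card_biUnion_le_card_mul _ _ _ (fun x hx => ?_)
        have hsub : G.filter (fun Y => x ∈ Y) ⊆ F := (Finset.filter_subset _ _).trans hG
        have h2 := hC' n hn (G.filter (fun Y => x ∈ Y))
          (kerG_erase F _ hF hsub (fun Y hY1 W hW1 _ => by
            rw [Finset.mem_filter] at hY1 hW1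
            have h3 : insert x E ⊆ Y ∩ W := by
              intro t ht
              rcases Finset.mem_insert.1 ht with rfl | ht
              · exact Finset.mem_inter.2 ⟨hY1.2, hW1.2⟩
              · exact Finset.mem_inter.2 ⟨hs' Y hY1.1 ht, hs' W hW1.1 ht⟩
            have h4 := Finset.card_le_card h3
            rw [Finset.card_insert_of_notMem (Finset.mem_sdiff.1 hx).2] at h4
            omega))
        rw [hcardL] at h2
        exact h2
      have h2 := Finset.card_le_card hcov
      have h3 : (Z \ E).card ≤ k := by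
        calc (Z \ E).card ≤ Z.card := Finset.card_le_card Finset.sdiff_subset
          _ = k := hF.1 Z hZ
      have h4 : (Z \ E).card * (C' * n ^ s) ≤ k * (C' * n ^ s) := Nat.mul_le_mul_right _ h3
      omega
    obtain ⟨Y, hYG, hdis⟩ := hex
    by_cases hZY : Z = Y
    · rw [hZY]
      exact hs' Y hYG
    · have h1 := hmin _ (hF.2 Z hZ Y (hG hYG) hZY)
      have h2 : Z ∩ Y ⊆ E := by
        intro x hx
        rw [Finset.mem_inter] at hx
        by_contra hxE
        exact (Finset.disjoint_left.1 hdis) hx.2 (Finset.mem_sdiff.2 ⟨hx.1, hxE⟩)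
      have h4 : Z ∩ Y = E := Finset.eq_of_subset_of_card_le h2 (by omega)
      rw [← h4]
      exact Finset.inter_subset_left
  · rw [Finset.inter_comm]
    exact (hY Y0 hY0).2

end Pool.Agent.Lib.MP_5cdc53_co.PP
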