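import Pool.Agent.Lib.MP_5cdc53_co.PP.Stmts

/-!
# Module LinesP (helper16): the lines on the members of a large `(n, v, {0, 1, f})`-system
-/

set_option autoImplicit false

namespace Pool.Agent.Lib.MP_5cdc53_co.PP

open Finset

namespace LinesAux

/-- a large `(n, v, {f})`-system is a sunflower -/
theorem sunflower (hT : StTrace) {n v f : ℕ} {G : Finset (Finset (Fin n))}
    (hG : IsSystem n v {f} G) (hc : 1 + 2 ^ v * v < G.card) :
    ∃ E : Finset (Fin n), E.card = f ∧ (∀ X ∈ G, E ⊆ X) ∧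
      ∀ X ∈ G, ∀ Y ∈ G, X ≠ Y → X ∩ Y = E := by
  obtain ⟨X0, hX0⟩ : G.Nonempty := by
    rw [← Finset.card_pos]; omega
  obtain ⟨E, hEX, T, hTG, hT1, hT2⟩ := hT n v {f} G X0 hG hX0
  have hTc : v < T.card := by
    by_contra h
    push Not at h
    have : 2 ^ v * T.card ≤ 2 ^ v * v := Nat.mul_le_mul_left _ h
    omega
  have hTne : T.Nonempty := by
    rw [← Finset.card_pos]; omega
  obtain ⟨Y1, hY1⟩ := hTne
  have hEf : E.card = f := by
    have h1 := hT1 Y1 hY1
    have h2 := hG.2 Y1 (hTG hY1) X0 hX0 h1.1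
    rw [h1.2] at h2
    simpa using h2
  have hcap : ∀ X ∈ G, ∀ Y ∈ G, X ≠ Y → (X ∩ Y).card = f := by
    intro X hX Y hY hne
    simpa using hG.2 X hX Y hY hne
  have hET : ∀ Y ∈ T, E ⊆ Y := by
    intro Y hY
    rw [← (hT1 Y hY).2]
    exact Finset.inter_subset_left
  have hTT : ∀ Y ∈ T, ∀ Y' ∈ T, Y ≠ Y' → Y ∩ Y' = E := by
    intro Y hY Y' hY' hne
    symm
    refine Finset.eq_of_subset_of_card_le (Finset.subset_inter (hET Y hY) (hET Y' hY')) ?_
    rw [hcap Y (hTG hY) Y' (hTG hY') hne, hEf]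
  have hall : ∀ Z ∈ G, E ⊆ Z := by
    intro Z hZ
    by_cases hZT : Z ∈ T
    · exact hET Z hZT
    by_cases hex : ∃ Y ∈ T, Z ∩ (Y \ E) = ∅
    · obtain ⟨Y, hY, hYe⟩ := hex
      have hne : Z ≠ Y := fun h => hZT (h ▸ hY)
      have h1 : Z ∩ Y ⊆ E := by
        intro w hw
        by_contra hwE
        have : w ∈ Z ∩ (Y \ E) := by
          simp only [Finset.mem_inter, Finset.mem_sdiff] at hw ⊢
          exact ⟨hw.1, hw.2, hwE⟩
        rw [hYe] at this
        simp at this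
      have h2 : Z ∩ Y = E := by
        refine Finset.eq_of_subset_of_card_le h1 ?_
        rw [hcap Z hZ Y (hTG hY) hne, hEf]
      rw [← h2]
      exact Finset.inter_subset_left
    · exfalso
      push Not at hex
      have hex' : ∀ Y ∈ T, ∃ w, w ∈ Z ∧ w ∈ Y ∧ w ∉ E := by
        intro Y hY
        obtain ⟨w, hw⟩ := hex Y hY
        simp only [Finset.mem_inter, Finset.mem_sdiff] at hw
        exact ⟨w, hw.1, hw.2.1, hw.2.2⟩
      have : Nonempty (Fin n) := ⟨(hex' Y1 hY1).choose⟩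
      choose! φ hφ using hex'
      have h3 : T.card ≤ Z.card := by
        refine Finset.card_le_card_of_injOn φ (fun Y hY => (hφ Y hY).1) ?_
        intro Y hY Y' hY' he
        by_contra hne
        have h4 := hTT Y hY Y' hY' hne
        have h5 : φ Y ∈ Y ∩ Y' := by
          rw [Finset.mem_inter]
          exact ⟨(hφ Y hY).2.1, he ▸ (hφ Y' hY').2.1⟩
        rw [h4] at h5
        exact (hφ Y hY).2.2 h5
      rw [hG.1 Z hZ] at h3
      omega
  refine ⟨E, hEf, hall, ?_⟩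
  intro X hX Y hY hne
  symm
  refine Finset.eq_of_subset_of_card_le (Finset.subset_inter (hall X hX) (hall Y hY)) ?_
  rw [hcap X hX Y hY hne, hEf]

end LinesAux

open LinesAux in
theorem stLines (hT : StTrace) : StLines := by
  classical
  intro v f hf2 _hfv
  refine ⟨1 + 2 ^ v * v + 1, ?_⟩
  intro n _hn F hF
  set K0 := 1 + 2 ^ v * v + 1 with hK0
  set G : Fin n → Fin n → Finset (Finset (Fin n)) := fun x y =>
    F.filter (fun X => x ∈ X ∧ y ∈ X) with hGdef
  have hGsys : ∀ x y, x ≠ y → IsSystem n v {f} (G x y) := by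
    intro x y hxy
    refine ⟨fun X hX => hF.1 X (Finset.mem_filter.mp hX).1, ?_⟩
    intro X hX Y hY hne
    obtain ⟨hX1, hX2, hX3⟩ := Finset.mem_filter.mp hX
    obtain ⟨hY1, hY2, hY3⟩ := Finset.mem_filter.mp hY
    have h1 := hF.2 X hX1 Y hY1 hne
    have h2 : 2 ≤ (X ∩ Y).card := by
      have h3 : ({x, y} : Finset (Fin n)) ⊆ X ∩ Y := by
        intro w hw
        simp only [Finset.mem_insert, Finset.mem_singleton] at hw
        rcases hw with rfl | rfl
        · exact Finset.mem_inter.mpr ⟨hX2, hY2⟩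
        · exact Finset.mem_inter.mpr ⟨hX3, hY3⟩
      have h4 := Finset.card_le_card h3
      rwa [Finset.card_pair hxy] at h4
    simp only [Finset.mem_insert, Finset.mem_singleton] at h1 ⊢
    omega
  have hex : ∀ x y, ∃ A : Finset (Fin n), x ≠ y → K0 < (G x y).card →
      A.card = f ∧ (∀ X ∈ G x y, A ⊆ X) ∧ ∀ X ∈ G x y, ∀ Y ∈ G x y, X ≠ Y → X ∩ Y = A := by
    intro x y
    by_cases h : x ≠ y ∧ K0 < (G x y).card
    · obtain ⟨E, hE⟩ := sunflower hT (hGsys x y h.1) (by omega)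
      exact ⟨E, fun _ _ => hE⟩
    · exact ⟨∅, fun h1 h2 => absurd ⟨h1, h2⟩ h⟩
  choose A hA using hex
  set M := F.filter (fun X => ∀ x ∈ X, ∀ y ∈ X, x ≠ y → K0 < (G x y).card) with hM
  have hrich : ∀ X ∈ M, ∀ x ∈ X, ∀ y ∈ X, x ≠ y → K0 < (G x y).card := fun X hX =>
    (Finset.mem_filter.mp hX).2
  have hMF : M ⊆ F := Finset.filter_subset _ _
  refine ⟨M, hMF, A, ⟨?_, ?_, ?_⟩, ?_⟩
  · intro X hX
    exact hF.1 X (hMF hX)
  · intro X hX x hx y hy hxy
    have hr := hrich X hX x hx y hy hxy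
    obtain ⟨h1, h2, h3⟩ := hA x y hxy hr
    have hXG : X ∈ G x y := Finset.mem_filter.mpr ⟨hMF hX, hx, hy⟩
    obtain ⟨X1, hX1, X2, hX2, h12⟩ := Finset.one_lt_card.mp (by omega : 1 < (G x y).card)
    have h4 := h3 X1 hX1 X2 hX2 h12
    obtain ⟨-, a1, a2⟩ := Finset.mem_filter.mp hX1
    obtain ⟨-, b1, b2⟩ := Finset.mem_filter.mp hX2
    refine ⟨?_, ?_, h2 X hXG, h1, ?_⟩
    · rw [← h4]; exact Finset.mem_inter.mpr ⟨a1, b1⟩
    · rw [← h4]; exact Finset.mem_inter.mpr ⟨a2, b2⟩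
    · intro z hz w hw hzw
      have hzX : z ∈ X := h2 X hXG hz
      have hwX : w ∈ X := h2 X hXG hw
      have hr' := hrich X hX z hzX w hwX hzw
      obtain ⟨-, -, g3⟩ := hA z w hzw hr'
      have hz' := hz
      have hw' := hw
      rw [← h4] at hz' hw'
      obtain ⟨z1, z2⟩ := Finset.mem_inter.mp hz'
      obtain ⟨w1, w2⟩ := Finset.mem_inter.mp hw'
      have c1 : X1 ∈ G z w := Finset.mem_filter.mpr ⟨(Finset.mem_filter.mp hX1).1, z1, w1⟩
      have c2 : X2 ∈ G z w := Finset.mem_filter.mpr ⟨(Finset.mem_filter.mp hX2).1, z2, w2⟩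
      rw [← g3 X1 c1 X2 c2 h12, h4]
  · intro X hX Y hY hne x hx y hy hxy
    obtain ⟨hx1, hx2⟩ := Finset.mem_inter.mp hx
    obtain ⟨hy1, hy2⟩ := Finset.mem_inter.mp hy
    have hr := hrich X hX x hx1 y hy1 hxy
    exact (hA x y hxy hr).2.2 X (Finset.mem_filter.mpr ⟨hMF hX, hx1, hy1⟩) Y
      (Finset.mem_filter.mpr ⟨hMF hY, hx2, hy2⟩) hne
  · have hsub : F ⊆ M ∪ (univ : Finset (Fin n × Fin n)).biUnion
        (fun p => if K0 < (G p.1 p.2).card then ∅ else G p.1 p.2) := by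
      intro X hX
      by_cases hXM : X ∈ M
      · exact Finset.mem_union_left _ hXM
      · refine Finset.mem_union_right _ ?_
        have h1 : ¬ ∀ x ∈ X, ∀ y ∈ X, x ≠ y → K0 < (G x y).card := fun h =>
          hXM (Finset.mem_filter.mpr ⟨hX, h⟩)
        push Not at h1
        obtain ⟨x, hx, y, hy, hxy, hle⟩ := h1
        rw [Finset.mem_biUnion]
        refine ⟨(x, y), Finset.mem_univ _, ?_⟩
        rw [if_neg (by simpa using hle)]
        exact Finset.mem_filter.mpr ⟨hX, hx, hy⟩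
    refine (Finset.card_le_card hsub).trans ((Finset.card_union_le _ _).trans ?_)
    refine Nat.add_le_add_left (Finset.card_biUnion_le.trans ?_) _
    have h2 : ∀ p ∈ (univ : Finset (Fin n × Fin n)),
        (if K0 < (G p.1 p.2).card then (∅ : Finset (Finset (Fin n))) else G p.1 p.2).card
          ≤ K0 := by
      intro p _
      split_ifs with h
      · simp
      · exact not_lt.mp h
    refine (Finset.sum_le_card_nsmul _ _ _ h2).trans (le_of_eq ?_)
    rw [Finset.card_univ, Fintype.card_prod, Fintype.card_fin, smul_eq_mul]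
    ring

end Pool.Agent.Lib.MP_5cdc53_co.PP
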