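import Pool.Agent.Lib.MP_5cdc53_co.PP.Stmts
import Pool.Agent.Lib.MP_5cdc53_co.PP.Lin72

/-!
Positive part: projective spaces and their truncations (module PG).
-/

set_option autoImplicit false

namespace Pool.Agent.Lib.MP_5cdc53_co.PP

open Finset
open Pool.Agent.Lib.MP_5cdc53_co (Zs fullGrowth_of_vectors)
open scoped LinearAlgebra.Projectivization

namespace PGAux

variable {k K : Type} [Field k] [Fintype k] [Field K] [Fintype K] [Algebra k K]

/-- the points of a subspace -/
lemma card_points (W : Submodule k K) :
    Nat.card {v : ℙ k K // v.rep ∈ W} = ∑ j ∈ range (Module.finrank k W), Fintype.card k ^ j := by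
  have h1 : Nat.card (ℙ k W) = ∑ j ∈ range (Module.finrank k W), Nat.card k ^ j :=
    Projectivization.card_of_finrank k W rfl
  rw [← Nat.card_eq_fintype_card, ← h1]
  symm
  have hinj : Function.Injective W.subtype := W.injective_subtype
  refine Nat.card_congr (Equiv.ofBijective
    (fun v : ℙ k W => (⟨Projectivization.map W.subtype hinj v, ?_⟩ : {v : ℙ k K // v.rep ∈ W})) ?_)
  · induction v using Projectivization.ind with
    | h w hw =>
      rw [Projectivization.map_mk]
      obtain ⟨a, ha⟩ := Projectivization.exists_smul_eq_mk_rep k (W.subtype w)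
        (by simpa using hw)
      rw [← ha]
      exact W.smul_mem _ w.2
  · constructor
    · intro v v' h
      exact Projectivization.map_injective _ hinj (congrArg Subtype.val h)
    · rintro ⟨v, hv⟩
      refine ⟨Projectivization.mk k (⟨v.rep, hv⟩ : W) ?_, ?_⟩
      · intro h
        exact v.rep_nonzero (congrArg Subtype.val h)
      · apply Subtype.ext
        simp only [Projectivization.map_mk]
        exact v.mk_rep

end PGAux

open PGAux in
/-- **PG** -/
theorem stPG : StPG := by
  classical
  intro q m s hq hs hsm
  obtain ⟨p, a, hp, ha, rfl⟩ := hq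
  have : Fact (Nat.Prime p) := ⟨hp.nat_prime⟩
  let k := GaloisField p a
  have : Fintype k := Fintype.ofFinite k
  have hk : Fintype.card k = p ^ a := by
    rw [← Nat.card_eq_fintype_card]
    exact GaloisField.card p a ha.ne'
  have : NeZero (m + 1) := ⟨Nat.succ_ne_zero m⟩
  let K := FiniteField.Extension k p (m + 1)
  have : Fintype K := Fintype.ofFinite K
  have hfin : Module.finrank k K = m + 1 := FiniteField.finrank_extension k p (m + 1)
  have : Fintype (ℙ k K) := Fintype.ofFinite _
  have hN : Fintype.card (ℙ k K) = ∑ j ∈ range (m + 1), (p ^ a) ^ j := by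
    rw [← Nat.card_eq_fintype_card, Projectivization.card_of_finrank k K hfin,
      Nat.card_eq_fintype_card, hk]
  have hq1 : 1 < p ^ a := by
    rw [← hk]
    exact Fintype.one_lt_card
  set N := ∑ j ∈ range (m + 1), (p ^ a) ^ j with hNdef
  let e : Fin N ≃ ℙ k K := (Fintype.equivFinOfCardEq hN).symm
  let v : Fin N → Fin s → K := fun i t => (e i).rep ^ (Fintype.card k ^ (t : ℕ))
  have hmono : StrictMono (fun i : ℕ => ∑ j ∈ range i, (p ^ a) ^ j) := by
    refine strictMono_nat_of_lt_succ fun i => ?_
    simp only [sum_range_succ]
    have : 0 < (p ^ a) ^ i := by positivity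
    omega
  refine fullGrowth_of_vectors (K := K) (k := N) (s := s) ?_ v _ ?_ ?_ ?_
  · rw [hNdef, sum_range_succ]
    positivity
  · simp only [mem_image, mem_range, not_exists, not_and]
    intro i hi h
    have := hmono (show i < m + 1 by omega)
    simp only at this
    omega
  · rw [card_image_of_injective _ hmono.injective, card_range]
  · intro r D hD
    have h1 : (Zs v D).card = ∑ j ∈ range (Module.finrank k (Lin.ker k D)), (p ^ a) ^ j := by
      rw [← hk, ← card_points (Lin.ker k D), ← Fintype.card_coe, ← Nat.card_eq_fintype_card]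
      refine Nat.card_congr (Equiv.subtypeEquiv e fun i => ?_)
      rw [Lin.mem_ker]
      simp only [Zs, mem_filter, mem_univ, true_and, v]
    rw [h1]
    exact mem_image_of_mem _ (mem_range.2 (Lin.finrank_ker_lt D hD))

end Pool.Agent.Lib.MP_5cdc53_co.PP
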