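import Pool.Agent.Lib.MP_5cdc53_co.PP.Stmts3

/-!
# PP/QuoG: quotient by atoms, general `L` (adapted from helper45's PP/Quo)
-/

set_option autoImplicit false

namespace Pool.Agent.Lib.MP_5cdc53_co.PP

open Finset

theorem quoG_step (b k C m : ℕ) (L : Finset ℕ)
    (hK : ∀ n : ℕ, 1 ≤ n → ∀ F : Finset (Finset (Fin n)), IsSystem n k (L.erase 0) F →
      C * n ^ m < F.card → ∃ D : Finset (Fin n), D.card = b ∧ (∀ X ∈ F, D ⊆ X) ∧
        ∃ X ∈ F, ∃ Y ∈ F, X ∩ Y = D)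
    (n : ℕ) (hn : 1 ≤ n) (F : Finset (Finset (Fin n))) (hF : IsSystem n k L F) :
    ∃ F1, F1 ⊆ F ∧ F.card ≤ F1.card + C * n ^ (m + 1) ∧ ∃ φ : Finset (Fin n) → Finset (Fin n),
      ∀ X ∈ F1, ∀ Y ∈ F1, (X ∩ Y).card = b * (φ X ∩ φ Y).card := by
  classical
  set T : ℕ := C * n ^ m with hT
  set Fx : Fin n → Finset (Finset (Fin n)) := fun x => F.filter (fun X => x ∈ X) with hFx
  have memFx : ∀ x X, X ∈ Fx x ↔ X ∈ F ∧ x ∈ X := by
    intro x X; simp [hFx]
  have hsys : ∀ x, IsSystem n k (L.erase 0) (Fx x) := by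
    intro x
    refine ⟨fun A hA => hF.1 A ((memFx _ _).1 hA).1, fun A hA B hB hAB => ?_⟩
    have hA' := (memFx _ _).1 hA
    have hB' := (memFx _ _).1 hB
    have h1 := hF.2 A hA'.1 B hB'.1 hAB
    have h2 : 0 < (A ∩ B).card := Finset.card_pos.2 ⟨x, Finset.mem_inter.2 ⟨hA'.2, hB'.2⟩⟩
    exact Finset.mem_erase.2 ⟨by omega, h1⟩
  have hD : ∀ x, ∃ D : Finset (Fin n), T < (Fx x).card → D.card = b ∧
      (∀ X ∈ Fx x, D ⊆ X) ∧ ∃ X ∈ Fx x, ∃ Y ∈ Fx x, X ∩ Y = D := by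
    intro x
    by_cases h : T < (Fx x).card
    · obtain ⟨D, h1⟩ := hK n hn (Fx x) (hsys x) h
      exact ⟨D, fun _ => h1⟩
    · exact ⟨∅, fun h' => absurd h' h⟩
  choose D hD using hD
  have hself : ∀ x, T < (Fx x).card → x ∈ D x := by
    intro x hx
    obtain ⟨_, _, X, hX, Y, hY, hXY⟩ := hD x hx
    rw [← hXY]
    exact Finset.mem_inter.2 ⟨((memFx _ _).1 hX).2, ((memFx _ _).1 hY).2⟩
  have hDeq : ∀ x, T < (Fx x).card → ∀ y ∈ D x, T < (Fx y).card ∧ D y = D x := by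
    intro x hx y hy
    obtain ⟨h1, h2, X, hX, Y, hY, hXY⟩ := hD x hx
    have hsub : Fx x ⊆ Fx y := by
      intro Z hZ
      exact (memFx _ _).2 ⟨((memFx _ _).1 hZ).1, h2 Z hZ hy⟩
    have hy' : T < (Fx y).card := lt_of_lt_of_le hx (Finset.card_le_card hsub)
    obtain ⟨g1, g2, _⟩ := hD y hy'
    refine ⟨hy', Finset.eq_of_subset_of_card_le ?_ (by rw [h1, g1])⟩
    rw [← hXY]
    exact Finset.subset_inter (g2 X (hsub hX)) (g2 Y (hsub hY))
  let rep : Fin n → Fin n := fun x => if h : (D x).Nonempty then (D x).min' h else x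
  have hrepmem : ∀ x, T < (Fx x).card → rep x ∈ D x := by
    intro x hx
    have hne : (D x).Nonempty := ⟨x, hself x hx⟩
    simp only [rep, dif_pos hne]
    exact Finset.min'_mem _ _
  have hrep1 : ∀ x y, T < (Fx x).card → T < (Fx y).card → D x = D y → rep x = rep y := by
    intro x y hx hy h
    have hne : (D x).Nonempty := ⟨x, hself x hx⟩
    have hne' : (D y).Nonempty := ⟨y, hself y hy⟩
    simp only [rep, dif_pos hne, dif_pos hne']
    congr 1
  have hrep2 : ∀ x y, T < (Fx x).card → T < (Fx y).card → rep x = rep y → D x = D y := by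
    intro x y hx hy h
    have h1 := (hDeq x hx _ (hrepmem x hx)).2
    have h2 := (hDeq y hy _ (hrepmem y hy)).2
    rw [← h1, ← h2, h]
  set F1 := F.filter (fun X => ∀ x ∈ X, T < (Fx x).card) with hF1
  have memF1 : ∀ X, X ∈ F1 ↔ X ∈ F ∧ ∀ x ∈ X, T < (Fx x).card := by
    intro X; simp [hF1]
  refine ⟨F1, Finset.filter_subset _ _, ?_, fun X => X.image rep, ?_⟩
  · have hsub : F ⊆ F1 ∪ (univ.filter (fun x => ¬ T < (Fx x).card)).biUnion Fx := by
      intro X hX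
      by_cases h : ∀ x ∈ X, T < (Fx x).card
      · exact Finset.mem_union_left _ ((memF1 X).2 ⟨hX, h⟩)
      · push Not at h
        obtain ⟨x, hx, hx'⟩ := h
        refine Finset.mem_union_right _ (Finset.mem_biUnion.2 ⟨x, ?_, (memFx _ _).2 ⟨hX, hx⟩⟩)
        simpa using hx'
    have h1 := (Finset.card_le_card hsub).trans (Finset.card_union_le _ _)
    have h2 : ((univ.filter (fun x => ¬ T < (Fx x).card)).biUnion Fx).card ≤ n * T := by
      refine (Finset.card_biUnion_le_card_mul _ _ T ?_).trans ?_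
      · intro x hx
        rw [Finset.mem_filter] at hx
        exact not_lt.1 hx.2
      · apply Nat.mul_le_mul_right
        refine (Finset.card_filter_le _ _).trans ?_
        simp
    calc F.card ≤ F1.card + n * T := by omega
      _ = F1.card + C * n ^ (m + 1) := by rw [hT]; ring
  · intro X hX Y hY
    have hX' := (memF1 X).1 hX
    have hY' := (memF1 Y).1 hY
    have hDX : ∀ x ∈ X, D x ⊆ X := fun x hx =>
      (hD x (hX'.2 x hx)).2.1 X ((memFx _ _).2 ⟨hX'.1, hx⟩)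
    have hDY : ∀ x ∈ Y, D x ⊆ Y := fun x hx =>
      (hD x (hY'.2 x hx)).2.1 Y ((memFx _ _).2 ⟨hY'.1, hx⟩)
    have himg : X.image rep ∩ Y.image rep = (X ∩ Y).image rep := by
      ext r
      simp only [Finset.mem_inter, Finset.mem_image]
      constructor
      · rintro ⟨⟨x, hx, hxr⟩, ⟨y, hy, hyr⟩⟩
        have h1 := hrep2 x y (hX'.2 x hx) (hY'.2 y hy) (hxr.trans hyr.symm)
        refine ⟨y, ⟨?_, hy⟩, hyr⟩
        apply hDX x hx
        rw [h1]
        exact hself y (hY'.2 y hy)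
      · rintro ⟨z, ⟨hz1, hz2⟩, hz⟩
        exact ⟨⟨z, hz1, hz⟩, ⟨z, hz2, hz⟩⟩
    show (X ∩ Y).card = b * (X.image rep ∩ Y.image rep).card
    rw [himg, Finset.card_eq_sum_card_image rep (X ∩ Y)]
    rw [Finset.sum_congr rfl (g := fun _ => b), Finset.sum_const, smul_eq_mul, mul_comm]
    intro r hr
    obtain ⟨x, hx, rfl⟩ := Finset.mem_image.1 hr
    have hx1 := (Finset.mem_inter.1 hx).1
    have hx2 := (Finset.mem_inter.1 hx).2
    have hrich := hX'.2 x hx1
    have : (X ∩ Y).filter (fun z => rep z = rep x) = D x := by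
      ext z
      simp only [Finset.mem_filter, Finset.mem_inter]
      constructor
      · rintro ⟨⟨hz1, hz2⟩, hz⟩
        have := hrep2 z x (hX'.2 z hz1) hrich hz
        rw [← this]
        exact hself z (hX'.2 z hz1)
      · intro hz
        have h1 := hDeq x hrich z hz
        exact ⟨⟨hDX x hx1 hz, hDY x hx2 hz⟩, hrep1 z x h1.1 hrich h1.2⟩
    rw [this]
    exact (hD x hrich).1

theorem stQuoG (hTriv : StTriv) (hKer : StKerG) : StQuoG := by
  classical
  intro k L b h0 hbL hb hmin hLk ⟨ε, hε, hW⟩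
  have hb1 : b ∈ L.erase 0 := Finset.mem_erase.2 ⟨by omega, hbL⟩
  obtain ⟨C, hC⟩ := hKer k (L.erase 0) b hb1 (by
    intro l hl
    rw [Finset.mem_erase] at hl
    rcases hmin l hl.2 with h | h
    · exact absurd h hl.1
    · exact h) (fun l hl => hLk l (Finset.mem_of_mem_erase hl))
  choose C' hC' using fun l : ℕ => hTriv k (L.erase l)
  obtain ⟨m, hm⟩ : ∃ m, L.card = m + 2 := by
    have h1 : (L.erase 0).card + 1 = L.card := Finset.card_erase_add_one h0
    have h2 : 0 < (L.erase 0).card := Finset.card_pos.2 ⟨b, hb1⟩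
    exact ⟨L.card - 2, by omega⟩
  have hcE : ∀ l ∈ L, (L.erase l).card = m + 1 := by
    intro l hl
    have h1 : (L.erase l).card + 1 = L.card := Finset.card_erase_add_one hl
    omega
  have hE1 : (L.erase 0).card - 1 = m := by
    rw [hcE 0 h0]; rfl
  rw [hE1] at hC
  rw [hm] at hW
  set Cs : ℕ := ∑ l ∈ L, C' l with hCs
  have hCle : ∀ l ∈ L, C' l ≤ Cs := fun l hl =>
    Finset.single_le_sum (f := C') (fun _ _ => Nat.zero_le _) hl
  -- the main step for each N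
  have hmain : ∀ N : ℕ, ∃ n, N ≤ n ∧ ∃ F1 : Finset (Finset (Fin n)), IsSystem n k L F1 ∧
      ε / 2 * (n : ℝ) ^ (m + 2) ≤ F1.card ∧ (∃ X, X ∈ F1) ∧
      (∀ l ∈ L, ∃ X ∈ F1, ∃ Y ∈ F1, (X ∩ Y).card = l) ∧
      ∃ φ : Finset (Fin n) → Finset (Fin n),
      ∀ X ∈ F1, ∀ Y ∈ F1, (X ∩ Y).card = b * (φ X ∩ φ Y).card := by
    intro N
    obtain ⟨n0, hn0⟩ := exists_nat_gt (2 * ((C : ℝ) + Cs + 1) / ε)
    obtain ⟨n, hn, F, hF, hFc⟩ := hW (max N (max 1 n0))
    have hnN : N ≤ n := le_trans (le_max_left _ _) hn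
    have hn1 : 1 ≤ n := le_trans (le_trans (le_max_left _ _) (le_max_right _ _)) hn
    have hnn0 : n0 ≤ n := le_trans (le_trans (le_max_right _ _) (le_max_right _ _)) hn
    obtain ⟨F1, hF1F, hF1c, φ, hφ⟩ := quoG_step b k C m L hC n hn1 F hF
    have hnpos : (0 : ℝ) < n := by exact_mod_cast hn1
    have hbig : 2 * ((C : ℝ) + Cs + 1) < ε * n := by
      have h1 : 2 * ((C : ℝ) + Cs + 1) / ε < n := lt_of_lt_of_le hn0 (by exact_mod_cast hnn0)
      rw [div_lt_iff₀ hε] at h1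
      linarith
    have hcc : (F.card : ℝ) ≤ F1.card + C * (n : ℝ) ^ (m + 1) := by exact_mod_cast hF1c
    have hn2 : (0 : ℝ) < (n : ℝ) ^ (m + 1) := by positivity
    have hCC0 : (0 : ℝ) ≤ C := Nat.cast_nonneg _
    have hCC1 : (0 : ℝ) ≤ Cs := Nat.cast_nonneg _
    have h3 : ε * (n : ℝ) ^ (m + 2) = (ε * n) * (n : ℝ) ^ (m + 1) := by ring
    have hF1big : ε / 2 * (n : ℝ) ^ (m + 2) ≤ F1.card := by
      have : (C : ℝ) * (n : ℝ) ^ (m + 1) ≤ ε / 2 * (n : ℝ) ^ (m + 2) := by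
        have : (C : ℝ) ≤ ε * n / 2 := by linarith
        calc (C : ℝ) * (n : ℝ) ^ (m + 1) ≤ (ε * n / 2) * (n : ℝ) ^ (m + 1) :=
              mul_le_mul_of_nonneg_right this hn2.le
          _ = ε / 2 * (n : ℝ) ^ (m + 2) := by ring
      linarith
    have hF1gt : (Cs : ℝ) * (n : ℝ) ^ (m + 1) < F1.card := by
      have : (Cs : ℝ) * (n : ℝ) ^ (m + 1) < ε / 2 * (n : ℝ) ^ (m + 2) := by
        have : (Cs : ℝ) < ε * n / 2 := by linarith
        calc (Cs : ℝ) * (n : ℝ) ^ (m + 1) < (ε * n / 2) * (n : ℝ) ^ (m + 1) :=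
              mul_lt_mul_of_pos_right this hn2
          _ = ε / 2 * (n : ℝ) ^ (m + 2) := by ring
      linarith
    have hF1sys : IsSystem n k L F1 :=
      ⟨fun A hA => hF.1 A (hF1F hA), fun A hA B hB => hF.2 A (hF1F hA) B (hF1F hB)⟩
    refine ⟨n, hnN, F1, hF1sys, hF1big, ?_, ?_, φ, hφ⟩
    · have : 0 < F1.card := by
        have : (0 : ℝ) < F1.card := lt_of_le_of_lt (by positivity) hF1gt
        exact_mod_cast this
      exact Finset.card_pos.1 this
    · intro l hl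
      by_contra hno
      push Not at hno
      have hs2 : IsSystem n k (L.erase l) F1 := by
        refine ⟨hF1sys.1, fun A hA B hB hAB => ?_⟩
        exact Finset.mem_erase.2 ⟨hno A hA B hB, hF1sys.2 A hA B hB hAB⟩
      have h5 := hC' l n hn1 F1 hs2
      rw [hcE l hl] at h5
      have h6 : F1.card ≤ Cs * n ^ (m + 1) :=
        h5.trans (Nat.mul_le_mul_right _ (hCle l hl))
      have : (F1.card : ℝ) ≤ Cs * (n : ℝ) ^ (m + 1) := by exact_mod_cast h6
      linarith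
  obtain ⟨n₀, _, F₀, hF₀, _, ⟨X₀, hX₀⟩, hl₀, φ₀, hφ₀⟩ := hmain 0
  have hk' : ∃ k', k = b * k' := by
    refine ⟨(φ₀ X₀ ∩ φ₀ X₀).card, ?_⟩
    have := hφ₀ X₀ hX₀ X₀ hX₀
    rw [← this, Finset.inter_self, hF₀.1 X₀ hX₀]
  have hdvd : ∀ l ∈ L, b ∣ l := by
    intro l hl
    obtain ⟨X, hX, Y, hY, hXY⟩ := hl₀ l hl
    exact ⟨(φ₀ X ∩ φ₀ Y).card, by rw [← hφ₀ X hX Y hY, hXY]⟩
  obtain ⟨k', hk'⟩ := hk'
  have hcardL : (L.image (fun l => l / b)).card = m + 2 := by
    rw [Finset.card_image_of_injOn, hm]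
    intro x hx y hy hxy
    have hx' := Nat.div_mul_cancel (hdvd x hx)
    have hy' := Nat.div_mul_cancel (hdvd y hy)
    simp only at hxy
    rw [← hx', ← hy', hxy]
  refine ⟨k', hk', hdvd, ε / 2, by positivity, ?_⟩
  rw [hcardL]
  intro N
  obtain ⟨n, hn, F1, hF1, hbig, _, _, φ, hφ⟩ := hmain N
  have hinj : ∀ X ∈ F1, ∀ Y ∈ F1, φ X = φ Y → X = Y := by
    intro X hX Y hY h
    have h1 := hφ X hX Y hY
    have h2 := hφ X hX X hX
    rw [← h] at h1
    rw [← h2, Finset.inter_self, hF1.1 X hX] at h1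
    have h3 : X ∩ Y = X := Finset.eq_of_subset_of_card_le Finset.inter_subset_left
      (by rw [h1, hF1.1 X hX])
    have h4 : X ∩ Y = Y := Finset.eq_of_subset_of_card_le Finset.inter_subset_right
      (by rw [h1, hF1.1 Y hY])
    rw [← h3, h4]
  refine ⟨n, hn, F1.image φ, ⟨?_, ?_⟩, ?_⟩
  · intro A hA
    obtain ⟨X, hX, rfl⟩ := Finset.mem_image.1 hA
    have h2 := hφ X hX X hX
    rw [Finset.inter_self, Finset.inter_self, hF1.1 X hX, hk'] at h2
    exact (Nat.eq_of_mul_eq_mul_left hb h2).symm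
  · intro A hA B hB hAB
    obtain ⟨X, hX, rfl⟩ := Finset.mem_image.1 hA
    obtain ⟨Y, hY, rfl⟩ := Finset.mem_image.1 hB
    have hXY : X ≠ Y := fun h => hAB (by rw [h])
    have h1 := hF1.2 X hX Y hY hXY
    refine Finset.mem_image.2 ⟨(X ∩ Y).card, h1, ?_⟩
    show (X ∩ Y).card / b = (φ X ∩ φ Y).card
    rw [hφ X hX Y hY, Nat.mul_div_cancel_left _ hb]
  · rw [Finset.card_image_of_injOn (fun X hX Y hY h => hinj X hX Y hY h)]
    exact hbig

end Pool.Agent.Lib.MP_5cdc53_co.PP
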