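import Pool.Agent.Lib.MP_5cdc53_co.PP.Red5

/-!
# PP/Red4: reduction of a pair with four consecutive entries (helper45, from helper43's Red5)
-/

set_option autoImplicit false

namespace Pool.Agent.Lib.MP_5cdc53_co.PP

open Finset

theorem stRed4 (hSub : StSub) (hBot : StBot) (hTop : StTop) (hQuo : StQuoG) : StRed := by
  intro k L a b c g f v hk ha hb hc hg hab hbc hcg hcons h2 h3 hW
  have w1 := red5_top hTop L.card k L g rfl hk hg hW
  have w2 := red5_bot hBot _ g (L.filter (fun l => l < g)) a rfl
    (fun l hl => (mem_filter.1 hl).2) (mem_filter.2 ⟨ha, by omega⟩) w1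
  have hset : (L.filter (fun l => l < g)).filter (fun l => a ≤ l) = {a, b, c} := by
    ext x
    simp only [mem_filter, mem_insert, mem_singleton]
    constructor
    · rintro ⟨⟨hx, hxg⟩, hax⟩
      have := hcons x (mem_insert_of_mem hx) hax hxg.le
      omega
    · rintro (rfl | rfl | rfl)
      · exact ⟨⟨ha, by omega⟩, by omega⟩
      · exact ⟨⟨hb, by omega⟩, by omega⟩
      · exact ⟨⟨hc, by omega⟩, by omega⟩
  rw [hset] at w2
  have hmem : ∀ l ∈ ({a, b, c} : Finset ℕ), a ≤ l ∧ l < g := by
    intro l hl
    simp only [mem_insert, mem_singleton] at hl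
    omega
  have w3 := hSub g {a, b, c} a (by simp) (fun l hl => (hmem l hl).1)
    (fun l hl => (hmem l hl).2) w2
  have hset2 : ({a, b, c} : Finset ℕ).image (fun l => l - a) = {0, b - a, c - a} := by
    simp only [image_insert, image_singleton, Nat.sub_self]
  rw [hset2] at w3
  have hpos : 0 < b - a := by omega
  obtain ⟨v', hv, -, w4⟩ := hQuo (g - a) {0, b - a, c - a} (b - a) (by simp) (by simp) hpos
    (by
      intro l hl
      simp only [mem_insert, mem_singleton] at hl
      omega)
    (by
      intro l hl
      simp only [mem_insert, mem_singleton] at hl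
      omega) w3
  have hv' : v' = v := by
    rw [h3, mul_comm v] at hv
    exact (Nat.eq_of_mul_eq_mul_left hpos hv).symm
  have hset3 : ({0, b - a, c - a} : Finset ℕ).image (fun l => l / (b - a)) = {0, 1, f} := by
    rw [h2]
    simp only [image_insert, image_singleton, Nat.zero_div, Nat.div_self hpos,
      Nat.mul_div_cancel _ hpos]
  rw [hset3, hv'] at w4
  exact w4

end Pool.Agent.Lib.MP_5cdc53_co.PP
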