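import Pool.Agent.Lib.MP_5cdc53_co.PP.Stmts

/-!
# PP-Sets (helper65): non-uniformity is witnessed by 0/1-valued functions
-/

set_option autoImplicit false

namespace Pool.Agent.Lib.MP_5cdc53_co.PP

open Finset

/-- One replacement step: `g i` is replaced by a 0/1-valued function of the same coordinates. -/
theorem sets_step (hCE : StCE) {n : ℕ} (w : Om n → ℝ) (s : Finset (Fin 4)) (f : Om n → ℝ)
    (hf : ∀ x, 0 ≤ f x ∧ f x ≤ 1) (hD : Dep s f) :
    ∃ f' : Om n → ℝ, (∀ x, f' x = 0 ∨ f' x = 1) ∧ Dep s f' ∧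
      ∑ x, w x * f x ≤ ∑ x, w x * f' x := by
  classical
  set l : Om n → (Fin 4 → ℕ) := fun x j => if j ∈ s then ((x j : Fin n) : ℕ) else n with hl
  have hlx : ∀ x y : Om n, l x = l y → ∀ j ∈ s, x j = y j := by
    intro x y h j hj
    have := congrFun h j
    simp only [hl, if_pos hj] at this
    exact Fin.ext this
  have hlx' : ∀ x y : Om n, (∀ j ∈ s, x j = y j) → l x = l y := by
    intro x y h
    funext j
    by_cases hj : j ∈ s
    · simp only [hl, if_pos hj, h j hj]
    · simp only [hl, if_neg hj]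
  obtain ⟨h1, h2, -, -⟩ := hCE (Om n) (Fin 4 → ℕ) l w
  have hmeas : ∀ x y, l x = l y → ce l w x = ce l w y := h1
  refine ⟨fun x => if 0 < ce l w x then 1 else 0, ?_, ?_, ?_⟩
  · intro x
    by_cases h : 0 < ce l w x
    · right; simp [h]
    · left; simp [h]
  · intro x y hxy
    have := hmeas x y (hlx' x y hxy)
    simp only [this]
  · rw [h2 f (fun x y hxy => hD x y (hlx x y hxy)),
      h2 (fun x => if 0 < ce l w x then (1:ℝ) else 0)
        (fun x y hxy => by simp only [hmeas x y hxy])]
    refine Finset.sum_le_sum fun x _ => ?_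
    by_cases h : 0 < ce l w x
    · simp only [if_pos h]
      exact mul_le_mul_of_nonneg_left (hf x).2 h.le
    · simp only [if_neg h, mul_zero]
      exact mul_nonpos_of_nonpos_of_nonneg (not_lt.mp h) (hf x).1

/-- The signed version: the sum does not decrease when all functions are made 0/1-valued. -/
theorem sets_aux (hCE : StCE) {n : ℕ} (e : Finset (Fin 4)) (u : Om n → ℝ)
    (g : Fin 4 → Om n → ℝ) (hg : ∀ i x, 0 ≤ g i x ∧ g i x ≤ 1)
    (hD : ∀ i ∈ e, Dep (e.erase i) (g i)) (t : Finset (Fin 4)) :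
    t ⊆ e → ∃ g' : Fin 4 → Om n → ℝ, (∀ i x, 0 ≤ g' i x ∧ g' i x ≤ 1) ∧
      (∀ i ∈ t, ∀ x, g' i x = 0 ∨ g' i x = 1) ∧ (∀ i ∈ e, Dep (e.erase i) (g' i)) ∧
      ∑ x, u x * ∏ i ∈ e, g i x ≤ ∑ x, u x * ∏ i ∈ e, g' i x := by
  classical
  induction t using Finset.induction with
  | empty =>
    intro _
    exact ⟨g, hg, by simp, hD, le_rfl⟩
  | insert i t hit ih =>
    intro hte
    have hie : i ∈ e := hte (Finset.mem_insert_self i t)
    obtain ⟨g₁, hg₁, ht₁, hD₁, hs₁⟩ := ih (fun j hj => hte (Finset.mem_insert_of_mem hj))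
    obtain ⟨f', hf'01, hf'D, hf's⟩ := sets_step hCE (fun x => u x * ∏ j ∈ e.erase i, g₁ j x)
      (e.erase i) (g₁ i) (hg₁ i) (hD₁ i hie)
    refine ⟨Function.update g₁ i f', ?_, ?_, ?_, ?_⟩
    · intro j x
      by_cases hj : j = i
      · subst hj
        rw [Function.update_self]
        rcases hf'01 x with h | h <;> rw [h] <;> norm_num
      · rw [Function.update_of_ne hj]
        exact hg₁ j x
    · intro j hj x
      by_cases hji : j = i
      · subst hji
        rw [Function.update_self]
        exact hf'01 x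
      · rw [Function.update_of_ne hji]
        exact ht₁ j ((Finset.mem_insert.mp hj).resolve_left hji) x
    · intro j hj
      by_cases hji : j = i
      · subst hji
        rw [Function.update_self]
        exact hf'D
      · rw [Function.update_of_ne hji]
        exact hD₁ j hj
    · refine hs₁.trans ?_
      have e1 : ∀ x, u x * ∏ j ∈ e, g₁ j x = (u x * ∏ j ∈ e.erase i, g₁ j x) * g₁ i x := by
        intro x
        rw [← Finset.mul_prod_erase e (fun j => g₁ j x) hie]
        ring
      have e2 : ∀ x, u x * ∏ j ∈ e, (Function.update g₁ i f') j x =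
          (u x * ∏ j ∈ e.erase i, g₁ j x) * f' x := by
        intro x
        rw [← Finset.mul_prod_erase e (fun j => (Function.update g₁ i f') j x) hie,
          Function.update_self]
        have : ∏ j ∈ e.erase i, (Function.update g₁ i f') j x = ∏ j ∈ e.erase i, g₁ j x := by
          refine Finset.prod_congr rfl fun j hj => ?_
          rw [Function.update_of_ne (Finset.ne_of_mem_erase hj)]
        rw [this]
        ring
      simp only [e1, e2]
      exact hf's

/-- The version with a one-sided inequality. -/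
theorem sets_pos (hCE : StCE) {n : ℕ} (e : Finset (Fin 4)) (u : Om n → ℝ)
    (g : Fin 4 → Om n → ℝ) (hg : ∀ i x, 0 ≤ g i x ∧ g i x ≤ 1)
    (hD : ∀ i ∈ e, Dep (e.erase i) (g i)) :
    ∃ g' : Fin 4 → Om n → ℝ, (∀ i x, g' i x = 0 ∨ g' i x = 1) ∧
      (∀ i ∈ e, Dep (e.erase i) (g' i)) ∧
      ∑ x, u x * ∏ i ∈ e, g i x ≤ ∑ x, u x * ∏ i ∈ e, g' i x := by
  classical
  obtain ⟨g', -, h01, hD', hs⟩ := sets_aux hCE e u g hg hD e (Finset.Subset.refl e)
  refine ⟨fun i x => if i ∈ e then g' i x else 0, ?_, ?_, ?_⟩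
  · intro i x
    by_cases hi : i ∈ e
    · simp only [if_pos hi]; exact h01 i hi x
    · left; simp only [if_neg hi]
  · intro i hi x y hxy
    simp only [if_pos hi]
    exact hD' i hi x y hxy
  · refine hs.trans (le_of_eq ?_)
    refine Finset.sum_congr rfl fun x _ => ?_
    congr 1
    refine Finset.prod_congr rfl fun i hi => ?_
    simp only [if_pos hi]

/-- D2a: non-uniformity is witnessed by sets. -/
theorem stSets (hCE : StCE) : StSets := by
  classical
  intro n e u η hη hU
  unfold Unif at hU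
  push Not at hU
  obtain ⟨g, hg, hD, hs⟩ := hU
  rcases le_total 0 (∑ x, u x * ∏ i ∈ e, g i x) with h0 | h0
  · rw [abs_of_nonneg h0] at hs
    obtain ⟨g', h01, hD', hs'⟩ := sets_pos hCE e u g hg hD
    exact ⟨g', h01, hD', (hs.trans_le hs').trans_le (le_abs_self _)⟩
  · rw [abs_of_nonpos h0] at hs
    obtain ⟨g', h01, hD', hs'⟩ := sets_pos hCE e (fun x => - u x) g hg hD
    refine ⟨g', h01, hD', ?_⟩
    simp only [neg_mul, Finset.sum_neg_distrib] at hs'
    exact (hs.trans_le hs').trans_le (neg_le_abs _)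

end Pool.Agent.Lib.MP_5cdc53_co.PP
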