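import Pool.Agent.Lib.MP_5cdc53_co.PP.Stmts

/-!
PP, module D2b: one step of the energy increment.
-/

set_option autoImplicit false

namespace Pool.Agent.Lib.MP_5cdc53_co.PP

open Finset

namespace StepM

variable {n : ℕ}

/-- the refined labels -/
noncomputable def ref (e : Finset (Fin 4)) (g : Fin 4 → Om n → ℝ) (b : Finset (Fin 4) → Om n → ℕ)
    (s : Finset (Fin 4)) (x : Om n) : ℕ :=
  open Classical in 2 * b s x + if ∃ i ∈ e, e.erase i = s ∧ g i x = 1 then 1 else 0

theorem ref_dep {e : Finset (Fin 4)} {g : Fin 4 → Om n → ℝ} {b : Finset (Fin 4) → Om n → ℕ}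
    (hg : ∀ i ∈ e, Dep (e.erase i) (g i)) (hb : ∀ s, Dep s (b s)) (s : Finset (Fin 4)) :
    Dep s (ref e g b s) := by
  classical
  intro x y hxy
  have h1 : (∃ i ∈ e, e.erase i = s ∧ g i x = 1) ↔ ∃ i ∈ e, e.erase i = s ∧ g i y = 1 := by
    refine exists_congr fun i => and_congr_right fun hi => and_congr_right fun he => ?_
    have := hg i hi x y (by rw [he]; exact hxy)
    rw [this]
  simp only [ref, hb s x y hxy, h1]

theorem ref_lt {e : Finset (Fin 4)} {g : Fin 4 → Om n → ℝ} {b : Finset (Fin 4) → Om n → ℕ} {K : ℕ}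
    (hb : ∀ s x, b s x < K) (s : Finset (Fin 4)) (x : Om n) : ref e g b s x < 2 * K := by
  classical
  have := hb s x
  unfold ref
  split_ifs <;> omega

theorem ref_ref {e : Finset (Fin 4)} {g : Fin 4 → Om n → ℝ} {b : Finset (Fin 4) → Om n → ℕ}
    {s : Finset (Fin 4)} {x y : Om n} (h : ref e g b s x = ref e g b s y) :
    b s x = b s y ∧ ((∃ i ∈ e, e.erase i = s ∧ g i x = 1) ↔ ∃ i ∈ e, e.erase i = s ∧ g i y = 1) := by
  classical
  unfold ref at h
  split_ifs at h with h1 h2 h2
  · exact ⟨by omega, iff_of_true h1 h2⟩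
  · omega
  · omega
  · exact ⟨by omega, iff_of_false h1 h2⟩

end StepM

open StepM in
/-- D2b -/
theorem stStep (_hCE : StCE) (hEn : StEnergy) (hS : StSets) : StStep := by
  intro n Φ _ e h η K b hn hη hh hb hK
  by_cases hU : ∀ φ, Unif (e φ) (fun x => h φ x - ce (lab b (e φ)) (h φ) x) η
  · exact Or.inl hU
  · right
    push Not at hU
    obtain ⟨φ, hφ⟩ := hU
    obtain ⟨g, hg01, hgD, hgc⟩ := hS n (e φ) _ η hη.le hφ
    have hlab : ∀ (ψ : Φ) (x y : Om n), lab (ref (e φ) g b) (e ψ) x = lab (ref (e φ) g b) (e ψ) y →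
        lab b (e ψ) x = lab b (e ψ) y := by
      intro ψ x y hxy
      funext i
      have hi := congrFun hxy i
      unfold lab at hi ⊢
      split_ifs at hi ⊢ with h1
      · exact (ref_ref hi).1
      · rfl
    refine ⟨ref (e φ) g b, ref_dep hgD hb, ref_lt hK, fun s x y hxy => (ref_ref hxy).1, ?_⟩
    have hcard : (Fintype.card (Om n) : ℝ) = (n : ℝ) ^ 4 := by
      simp [Om]
    have hnn : ∀ ψ, 0 ≤ ∑ x, (ce (lab (ref (e φ) g b) (e ψ)) (h ψ) x) ^ 2 -
        ∑ x, (ce (lab b (e ψ)) (h ψ) x) ^ 2 := by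
      intro ψ
      rw [← (hEn (Om n) _ _ (lab b (e ψ)) (lab (ref (e φ) g b) (e ψ)) (h ψ) (hlab ψ)).1]
      exact Finset.sum_nonneg fun x _ => sq_nonneg _
    have hinc : η ^ 2 * (n : ℝ) ^ 4 ≤ ∑ x, (ce (lab (ref (e φ) g b) (e φ)) (h φ) x) ^ 2 -
        ∑ x, (ce (lab b (e φ)) (h φ) x) ^ 2 := by
      have h1 := (hEn (Om n) _ _ (lab b (e φ)) (lab (ref (e φ) g b) (e φ)) (h φ) (hlab φ)).2
        (fun x => ∏ i ∈ e φ, g i x) ?_ ?_
      · rw [hcard] at h1
        have h2 : (η * (n : ℝ) ^ 4) ^ 2 ≤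
            (∑ x, (h φ x - ce (lab b (e φ)) (h φ) x) * ∏ i ∈ e φ, g i x) ^ 2 := by
          rw [← sq_abs (∑ x, (h φ x - ce (lab b (e φ)) (h φ) x) * ∏ i ∈ e φ, g i x)]
          exact pow_le_pow_left₀ (by positivity) hgc.le 2
        have hn4 : 0 < (n : ℝ) ^ 4 := by positivity
        have h3 := h2.trans h1
        have h4 : (η * (n : ℝ) ^ 4) ^ 2 = (n : ℝ) ^ 4 * (η ^ 2 * (n : ℝ) ^ 4) := by ring
        rw [h4] at h3
        exact le_of_mul_le_mul_left h3 hn4
      · intro x y hxy
        refine Finset.prod_congr rfl fun i hi => ?_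
        have h1 := congrFun hxy i
        unfold lab at h1
        rw [if_pos hi, if_pos hi] at h1
        have h2 := (ref_ref h1).2
        have h3 : ∀ z, (∃ j ∈ e φ, (e φ).erase j = (e φ).erase i ∧ g j z = 1) ↔ g i z = 1 := by
          intro z
          constructor
          · rintro ⟨j, hj, hji, hgj⟩
            have : j = i := by
              by_contra hne
              have : i ∈ (e φ).erase j := Finset.mem_erase.2 ⟨Ne.symm hne, hi⟩
              rw [hji] at this
              exact Finset.notMem_erase i _ this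
            rwa [this] at hgj
          · exact fun hz => ⟨i, hi, rfl, hz⟩
        rw [h3, h3] at h2
        rcases hg01 i x with hx | hx <;> rcases hg01 i y with hy | hy
        · rw [hx, hy]
        · have := h2.2 hy; rw [hx] at this; norm_num at this
        · have := h2.1 hx; rw [hy] at this; norm_num at this
        · rw [hx, hy]
      · intro x
        have h0 : ∀ i ∈ e φ, 0 ≤ g i x := fun i _ => by rcases hg01 i x with h | h <;> rw [h] <;> norm_num
        have h1 : ∀ i ∈ e φ, g i x ≤ 1 := fun i _ => by rcases hg01 i x with h | h <;> rw [h] <;> norm_num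
        rw [abs_of_nonneg (Finset.prod_nonneg h0)]
        exact Finset.prod_le_one h0 h1
    have hsum := Finset.single_le_sum (f := fun ψ => ∑ x, (ce (lab (ref (e φ) g b) (e ψ)) (h ψ) x) ^ 2 -
        ∑ x, (ce (lab b (e ψ)) (h ψ) x) ^ 2) (fun ψ _ => hnn ψ) (Finset.mem_univ φ)
    rw [Finset.sum_sub_distrib] at hsum
    unfold energy
    linarith

end Pool.Agent.Lib.MP_5cdc53_co.PP
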