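import Pool.Agent.Lib.MP_5cdc53_co.PP.Stmts

/-!
# The strong regularity lemma (module D3 of the blueprint)
-/

set_option autoImplicit false

namespace Pool.Agent.Lib.MP_5cdc53_co.PP

open Finset

namespace StrongAux

lemma card_Om (n : ℕ) : (Fintype.card (Om n) : ℝ) = (n : ℝ) ^ 4 := by
  simp [Om]

lemma lab_refine {n : ℕ} (b b' : Finset (Fin 4) → Om n → ℕ)
    (hr : ∀ s x y, b' s x = b' s y → b s x = b s y) (e : Finset (Fin 4)) (x y : Om n)
    (h : lab b' e x = lab b' e y) : lab b e x = lab b e y := by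
  funext i
  have hi := congrFun h i
  unfold lab at hi ⊢
  by_cases hie : i ∈ e
  · simp only [hie, if_true] at hi ⊢
    exact hr _ _ _ hi
  · simp [hie]

lemma energy_nonneg {n : ℕ} {Φ : Type} [Fintype Φ] (e : Φ → Finset (Fin 4))
    (h : Φ → Om n → ℝ) (b : Finset (Fin 4) → Om n → ℕ) : 0 ≤ energy e h b := by
  unfold energy
  exact Finset.sum_nonneg fun φ _ => Finset.sum_nonneg fun x _ => sq_nonneg _

lemma energy_le (h1 : StCE) {n : ℕ} {Φ : Type} [Fintype Φ] (e : Φ → Finset (Fin 4))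
    (h : Φ → Om n → ℝ) (b : Finset (Fin 4) → Om n → ℕ) (p : ℕ) (hp : Fintype.card Φ ≤ p)
    (h01 : ∀ φ x, 0 ≤ h φ x ∧ h φ x ≤ 1) : energy e h b ≤ p * (n : ℝ) ^ 4 := by
  unfold energy
  have hx : ∀ φ : Φ, ∑ x, (ce (lab b (e φ)) (h φ) x) ^ 2 ≤ (n : ℝ) ^ 4 := by
    intro φ
    have h2 := (h1 (Om n) (Fin 4 → ℕ) (lab b (e φ)) (h φ)).2.2.1 (h01 φ)
    calc ∑ x, (ce (lab b (e φ)) (h φ) x) ^ 2 ≤ ∑ _x : Om n, (1 : ℝ) := by
          refine Finset.sum_le_sum fun x _ => ?_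
          have := h2 x
          nlinarith [this.1, this.2]
      _ = (n : ℝ) ^ 4 := by
          rw [Finset.sum_const, Finset.card_univ, nsmul_eq_mul, mul_one, card_Om]
  calc ∑ φ, ∑ x, (ce (lab b (e φ)) (h φ) x) ^ 2 ≤ ∑ _φ : Φ, (n : ℝ) ^ 4 :=
        Finset.sum_le_sum fun φ _ => hx φ
    _ = (Fintype.card Φ : ℝ) * (n : ℝ) ^ 4 := by
        rw [Finset.sum_const, Finset.card_univ, nsmul_eq_mul]
    _ ≤ p * (n : ℝ) ^ 4 := by
        have : (Fintype.card Φ : ℝ) ≤ p := by exact_mod_cast hp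
        exact mul_le_mul_of_nonneg_right this (by positivity)

/-- weak regularity -/
lemma weak (h1 : StCE) (h3 : StStep) {n : ℕ} {Φ : Type} [Fintype Φ] (e : Φ → Finset (Fin 4))
    (h : Φ → Om n → ℝ) (η : ℝ) (K T p : ℕ) (b : Finset (Fin 4) → Om n → ℕ) (hn : 0 < n)
    (hη : 0 < η) (h01 : ∀ φ x, 0 ≤ h φ x ∧ h φ x ≤ 1) (hp : Fintype.card Φ ≤ p)
    (hT : (p : ℝ) < T * η ^ 2) (hd : ∀ s, Dep s (b s)) (hK : ∀ s x, b s x < K) :
    ∃ b' : Finset (Fin 4) → Om n → ℕ, (∀ s, Dep s (b' s)) ∧ (∀ s x, b' s x < K * 2 ^ T) ∧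
      (∀ s x y, b' s x = b' s y → b s x = b s y) ∧
      ∀ φ, Unif (e φ) (fun x => h φ x - ce (lab b' (e φ)) (h φ) x) η := by
  by_contra hno
  have key : ∀ t : ℕ, t ≤ T → ∃ b' : Finset (Fin 4) → Om n → ℕ, (∀ s, Dep s (b' s)) ∧
      (∀ s x, b' s x < K * 2 ^ t) ∧ (∀ s x y, b' s x = b' s y → b s x = b s y) ∧
      (t : ℝ) * (η ^ 2 * (n : ℝ) ^ 4) ≤ energy e h b' := by
    intro t
    induction t with
    | zero =>
      intro _
      exact ⟨b, hd, by simpa using hK, fun s x y hxy => hxy, by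
        simpa using energy_nonneg e h b⟩
    | succ t ih =>
      intro ht
      obtain ⟨c, hc1, hc2, hc3, hc4⟩ := ih (by omega)
      rcases h3 n Φ e h η (K * 2 ^ t) c hn hη h01 hc1 hc2 with hu | ⟨c', g1, g2, g3, g4⟩
      · exact absurd ⟨c, hc1, fun s x => lt_of_lt_of_le (hc2 s x)
          (Nat.mul_le_mul_left K (Nat.pow_le_pow_right (by norm_num) (by omega))), hc3, hu⟩ hno
      · refine ⟨c', g1, fun s x => lt_of_lt_of_le (g2 s x) (le_of_eq (by ring)),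
          fun s x y hxy => hc3 s x y (g3 s x y hxy), ?_⟩
        push_cast
        nlinarith [g4, hc4]
  obtain ⟨c, _, _, _, hc4⟩ := key T le_rfl
  have hle := energy_le h1 e h c p hp h01
  have hn4 : (0 : ℝ) < (n : ℝ) ^ 4 := by positivity
  nlinarith [mul_lt_mul_of_pos_right hT hn4]

/-- number of steps -/
noncomputable def steps (p : ℕ) (F : ℕ → ℝ) (K : ℕ) : ℕ := ⌊(p : ℝ) / (F K) ^ 2⌋₊ + 1

lemma steps_spec (p : ℕ) (F : ℕ → ℝ) (hF : ∀ K, 0 < F K) (K : ℕ) :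
    (p : ℝ) < (steps p F K : ℝ) * (F K) ^ 2 := by
  have hpos : (0 : ℝ) < (F K) ^ 2 := by have := hF K; positivity
  have h := Nat.lt_floor_add_one ((p : ℝ) / (F K) ^ 2)
  rw [div_lt_iff₀ hpos] at h
  unfold steps
  push_cast
  exact h

/-- numbers of labels -/
noncomputable def kap (p : ℕ) (F : ℕ → ℝ) : ℕ → ℕ
  | 0 => 1
  | m + 1 => kap p F m * 2 ^ steps p F (kap p F m)

lemma kap_pos (p : ℕ) (F : ℕ → ℝ) (m : ℕ) : 1 ≤ kap p F m := by
  induction m with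
  | zero => simp [kap]
  | succ m ih =>
    rw [kap]
    exact Nat.mul_pos ih (by positivity)

lemma kap_mono (p : ℕ) (F : ℕ → ℝ) : Monotone (kap p F) := by
  refine monotone_nat_of_le_succ fun m => ?_
  rw [kap]
  exact Nat.le_mul_of_pos_right _ (by positivity)

end StrongAux

open StrongAux in
theorem stStrong (h1 : StCE) (h2 : StEnergy) (h3 : StStep) : StStrong := by
  intro p ε F hε hF
  set M : ℕ := ⌊(p : ℝ) / ε⌋₊ + 1 with hM
  have hMp : (p : ℝ) < (M : ℝ) * ε := by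
    have h := Nat.lt_floor_add_one ((p : ℝ) / ε)
    rw [div_lt_iff₀ hε] at h
    rw [hM]; push_cast; exact h
  refine ⟨kap p F M, ?_⟩
  intro n hn Φ _ e h hp h01
  by_contra hno
  have hn4 : (0 : ℝ) < (n : ℝ) ^ 4 := by positivity
  have key : ∀ m : ℕ, m ≤ M → ∃ b : Finset (Fin 4) → Om n → ℕ, (∀ s, Dep s (b s)) ∧
      (∀ s x, b s x < kap p F m) ∧ (m : ℝ) * (ε * (n : ℝ) ^ 4) ≤ energy e h b := by
    intro m
    induction m with
    | zero =>
      intro _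
      refine ⟨fun _ _ => 0, fun s x y _ => rfl, fun s x => by simp [kap], ?_⟩
      simpa using energy_nonneg e h _
    | succ m ih =>
      intro hm
      obtain ⟨b, hb1, hb2, hb3⟩ := ih (by omega)
      obtain ⟨b', g1, g2, g3, g4⟩ := weak h1 h3 e h (F (kap p F m)) (kap p F m)
        (steps p F (kap p F m)) p b hn (hF _) h01 hp (steps_spec p F hF _) hb1 hb2
      have hen : ∀ φ, ∑ x, (ce (lab b' (e φ)) (h φ) x - ce (lab b (e φ)) (h φ) x) ^ 2 =
          ∑ x, (ce (lab b' (e φ)) (h φ) x) ^ 2 - ∑ x, (ce (lab b (e φ)) (h φ) x) ^ 2 := by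
        intro φ
        exact (h2 (Om n) (Fin 4 → ℕ) (Fin 4 → ℕ) (lab b (e φ)) (lab b' (e φ)) (h φ)
          (fun x y hxy => lab_refine b b' g3 (e φ) x y hxy)).1
      have hne : ¬ ∀ φ, ∑ x, (ce (lab b' (e φ)) (h φ) x - ce (lab b (e φ)) (h φ) x) ^ 2 ≤
          ε * (n : ℝ) ^ 4 := by
        intro hall
        exact hno ⟨kap p F m, kap_pos p F m, kap_mono p F (by omega), b, b', hb1, g1, hb2, g3,
          fun φ => ⟨hall φ, g4 φ⟩⟩
      push Not at hne
      obtain ⟨φ₀, hφ₀⟩ := hne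
      refine ⟨b', g1, fun s x => by simpa [kap] using g2 s x, ?_⟩
      have hsum : energy e h b' - energy e h b =
          ∑ φ, ∑ x, (ce (lab b' (e φ)) (h φ) x - ce (lab b (e φ)) (h φ) x) ^ 2 := by
        unfold energy
        rw [← Finset.sum_sub_distrib]
        exact Finset.sum_congr rfl fun φ _ => (hen φ).symm
      have hge : ∑ x, (ce (lab b' (e φ₀)) (h φ₀) x - ce (lab b (e φ₀)) (h φ₀) x) ^ 2 ≤
          ∑ φ, ∑ x, (ce (lab b' (e φ)) (h φ) x - ce (lab b (e φ)) (h φ) x) ^ 2 :=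
        Finset.single_le_sum
          (f := fun φ => ∑ x, (ce (lab b' (e φ)) (h φ) x - ce (lab b (e φ)) (h φ) x) ^ 2)
          (fun φ _ => Finset.sum_nonneg fun x _ => sq_nonneg _) (Finset.mem_univ φ₀)
      push_cast
      nlinarith [hsum, hge, hφ₀, hb3]
  obtain ⟨b, _, _, hb3⟩ := key M le_rfl
  have hle := energy_le h1 e h b p hp h01
  nlinarith [mul_lt_mul_of_pos_right hMp hn4]

end Pool.Agent.Lib.MP_5cdc53_co.PP
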