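import Pool.Agent.Lib.MP_5cdc53_co.PP.Stmts

/-!
# Module Sub (helper16): subtract / drop the minimum of `L`
-/

set_option autoImplicit false

namespace Pool.Agent.Lib.MP_5cdc53_co.PP

open Finset

namespace SubAux

/-- a popular trace in a large system -/
theorem core (hTr : StTrace) {n k : ℕ} {L : Finset ℕ} {c : ℝ} {F : Finset (Finset (Fin n))}
    (hF : IsSystem n k L F) (hn : 2 ≤ c * (n : ℝ) ^ L.card)
    (hcard : c * (n : ℝ) ^ L.card ≤ F.card) :
    ∃ (E : Finset (Fin n)) (G : Finset (Finset (Fin n))), G ⊆ F ∧ E.card ∈ L ∧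
      (∀ Y ∈ G, E ⊆ Y) ∧ c / 2 ^ (k + 1) * (n : ℝ) ^ L.card ≤ G.card := by
  have h1 : F.Nonempty := by
    rw [← Finset.card_pos]
    have : (0 : ℝ) < F.card := by linarith
    exact_mod_cast this
  obtain ⟨X, hX⟩ := h1
  obtain ⟨E, -, G, hGF, hG1, hG2⟩ := hTr n k L F X hF hX
  have hG2' : (F.card : ℝ) ≤ 1 + 2 ^ k * (G.card : ℝ) := by exact_mod_cast hG2
  have hk : (0 : ℝ) < 2 ^ k := by positivity
  have h2 : c / 2 ^ (k + 1) * (n : ℝ) ^ L.card ≤ G.card := by
    have e : c / 2 ^ (k + 1) * (n : ℝ) ^ L.card = (c * (n : ℝ) ^ L.card / 2) / 2 ^ k := by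
      rw [pow_succ]
      field_simp
    rw [e, div_le_iff₀ hk]
    linarith
  have hGne : G.Nonempty := by
    rw [← Finset.card_pos]
    have h3 : (0 : ℝ) < c / 2 ^ (k + 1) * (n : ℝ) ^ L.card := by
      have e : c / 2 ^ (k + 1) * (n : ℝ) ^ L.card = (c * (n : ℝ) ^ L.card) / 2 ^ (k + 1) := by
        ring
      rw [e]
      have : (0 : ℝ) < c * (n : ℝ) ^ L.card := by linarith
      positivity
    have h4 : (0 : ℝ) < G.card := by linarith
    exact_mod_cast h4
  obtain ⟨Y, hY⟩ := hGne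
  refine ⟨E, G, hGF, ?_, ?_, h2⟩
  · have h5 := hG1 Y hY
    have h6 := hF.2 Y (hGF hY) X hX h5.1
    rwa [h5.2] at h6
  · intro Z hZ
    rw [← (hG1 Z hZ).2]
    exact Finset.inter_subset_left

/-- members that contain more than `a` common points -/
theorem erase_system {n k : ℕ} {L : Finset ℕ} {F G : Finset (Finset (Fin n))} {a : ℕ}
    (hF : IsSystem n k L F) (hGF : G ⊆ F) {E : Finset (Fin n)} (hE : a < E.card)
    (hG : ∀ Y ∈ G, E ⊆ Y) : IsSystem n k (L.erase a) G := by
  refine ⟨fun Y hY => hF.1 Y (hGF hY), fun Y hY Z hZ hne => ?_⟩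
  have h1 := hF.2 Y (hGF hY) Z (hGF hZ) hne
  have h2 : E.card ≤ (Y ∩ Z).card :=
    Finset.card_le_card (Finset.subset_inter (hG Y hY) (hG Z hZ))
  rw [Finset.mem_erase]
  exact ⟨by omega, h1⟩

/-- `n` can be taken large -/
theorem large {c : ℝ} (hc : 0 < c) {k : ℕ} {L : Finset ℕ} {a : ℕ} (ha : a ∈ L) (C : ℕ) :
    ∃ N : ℕ, ∀ n, N ≤ n → 1 ≤ n ∧ 2 ≤ c * (n : ℝ) ^ L.card ∧
      (C : ℝ) * (n : ℝ) ^ (L.erase a).card < c / 2 ^ (k + 1) * (n : ℝ) ^ L.card := by
  obtain ⟨N1, hN1⟩ := exists_nat_gt (2 / c)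
  obtain ⟨N2, hN2⟩ := exists_nat_gt ((C : ℝ) * 2 ^ (k + 1) / c)
  refine ⟨max 1 (max N1 N2), fun n hn => ?_⟩
  have h0 : 1 ≤ n := le_trans (le_max_left _ _) hn
  have h1 : N1 ≤ n := le_trans (le_trans (le_max_left _ _) (le_max_right _ _)) hn
  have h2 : N2 ≤ n := le_trans (le_trans (le_max_right _ _) (le_max_right _ _)) hn
  have h0' : (1 : ℝ) ≤ n := by exact_mod_cast h0
  have h1' : (N1 : ℝ) ≤ n := by exact_mod_cast h1
  have h2' : (N2 : ℝ) ≤ n := by exact_mod_cast h2
  have hL : L.card = (L.erase a).card + 1 := by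
    have h := Finset.card_erase_of_mem ha
    have h' : 0 < L.card := Finset.card_pos.mpr ⟨a, ha⟩
    omega
  set s := (L.erase a).card with hs
  have hns : (1 : ℝ) ≤ (n : ℝ) ^ s := one_le_pow₀ h0'
  have hns0 : (0 : ℝ) < (n : ℝ) ^ s := by linarith
  refine ⟨h0, ?_, ?_⟩
  · rw [hL, pow_succ (n : ℝ) s]
    have h3 : 2 ≤ c * n := by
      have := (div_lt_iff₀ hc).mp hN1
      nlinarith
    nlinarith
  · rw [hL, pow_succ (n : ℝ) s]
    have h3 : (C : ℝ) < c / 2 ^ (k + 1) * n := by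
      have h4 := (div_lt_iff₀ hc).mp hN2
      have h5 : (0 : ℝ) < 2 ^ (k + 1) := by positivity
      rw [div_mul_eq_mul_div, lt_div_iff₀ h5]
      nlinarith
    nlinarith

end SubAux

open SubAux in
theorem stSub (hT : StTriv) (hTr : StTrace) : StSub := by
  intro k L a haL hmin hlt ⟨c, hc, hW⟩
  obtain ⟨C, hC⟩ := hT k (L.erase a)
  obtain ⟨N0, hN0⟩ := large (k := k) hc haL C
  have hcardL : (L.image (fun l => l - a)).card = L.card := by
    refine Finset.card_image_of_injOn fun x hx y hy h => ?_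
    have h1 := hmin x hx
    have h2 := hmin y hy
    have h3 : x - a = y - a := h
    omega
  refine ⟨c / 2 ^ (k + 1), by positivity, fun N => ?_⟩
  obtain ⟨n, hn, F, hF, hcard⟩ := hW (max N N0)
  obtain ⟨hn1, hn2, hn3⟩ := hN0 n (le_trans (le_max_right _ _) hn)
  obtain ⟨E, G, hGF, hEL, hGE, hGc⟩ := core hTr hF hn2 hcard
  have hEa : E.card = a := by
    by_contra hne
    have h1 := hmin _ hEL
    have h2 : a < E.card := by omega
    have h3 := hC n hn1 G (erase_system hF hGF h2 hGE)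
    have h4 : (G.card : ℝ) ≤ (C : ℝ) * (n : ℝ) ^ (L.erase a).card := by exact_mod_cast h3
    linarith
  have hinj : Set.InjOn (fun Y : Finset (Fin n) => Y \ E) G := by
    intro Y hY Z hZ h
    simp only at h
    rw [← Finset.sdiff_union_of_subset (hGE Y hY), ← Finset.sdiff_union_of_subset (hGE Z hZ), h]
  refine ⟨n, le_trans (le_max_left _ _) hn, G.image (fun Y => Y \ E), ⟨?_, ?_⟩, ?_⟩
  · intro W hW
    obtain ⟨Y, hY, rfl⟩ := Finset.mem_image.mp hW
    rw [Finset.card_sdiff_of_subset (hGE Y hY), hF.1 Y (hGF hY), hEa]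
  · intro W hW W' hW' hne
    obtain ⟨Y, hY, rfl⟩ := Finset.mem_image.mp hW
    obtain ⟨Z, hZ, rfl⟩ := Finset.mem_image.mp hW'
    have hYZ : Y ≠ Z := fun h => hne (by rw [h])
    have h1 := hF.2 Y (hGF hY) Z (hGF hZ) hYZ
    have h2 : (Y \ E) ∩ (Z \ E) = (Y ∩ Z) \ E := by
      ext w
      simp only [Finset.mem_inter, Finset.mem_sdiff]
      tauto
    rw [h2, Finset.card_sdiff_of_subset (Finset.subset_inter (hGE Y hY) (hGE Z hZ)), hEa,
      Finset.mem_image]
    exact ⟨_, h1, rfl⟩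
  · rw [Finset.card_image_of_injOn hinj, hcardL]
    exact hGc

open SubAux in
theorem stBot (_hT : StTriv) (hTr : StTrace) : StBot := by
  classical
  intro k L a haL hmin hlt ⟨c, hc, hW⟩
  obtain ⟨N0, hN0⟩ := large (k := k) hc haL 0
  have hL : L.card = (L.erase a).card + 1 := by
    have h := Finset.card_erase_of_mem haL
    have h' : 0 < L.card := Finset.card_pos.mpr ⟨a, haL⟩
    omega
  refine ⟨c / 2 ^ (k + 1), by positivity, fun N => ?_⟩
  obtain ⟨n, hn, F, hF, hcard⟩ := hW (max N N0)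
  obtain ⟨hn1, hn2, -⟩ := hN0 n (le_trans (le_max_right _ _) hn)
  have hn1' : (1 : ℝ) ≤ n := by exact_mod_cast hn1
  obtain ⟨E, G, hGF, hEL, hGE, hGc⟩ := core hTr hF hn2 hcard
  refine ⟨n, le_trans (le_max_left _ _) hn, ?_⟩
  set s := (L.erase a).card with hs
  rw [hL, pow_succ (n : ℝ) s] at hGc
  have hcc : 0 < c / 2 ^ (k + 1) := by positivity
  have hns0 : (0 : ℝ) < (n : ℝ) ^ s := by positivity
  have ha := hmin _ hEL
  rcases Nat.lt_or_ge a E.card with h | h
  · refine ⟨G, erase_system hF hGF h hGE, ?_⟩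
    have h1 : c / 2 ^ (k + 1) * (n : ℝ) ^ s ≤ c / 2 ^ (k + 1) * ((n : ℝ) ^ s * n) := by
      refine mul_le_mul_of_nonneg_left ?_ hcc.le
      nlinarith
    linarith
  · have hEa : E.card = a := by omega
    have hout : ∀ Y ∈ G, ∃ x, x ∈ Y ∧ x ∉ E := by
      intro Y hY
      by_contra hno
      push Not at hno
      have h1 : Y ⊆ E := fun x hx => hno x hx
      have h2 := Finset.card_le_card h1
      rw [hF.1 Y (hGF hY)] at h2
      have h3 := hlt a haL
      omega
    have hsum : (G.card : ℝ) ≤ ∑ x ∈ (univ : Finset (Fin n)).filter (fun x => x ∉ E),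
        ((G.filter (fun Y => x ∈ Y)).card : ℝ) := by
      have h1 : G ⊆ ((univ : Finset (Fin n)).filter (fun x => x ∉ E)).biUnion
          (fun x => G.filter (fun Y => x ∈ Y)) := by
        intro Y hY
        obtain ⟨x, hx1, hx2⟩ := hout Y hY
        rw [Finset.mem_biUnion]
        exact ⟨x, Finset.mem_filter.mpr ⟨Finset.mem_univ _, hx2⟩,
          Finset.mem_filter.mpr ⟨hY, hx1⟩⟩
      have h2 := (Finset.card_le_card h1).trans Finset.card_biUnion_le
      exact_mod_cast h2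
    have hex : ∃ x ∈ (univ : Finset (Fin n)).filter (fun x => x ∉ E),
        c / 2 ^ (k + 1) * (n : ℝ) ^ s ≤ ((G.filter (fun Y => x ∈ Y)).card : ℝ) := by
      by_contra hno
      push Not at hno
      have h1 : ∑ x ∈ (univ : Finset (Fin n)).filter (fun x => x ∉ E),
          ((G.filter (fun Y => x ∈ Y)).card : ℝ) < (n : ℝ) * (c / 2 ^ (k + 1) * (n : ℝ) ^ s) := by
        have hne : ((univ : Finset (Fin n)).filter (fun x => x ∉ E)).Nonempty := by
          have hGpos : (0 : ℝ) < G.card := by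
            have : 0 < c / 2 ^ (k + 1) * ((n : ℝ) ^ s * n) := by positivity
            linarith
          obtain ⟨Y, hY⟩ : G.Nonempty := by
            rw [← Finset.card_pos]; exact_mod_cast hGpos
          obtain ⟨x, -, hx⟩ := hout Y hY
          exact ⟨x, Finset.mem_filter.mpr ⟨Finset.mem_univ _, hx⟩⟩
        have h2 := Finset.sum_lt_sum_of_nonempty hne hno
        refine lt_of_lt_of_le h2 ?_
        rw [Finset.sum_const, nsmul_eq_mul]
        refine mul_le_mul_of_nonneg_right ?_ (by positivity)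
        have h3 := Finset.card_filter_le (univ : Finset (Fin n)) (fun x => x ∉ E)
        rw [Finset.card_univ, Fintype.card_fin] at h3
        exact_mod_cast h3
      nlinarith
    obtain ⟨x, hx, hxc⟩ := hex
    have hxE : x ∉ E := (Finset.mem_filter.mp hx).2
    refine ⟨G.filter (fun Y => x ∈ Y), ?_, hxc⟩
    refine erase_system (E := insert x E) hF ((Finset.filter_subset _ _).trans hGF) ?_ ?_
    · rw [Finset.card_insert_of_notMem hxE]
      omega
    · intro Y hY
      obtain ⟨h1, h2⟩ := Finset.mem_filter.mp hY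
      exact Finset.insert_subset h2 (hGE Y h1)

end Pool.Agent.Lib.MP_5cdc53_co.PP
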