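import Pool.Agent.Lib.MP_5cdc53_co.PP.Stmts

set_option autoImplicit false

namespace Pool.Agent.Lib.MP_5cdc53_co.PP

open Finset

/-! ### the numerical part -/

/-- lower bound for the counting expression -/
theorem tet_num (a δ g g0 G D τ ρ η2 η3 : ℝ) (ha0 : 0 < a) (ha1 : a ≤ 1) (hδ : 0 < δ)
    (hg0 : 0 < g0) (hgg : g0 ≤ g) (hG : g ≤ G) (hD : δ ≤ D)
    (hτ : τ = a ^ 4 * δ / 400) (hρ : ρ = a ^ 4 / 16) (h2 : η2 = g * a ^ 4 * δ / 400)
    (h3 : η3 = g0 * a ^ 4 * δ / 400) :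
    a ^ 4 * g0 * δ / 2 ≤
      a ^ 4 * (G * (D - 6 * τ) - 6 * η2) - 4 * (ρ * G * D + 6 * G * τ + 6 * η2) - 4 * η3 := by
  have ha4 : a ^ 4 ≤ 1 := pow_le_one₀ ha0.le ha1
  have ha4p : 0 < a ^ 4 := by positivity
  have hGp : 0 < G := lt_of_lt_of_le hg0 (hgg.trans hG)
  have hDp : 0 < D := lt_of_lt_of_le hδ hD
  set t := a ^ 4 with ht
  have e1 : G * δ ≤ G * D := mul_le_mul_of_nonneg_left hD hGp.le
  have e2 : g * δ ≤ G * δ := mul_le_mul_of_nonneg_right hG hδ.le
  have e3 : g0 * δ ≤ g * δ := mul_le_mul_of_nonneg_right hgg hδ.le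
  have e4 : 0 < g0 * δ := by positivity
  subst hτ hρ h2 h3
  -- everything divided by t
  have key : t * g0 * δ / 2 + t * (G * (6 * (t * δ / 400)) + 6 * (g * t * δ / 400))
      + 4 * (t / 16 * G * D + 6 * G * (t * δ / 400) + 6 * (g * t * δ / 400))
      + 4 * (g0 * t * δ / 400) ≤ t * (G * D) := by
    have f1 : t * (G * (6 * (t * δ / 400))) ≤ t * (G * δ) * (6 / 400) := by
      have : t * (G * (6 * (t * δ / 400))) = t * (t * (G * δ) * (6 / 400)) := by ring
      rw [this]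
      have h0 : 0 ≤ t * (G * δ) * (6 / 400) := by positivity
      nlinarith
    have f2 : t * (6 * (g * t * δ / 400)) ≤ t * (g * δ) * (6 / 400) := by
      have : t * (6 * (g * t * δ / 400)) = t * (t * (g * δ) * (6 / 400)) := by ring
      rw [this]
      have hgp : 0 < g := lt_of_lt_of_le hg0 hgg
      have h0 : 0 ≤ t * (g * δ) * (6 / 400) := by positivity
      nlinarith
    have g1 : t * (G * δ) ≤ t * (G * D) := mul_le_mul_of_nonneg_left e1 ha4p.le
    have g2 : t * (g * δ) ≤ t * (G * D) := mul_le_mul_of_nonneg_left (e2.trans e1) ha4p.le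
    have g3 : t * (g0 * δ) ≤ t * (G * D) := mul_le_mul_of_nonneg_left (e3.trans (e2.trans e1)) ha4p.le
    have g4 : 0 ≤ t * (G * D) := by positivity
    nlinarith
  nlinarith [key]

/-! ### labels -/

/-- the indicator of the label `a` on the face `s` -/
noncomputable def Pl {n : ℕ} (b : Finset (Fin 4) → Om n → ℕ) (s : Finset (Fin 4)) (a : ℕ) (x : Om n) : ℝ :=
  if b s x = a then 1 else 0

theorem Pl01 {n : ℕ} (b : Finset (Fin 4) → Om n → ℕ) (s : Finset (Fin 4)) (a : ℕ) (x : Om n) :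
    Pl b s a x = 0 ∨ Pl b s a x = 1 := by
  unfold Pl; split <;> simp

theorem PlDep {n : ℕ} (b : Finset (Fin 4) → Om n → ℕ) (hb : ∀ s, Dep s (b s)) (s : Finset (Fin 4))
    (a : ℕ) : Dep s (Pl b s a) := by
  intro x y hxy
  unfold Pl
  rw [hb s x y hxy]

theorem labDep {n : ℕ} (b : Finset (Fin 4) → Om n → ℕ) (hb : ∀ s, Dep s (b s))
    (s : Finset (Fin 4)) : Dep s (lab b s) := by
  intro x y hxy
  funext i
  unfold lab
  split
  · exact hb _ x y fun j hj => hxy j (Finset.mem_of_mem_erase hj)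
  · rfl

theorem ceDep {n : ℕ} {T : Type} [DecidableEq T] (l : Om n → T) (f : Om n → ℝ) (s : Finset (Fin 4))
    (hl : Dep s l) : Dep s (ce l f) := by
  intro x y hxy
  unfold ce
  rw [hl x y hxy]

theorem Dep.mono {n : ℕ} {β : Type} {s t : Finset (Fin 4)} {f : Om n → β} (h : Dep s f)
    (hst : s ⊆ t) : Dep t f := fun x y hxy => h x y fun i hi => hxy i (hst hi)

/-- the label of level 3 atoms and cells for the triple omitting `i` -/
def lam {n : ℕ} (b b2 : Finset (Fin 4) → Om n → ℕ) (i : Fin 4) (x : Om n) :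
    (Finset (Fin 4) → ℕ) × (Fin 4 → ℕ) :=
  (fun s => if s ∈ sub2 i then b s x else 0, fun j => if j ≠ i then b2 {j} x else 0)

theorem lamDep {n : ℕ} (b b2 : Finset (Fin 4) → Om n → ℕ) (hb : ∀ s, Dep s (b s))
    (hb2 : ∀ s, Dep s (b2 s)) (i : Fin 4) : Dep (univ.erase i) (lam b b2 i) := by
  intro x y hxy
  unfold lam
  refine Prod.ext ?_ ?_
  · funext s
    dsimp only
    split
    · rename_i hs
      refine hb _ x y fun j hj => hxy j ?_
      refine Finset.mem_erase.2 ⟨?_, mem_univ _⟩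
      rintro rfl
      exact (Finset.mem_filter.1 hs).2 hj
    · rfl
  · funext j
    dsimp only
    split
    · rename_i hj
      refine hb2 _ x y fun k hk => hxy k ?_
      rw [Finset.mem_singleton] at hk
      subst hk
      exact Finset.mem_erase.2 ⟨hj, mem_univ _⟩
    · rfl

theorem lam_iff {n : ℕ} (b b2 : Finset (Fin 4) → Om n → ℕ) (i : Fin 4) (x y : Om n) :
    lam b b2 i x = lam b b2 i y ↔
      (∀ s ∈ sub2 i, b s x = b s y) ∧ ∀ j ∈ univ.erase i, b2 {j} x = b2 {j} y := by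
  unfold lam
  rw [Prod.ext_iff]
  constructor
  · rintro ⟨h1, h2⟩
    refine ⟨fun s hs => ?_, fun j hj => ?_⟩
    · have := congrFun h1 s
      simpa [hs] using this
    · have := congrFun h2 j
      simpa [Finset.ne_of_mem_erase hj] using this
  · rintro ⟨h1, h2⟩
    refine ⟨?_, ?_⟩
    · funext s
      dsimp only
      split
      · rename_i hs; exact h1 s hs
      · rfl
    · funext j
      dsimp only
      split
      · rename_i hj; exact h2 j (Finset.mem_erase.2 ⟨hj, mem_univ _⟩)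
      · rfl

theorem sub2_erase (i k : Fin 4) (hk : k ∈ univ.erase i) : (univ.erase i).erase k ∈ sub2 i := by
  revert i k; decide

theorem lab_of_sub2 {n : ℕ} (b : Finset (Fin 4) → Om n → ℕ) (i : Fin 4) (x y : Om n)
    (h : ∀ s ∈ sub2 i, b s x = b s y) : lab b (univ.erase i) x = lab b (univ.erase i) y := by
  funext k
  unfold lab
  split
  · rename_i hk
    exact h _ (sub2_erase i k hk)
  · rfl

theorem pair_erase1 (s : Finset (Fin 4)) (hs : s ∈ pairs) (k : Fin 4) (hk : k ∈ s) :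
    ∃ j ∈ s, s.erase k = {j} := by
  revert s k; decide

theorem pair_erase2 (s : Finset (Fin 4)) (hs : s ∈ pairs) (j : Fin 4) (hj : j ∈ s) :
    ∃ k ∈ s, s.erase k = {j} := by
  revert s j; decide

theorem lab_pair_iff {n : ℕ} (b2 : Finset (Fin 4) → Om n → ℕ) (s : Finset (Fin 4)) (hs : s ∈ pairs)
    (x y : Om n) : lab b2 s x = lab b2 s y ↔ ∀ j ∈ s, b2 {j} x = b2 {j} y := by
  constructor
  · intro h j hj
    obtain ⟨k, hk, hkj⟩ := pair_erase2 s hs j hj
    have := congrFun h k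
    unfold lab at this
    rw [if_pos hk, if_pos hk, hkj] at this
    exact this
  · intro h
    funext k
    unfold lab
    split
    · rename_i hk
      obtain ⟨j, hj, hkj⟩ := pair_erase1 s hs k hk
      rw [hkj]
      exact h j hj
    · rfl

theorem prod_ind {ι : Type} (s : Finset ι) (p : ι → Prop) [DecidablePred p]
    [Decidable (∀ i ∈ s, p i)] :
    (∏ i ∈ s, (if p i then (1 : ℝ) else 0)) = if ∀ i ∈ s, p i then 1 else 0 := by
  by_cases h : ∀ i ∈ s, p i
  · rw [if_pos h]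
    exact Finset.prod_eq_one fun i hi => if_pos (h i hi)
  · rw [if_neg h]
    push Not at h
    obtain ⟨i, hi, hpi⟩ := h
    exact Finset.prod_eq_zero hi (if_neg hpi)

/-! ### bad sets -/

theorem few (hFew : StFew) {n : ℕ} (hn : 0 < n) (M : Finset (Om n)) (i : Fin 4)
    (hM : ∀ x ∈ M, ∀ y ∈ M, (∀ j, j ≠ i → x j = y j) → x = y) (p : Om n → Prop) [DecidablePred p]
    (hp : Dep (univ.erase i) p) (β : ℝ) (h : ((univ.filter p).card : ℝ) ≤ β * (n : ℝ) ^ 4) :
    ((M.filter p).card : ℝ) ≤ β * (n : ℝ) ^ 3 := by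
  have h1 := hFew n i M (univ.filter p) hM (by
    intro x y hxy hx
    rw [Finset.mem_filter] at hx ⊢
    refine ⟨mem_univ _, ?_⟩
    rw [← hp x y fun j hj => hxy j (Finset.ne_of_mem_erase hj)]
    exact hx.2)
  have h2 : M ∩ univ.filter p = M.filter p := by
    ext x; simp
  rw [h2] at h1
  have h3 : ((M.filter p).card : ℝ) * n ≤ β * (n : ℝ) ^ 4 := le_trans (by exact_mod_cast h1) h
  have hn' : (0 : ℝ) < n := by exact_mod_cast hn
  have h4 : ((M.filter p).card : ℝ) * n ≤ (β * (n : ℝ) ^ 3) * n := by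
    calc ((M.filter p).card : ℝ) * n ≤ β * (n : ℝ) ^ 4 := h3
      _ = (β * (n : ℝ) ^ 3) * n := by ring
  exact le_of_mul_le_mul_right h4 hn'

theorem exists_good {n : ℕ} (hn : 0 < n) (M : Finset (Om n)) (c : ℝ) (hc : 0 < c)
    (hM : c * (n : ℝ) ^ 3 ≤ M.card)
    (p1 p2 p5 : Fin 4 → Om n → Prop) (p3 p4 : Finset (Fin 4) → Om n → Prop)
    [∀ i, DecidablePred (p1 i)] [∀ i, DecidablePred (p2 i)] [∀ i, DecidablePred (p5 i)]
    [∀ i, DecidablePred (p3 i)] [∀ i, DecidablePred (p4 i)]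
    (h1 : ∀ i, ((M.filter (p1 i)).card : ℝ) ≤ c / 40 * (n : ℝ) ^ 3)
    (h2 : ∀ i, ((M.filter (p2 i)).card : ℝ) ≤ c / 40 * (n : ℝ) ^ 3)
    (h5 : ∀ i, ((M.filter (p5 i)).card : ℝ) ≤ c / 40 * (n : ℝ) ^ 3)
    (h3 : ∀ s ∈ pairs, ((M.filter (p3 s)).card : ℝ) ≤ c / 60 * (n : ℝ) ^ 3)
    (h4 : ∀ s ∈ pairs, ((M.filter (p4 s)).card : ℝ) ≤ c / 60 * (n : ℝ) ^ 3) :
    ∃ x ∈ M, (∀ i, ¬ p1 i x) ∧ (∀ i, ¬ p2 i x) ∧ (∀ i, ¬ p5 i x) ∧ (∀ s ∈ pairs, ¬ p3 s x) ∧
      ∀ s ∈ pairs, ¬ p4 s x := by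
  classical
  by_contra hcon
  push Not at hcon
  have hsub : M ⊆ (((univ.biUnion fun i => M.filter (p1 i)) ∪ (univ.biUnion fun i => M.filter (p2 i))) ∪
      (univ.biUnion fun i => M.filter (p5 i))) ∪ ((pairs.biUnion fun s => M.filter (p3 s)) ∪
      (pairs.biUnion fun s => M.filter (p4 s))) := by
    intro x hx
    by_contra hnot
    simp only [Finset.mem_union, Finset.mem_biUnion, Finset.mem_univ, true_and, Finset.mem_filter,
      not_or, not_exists, not_and] at hnot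
    obtain ⟨⟨⟨a1, a2⟩, a5⟩, a3, a4⟩ := hnot
    obtain ⟨s, hs, hs'⟩ := hcon x hx (fun i => a1 i hx) (fun i => a2 i hx) (fun i => a5 i hx)
      (fun s hs => a3 s hs hx)
    exact a4 s hs hx hs'
  have hcard := Finset.card_le_card hsub
  have hn' : (0 : ℝ) < (n : ℝ) ^ 3 := by positivity
  have b1 : ((univ.biUnion fun i => M.filter (p1 i)).card : ℝ) ≤ 4 * (c / 40 * (n : ℝ) ^ 3) := by
    calc ((univ.biUnion fun i => M.filter (p1 i)).card : ℝ) ≤ ∑ i : Fin 4, ((M.filter (p1 i)).card : ℝ) := by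
          exact_mod_cast Finset.card_biUnion_le
      _ ≤ ∑ i : Fin 4, (c / 40 * (n : ℝ) ^ 3) := Finset.sum_le_sum fun i _ => h1 i
      _ = 4 * (c / 40 * (n : ℝ) ^ 3) := by simp
  have b2 : ((univ.biUnion fun i => M.filter (p2 i)).card : ℝ) ≤ 4 * (c / 40 * (n : ℝ) ^ 3) := by
    calc ((univ.biUnion fun i => M.filter (p2 i)).card : ℝ) ≤ ∑ i : Fin 4, ((M.filter (p2 i)).card : ℝ) := by
          exact_mod_cast Finset.card_biUnion_le
      _ ≤ ∑ i : Fin 4, (c / 40 * (n : ℝ) ^ 3) := Finset.sum_le_sum fun i _ => h2 i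
      _ = 4 * (c / 40 * (n : ℝ) ^ 3) := by simp
  have b5 : ((univ.biUnion fun i => M.filter (p5 i)).card : ℝ) ≤ 4 * (c / 40 * (n : ℝ) ^ 3) := by
    calc ((univ.biUnion fun i => M.filter (p5 i)).card : ℝ) ≤ ∑ i : Fin 4, ((M.filter (p5 i)).card : ℝ) := by
          exact_mod_cast Finset.card_biUnion_le
      _ ≤ ∑ i : Fin 4, (c / 40 * (n : ℝ) ^ 3) := Finset.sum_le_sum fun i _ => h5 i
      _ = 4 * (c / 40 * (n : ℝ) ^ 3) := by simp
  have hp6 : pairs.card = 6 := by decide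
  have b3 : ((pairs.biUnion fun s => M.filter (p3 s)).card : ℝ) ≤ 6 * (c / 60 * (n : ℝ) ^ 3) := by
    calc ((pairs.biUnion fun s => M.filter (p3 s)).card : ℝ) ≤ ∑ s ∈ pairs, ((M.filter (p3 s)).card : ℝ) := by
          exact_mod_cast Finset.card_biUnion_le
      _ ≤ ∑ s ∈ pairs, (c / 60 * (n : ℝ) ^ 3) := Finset.sum_le_sum fun s hs => h3 s hs
      _ = 6 * (c / 60 * (n : ℝ) ^ 3) := by rw [Finset.sum_const, hp6]; simp
  have b4 : ((pairs.biUnion fun s => M.filter (p4 s)).card : ℝ) ≤ 6 * (c / 60 * (n : ℝ) ^ 3) := by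
    calc ((pairs.biUnion fun s => M.filter (p4 s)).card : ℝ) ≤ ∑ s ∈ pairs, ((M.filter (p4 s)).card : ℝ) := by
          exact_mod_cast Finset.card_biUnion_le
      _ ≤ ∑ s ∈ pairs, (c / 60 * (n : ℝ) ^ 3) := Finset.sum_le_sum fun s hs => h4 s hs
      _ = 6 * (c / 60 * (n : ℝ) ^ 3) := by rw [Finset.sum_const, hp6]; simp
  have hun : (M.card : ℝ) ≤ (((univ.biUnion fun i => M.filter (p1 i)).card : ℝ)
      + (univ.biUnion fun i => M.filter (p2 i)).card + (univ.biUnion fun i => M.filter (p5 i)).card)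
      + ((pairs.biUnion fun s => M.filter (p3 s)).card + (pairs.biUnion fun s => M.filter (p4 s)).card) := by
    have := hcard.trans ((Finset.card_union_le _ _).trans (Nat.add_le_add
      ((Finset.card_union_le _ _).trans (Nat.add_le_add_right (Finset.card_union_le _ _) _))
      (Finset.card_union_le _ _)))
    exact_mod_cast this
  have hpos : 0 < c * (n : ℝ) ^ 3 := by positivity
  nlinarith

theorem card_Om (n : ℕ) : (Fintype.card (Om n) : ℝ) = (n : ℝ) ^ 4 := by
  simp [Om]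

/-! ### parameters -/

noncomputable def pa (c : ℝ) : ℝ := c / 40
noncomputable def pρ (c : ℝ) : ℝ := (pa c) ^ 4 / 16
noncomputable def peb (c : ℝ) : ℝ := (pρ c) ^ 2
noncomputable def pe3 (c : ℝ) : ℝ := peb c * (c / 40)
noncomputable def pec (c : ℝ) (K : ℕ) : ℝ := c / 60 / (K + 1)
noncomputable def pτ (c : ℝ) (K : ℕ) : ℝ := (pa c) ^ 4 * (pec c K) ^ 6 / 400
noncomputable def ped (c : ℝ) (K : ℕ) : ℝ := (pτ c K) ^ 2
noncomputable def pe2 (c : ℝ) (K : ℕ) : ℝ := ped c K * (c / 60 / (K + 1))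
noncomputable def pg (c : ℝ) (L : ℕ) : ℝ := (c / 40 / (L + 1)) ^ 4
noncomputable def pη (c : ℝ) (K L : ℕ) : ℝ := pg c L * (pa c) ^ 4 * (pec c K) ^ 6 / 400
noncomputable def pδ (c : ℝ) (K L : ℕ) : ℝ := (pa c) ^ 4 * pg c L * (pec c K) ^ 6 / 2

theorem pa_pos {c : ℝ} (hc : 0 < c) : 0 < pa c := by unfold pa; positivity
theorem pρ_pos {c : ℝ} (hc : 0 < c) : 0 < pρ c := by have := pa_pos hc; unfold pρ; positivity
theorem peb_pos {c : ℝ} (hc : 0 < c) : 0 < peb c := by have := pρ_pos hc; unfold peb; positivity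
theorem pe3_pos {c : ℝ} (hc : 0 < c) : 0 < pe3 c := by have := peb_pos hc; unfold pe3; positivity
theorem pec_pos {c : ℝ} (hc : 0 < c) (K : ℕ) : 0 < pec c K := by unfold pec; positivity
theorem pτ_pos {c : ℝ} (hc : 0 < c) (K : ℕ) : 0 < pτ c K := by
  have := pa_pos hc; have := pec_pos hc K; unfold pτ; positivity
theorem ped_pos {c : ℝ} (hc : 0 < c) (K : ℕ) : 0 < ped c K := by
  have := pτ_pos hc K; unfold ped; positivity
theorem pe2_pos {c : ℝ} (hc : 0 < c) (K : ℕ) : 0 < pe2 c K := by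
  have := ped_pos hc K; unfold pe2; positivity
theorem pg_pos {c : ℝ} (hc : 0 < c) (L : ℕ) : 0 < pg c L := by unfold pg; positivity
theorem pη_pos {c : ℝ} (hc : 0 < c) (K L : ℕ) : 0 < pη c K L := by
  have := pa_pos hc; have := pec_pos hc K; have := pg_pos hc L; unfold pη; positivity
theorem pδ_pos {c : ℝ} (hc : 0 < c) (K L : ℕ) : 0 < pδ c K L := by
  have := pa_pos hc; have := pec_pos hc K; have := pg_pos hc L; unfold pδ; positivity

open Classical in
/-- indicator of the projection of `M` omitting `i` -/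
noncomputable def hh {n : ℕ} (M : Finset (Om n)) (i : Fin 4) (x : Om n) : ℝ :=
  if ∃ y ∈ M, ∀ j, j ≠ i → x j = y j then 1 else 0

theorem hh01 {n : ℕ} (M : Finset (Om n)) (i : Fin 4) (x : Om n) : hh M i x = 0 ∨ hh M i x = 1 := by
  unfold hh; split <;> simp

theorem hhI {n : ℕ} (M : Finset (Om n)) (i : Fin 4) (x : Om n) : 0 ≤ hh M i x ∧ hh M i x ≤ 1 := by
  rcases hh01 M i x with h | h <;> rw [h] <;> norm_num

theorem hhDep {n : ℕ} (M : Finset (Om n)) (i : Fin 4) : Dep (univ.erase i) (hh M i) := by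
  intro x y hxy
  have : (∃ z ∈ M, ∀ j, j ≠ i → x j = z j) ↔ ∃ z ∈ M, ∀ j, j ≠ i → y j = z j := by
    constructor
    · rintro ⟨z, hz, h⟩
      exact ⟨z, hz, fun j hj => (hxy j (Finset.mem_erase.2 ⟨hj, mem_univ _⟩)).symm.trans (h j hj)⟩
    · rintro ⟨z, hz, h⟩
      exact ⟨z, hz, fun j hj => (hxy j (Finset.mem_erase.2 ⟨hj, mem_univ _⟩)).trans (h j hj)⟩
  unfold hh
  simp only [this]

theorem exists_not_mem_pair (s : Finset (Fin 4)) (hs : s ∈ pairs) : ∃ i, s ⊆ univ.erase i := by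
  revert s; decide

/-- bound for a union of `K` filters -/
theorem card_union_bd {n : ℕ} (K : ℕ) (p : Om n → Prop) [DecidablePred p] (q : ℕ → Om n → Prop)
    [∀ a, DecidablePred (q a)] (β : ℝ) (hpq : ∀ x, p x → ∃ a < K, q a x)
    (hβ : 0 ≤ β) (hq : ∀ a < K, ((univ.filter (q a)).card : ℝ) ≤ β / (K + 1)) :
    ((univ.filter p).card : ℝ) ≤ β := by
  classical
  have hsub : univ.filter p ⊆ (range K).biUnion fun a => univ.filter (q a) := by
    intro x hx
    obtain ⟨a, ha, h⟩ := hpq x (Finset.mem_filter.1 hx).2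
    exact Finset.mem_biUnion.2 ⟨a, Finset.mem_range.2 ha, Finset.mem_filter.2 ⟨mem_univ _, h⟩⟩
  have h1 : ((univ.filter p).card : ℝ) ≤ ∑ a ∈ range K, ((univ.filter (q a)).card : ℝ) := by
    exact_mod_cast (Finset.card_le_card hsub).trans Finset.card_biUnion_le
  have h2 : ∑ a ∈ range K, ((univ.filter (q a)).card : ℝ) ≤ ∑ a ∈ range K, β / (K + 1) :=
    Finset.sum_le_sum fun a ha => hq a (Finset.mem_range.1 ha)
  rw [Finset.sum_const, card_range, nsmul_eq_mul] at h2
  have h3 : (K : ℝ) * (β / (K + 1)) ≤ β := by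
    rw [mul_div_assoc', div_le_iff₀ (by positivity)]
    nlinarith
  linarith

/-- the core: a good member gives many tetrahedra -/
theorem core (hCE : StCE) (hCount : StCount) (hFew : StFew) (hBad : StBad) {n : ℕ} (hn : 0 < n)
    (M : Finset (Om n)) (hM : ∀ i : Fin 4, ∀ x ∈ M, ∀ y ∈ M, (∀ j, j ≠ i → x j = y j) → x = y)
    (c : ℝ) (hc : 0 < c) (hc1 : c ≤ 1) (hMc : c * (n : ℝ) ^ 3 ≤ M.card) (K L L0 : ℕ) (hL1 : 1 ≤ L)
    (hL0 : L ≤ L0) (b b' b2 b2' : Finset (Fin 4) → Om n → ℕ) (hb : ∀ s, Dep s (b s))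
    (hb' : ∀ s, Dep s (b' s)) (hb2 : ∀ s, Dep s (b2 s)) (hb2' : ∀ s, Dep s (b2' s))
    (hbK : ∀ s x, b s x < K) (hbL : ∀ s x, b2 s x < L)
    (h3 : ∀ i : Fin 4, ∑ x, (ce (lab b' (univ.erase i)) (hh M i) x - ce (lab b (univ.erase i)) (hh M i) x) ^ 2
        ≤ pe3 c * (n : ℝ) ^ 4 ∧
      Unif (univ.erase i) (fun x => hh M i x - ce (lab b' (univ.erase i)) (hh M i) x) (pη c K L0))
    (h2 : ∀ (s : Finset (Fin 4)) (a : ℕ), a < K →
      ∑ x, (ce (lab b2' s) (Pl b s a) x - ce (lab b2 s) (Pl b s a) x) ^ 2 ≤ pe2 c K * (n : ℝ) ^ 4 ∧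
      Unif s (fun x => Pl b s a x - ce (lab b2' s) (Pl b s a) x) (pη c K L)) :
    pδ c K L0 * (n : ℝ) ^ 4 ≤
      ((univ.filter (fun x : Om n => ∀ i : Fin 4, ∃ y ∈ M, ∀ j, j ≠ i → x j = y j)).card : ℝ) := by
  classical
  obtain ⟨hBad1, hBad2, hBad3, hBad4⟩ := hBad
  have hnr : (0 : ℝ) < n := by exact_mod_cast hn
  have hn4 : (0 : ℝ) < (n : ℝ) ^ 4 := by positivity
  have hLr : (0 : ℝ) < L := by exact_mod_cast hL1
  -- the good member
  obtain ⟨x0, hx0M, g1, g2, g5, g3, g4⟩ := exists_good hn M c hc hMc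
    (fun i x => hh M i x = 1 ∧ ce (lab b (univ.erase i)) (hh M i) x < pa c)
    (fun i x => peb c < ce (lam b b2 i) (fun y => (ce (lab b' (univ.erase i)) (hh M i) y
      - ce (lab b (univ.erase i)) (hh M i) y) ^ 2) x)
    (fun i x => ((univ.filter (fun y => b2 {i} y = b2 {i} x)).card : ℝ) <
      c / 40 / L * Fintype.card (Om n))
    (fun s x => ce (lab b2 s) (Pl b s (b s x)) x < pec c K)
    (fun s x => ped c K < ce (lab b2 s) (fun y => (ce (lab b2' s) (Pl b s (b s x)) y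
      - ce (lab b2 s) (Pl b s (b s x)) y) ^ 2) x)
    (by
      intro i
      refine few hFew hn M i (hM i) _ ?_ _ ?_
      · intro x y hxy
        dsimp only
        rw [hhDep M i x y hxy, ceDep _ _ _ (labDep b hb (univ.erase i)) x y hxy]
      · have := hBad1 (Om n) _ (lab b (univ.erase i)) (hh M i) (pa c) (pa_pos hc).le (hh01 M i)
        rw [card_Om] at this
        exact this)
    (by
      intro i
      refine few hFew hn M i (hM i) _ ?_ _ ?_
      · intro x y hxy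
        dsimp only
        rw [ceDep _ _ _ (lamDep b b2 hb hb2 i) x y hxy]
      · have := hBad2 (Om n) _ (lam b b2 i) (fun y => (ce (lab b' (univ.erase i)) (hh M i) y
          - ce (lab b (univ.erase i)) (hh M i) y) ^ 2) (peb c) (pe3 c * (n : ℝ) ^ 4) (peb_pos hc)
          (fun x => sq_nonneg _) (h3 i).1
        refine this.trans (le_of_eq ?_)
        unfold pe3
        have := (peb_pos hc).ne'
        field_simp)
    (by
      intro i
      obtain ⟨j, hj⟩ : ∃ j : Fin 4, j ≠ i := by revert i; decide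
      refine few hFew hn M j (hM j) _ ?_ _ ?_
      · intro x y hxy
        dsimp only
        rw [hb2 {i} x y fun k hk => hxy k (by
          rw [Finset.mem_singleton] at hk; subst hk
          exact Finset.mem_erase.2 ⟨hj.symm, mem_univ _⟩)]
      · have := hBad3 (Om n) (b2 {i}) L (c / 40) (by positivity) (by omega) (hbL {i})
        rw [card_Om] at this
        rw [card_Om]
        exact this)
    (by
      intro s hs
      obtain ⟨i, hi⟩ := exists_not_mem_pair s hs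
      refine few hFew hn M i (hM i) _ ?_ _ ?_
      · refine Dep.mono ?_ hi
        intro x y hxy
        dsimp only
        rw [hb s x y hxy, ceDep _ _ _ (labDep b2 hb2 s) x y hxy]
      · refine card_union_bd K _ (fun a x => Pl b s a x = 1 ∧ ce (lab b2 s) (Pl b s a) x < pec c K)
          _ ?_ (by positivity) ?_
        · intro x hx
          exact ⟨b s x, hbK s x, by simp [Pl], hx⟩
        · intro a _
          have := hBad1 (Om n) _ (lab b2 s) (Pl b s a) (pec c K) (pec_pos hc K).le (Pl01 b s a)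
          rw [card_Om] at this
          refine this.trans (le_of_eq ?_)
          unfold pec
          field_simp)
    (by
      intro s hs
      obtain ⟨i, hi⟩ := exists_not_mem_pair s hs
      refine few hFew hn M i (hM i) _ ?_ _ ?_
      · refine Dep.mono ?_ hi
        intro x y hxy
        dsimp only
        rw [hb s x y hxy, ceDep _ _ _ (labDep b2 hb2 s) x y hxy]
      · refine card_union_bd K _ (fun a x => ped c K < ce (lab b2 s)
          (fun y => (ce (lab b2' s) (Pl b s a) y - ce (lab b2 s) (Pl b s a) y) ^ 2) x)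
          _ ?_ (by positivity) ?_
        · intro x hx
          exact ⟨b s x, hbK s x, hx⟩
        · intro a ha
          have := hBad2 (Om n) _ (lab b2 s) (fun y => (ce (lab b2' s) (Pl b s a) y
            - ce (lab b2 s) (Pl b s a) y) ^ 2) (ped c K) (pe2 c K * (n : ℝ) ^ 4) (ped_pos hc K)
            (fun x => sq_nonneg _) (h2 s a ha).1
          refine this.trans (le_of_eq ?_)
          unfold pe2
          have := (ped_pos hc K).ne'
          field_simp)
  simp only [not_and, not_lt] at g1 g2 g3 g4 g5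
  have g1' : ∀ i, pa c ≤ ce (lab b (univ.erase i)) (hh M i) x0 := by
    intro i
    refine g1 i ?_
    unfold hh
    rw [if_pos ⟨x0, hx0M, fun _ _ => rfl⟩]
  have hce01 : ∀ (T : Type) [DecidableEq T] (l : Om n → T) (f : Om n → ℝ),
      (∀ x, 0 ≤ f x ∧ f x ≤ 1) → ∀ x, 0 ≤ ce l f x ∧ ce l f x ≤ 1 :=
    fun T _ l f => (hCE (Om n) T l f).2.2.1
  have hPlI : ∀ s a x, 0 ≤ Pl b s a x ∧ Pl b s a x ≤ 1 := by
    intro s a x
    rcases Pl01 b s a x with h | h <;> rw [h] <;> norm_num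
  -- the data
  set A : Finset (Fin 4) → Om n → ℝ := fun s => Pl b s (b s x0) with hA
  set B : Finset (Fin 4) → Om n → ℝ := fun s => ce (lab b2' s) (A s) with hB
  set C : Fin 4 → Om n → ℝ := fun i x => if b2 {i} x = b2 {i} x0 then 1 else 0 with hC
  set S : Fin 4 → Om n → ℝ := fun i => ce (lab b' (univ.erase i)) (hh M i) with hS
  set σ : Fin 4 → ℝ := fun i => ce (lab b (univ.erase i)) (hh M i) x0 with hσ
  set d : Finset (Fin 4) → ℝ := fun s => ce (lab b2 s) (A s) x0 with hd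
  have hsqrt3 : Real.sqrt (peb c) = pρ c := by
    unfold peb; exact Real.sqrt_sq (pρ_pos hc).le
  have hsqrt2 : Real.sqrt (ped c K) = pτ c K := by
    unfold ped; exact Real.sqrt_sq (pτ_pos hc K).le
  have hpa1 : pa c ≤ 1 := by unfold pa; linarith
  have hρ1 : pρ c ≤ 1 := by
    unfold pρ
    have : (pa c) ^ 4 ≤ 1 := pow_le_one₀ (pa_pos hc).le hpa1
    linarith
  -- products of indicators
  have hprod3 : ∀ i x, (∏ s ∈ sub2 i, A s x) * ∏ j ∈ univ.erase i, C j x =
      if lam b b2 i x = lam b b2 i x0 then 1 else 0 := by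
    intro i x
    have e1 : (∏ s ∈ sub2 i, A s x) = if ∀ s ∈ sub2 i, b s x = b s x0 then 1 else 0 :=
      prod_ind _ _
    have e2 : (∏ j ∈ univ.erase i, C j x) = if ∀ j ∈ univ.erase i, b2 {j} x = b2 {j} x0 then 1 else 0 :=
      prod_ind _ _
    rw [e1, e2]
    by_cases h : lam b b2 i x = lam b b2 i x0
    · rw [if_pos h]
      obtain ⟨h1, h2⟩ := (lam_iff b b2 i x x0).1 h
      rw [if_pos h1, if_pos h2, mul_one]
    · rw [if_neg h]
      by_cases h1 : ∀ s ∈ sub2 i, b s x = b s x0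
      · by_cases h2 : ∀ j ∈ univ.erase i, b2 {j} x = b2 {j} x0
        · exact absurd ((lam_iff b b2 i x x0).2 ⟨h1, h2⟩) h
        · rw [if_neg h2, mul_zero]
      · rw [if_neg h1, zero_mul]
  have hprod2 : ∀ s ∈ pairs, ∀ x, ∏ j ∈ s, C j x = if lab b2 s x = lab b2 s x0 then 1 else 0 := by
    intro s hs x
    have e2 : (∏ j ∈ s, C j x) = if ∀ j ∈ s, b2 {j} x = b2 {j} x0 then 1 else 0 := prod_ind _ _
    rw [e2]
    by_cases h : lab b2 s x = lab b2 s x0
    · rw [if_pos h, if_pos ((lab_pair_iff b2 s hs x x0).1 h)]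
    · rw [if_neg h, if_neg (fun h' => h ((lab_pair_iff b2 s hs x x0).2 h'))]
  have hcnt : Cnt (fun i => hh M i) S σ A B C d (pa c) (pρ c) (pτ c K) (pη c K L) (pη c K L0) := by
    refine ⟨hn, fun i x => hhI M i x, ?_, hhDep M, ?_, ?_, ?_, ?_, ?_, ?_, ?_, ?_, ?_, ?_, ?_, ?_, ?_,
      ⟨(pa_pos hc).le, hpa1⟩, ⟨(pρ_pos hc).le, hρ1⟩, (pτ_pos hc K).le, (pη_pos hc K L).le,
      (pη_pos hc K L0).le⟩
    · intro i x; exact hce01 _ _ _ (hhI M i) x
    · intro i; exact ceDep _ _ _ (labDep b' hb' _)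
    · intro s x; exact Pl01 _ _ _ _
    · intro s; exact PlDep b hb s _
    · intro s x; exact hce01 _ _ _ (hPlI s _) x
    · intro s; exact ceDep _ _ _ (labDep b2' hb2' _)
    · intro i x; simp only [hC]; split <;> simp
    · intro i x y hxy
      simp only [hC]
      rw [hb2 {i} x y hxy]
    · intro i
      exact ⟨g1' i, (hce01 _ _ _ (hhI M i) x0).2⟩
    · intro s
      exact hce01 _ _ _ (hPlI s _) x0
    · intro i; exact (h3 i).2
    · intro s _; exact (h2 s (b s x0) (hbK s x0)).2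
    · intro i
      have e1 : ∑ x, |S i x - σ i| * ((∏ s ∈ sub2 i, A s x) * ∏ j ∈ univ.erase i, C j x) =
          ∑ x ∈ univ.filter (fun x => lam b b2 i x = lam b b2 i x0),
            |ce (lab b' (univ.erase i)) (hh M i) x - ce (lab b (univ.erase i)) (hh M i) x| := by
        rw [Finset.sum_filter]
        refine Finset.sum_congr rfl fun x _ => ?_
        rw [hprod3]
        split
        · rename_i h
          have hl : lab b (univ.erase i) x = lab b (univ.erase i) x0 :=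
            lab_of_sub2 b i x x0 ((lam_iff b b2 i x x0).1 h).1
          have : ce (lab b (univ.erase i)) (hh M i) x = σ i := by
            simp only [hσ]; unfold ce; rw [hl]
          rw [this, mul_one]
        · rw [mul_zero]
      have e2 : ∑ x, ((∏ s ∈ sub2 i, A s x) * ∏ j ∈ univ.erase i, C j x) =
          ((univ.filter (fun x => lam b b2 i x = lam b b2 i x0)).card : ℝ) := by
        rw [Finset.sum_congr rfl fun x _ => hprod3 i x, Finset.sum_boole]
      rw [e1, e2, ← hsqrt3]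
      exact hBad4 (Om n) _ (lam b b2 i) _ (peb c) x0 (peb_pos hc).le (g2 i)
    · intro s hs
      have e1 : ∑ x, |B s x - d s| * ∏ j ∈ s, C j x =
          ∑ x ∈ univ.filter (fun x => lab b2 s x = lab b2 s x0),
            |ce (lab b2' s) (Pl b s (b s x0)) x - ce (lab b2 s) (Pl b s (b s x0)) x| := by
        rw [Finset.sum_filter]
        refine Finset.sum_congr rfl fun x _ => ?_
        rw [hprod2 s hs]
        split
        · rename_i h
          have : ce (lab b2 s) (Pl b s (b s x0)) x = d s := by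
            simp only [hd, hA]; unfold ce; rw [h]
          rw [this, mul_one]
        · rw [mul_zero]
      have e2 : ∑ x, ∏ j ∈ s, C j x =
          ((univ.filter (fun x => lab b2 s x = lab b2 s x0)).card : ℝ) := by
        rw [Finset.sum_congr rfl fun x _ => hprod2 s hs x, Finset.sum_boole]
      rw [e1, e2, ← hsqrt2]
      exact hBad4 (Om n) _ (lab b2 s) _ (ped c K) x0 (ped_pos hc K).le (g4 s hs)
  have hcount := hCount n _ _ _ _ _ _ _ _ _ _ _ _ hcnt
  -- densities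
  have hdens : ∀ i, c / 40 / (L + 1) ≤ dens (C i) := by
    intro i
    have h1 := g5 i
    rw [card_Om] at h1
    have h2 : ∑ x, C i x = ((univ.filter (fun x => b2 {i} x = b2 {i} x0)).card : ℝ) := by
      simp only [hC]
      rw [Finset.sum_boole]
    unfold dens
    rw [h2, le_div_iff₀ hn4]
    refine le_trans (mul_le_mul_of_nonneg_right ?_ hn4.le) h1
    exact div_le_div_of_nonneg_left (by positivity) hLr (by linarith)
  have hG : pg c L ≤ ∏ i, dens (C i) := by
    unfold pg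
    calc (c / 40 / (L + 1)) ^ 4 = ∏ _i : Fin 4, (c / 40 / ((L : ℝ) + 1)) := by
          rw [Finset.prod_const, Finset.card_univ, Fintype.card_fin]
      _ ≤ ∏ i, dens (C i) := Finset.prod_le_prod (fun i _ => by positivity) fun i _ => hdens i
  have hD : (pec c K) ^ 6 ≤ ∏ s ∈ pairs, d s := by
    have hp6 : pairs.card = 6 := by decide
    calc (pec c K) ^ 6 = ∏ _s ∈ pairs, pec c K := by rw [Finset.prod_const, hp6]
      _ ≤ ∏ s ∈ pairs, d s := Finset.prod_le_prod (fun i _ => (pec_pos hc K).le) fun s hs => g3 s hs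
  have hg : pg c L0 ≤ pg c L := by
    unfold pg
    have h1 : c / 40 / ((L0 : ℝ) + 1) ≤ c / 40 / ((L : ℝ) + 1) := by
      refine div_le_div_of_nonneg_left (by positivity) (by positivity) ?_
      have : (L : ℝ) ≤ L0 := by exact_mod_cast hL0
      linarith
    exact pow_le_pow_left₀ (by positivity) h1 4
  have hnum := tet_num (pa c) ((pec c K) ^ 6) (pg c L) (pg c L0) (∏ i, dens (C i)) (∏ s ∈ pairs, d s)
    (pτ c K) (pρ c) (pη c K L) (pη c K L0) (pa_pos hc) hpa1 (by have := pec_pos hc K; positivity)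
    (pg_pos hc L0) hg hG hD rfl rfl rfl rfl
  have hfin : ∑ x, (∏ i, hh M i x) * ((∏ s ∈ pairs, A s x) * ∏ i, C i x) ≤
      ((univ.filter (fun x : Om n => ∀ i : Fin 4, ∃ y ∈ M, ∀ j, j ≠ i → x j = y j)).card : ℝ) := by
    rw [← Finset.sum_boole]
    refine Finset.sum_le_sum fun x _ => ?_
    have e1 : (∏ i, hh M i x) = if ∀ i ∈ (univ : Finset (Fin 4)), ∃ y ∈ M, ∀ j, j ≠ i → x j = y j then 1 else 0 := by
      unfold hh
      exact prod_ind _ _
    have hA1 : (∏ s ∈ pairs, A s x) ≤ 1 := Finset.prod_le_one (fun s _ => (hPlI s _ x).1) fun s _ => (hPlI s _ x).2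
    have hA0 : 0 ≤ (∏ s ∈ pairs, A s x) := Finset.prod_nonneg (fun s _ => (hPlI s _ x).1)
    have hCI : ∀ i, 0 ≤ C i x ∧ C i x ≤ 1 := by
      intro i; simp only [hC]; split <;> norm_num
    have hC1 : (∏ i, C i x) ≤ 1 := Finset.prod_le_one (fun s _ => (hCI s).1) fun s _ => (hCI s).2
    have hC0 : 0 ≤ (∏ i, C i x) := Finset.prod_nonneg (fun s _ => (hCI s).1)
    have hAC : (∏ s ∈ pairs, A s x) * ∏ i, C i x ≤ 1 := mul_le_one₀ hA1 hC0 hC1
    rw [e1]
    by_cases h : ∀ i : Fin 4, ∃ y ∈ M, ∀ j, j ≠ i → x j = y j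
    · rw [if_pos (fun i _ => h i), if_pos h, one_mul]
      exact hAC
    · rw [if_neg (fun h' => h fun i => h' i (mem_univ i)), if_neg h, zero_mul]
  have hδ : pδ c K L0 = pa c ^ 4 * pg c L0 * pec c K ^ 6 / 2 := rfl
  rw [hδ]
  refine le_trans (mul_le_mul_of_nonneg_right hnum hn4.le) (le_trans hcount hfin)

theorem stTet (hCE : StCE) (hStrong : StStrong) (hCount : StCount) (hFew : StFew) (hBad : StBad) :
    StTet := by
  classical
  intro c0 hc0
  set c := min c0 1 with hcdef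
  have hc : 0 < c := lt_min hc0 one_pos
  have hc1 : c ≤ 1 := min_le_right _ _
  -- level 2 bound as a function of K
  have hlev2 := fun K : ℕ => hStrong (16 * K) (pe2 c K) (fun L => pη c K L) (pe2_pos hc K)
    (fun L => pη_pos hc K L)
  choose L0 hL0 using hlev2
  obtain ⟨K0, hK0⟩ := hStrong 4 (pe3 c) (fun K => pη c K (L0 K)) (pe3_pos hc)
    (fun K => pη_pos hc K (L0 K))
  -- N
  refine ⟨∑ K ∈ range (K0 + 1), (⌈1 / pδ c K (L0 K)⌉₊ + 1) + 1, fun n hn M hM hMc => ?_⟩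
  have hn0 : 0 < n := by omega
  have hnr : (0 : ℝ) < n := by exact_mod_cast hn0
  have hMc' : c * (n : ℝ) ^ 3 ≤ M.card :=
    le_trans (mul_le_mul_of_nonneg_right (min_le_left _ _) (by positivity)) hMc
  obtain ⟨K, hK1, hKK0, b, b', hb, hb', hbK, -, h3⟩ := hK0 n hn0 (Fin 4) (fun i => univ.erase i)
    (fun i => hh M i) (by simp) (fun i x => hhI M i x)
  obtain ⟨L, hL1, hLL0, b2, b2', hb2, hb2', hbL, -, h2⟩ := hL0 K n hn0 (Finset (Fin 4) × Fin K)
    (fun φ => φ.1) (fun φ => Pl b φ.1 φ.2.val) (by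
      rw [Fintype.card_prod, Fintype.card_finset, Fintype.card_fin, Fintype.card_fin]
      norm_num)
    (fun φ x => by
      rcases Pl01 b φ.1 φ.2.val x with h | h <;> rw [h] <;> norm_num)
  have hcore := core hCE hCount hFew hBad hn0 M hM c hc hc1 hMc' K L (L0 K) hL1 hLL0 b b' b2 b2'
    hb hb' hb2 hb2' hbK hbL (fun i => h3 i) (fun s a ha => h2 (s, ⟨a, ha⟩))
  have hNK : ⌈1 / pδ c K (L0 K)⌉₊ + 1 ≤ n := by
    have h1 : ⌈1 / pδ c K (L0 K)⌉₊ + 1 ≤ ∑ K ∈ range (K0 + 1), (⌈1 / pδ c K (L0 K)⌉₊ + 1) :=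
      Finset.single_le_sum (f := fun K => ⌈1 / pδ c K (L0 K)⌉₊ + 1) (fun _ _ => Nat.zero_le _)
        (Finset.mem_range.2 (by omega))
    omega
  have hδ := pδ_pos hc K (L0 K)
  have hbig : 1 / pδ c K (L0 K) < n := by
    have h1 : 1 / pδ c K (L0 K) ≤ (⌈1 / pδ c K (L0 K)⌉₊ : ℝ) := Nat.le_ceil _
    have h2 : ((⌈1 / pδ c K (L0 K)⌉₊ : ℝ)) + 1 ≤ n := by exact_mod_cast hNK
    linarith
  have hbig' : 1 < pδ c K (L0 K) * n := by
    rw [div_lt_iff₀ hδ] at hbig
    linarith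
  refine lt_of_lt_of_le ?_ hcore
  have hn3 : (0 : ℝ) < (n : ℝ) ^ 3 := by positivity
  calc (n : ℝ) ^ 3 = 1 * (n : ℝ) ^ 3 := by ring
    _ < (pδ c K (L0 K) * n) * (n : ℝ) ^ 3 := mul_lt_mul_of_pos_right hbig' hn3
    _ = pδ c K (L0 K) * (n : ℝ) ^ 4 := by ring

end Pool.Agent.Lib.MP_5cdc53_co.PP
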