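import Pool.Agent.Lib.MP_5cdc53_co.PP.Stmts

/-!
# PP/Top: pass to the rich kernels of maximal size
-/

set_option autoImplicit false

namespace Pool.Agent.Lib.MP_5cdc53_co.PP

open Finset

namespace TopAux

/-- a graph of bounded degree has a large independent set -/
lemma greedy {α : Type} [DecidableEq α] (r : α → α → Prop) [DecidableRel r]
    (hs : ∀ x y, r x y → r y x) (Δ : ℕ) (P : Finset α) :
    (∀ x ∈ P, (P.filter (fun y => r x y)).card ≤ Δ) →
    ∃ P', P' ⊆ P ∧ (∀ x ∈ P', ∀ y ∈ P', x ≠ y → ¬ r x y) ∧ P.card ≤ (Δ + 1) * P'.card := by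
  induction P using Finset.strongInduction with
  | H P ih =>
    intro hP
    rcases P.eq_empty_or_nonempty with rfl | ⟨x, hx⟩
    · exact ⟨∅, Finset.Subset.refl _, by simp, by simp⟩
    · set Q := P.filter (fun y => y ≠ x ∧ ¬ r x y) with hQ
      have hQP : Q ⊆ P := Finset.filter_subset _ _
      have hxQ : x ∉ Q := by
        rw [hQ, Finset.mem_filter]
        rintro ⟨-, h, -⟩
        exact h rfl
      have hss : Q ⊂ P := Finset.ssubset_iff_subset_ne.mpr ⟨hQP, fun h => hxQ (h ▸ hx)⟩
      have hdeg : ∀ y ∈ Q, (Q.filter (fun z => r y z)).card ≤ Δ := fun y hy =>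
        (Finset.card_le_card (Finset.filter_subset_filter _ hQP)).trans (hP y (hQP hy))
      obtain ⟨P'', h1, h2, h3⟩ := ih Q hss hdeg
      have hx'' : x ∉ P'' := fun h => hxQ (h1 h)
      refine ⟨insert x P'', ?_, ?_, ?_⟩
      · intro y hy
        rcases Finset.mem_insert.mp hy with rfl | hy
        · exact hx
        · exact hQP (h1 hy)
      · have key : ∀ y ∈ P'', ¬ r x y := fun y hy => by
          have := h1 hy
          rw [hQ, Finset.mem_filter] at this
          exact this.2.2
        intro y hy z hz hyz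
        rcases Finset.mem_insert.mp hy with rfl | hy'
        · rcases Finset.mem_insert.mp hz with rfl | hz'
          · exact absurd rfl hyz
          · exact key z hz'
        · rcases Finset.mem_insert.mp hz with rfl | hz'
          · exact fun h => key y hy' (hs _ _ h)
          · exact h2 y hy' z hz' hyz
      · rw [Finset.card_insert_of_notMem hx'']
        have hcov : P ⊆ Q ∪ ({x} ∪ P.filter (fun y => r x y)) := by
          intro y hy
          by_cases hyx : y = x
          · simp [hyx]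
          · by_cases hr : r x y
            · simp [hy, hr]
            · have : y ∈ Q := by
                rw [hQ, Finset.mem_filter]
                exact ⟨hy, hyx, hr⟩
              simp [this]
        have hc := (Finset.card_le_card hcov).trans (Finset.card_union_le _ _)
        have hc2 : ({x} ∪ P.filter (fun y => r x y)).card ≤ 1 + Δ := by
          refine (Finset.card_union_le _ _).trans ?_
          have := hP x hx
          simp only [Finset.card_singleton]
          omega
        calc P.card ≤ Q.card + (1 + Δ) := hc.trans (by omega)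
          _ ≤ (Δ + 1) * P''.card + (1 + Δ) := by omega
          _ = (Δ + 1) * (P''.card + 1) := by ring

/-- two members containing a set of maximal intersection size meet exactly there -/
lemma meet {n k b : ℕ} {L : Finset ℕ} {F : Finset (Finset (Fin n))} (hF : IsSystem n k L F)
    (hb : ∀ l ∈ L, l ≤ b) {D Y Y' : Finset (Fin n)} (hD : D.card = b) (hY : Y ∈ F) (hY' : Y' ∈ F)
    (hYY : Y ≠ Y') (hDY : D ⊆ Y) (hDY' : D ⊆ Y') : Y ∩ Y' = D := by
  have h1 : D ⊆ Y ∩ Y' := Finset.subset_inter hDY hDY'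
  have h2 := hb _ (hF.2 Y hY Y' hY' hYY)
  exact (Finset.eq_of_subset_of_card_le h1 (by rw [hD]; exact h2)).symm

/-- a rich kernel has a petal that avoids a given small set -/
lemma petal {n k b : ℕ} {L : Finset ℕ} {F : Finset (Finset (Fin n))} (hF : IsSystem n k L F)
    (hb : ∀ l ∈ L, l ≤ b) {D T : Finset (Fin n)} (hD : D.card = b) (hT : T.card ≤ k)
    (hr : k + 1 ≤ (F.filter (fun Y => D ⊆ Y)).card) :
    ∃ Y ∈ F, D ⊆ Y ∧ ∀ x ∈ Y, x ∈ T → x ∈ D := by
  by_contra hcon
  push Not at hcon
  have hch : ∀ Y : Finset (Fin n), ∃ x : Fin n, Y ∈ F → D ⊆ Y → x ∈ Y ∧ x ∈ T ∧ x ∉ D := by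
    intro Y
    by_cases h : Y ∈ F ∧ D ⊆ Y
    · obtain ⟨x, h1, h2, h3⟩ := hcon Y h.1 h.2
      exact ⟨x, fun _ _ => ⟨h1, h2, h3⟩⟩
    · have hn : Nonempty (Fin n) := by
        have hpos : 0 < (F.filter (fun Y => D ⊆ Y)).card := by omega
        obtain ⟨Z, hZ⟩ := Finset.card_pos.mp hpos
        rw [Finset.mem_filter] at hZ
        obtain ⟨x, -⟩ := hcon Z hZ.1 hZ.2
        exact ⟨x⟩
      obtain ⟨x⟩ := hn
      exact ⟨x, fun h1 h2 => absurd ⟨h1, h2⟩ h⟩
  choose f hf using hch
  have hle : (F.filter (fun Y => D ⊆ Y)).card ≤ T.card := by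
    refine Finset.card_le_card_of_injOn f ?_ ?_
    · intro Y hY
      have hY' := Finset.mem_filter.mp hY
      exact (hf Y hY'.1 hY'.2).2.1
    · intro Y hY Z hZ hYZ
      by_contra hne
      have hY' := Finset.mem_filter.mp hY
      have hZ' := Finset.mem_filter.mp hZ
      have h1 := hf Y hY'.1 hY'.2
      have h2 := hf Z hZ'.1 hZ'.2
      have h3 : f Y ∈ Y ∩ Z := Finset.mem_inter.mpr ⟨h1.1, by rw [hYZ]; exact h2.1⟩
      rw [meet hF hb hD hY'.1 hZ'.1 hne hY'.2 hZ'.2] at h3
      exact h1.2.2 h3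
  omega

/-- at most `n` members contain a given set of maximal intersection size -/
lemma star_le {n k b : ℕ} {L : Finset ℕ} {F : Finset (Finset (Fin n))} (hF : IsSystem n k L F)
    (hb : ∀ l ∈ L, l ≤ b) (hbk : b < k) {D : Finset (Fin n)} (hD : D.card = b) :
    (F.filter (fun Y => D ⊆ Y)).card ≤ n := by
  have hch : ∀ Y ∈ F.filter (fun Y => D ⊆ Y), ∃ x ∈ Y, x ∉ D := by
    intro Y hY
    have hY' := Finset.mem_filter.mp hY
    by_contra hcon
    push Not at hcon
    have h1 := Finset.card_le_card (show Y ⊆ D from hcon)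
    rw [hF.1 Y hY'.1] at h1
    omega
  rcases (F.filter (fun Y => D ⊆ Y)).eq_empty_or_nonempty with h0 | ⟨Z₀, hZ₀⟩
  · rw [h0]
    simp
  have hne : Nonempty (Fin n) := ⟨(hch Z₀ hZ₀).choose⟩
  choose! f hf1 hf2 using hch
  have : (F.filter (fun Y => D ⊆ Y)).card ≤ (Finset.univ : Finset (Fin n)).card := by
    refine Finset.card_le_card_of_injOn f (fun _ _ => Finset.mem_coe.mpr (Finset.mem_univ _)) ?_
    intro Y hY Z hZ hYZ
    by_contra hne
    have hY' := Finset.mem_filter.mp hY
    have hZ' := Finset.mem_filter.mp hZ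
    have h3 : f Y ∈ Y ∩ Z := Finset.mem_inter.mpr ⟨hf1 Y hY, by rw [hYZ]; exact hf1 Z hZ⟩
    rw [meet hF hb hD hY'.1 hZ'.1 hne hY'.2 hZ'.2] at h3
    exact hf2 Y hY h3
  simpa using this

/-- the rich kernels -/
def rich {n : ℕ} (k b : ℕ) (F : Finset (Finset (Fin n))) : Finset (Finset (Fin n)) :=
  Finset.univ.filter (fun D => D.card = b ∧ k + 1 ≤ (F.filter (fun Y => D ⊆ Y)).card)

lemma rich_system {n k b : ℕ} {L : Finset ℕ} {F : Finset (Finset (Fin n))}
    (hF : IsSystem n k L F) (hb : ∀ l ∈ L, l ≤ b) (hbk : b < k) :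
    IsSystem n b (L.erase b) (rich k b F) := by
  have hmem : ∀ D, D ∈ rich k b F ↔ D.card = b ∧ k + 1 ≤ (F.filter (fun Y => D ⊆ Y)).card := by
    intro D
    unfold rich
    simp
  refine ⟨fun D hD => ((hmem D).mp hD).1, fun D hD D' hD' hne => ?_⟩
  obtain ⟨hc, hr⟩ := (hmem D).mp hD
  obtain ⟨hc', hr'⟩ := (hmem D').mp hD'
  obtain ⟨Y, hY, hDY, h1⟩ := petal hF hb hc (T := D') (by omega) hr
  obtain ⟨Y', hY', hDY', h2⟩ := petal hF hb hc' (T := Y) (by rw [hF.1 Y hY]) hr'
  have heq : Y ∩ Y' = D ∩ D' := by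
    ext x
    simp only [Finset.mem_inter]
    constructor
    · rintro ⟨hx, hx'⟩
      have h3 := h2 x hx' hx
      exact ⟨h1 x hx h3, h3⟩
    · rintro ⟨hx, hx'⟩
      exact ⟨hDY hx, hDY' hx'⟩
  have hle : (D ∩ D').card ≤ b := by
    rw [← hc]
    exact Finset.card_le_card Finset.inter_subset_left
  have hYY : Y ≠ Y' := by
    rintro rfl
    rw [Finset.inter_self] at heq
    have := hF.1 Y hY
    rw [heq] at this
    omega
  have hL := hF.2 Y hY Y' hY' hYY
  rw [heq] at hL
  refine Finset.mem_erase.mpr ⟨fun h => hne ?_, hL⟩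
  have e1 : D ∩ D' = D := Finset.eq_of_subset_of_card_le Finset.inter_subset_left (by omega)
  have e2 : D ∩ D' = D' := Finset.eq_of_subset_of_card_le Finset.inter_subset_right (by omega)
  rw [← e1, e2]

/-- the count -/
lemma count {n k b : ℕ} {L : Finset ℕ} {F : Finset (Finset (Fin n))} (C : ℕ)
    (hF : IsSystem n k L F) (hb : ∀ l ∈ L, l ≤ b) (hbk : b < k)
    (hC : ∀ G : Finset (Finset (Fin n)), IsSystem n k (L.erase b) G →
      G.card ≤ C * n ^ (L.erase b).card) :
    F.card ≤ n * (rich k b F).card + (2 ^ k * k + 1) * (C * n ^ (L.erase b).card) := by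
  have hmem : ∀ D, D ∈ rich k b F ↔ D.card = b ∧ k + 1 ≤ (F.filter (fun Y => D ⊆ Y)).card := by
    intro D
    unfold rich
    simp
  set P := F.filter (fun Y => ∀ D ∈ rich k b F, ¬ D ⊆ Y) with hP
  -- the members with a rich subset
  have h1 : F.card ≤ ((rich k b F).biUnion (fun D => F.filter (fun Y => D ⊆ Y))).card + P.card := by
    refine (Finset.card_le_card ?_).trans (Finset.card_union_le _ _)
    intro Y hY
    rw [Finset.mem_union]
    by_cases h : ∀ D ∈ rich k b F, ¬ D ⊆ Y
    · right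
      rw [hP, Finset.mem_filter]
      exact ⟨hY, h⟩
    · left
      push Not at h
      obtain ⟨D, hD, hDY⟩ := h
      exact Finset.mem_biUnion.mpr ⟨D, hD, Finset.mem_filter.mpr ⟨hY, hDY⟩⟩
  have h2 : ((rich k b F).biUnion (fun D => F.filter (fun Y => D ⊆ Y))).card
      ≤ n * (rich k b F).card := by
    refine Finset.card_biUnion_le.trans ?_
    have : ∀ D ∈ rich k b F, (F.filter (fun Y => D ⊆ Y)).card ≤ n := fun D hD =>
      star_le hF hb hbk ((hmem D).mp hD).1
    refine (Finset.sum_le_sum this).trans ?_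
    rw [Finset.sum_const, smul_eq_mul, mul_comm]
  -- the poor members
  have h3 : P.card ≤ (2 ^ k * k + 1) * (C * n ^ (L.erase b).card) := by
    classical
    obtain ⟨P', hP1, hP2, hP3⟩ := greedy (fun Y Y' : Finset (Fin n) => Y ≠ Y' ∧ (Y ∩ Y').card = b)
      (fun Y Y' h => ⟨h.1.symm, by rw [Finset.inter_comm]; exact h.2⟩) (2 ^ k * k) P (by
        intro Y hY
        have hY' := Finset.mem_filter.mp (hP ▸ hY)
        have hsub : P.filter (fun Y' => Y ≠ Y' ∧ (Y ∩ Y').card = b) ⊆
            (Y.powerset.filter (fun D => D.card = b)).biUnion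
              (fun D => F.filter (fun Z => D ⊆ Z)) := by
          intro Z hZ
          obtain ⟨hZ1, hZ2, hZ3⟩ := Finset.mem_filter.mp hZ
          have hZF : Z ∈ F := (Finset.mem_filter.mp (hP ▸ hZ1)).1
          refine Finset.mem_biUnion.mpr ⟨Y ∩ Z, ?_, ?_⟩
          · rw [Finset.mem_filter, Finset.mem_powerset]
            exact ⟨Finset.inter_subset_left, hZ3⟩
          · rw [Finset.mem_filter]
            exact ⟨hZF, Finset.inter_subset_right⟩
        refine (Finset.card_le_card hsub).trans (Finset.card_biUnion_le.trans ?_)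
        have hk : ∀ D ∈ Y.powerset.filter (fun D => D.card = b),
            (F.filter (fun Z => D ⊆ Z)).card ≤ k := by
          intro D hD
          rw [Finset.mem_filter, Finset.mem_powerset] at hD
          by_contra hcon
          exact hY'.2 D ((hmem D).mpr ⟨hD.2, by omega⟩) hD.1
        refine (Finset.sum_le_sum hk).trans ?_
        rw [Finset.sum_const, smul_eq_mul]
        refine Nat.mul_le_mul_right k ?_
        refine (Finset.card_le_card (Finset.filter_subset _ _)).trans ?_
        rw [Finset.card_powerset, hF.1 Y hY'.1])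
    refine hP3.trans (Nat.mul_le_mul_left _ (hC P' ?_))
    have hPF : P' ⊆ F := hP1.trans (Finset.filter_subset _ _)
    refine ⟨fun Y hY => hF.1 Y (hPF hY), fun Y hY Z hZ hYZ => ?_⟩
    refine Finset.mem_erase.mpr ⟨fun h => hP2 Y hY Z hZ hYZ ⟨hYZ, h⟩, ?_⟩
    exact hF.2 Y (hPF hY) Z (hPF hZ) hYZ
  omega

end TopAux

open TopAux in
/-- A5: pass to the rich kernels of maximal size -/
theorem stTop (hT : StTriv) : StTop := by
  intro k L b hbL hb hbk hW
  obtain ⟨c, hc, hW⟩ := hW
  obtain ⟨C, hC⟩ := hT k (L.erase b)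
  refine ⟨c / 2, by positivity, fun N => ?_⟩
  set C' : ℝ := (2 ^ k * k + 1) * C with hC'
  obtain ⟨n, hn, F, hF, hcF⟩ := hW (max (max N 1) ⌈2 * C' / c⌉₊)
  have hnN : N ≤ n := (le_max_left N 1).trans ((le_max_left _ _).trans hn)
  have hn1 : 1 ≤ n := (le_max_right N 1).trans ((le_max_left _ _).trans hn)
  have hnC : 2 * C' / c ≤ n := by
    refine (Nat.le_ceil _).trans ?_
    exact_mod_cast (le_max_right _ _).trans hn
  refine ⟨n, hnN, rich k b F, rich_system hF hb hbk, ?_⟩
  have hcount := count C hF hb hbk (fun G hG => hC n hn1 G hG)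
  have hcard : L.card = (L.erase b).card + 1 := by
    rw [Finset.card_erase_of_mem hbL]
    have : 0 < L.card := Finset.card_pos.mpr ⟨b, hbL⟩
    omega
  rw [hcard] at hcF
  set s := (L.erase b).card with hs
  have hn0 : (0 : ℝ) < n := by exact_mod_cast hn1
  have hcount' : (F.card : ℝ) ≤ n * (rich k b F).card + C' * (n : ℝ) ^ s := by
    have h : (F.card : ℝ) ≤ ((n * (rich k b F).card + (2 ^ k * k + 1) * (C * n ^ s) : ℕ) : ℝ) := by
      exact_mod_cast hcount
    refine h.trans (le_of_eq ?_)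
    rw [hC']
    push_cast
    ring
  have h1 : 2 * C' ≤ n * c := by
    rw [div_le_iff₀ hc] at hnC
    exact hnC
  have hns : (0 : ℝ) < (n : ℝ) ^ s := by positivity
  have h2 := mul_le_mul_of_nonneg_right h1 hns.le
  rw [pow_succ] at hcF
  have h3 : n * (c / 2 * (n : ℝ) ^ s) ≤ n * ((rich k b F).card : ℝ) := by nlinarith
  exact le_of_mul_le_mul_left h3 hn0

end Pool.Agent.Lib.MP_5cdc53_co.PP
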