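import Pool.Agent.Lib.MP_5cdc53_co.PP.Stmts

/-!
# Translations exist (module Trans)
-/

set_option autoImplicit false

namespace Pool.Agent.Lib.MP_5cdc53_co.PP

namespace TransX

variable {V D : Type} {dir : V → V → D}

/-- `z` is on the line through `x` with direction `u` -/
def On (dir : V → V → D) (u : D) (x z : V) : Prop := z = x ∨ dir x z = u

lemma on_refl (u : D) (x : V) : On dir u x x := Or.inl rfl

lemma on_symm (hA : Aff V D dir) {u : D} {x z : V} (h : On dir u x z) : On dir u z x := by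
  rcases h with h | h
  · exact Or.inl h.symm
  · exact Or.inr ((hA.symm z x).trans h)

lemma on_trans (hA : Aff V D dir) {u : D} {x y z : V} (h1 : On dir u x y) (h2 : On dir u y z) :
    On dir u x z := by
  by_cases hxy : y = x
  · rw [hxy] at h2; exact h2
  by_cases hyz : z = y
  · rw [← hyz] at h1; exact h1
  by_cases hxz : z = x
  · exact Or.inl hxz
  have e1 : dir y x = u := (hA.symm y x).trans (h1.resolve_left hxy)
  have e2 : dir y z = u := h2.resolve_left hyz
  exact Or.inr ((hA.trans y x z hxy (Ne.symm hyz) (Ne.symm hxz) (e1.trans e2.symm)).trans e1)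

lemma on_dir {u : D} {x z : V} (h : On dir u x z) (hne : x ≠ z) : dir x z = u :=
  h.resolve_left (Ne.symm hne)

lemma par_on1 {a b x d : V} (h : Par dir a b x d) : On dir (dir a b) x d := Or.inr h.2.2.2.2.1

lemma par_off {a b x d : V} (h : Par dir a b x d) : ¬ On dir (dir a b) a x := by
  rintro (h1 | h1)
  · exact h.2.1 h1.symm
  · exact h.2.2.1 h1

lemma exists4 (hA : Aff V D dir) {a b x : V} (hab : a ≠ b) (hx : ¬ On dir (dir a b) a x) :
    ∃ d, Par dir a b x d := by
  have hax : a ≠ x := fun h => hx (Or.inl h.symm)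
  have hd : dir a x ≠ dir a b := fun h => hx (Or.inr h)
  obtain ⟨d, ⟨h1, h2⟩, -⟩ := hA.meet x b (dir a b) (dir a x) hd.symm
  have h1' : On dir (dir a b) x d := h1
  have h2' : On dir (dir a x) b d := h2
  have hxd : x ≠ d := by
    intro h
    rw [← h] at h2'
    have h3 : On dir (dir a x) a x := Or.inr rfl
    have h4 := on_trans hA h3 (on_symm hA h2')
    exact hd (on_dir h4 hab).symm
  have hbd : b ≠ d := by
    intro h
    rw [← h] at h1'
    have h3 : On dir (dir a b) a b := Or.inr rfl
    exact hx (on_trans hA h3 (on_symm hA h1'))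
  exact ⟨d, hab, hax, hd, hxd, on_dir h1' hxd, hbd, on_dir h2' hbd⟩

lemma unique4 (hA : Aff V D dir) {a b x d d' : V} (h : Par dir a b x d)
    (h' : Par dir a b x d') : d = d' := by
  obtain ⟨z, -, hz⟩ := hA.meet x b (dir a b) (dir a x) h.2.2.1.symm
  rw [hz d ⟨Or.inr h.2.2.2.2.1, Or.inr h.2.2.2.2.2.2⟩,
    hz d' ⟨Or.inr h'.2.2.2.2.1, Or.inr h'.2.2.2.2.2.2⟩]

/-- `Par a b x d → Par b a d x` -/
lemma par_rev (hA : Aff V D dir) {a b x d : V} (h : Par dir a b x d) : Par dir b a d x := by
  obtain ⟨h1, h2, h3, h4, h5, h6, h7⟩ := h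
  refine ⟨h1.symm, h6, ?_, h4.symm, ?_, h2, ?_⟩
  · rw [h7, hA.symm b a]; exact h3
  · rw [hA.symm d x, h5, hA.symm b a]
  · exact h7.symm

/-- `Par a b x d → Par x d a b` -/
lemma par_swap (hA : Aff V D dir) {a b x d : V} (h : Par dir a b x d) : Par dir x d a b := by
  obtain ⟨h1, h2, h3, h4, h5, h6, h7⟩ := h
  refine ⟨h4, h2.symm, ?_, h1, h5.symm, h6.symm, ?_⟩
  · rw [hA.symm x a, h5]; exact h3
  · rw [hA.symm d b, hA.symm x a, h7]

/-- change of the base by minor Desargues -/
lemma shift (hM : MD dir) {a b c c' x d : V} (h1 : Par dir a b c c')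
    (h2 : Par dir a b x d) (h3 : ¬ On dir (dir a b) c x) : Par dir c c' x d := by
  have hcx : c ≠ x := fun h => h3 (Or.inl h.symm)
  have hd : dir c x ≠ dir a b := fun h => h3 (Or.inr h)
  obtain ⟨h4, h5⟩ := hM a b c c' x d h1 h2 hcx hd
  have e : dir c c' = dir a b := h1.2.2.2.2.1
  refine ⟨h1.2.2.2.1, hcx, ?_, h2.2.2.2.1, ?_, h4, h5⟩
  · rw [e]; exact hd
  · rw [e]; exact h2.2.2.2.2.1

/-- the relation of the translation -/
def RR (dir : V → V → D) (a b c c' x d : V) : Prop := Par dir a b x d ∨ Par dir c c' x d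

lemma rr_exists (hA : Aff V D dir) {a b c c' : V} (h : Par dir a b c c') (x : V) :
    ∃ d, RR dir a b c c' x d := by
  by_cases hx : On dir (dir a b) a x
  · have e : dir c c' = dir a b := h.2.2.2.2.1
    have h1 : ¬ On dir (dir c c') c x := by
      rw [e]
      intro h2
      exact par_off h (on_trans hA hx (on_symm hA h2))
    obtain ⟨d, hd⟩ := exists4 hA h.2.2.2.1 h1
    exact ⟨d, Or.inr hd⟩
  · obtain ⟨d, hd⟩ := exists4 hA h.1 hx
    exact ⟨d, Or.inl hd⟩

lemma rr_unique (hA : Aff V D dir) (hM : MD dir) {a b c c' x d d' : V}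
    (h : Par dir a b c c') (h1 : RR dir a b c c' x d) (h2 : RR dir a b c c' x d') : d = d' := by
  have e : dir c c' = dir a b := h.2.2.2.2.1
  have key : ∀ {d d' : V}, Par dir a b x d → Par dir c c' x d' → d = d' := by
    intro d d' h3 h4
    have h5 := par_off h4
    rw [e] at h5
    exact unique4 hA (shift hM h h3 h5) h4
  rcases h1 with h1 | h1 <;> rcases h2 with h2 | h2
  · exact unique4 hA h1 h2
  · exact key h1 h2
  · exact (key h2 h1).symm
  · exact unique4 hA h1 h2

lemma rr_rev (hA : Aff V D dir) {a b c c' x d : V} (h : RR dir a b c c' x d) :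
    RR dir b a c' c d x := by
  rcases h with h | h
  · exact Or.inl (par_rev hA h)
  · exact Or.inr (par_rev hA h)

lemma rr_on {a b c c' x d : V} (h : Par dir a b c c') (h1 : RR dir a b c c' x d) :
    x ≠ d ∧ On dir (dir a b) x d := by
  have e : dir c c' = dir a b := h.2.2.2.2.1
  rcases h1 with h1 | h1
  · exact ⟨h1.2.2.2.1, par_on1 h1⟩
  · refine ⟨h1.2.2.2.1, ?_⟩
    rw [← e]
    exact par_on1 h1

/-- a point off two parallel lines -/
lemma exists_off (hA : Aff V D dir) (o : D) (a c : V) :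
    ∃ g, ¬ On dir o a g ∧ ¬ On dir o c g := by
  obtain ⟨w, hw⟩ : ∃ w : D, w ≠ o := by
    obtain ⟨u, v, w, huv, -, -⟩ := hA.dirs
    by_cases h : u = o
    · exact ⟨v, by rw [← h]; exact huv.symm⟩
    · exact ⟨u, h⟩
  obtain ⟨y, z, h1, h2, h3, h4, h5⟩ := hA.three a w
  have hy : ¬ On dir o a y := fun h => hw (h4.symm.trans (on_dir h h1))
  have hz : ¬ On dir o a z := fun h => hw (h5.symm.trans (on_dir h h2))
  by_cases hcy : On dir o c y
  · refine ⟨z, hz, fun hcz => ?_⟩
    have h6 := on_trans hA (on_symm hA hcy) hcz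
    have h7 : On dir w y z := on_trans hA (on_symm hA (Or.inr h4)) (Or.inr h5)
    exact hw ((on_dir h7 h3).symm.trans (on_dir h6 h3))
  · exact ⟨y, hy, hcy⟩

lemma rr_dir (hA : Aff V D dir) (hM : MD dir) {a b c c' x y d e : V}
    (h : Par dir a b c c') (h1 : RR dir a b c c' x d) (h2 : RR dir a b c c' y e) (hxy : x ≠ y) :
    dir d e = dir x y := by
  have ee : dir c c' = dir a b := h.2.2.2.2.1
  have hde : d ≠ e := by
    intro hde
    rw [← hde] at h2
    exact hxy (rr_unique hA hM (par_rev hA h) (rr_rev hA h1) (rr_rev hA h2))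
  by_cases ho : dir x y = dir a b
  · have h3 : On dir (dir a b) d e :=
      on_trans hA (on_symm hA (rr_on h h1).2) (on_trans hA (Or.inr ho) (rr_on h h2).2)
    rw [on_dir h3 hde, ho]
  -- the mixed case
  have mixed : ∀ {x y d e : V}, Par dir a b x d → Par dir c c' y e → x ≠ y →
      dir x y ≠ dir a b → dir d e = dir x y := by
    intro x y d e h1 h2 hxy ho
    have hy : ¬ On dir (dir a b) c y := by
      have := par_off h2
      rwa [ee] at this
    by_cases hx : On dir (dir a b) c x
    · by_cases hya : On dir (dir a b) a y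
      · obtain ⟨g, hg1, hg2⟩ := exists_off hA (dir a b) a c
        obtain ⟨g', hg⟩ := exists4 hA h.1 hg1
        have hcg : Par dir c c' g g' := shift hM h hg hg2
        have e1 : dir g g' = dir a b := hg.2.2.2.2.1
        have k1 : Par dir g g' x d := by
          refine shift hM hg h1 fun h3 => ?_
          exact hg2 (on_trans hA hx (on_symm hA h3))
        have k2 : Par dir g g' y e := by
          refine shift hM hcg h2 fun h3 => ?_
          rw [ee] at h3
          exact hg1 (on_trans hA hya (on_symm hA h3))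
        exact (hM g g' x d y e k1 k2 hxy (by rw [e1]; exact ho)).2
      · obtain ⟨e', he'⟩ := exists4 hA h.1 hya
        have h3 : e' = e := rr_unique hA hM h (Or.inl he') (Or.inr h2)
        rw [h3] at he'
        exact (hM a b x d y e h1 he' hxy ho).2
    · have h3 := shift hM h h1 hx
      exact (hM c c' x d y e h3 h2 hxy (by rw [ee]; exact ho)).2
  rcases h1 with h1 | h1 <;> rcases h2 with h2 | h2
  · exact (hM a b x d y e h1 h2 hxy ho).2
  · exact mixed h1 h2 hxy ho
  · rw [hA.symm d e, hA.symm x y]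
    refine mixed h2 h1 hxy.symm ?_
    rw [hA.symm y x]
    exact ho
  · exact (hM c c' x d y e h1 h2 hxy (by rw [ee]; exact ho)).2

end TransX

open TransX in
theorem stTrans : StTrans := by
  intro V D dir hA hM a b hab
  obtain ⟨c, hc, -⟩ := exists_off hA (dir a b) a a
  obtain ⟨c', h⟩ := exists4 hA hab hc
  have h' := par_rev hA h
  choose f hf using fun x => rr_exists hA h x
  choose g hg using fun x => rr_exists hA h' x
  have hgf : ∀ x, g (f x) = x := fun x => rr_unique hA hM h' (hg (f x)) (rr_rev hA (hf x))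
  have hfg : ∀ x, f (g x) = x := fun x => rr_unique hA hM h (hf (g x)) (rr_rev hA (hg x))
  refine ⟨⟨f, g, hgf, hfg⟩, ?_, ?_, ?_⟩
  · intro x y hxy
    exact rr_dir hA hM h (hf x) (hf y) hxy
  · exact rr_unique hA hM h (hf a) (Or.inr (par_swap hA h))
  · intro x
    exact (rr_on h (hf x)).1.symm

end Pool.Agent.Lib.MP_5cdc53_co.PP
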