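import Pool.Agent.Lib.MP_5cdc53_co.PP.Stmts

set_option autoImplicit false

namespace Pool.Agent.Lib.MP_5cdc53_co.PP

open Finset

theorem stFG : StFG := by
  intro k L hF
  obtain ⟨c, hc, N, hN⟩ := hF
  refine ⟨c, hc, fun N' => ⟨max N N', le_max_right _ _, ?_⟩⟩
  set n := max N N' with hn
  have h1 := hN n (le_max_left _ _)
  have h2 : m n k L ∈ {M | ∃ F : Finset (Finset (Fin n)), IsSystem n k L F ∧ F.card = M} := by
    apply Nat.sSup_mem
    · exact ⟨0, ∅, ⟨by simp, by simp⟩, by simp⟩
    · refine ⟨Fintype.card (Finset (Fin n)), ?_⟩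
      rintro _ ⟨F, _, rfl⟩
      exact Finset.card_le_univ F
  obtain ⟨F, hF, hcard⟩ := h2
  exact ⟨F, hF, by rw [hcard]; exact h1.le⟩

theorem stTrace : StTrace := by
  classical
  intro n k L F X hF hX
  let f : Finset (Fin n) → Finset (Finset (Fin n)) := fun E => F.filter (fun Y => Y ≠ X ∧ Y ∩ X = E)
  obtain ⟨E, hE, hmax⟩ := Finset.exists_max_image X.powerset (fun E => (f E).card)
    ⟨∅, by simp⟩
  refine ⟨E, mem_powerset.1 hE, f E, filter_subset _ _, ?_, ?_⟩
  · intro Y hY
    exact (mem_filter.1 hY).2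
  · have h1 : F.erase X ⊆ X.powerset.biUnion f := by
      intro Y hY
      rw [mem_erase] at hY
      rw [mem_biUnion]
      exact ⟨Y ∩ X, mem_powerset.2 inter_subset_right, mem_filter.2 ⟨hY.2, hY.1, rfl⟩⟩
    have h2 : (F.erase X).card ≤ 2 ^ k * (f E).card := by
      calc (F.erase X).card ≤ (X.powerset.biUnion f).card := card_le_card h1
        _ ≤ X.powerset.card * (f E).card := card_biUnion_le_card_mul _ _ _ hmax
        _ = 2 ^ k * (f E).card := by rw [card_powerset, hF.1 X hX]
    have h3 := Finset.card_erase_add_one hX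
    omega

theorem triv_aux (s : ℕ) : ∀ k : ℕ, ∃ C : ℕ, ∀ L : Finset ℕ, L.card = s → ∀ n : ℕ, 1 ≤ n →
    ∀ F : Finset (Finset (Fin n)), IsSystem n k L F → F.card ≤ C * n ^ s := by
  classical
  induction s with
  | zero =>
    intro k
    refine ⟨1, fun L hL n hn F hF => ?_⟩
    have hL0 : L = ∅ := card_eq_zero.1 hL
    subst hL0
    simp only [pow_zero, mul_one]
    rw [card_le_one]
    intro A hA B hB
    by_contra hne
    exact absurd (hF.2 A hA B hB hne) (by simp)
  | succ s ih =>
    intro k
    obtain ⟨C, hC⟩ := ih k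
    refine ⟨1 + 2 ^ k * C, fun L hL n hn F hF => ?_⟩
    rcases F.eq_empty_or_nonempty with rfl | ⟨X, hX⟩
    · simp
    obtain ⟨E, hEX, G, hGF, hG, hcard⟩ := stTrace n k L F X hF hX
    have hn1 : 1 ≤ n ^ (s + 1) := Nat.one_le_pow _ _ hn
    -- it suffices to bound G
    suffices hGb : G.card ≤ C * n ^ (s + 1) by
      calc F.card ≤ 1 + 2 ^ k * G.card := hcard
        _ ≤ 1 * n ^ (s + 1) + 2 ^ k * (C * n ^ (s + 1)) := by
          gcongr
          simpa using hn1
        _ = (1 + 2 ^ k * C) * n ^ (s + 1) := by ring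
    rcases G.eq_empty_or_nonempty with rfl | ⟨Y₀, hY₀⟩
    · simp
    have hLne : L.Nonempty := by
      rw [← card_pos]; omega
    set a := L.min' hLne with ha
    have haL : a ∈ L := L.min'_mem hLne
    have hmin : ∀ l ∈ L, a ≤ l := fun l hl => L.min'_le l hl
    have hEL : E.card ∈ L := by
      have h := hG Y₀ hY₀
      rw [← h.2]
      exact hF.2 Y₀ (hGF hY₀) X hX h.1
    have haE : a ≤ E.card := hmin _ hEL
    have hEr : (L.erase a).card = s := by rw [card_erase_of_mem haL, hL]; rfl
    have hsub : ∀ Y ∈ G, E ⊆ Y := by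
      intro Y hY
      rw [← (hG Y hY).2]
      exact inter_subset_left
    rcases haE.lt_or_eq with hlt | heq
    · -- the members of G meet in more than a elements
      have hsys : IsSystem n k (L.erase a) G := by
        refine ⟨fun A hA => hF.1 A (hGF hA), fun A hA B hB hne => ?_⟩
        rw [mem_erase]
        refine ⟨?_, hF.2 A (hGF hA) B (hGF hB) hne⟩
        have h1 : E.card ≤ (A ∩ B).card := card_le_card (subset_inter (hsub A hA) (hsub B hB))
        omega
      calc G.card ≤ C * n ^ s := hC _ hEr n hn G hsys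
        _ ≤ C * n ^ (s + 1) := Nat.mul_le_mul_left _ (Nat.pow_le_pow_right hn (Nat.le_succ s))
    · -- every member of G has an element outside E
      let g : Fin n → Finset (Finset (Fin n)) := fun x => G.filter (fun Y => x ∈ Y)
      have hcov : G ⊆ (univ.filter (fun x : Fin n => x ∉ E)).biUnion g := by
        intro Y hY
        have hYX : Y ≠ X := (hG Y hY).1
        have hYk : Y.card = k := hF.1 Y (hGF hY)
        have hXk : X.card = k := hF.1 X hX
        have hne : ¬ Y ⊆ E := by
          intro h
          have h1 : Y ⊆ X := h.trans hEX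
          exact hYX (eq_of_subset_of_card_le h1 (by rw [hYk, hXk]))
        obtain ⟨x, hxY, hxE⟩ := not_subset.1 hne
        rw [mem_biUnion]
        exact ⟨x, by simp [hxE], mem_filter.2 ⟨hY, hxY⟩⟩
      have hb : ∀ x ∈ (univ.filter (fun x : Fin n => x ∉ E)), (g x).card ≤ C * n ^ s := by
        intro x hx
        have hxE : x ∉ E := by simpa using hx
        refine hC _ hEr n hn (g x) ⟨fun A hA => hF.1 A (hGF (mem_filter.1 hA).1),
          fun A hA B hB hne => ?_⟩
        have hA' := mem_filter.1 hA
        have hB' := mem_filter.1 hB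
        rw [mem_erase]
        refine ⟨?_, hF.2 A (hGF hA'.1) B (hGF hB'.1) hne⟩
        have h1 : (insert x E).card ≤ (A ∩ B).card := by
          apply card_le_card
          intro y hy
          rw [mem_insert] at hy
          rcases hy with rfl | hy
          · exact mem_inter.2 ⟨hA'.2, hB'.2⟩
          · exact mem_inter.2 ⟨hsub A hA'.1 hy, hsub B hB'.1 hy⟩
        rw [card_insert_of_notMem hxE] at h1
        omega
      calc G.card ≤ ((univ.filter (fun x : Fin n => x ∉ E)).biUnion g).card := card_le_card hcov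
        _ ≤ (univ.filter (fun x : Fin n => x ∉ E)).card * (C * n ^ s) :=
          card_biUnion_le_card_mul _ _ _ hb
        _ ≤ n * (C * n ^ s) := by
          gcongr
          calc _ ≤ (univ : Finset (Fin n)).card := card_filter_le _ _
            _ = n := by simp
        _ = C * n ^ (s + 1) := by ring

theorem stTriv : StTriv := by
  intro k L
  obtain ⟨C, hC⟩ := triv_aux L.card k
  exact ⟨C, fun n hn F hF => hC L rfl n hn F hF⟩

end Pool.Agent.Lib.MP_5cdc53_co.PP
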