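import Pool.Agent.Lib.MP_5cdc53_co.PP.Stmts

set_option autoImplicit false

namespace Pool.Agent.Lib.MP_5cdc53_co.PP

open Finset

/-- swapping the coordinates in `e` between two points -/
def swapOn {n : ℕ} (e : Finset (Fin 4)) (p : Om n × Om n) : Om n × Om n :=
  (fun i => if i ∈ e then p.1 i else p.2 i, fun i => if i ∈ e then p.2 i else p.1 i)

theorem swapOn_swapOn {n : ℕ} (e : Finset (Fin 4)) (p : Om n × Om n) :
    swapOn e (swapOn e p) = p := by
  unfold swapOn
  refine Prod.ext ?_ ?_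
  · funext i
    dsimp only
    split <;> rfl
  · funext i
    dsimp only
    split <;> rfl

/-- summing over pairs via the swap -/
theorem sum_swap {n : ℕ} (e : Finset (Fin 4)) (F : Om n × Om n → ℝ) :
    ∑ p : Om n × Om n, F (swapOn e p) = ∑ p : Om n × Om n, F p := by
  have hinv : Function.Involutive (swapOn (n := n) e) := swapOn_swapOn e
  exact Equiv.sum_comp (Function.Involutive.toPerm _ hinv) F

theorem card_Om' (n : ℕ) : (Fintype.card (Om n) : ℝ) = (n : ℝ) ^ 4 := by
  simp [Om]

theorem sum_pair_fst {n : ℕ} (F : Om n → ℝ) :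
    ∑ p : Om n × Om n, F p.1 = (∑ x, F x) * (n : ℝ) ^ 4 := by
  rw [Fintype.sum_prod_type, ← card_Om', Finset.sum_mul]
  refine Finset.sum_congr rfl fun x _ => ?_
  simp [mul_comm]

theorem stIndep : StIndep := by
  intro n s t f g hst hf hg
  have h1 : (∑ x, f x) * ∑ x, g x = ∑ p : Om n × Om n, f p.1 * g p.2 := by
    rw [Fintype.sum_prod_type, Finset.sum_mul]
    refine Finset.sum_congr rfl fun x _ => ?_
    rw [Finset.mul_sum]
  rw [h1, ← sum_pair_fst (fun x => f x * g x), ← sum_swap s]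
  refine Finset.sum_congr rfl fun p _ => ?_
  have e1 : f (swapOn s p).1 = f p.1 := by
    refine hf _ _ fun i hi => ?_
    simp [swapOn, hi]
  have e2 : g (swapOn s p).1 = g p.2 := by
    refine hg _ _ fun i hi => ?_
    have : i ∉ s := fun h => (Finset.disjoint_left.1 hst) h hi
    simp [swapOn, this]
  rw [e1, e2]

theorem stUnifProd : StUnifProd := by
  classical
  intro n e u η hn hη hu hU ι _ R m hR hm
  -- grouped factors
  set g : Fin 4 → Om n → ℝ := fun i x => ∏ t ∈ univ.filter (fun t => m t = i), R t x with hg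
  have hg01 : ∀ i x, 0 ≤ g i x ∧ g i x ≤ 1 := fun i x =>
    ⟨Finset.prod_nonneg fun t _ => (hR t x).1, Finset.prod_le_one (fun t _ => (hR t x).1) fun t _ => (hR t x).2⟩
  have hgDep : ∀ i, Dep (univ.erase i) (g i) := by
    intro i x y hxy
    simp only [hg]
    refine Finset.prod_congr rfl fun t ht => ?_
    have hmt := (Finset.mem_filter.1 ht).2
    refine (hm t).2 x y ?_
    rw [hmt]; exact hxy
  have hprod : ∀ x, ∏ t, R t x = ∏ i ∈ e, g i x := by
    intro x
    simp only [hg]
    rw [Finset.prod_fiberwise_of_maps_to (fun t _ => (hm t).1)]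
  -- the function for fixed z
  have hz : ∀ z : Om n, |∑ x, u x * ∏ i ∈ e, g i (swapOn e (x, z)).1| ≤ η * (n : ℝ) ^ 4 := by
    intro z
    have := hU (fun i x => if i ∈ e then g i (swapOn e (x, z)).1 else 1) ?_ ?_
    · refine le_trans (le_of_eq ?_) this
      congr 1
      refine Finset.sum_congr rfl fun x _ => ?_
      congr 1
      refine Finset.prod_congr rfl fun i hi => ?_
      rw [if_pos hi]
    · intro i x
      split
      · exact hg01 _ _
      · norm_num
    · intro i hi x y hxy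
      simp only [if_pos hi]
      refine hgDep i _ _ fun j hj => ?_
      by_cases hje : j ∈ e
      · simp only [swapOn, hje, if_true]
        exact hxy j (Finset.mem_erase.2 ⟨Finset.ne_of_mem_erase hj, hje⟩)
      · simp [swapOn, hje]
  have hsum : (∑ x, u x * ∏ t, R t x) * (n : ℝ) ^ 4 =
      ∑ z, ∑ x, u x * ∏ i ∈ e, g i (swapOn e (x, z)).1 := by
    rw [← sum_pair_fst (fun x => u x * ∏ t, R t x), ← sum_swap e, Fintype.sum_prod_type,
      Finset.sum_comm]
    refine Finset.sum_congr rfl fun z _ => Finset.sum_congr rfl fun x _ => ?_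
    rw [hprod]
    congr 1
    refine hu _ _ fun i hi => ?_
    simp [swapOn, hi]
  have hnr : (0 : ℝ) < n := by exact_mod_cast hn
  have hn4 : (0 : ℝ) < (n : ℝ) ^ 4 := by positivity
  have hfin : |∑ x, u x * ∏ t, R t x| * (n : ℝ) ^ 4 ≤ (η * (n : ℝ) ^ 4) * (n : ℝ) ^ 4 := by
    rw [← abs_of_pos hn4, ← abs_mul, abs_of_pos hn4, hsum]
    calc |∑ z, ∑ x, u x * ∏ i ∈ e, g i (swapOn e (x, z)).1|
        ≤ ∑ z, |∑ x, u x * ∏ i ∈ e, g i (swapOn e (x, z)).1| := Finset.abs_sum_le_sum_abs _ _
      _ ≤ ∑ _z : Om n, η * (n : ℝ) ^ 4 := Finset.sum_le_sum fun z _ => hz z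
      _ = (η * (n : ℝ) ^ 4) * (n : ℝ) ^ 4 := by
          rw [Finset.sum_const, Finset.card_univ, nsmul_eq_mul, card_Om', mul_comm]
  exact le_of_mul_le_mul_right hfin hn4

end Pool.Agent.Lib.MP_5cdc53_co.PP
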