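import Pool.Agent.Lib.MP_5cdc53_co.PP.AG
import Pool.Agent.Lib.MP_5cdc53_co.PP.PG
import Pool.Agent.Lib.MP_5cdc53_co.PP.AffP2
import Pool.Agent.Lib.MP_5cdc53_co.PP.AffP
import Pool.Agent.Lib.MP_5cdc53_co.PP.Bad
import Pool.Agent.Lib.MP_5cdc53_co.PP.Blow
import Pool.Agent.Lib.MP_5cdc53_co.PP.BR6
import Pool.Agent.Lib.MP_5cdc53_co.PP.CE
import Pool.Agent.Lib.MP_5cdc53_co.PP.CfgInj
import Pool.Agent.Lib.MP_5cdc53_co.PP.Color
import Pool.Agent.Lib.MP_5cdc53_co.PP.Comp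
import Pool.Agent.Lib.MP_5cdc53_co.PP.Count
import Pool.Agent.Lib.MP_5cdc53_co.PP.Des
import Pool.Agent.Lib.MP_5cdc53_co.PP.Des2
import Pool.Agent.Lib.MP_5cdc53_co.PP.Edge
import Pool.Agent.Lib.MP_5cdc53_co.PP.FewCfg
import Pool.Agent.Lib.MP_5cdc53_co.PP.FewCfg2
import Pool.Agent.Lib.MP_5cdc53_co.PP.Final
import Pool.Agent.Lib.MP_5cdc53_co.PP.Group
import Pool.Agent.Lib.MP_5cdc53_co.PP.LinesP
import Pool.Agent.Lib.MP_5cdc53_co.PP.PlaneP
import Pool.Agent.Lib.MP_5cdc53_co.PP.PlaneP2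
import Pool.Agent.Lib.MP_5cdc53_co.PP.Red4
import Pool.Agent.Lib.MP_5cdc53_co.PP.QuoG
import Pool.Agent.Lib.MP_5cdc53_co.PP.KerG
import Pool.Agent.Lib.MP_5cdc53_co.PP.Sets
import Pool.Agent.Lib.MP_5cdc53_co.PP.Step
import Pool.Agent.Lib.MP_5cdc53_co.PP.Strong
import Pool.Agent.Lib.MP_5cdc53_co.PP.Sub
import Pool.Agent.Lib.MP_5cdc53_co.PP.Tet
import Pool.Agent.Lib.MP_5cdc53_co.PP.Top
import Pool.Agent.Lib.MP_5cdc53_co.PP.Trans
import Pool.Agent.Lib.MP_5cdc53_co.PP.Trans2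
import Pool.Agent.Lib.MP_5cdc53_co.PP.Triv
import Pool.Agent.Lib.MP_5cdc53_co.PP.UnifProd

/-!
# PP/Assemble: all modules put together (helper45)
-/

set_option autoImplicit false

namespace Pool.Agent.Lib.MP_5cdc53_co.PP

theorem asm_stStrong : StStrong :=
  stStrong stCE stEnergy (stStep stCE stEnergy (stSets stCE))

theorem asm_stCount : StCount := stCount stUnifProd stIndep (stEdge stUnifProd stIndep)

theorem asm_stTet : StTet := stTet stCE asm_stStrong asm_stCount stFew (stBad stCE)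

theorem asm_stSub : StSub := stSub stTriv stTrace
theorem asm_stBot : StBot := stBot stTriv stTrace
theorem asm_stTop : StTop := stTop stTriv
theorem asm_stKerG : StKerG := stKerG stTriv stTrace
theorem asm_stQuoG : StQuoG := stQuoG stTriv asm_stKerG
theorem asm_stRed : StRed := stRed4 asm_stSub asm_stBot asm_stTop asm_stQuoG
theorem asm_stLines : StLines := stLines stTrace
theorem asm_stDes : StDes := stDes stTrans stGroup (stAff stCfgInj)
theorem asm_stPlane : StPlane := stPlane asm_stLines stColor (stFewCfg asm_stTet) asm_stDes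
theorem asm_stDes2 : StDes2 := stDes2 stComp stAff2 stTrans2 stGroup stBR6
theorem asm_stPlane2 : StPlane2 :=
  stPlane2 asm_stLines stColor (stFewCfg2 asm_stTet) asm_stDes2

theorem asm_main (q : ℕ) (hq : 2 ≤ q) :
    (∀ (k : ℕ) (L : Finset ℕ), (∀ l ∈ L, l < k) → PlaneType q k L → ¬ IsPrimePow q →
      Filter.Tendsto (fun n : ℕ => (m n k L : ℝ) / (n : ℝ) ^ L.card) Filter.atTop (nhds 0)) ∧
    (∀ (k : ℕ) (L : Finset ℕ), Geom q k L → (FullGrowth k L ↔ IsPrimePow q)) :=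
  final_main stFG asm_stRed asm_stPlane asm_stPlane2 stBlow stPG stAG q hq

end Pool.Agent.Lib.MP_5cdc53_co.PP
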