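import Pool.Agent.Lib.MP_5cdc53_co.PP.Stmts3
import Pool.Agent.Lib.MP_5cdc53_co.PP.Final

/-!
# PP/Final3: complete answer for the initial flat sizes of projective and affine spaces (helper45)
-/

set_option autoImplicit false

namespace Pool.Agent.Lib.MP_5cdc53_co.PP

open Finset

theorem final3_geomsum_le {q : ℕ} (hq : 2 ≤ q) {i j : ℕ}
    (hij : ∑ t ∈ range i, q ^ t ≤ ∑ t ∈ range j, q ^ t) : i ≤ j := by
  by_contra hh
  push Not at hh
  exact absurd (final_geomsum_lt hq hh) (by omega)

/-- five consecutive entries of projective type -/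
theorem final3_five (hRed5 : StRed5) (hS : StSpace) (hV : StVeb) (q k : ℕ)
    (L : Finset ℕ) (a b c e g : ℕ) (hq : 2 ≤ q) (hL : ∀ l ∈ L, l < k) (ha : a ∈ L) (hb : b ∈ L)
    (hc : c ∈ L) (he : e ∈ L) (hg : g ∈ insert k L) (hab : a < b) (hbc : b < c) (hce : c < e)
    (heg : e < g) (hcons : ∀ x ∈ insert k L, a ≤ x → x ≤ g → x = a ∨ x = b ∨ x = c ∨ x = e ∨ x = g)
    (h1 : c - a = (q + 1) * (b - a)) (h2 : e - a = (q ^ 2 + q + 1) * (b - a))
    (hF : WG k L) : ∃ m : ℕ, g - a = (∑ j ∈ range m, q ^ j) * (b - a) := by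
  obtain ⟨v, hv, hW⟩ := hRed5 k L a b c e g (q + 1) (q ^ 2 + q + 1) hL ha hb hc he hg hab hbc hce
    heg hcons h1 h2 hF
  have hvv : q ^ 2 + q + 1 < v := by
    by_contra hh
    push Not at hh
    have h3 : v * (b - a) ≤ (q ^ 2 + q + 1) * (b - a) := Nat.mul_le_mul_right _ hh
    omega
  obtain ⟨n, P, A, hP, hSp⟩ := hS q v hq hvv hW
  have hne : P.Nonempty := by
    rw [← Finset.card_pos, hP]; omega
  obtain ⟨m, hm⟩ := hV (Fin n) P A q hq hne hSp
  exact ⟨m, by rw [hv, ← hP, hm]⟩

theorem final3_sum_shift (q s m : ℕ) :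
    ∑ j ∈ range (s + m), q ^ j = ∑ j ∈ range s, q ^ j + q ^ s * ∑ j ∈ range m, q ^ j := by
  rw [Finset.sum_range_add, Finset.mul_sum]
  congr 1
  exact Finset.sum_congr rfl (fun j _ => by rw [pow_add])

theorem final3_pg (hRed : StRed) (hP : StPlane) (hP2 : StPlane2) (hB : StBlow)
    (hPG : StPG) (hAG : StAG) (hRed5 : StRed5) (hS : StSpace) (hV : StVeb)
    (q l d s k : ℕ) (hq : 2 ≤ q) (hd : 1 ≤ d) (hs : 4 ≤ s)
    (hk : ∀ i < s, l + d * ∑ j ∈ range i, q ^ j < k) :
    (WG k ((range s).image (fun i => l + d * ∑ j ∈ range i, q ^ j)) →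
      IsPrimePow q ∧ ∃ m, k = l + d * ∑ j ∈ range m, q ^ j) ∧
    ((IsPrimePow q ∧ ∃ m, k = l + d * ∑ j ∈ range m, q ^ j) →
      FullGrowth k ((range s).image (fun i => l + d * ∑ j ∈ range i, q ^ j))) := by
  set S : ℕ → ℕ := fun i => ∑ j ∈ range i, q ^ j with hSdef
  set L := (range s).image (fun i => l + d * S i) with hLdef
  have hL : ∀ x ∈ L, x < k := by
    intro x hx
    obtain ⟨i, hi, rfl⟩ := Finset.mem_image.1 hx
    exact hk i (Finset.mem_range.1 hi)
  have hlt : ∀ i j, i < j → l + d * S i < l + d * S j := by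
    intro i j hij
    have := final_geomsum_lt hq hij
    have h2 : d * S i < d * S j := Nat.mul_lt_mul_of_pos_left this hd
    omega
  have hle : ∀ i j, l + d * S i ≤ l + d * S j → i ≤ j := by
    intro i j hij
    by_contra hh
    push Not at hh
    exact absurd (hlt j i hh) (by omega)
  have hmem : ∀ i, i < s → l + d * S i ∈ L :=
    fun i hi => Finset.mem_image.2 ⟨i, Finset.mem_range.2 hi, rfl⟩
  have hSt : ∀ i m, S (i + m) = S i + q ^ i * S m := fun i m => final3_sum_shift q i m
  have S1 : S 1 = 1 := by simp [hSdef]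
  have S2 : S 2 = q + 1 := by simp [hSdef, Finset.sum_range_succ]; ring
  have S3 : S 3 = q ^ 2 + q + 1 := by simp [hSdef, Finset.sum_range_succ]; ring
  constructor
  · intro hF
    have hex : ∃ m, k = l + d * S m := by
      obtain ⟨t, rfl⟩ : ∃ t, s = t + 4 := ⟨s - 4, by omega⟩
      have hab := hlt t (t + 1) (by omega)
      have hbc := hlt (t + 1) (t + 2) (by omega)
      have hce := hlt (t + 2) (t + 3) (by omega)
      have hek := hk (t + 3) (by omega)
      have hba : l + d * S (t + 1) - (l + d * S t) = d * q ^ t := by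
        rw [hSt t 1, S1]
        have : d * (S t + q ^ t * 1) = d * S t + d * q ^ t := by ring
        omega
      obtain ⟨m, hm⟩ := final3_five hRed5 hS hV q k L (l + d * S t) (l + d * S (t + 1))
        (l + d * S (t + 2)) (l + d * S (t + 3)) k hq hL (hmem _ (by omega)) (hmem _ (by omega))
        (hmem _ (by omega)) (hmem _ (by omega)) (Finset.mem_insert_self _ _) hab hbc hce hek (by
          intro x hx h1 h2
          rcases Finset.mem_insert.1 hx with h3 | h3
          · exact Or.inr (Or.inr (Or.inr (Or.inr h3)))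
          · obtain ⟨i, hi, rfl⟩ := Finset.mem_image.1 h3
            have h4 := hle t i h1
            have h5 := Finset.mem_range.1 hi
            have : i = t ∨ i = t + 1 ∨ i = t + 2 ∨ i = t + 3 := by omega
            rcases this with rfl | rfl | rfl | rfl
            · exact Or.inl rfl
            · exact Or.inr (Or.inl rfl)
            · exact Or.inr (Or.inr (Or.inl rfl))
            · exact Or.inr (Or.inr (Or.inr (Or.inl rfl))))
        (by
          rw [hba, hSt t 2, S2]
          have : d * (S t + q ^ t * (q + 1)) = d * S t + (q + 1) * (d * q ^ t) := by ring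
          omega)
        (by
          rw [hba, hSt t 3, S3]
          have : d * (S t + q ^ t * (q ^ 2 + q + 1)) =
            d * S t + (q ^ 2 + q + 1) * (d * q ^ t) := by ring
          omega) hF
      rw [hba] at hm
      refine ⟨t + m, ?_⟩
      rw [hSt t m]
      have h3 : d * (S t + q ^ t * S m) = d * S t + (S m) * (d * q ^ t) := by ring
      have h4 : l + d * S t < k := hk t (by omega)
      have h5 : (∑ j ∈ range m, q ^ j) = S m := rfl
      rw [h5] at hm
      omega
    refine ⟨?_, hex⟩
    refine final_nec hRed hP hP2 q k L hq hL ⟨l + d * S 0, hmem 0 (by omega), l + d * S 1,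
      hmem 1 (by omega), l + d * S 2, hmem 2 (by omega), l + d * S 3,
      Finset.mem_insert_of_mem (hmem 3 (by omega)), hlt _ _ (by omega), hlt _ _ (by omega),
      hlt _ _ (by omega), ?_, Or.inl ⟨?_, ?_⟩⟩ hF
    · intro x hx _ h2
      have : ∃ i, x = l + d * S i := by
        rcases Finset.mem_insert.1 hx with h1 | h1
        · obtain ⟨m, hm⟩ := hex
          exact ⟨m, h1.trans hm⟩
        · obtain ⟨i, _, hi⟩ := Finset.mem_image.1 h1
          exact ⟨i, hi.symm⟩
      obtain ⟨i, rfl⟩ := this
      have hi := hle i 3 h2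
      have : i = 0 ∨ i = 1 ∨ i = 2 ∨ i = 3 := by omega
      rcases this with rfl | rfl | rfl | rfl
      · exact Or.inl rfl
      · exact Or.inr (Or.inl rfl)
      · exact Or.inr (Or.inr (Or.inl rfl))
      · exact Or.inr (Or.inr (Or.inr rfl))
    · have S0 : S 0 = 0 := by simp [hSdef]
      rw [S0, S1, S2]
      have h1 : l + d * (q + 1) - (l + d * 0) = d * (q + 1) := by omega
      have h2 : l + d * 1 - (l + d * 0) = d := by omega
      rw [h1, h2, mul_comm]
    · have S0 : S 0 = 0 := by simp [hSdef]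
      rw [S0, S1, S3]
      have h1 : l + d * (q ^ 2 + q + 1) - (l + d * 0) = d * (q ^ 2 + q + 1) := by omega
      have h2 : l + d * 1 - (l + d * 0) = d := by omega
      rw [h1, h2, mul_comm]
  · rintro ⟨hqp, m, rfl⟩
    have hsm : s ≤ m := by
      by_contra hh
      push Not at hh
      exact absurd (hk m hh) (by omega)
    refine final_pos hB hPG hAG hqp ⟨l, d, hd, Or.inl ⟨m - 1, s, by omega, by omega,
      Or.inr hs, ?_, rfl⟩⟩
    have : m - 1 + 1 = m := by omega
    rw [this]

theorem final3_ag (hRed : StRed) (hP : StPlane) (hP2 : StPlane2) (hB : StBlow)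
    (hPG : StPG) (hAG : StAG) (hRed5 : StRed5) (hS : StSpace) (hV : StVeb)
    (q l d s k : ℕ) (hq : 2 ≤ q) (hd : 1 ≤ d) (hs : 4 ≤ s) (hk : ∀ i < s, l + d * q ^ i < k) :
    (WG k (insert l ((range s).image (fun i => l + d * q ^ i))) →
      IsPrimePow q ∧ ∃ m, k = l + d * q ^ m) ∧
    ((IsPrimePow q ∧ ∃ m, k = l + d * q ^ m) →
      FullGrowth k (insert l ((range s).image (fun i => l + d * q ^ i)))) := by
  set L := insert l ((range s).image (fun i => l + d * q ^ i)) with hLdef
  have hlt : ∀ i j, i < j → l + d * q ^ i < l + d * q ^ j := by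
    intro i j hij
    have : q ^ i < q ^ j := Nat.pow_lt_pow_right (by omega) hij
    have h2 : d * q ^ i < d * q ^ j := Nat.mul_lt_mul_of_pos_left this hd
    omega
  have hle : ∀ i j, l + d * q ^ i ≤ l + d * q ^ j → i ≤ j := by
    intro i j hij
    by_contra hh
    push Not at hh
    exact absurd (hlt j i hh) (by omega)
  have hl : ∀ i, l < l + d * q ^ i := by
    intro i
    have : 0 < d * q ^ i := by positivity
    omega
  have hL : ∀ x ∈ L, x < k := by
    intro x hx
    rcases Finset.mem_insert.1 hx with rfl | hx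
    · exact (hl 0).trans (hk 0 (by omega))
    · obtain ⟨i, hi, rfl⟩ := Finset.mem_image.1 hx
      exact hk i (Finset.mem_range.1 hi)
  have hmem : ∀ i, i < s → l + d * q ^ i ∈ L :=
    fun i hi => Finset.mem_insert_of_mem (Finset.mem_image.2 ⟨i, Finset.mem_range.2 hi, rfl⟩)
  obtain ⟨p, rfl⟩ : ∃ p, q = p + 1 := ⟨q - 1, by omega⟩
  constructor
  · intro hF
    have hex : ∃ m, k = l + d * (p + 1) ^ m := by
      obtain ⟨t, rfl⟩ : ∃ t, s = t + 4 := ⟨s - 4, by omega⟩
      have hab := hlt t (t + 1) (by omega)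
      have hbc := hlt (t + 1) (t + 2) (by omega)
      have hce := hlt (t + 2) (t + 3) (by omega)
      have hek := hk (t + 3) (by omega)
      have hba : l + d * (p + 1) ^ (t + 1) - (l + d * (p + 1) ^ t) = d * (p + 1) ^ t * p := by
        have : d * (p + 1) ^ (t + 1) = d * (p + 1) ^ t + d * (p + 1) ^ t * p := by ring
        omega
      obtain ⟨m, hm⟩ := final3_five hRed5 hS hV (p + 1) k L (l + d * (p + 1) ^ t)
        (l + d * (p + 1) ^ (t + 1)) (l + d * (p + 1) ^ (t + 2)) (l + d * (p + 1) ^ (t + 3)) k hq hL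
        (hmem _ (by omega)) (hmem _ (by omega)) (hmem _ (by omega)) (hmem _ (by omega))
        (Finset.mem_insert_self _ _) hab hbc hce hek (by
          intro x hx h1 h2
          rcases Finset.mem_insert.1 hx with h3 | h3
          · exact Or.inr (Or.inr (Or.inr (Or.inr h3)))
          · rcases Finset.mem_insert.1 h3 with h3 | h3
            · exact absurd (hl t) (by omega)
            · obtain ⟨i, hi, rfl⟩ := Finset.mem_image.1 h3
              have h4 := hle t i h1
              have h5 := Finset.mem_range.1 hi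
              have : i = t ∨ i = t + 1 ∨ i = t + 2 ∨ i = t + 3 := by omega
              rcases this with rfl | rfl | rfl | rfl
              · exact Or.inl rfl
              · exact Or.inr (Or.inl rfl)
              · exact Or.inr (Or.inr (Or.inl rfl))
              · exact Or.inr (Or.inr (Or.inr (Or.inl rfl))))
        (by
          rw [hba]
          have : d * (p + 1) ^ (t + 2) =
            d * (p + 1) ^ t + (p + 1 + 1) * (d * (p + 1) ^ t * p) := by ring
          omega)
        (by
          rw [hba]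
          have : d * (p + 1) ^ (t + 3) =
            d * (p + 1) ^ t + ((p + 1) ^ 2 + (p + 1) + 1) * (d * (p + 1) ^ t * p) := by ring
          omega) hF
      rw [hba] at hm
      refine ⟨t + m, ?_⟩
      have h4 : l + d * (p + 1) ^ t < k := hk t (by omega)
      have h5 : (∑ j ∈ range m, (p + 1) ^ j) * p + 1 = (p + 1) ^ m := geom_sum_mul_add p m
      have h6 : d * (p + 1) ^ (t + m) = d * (p + 1) ^ t +
          (∑ j ∈ range m, (p + 1) ^ j) * (d * (p + 1) ^ t * p) := by
        rw [pow_add, ← h5]; ring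
      omega
    refine ⟨?_, hex⟩
    refine final_nec hRed hP hP2 (p + 1) k L hq hL ⟨l, Finset.mem_insert_self _ _,
      l + d * (p + 1) ^ 0, hmem 0 (by omega), l + d * (p + 1) ^ 1, hmem 1 (by omega),
      l + d * (p + 1) ^ 2, Finset.mem_insert_of_mem (hmem 2 (by omega)), hl 0, hlt _ _ (by omega),
      hlt _ _ (by omega), ?_, Or.inr ⟨?_, ?_⟩⟩ hF
    · intro x hx _ h2
      have : x = l ∨ ∃ i, x = l + d * (p + 1) ^ i := by
        rcases Finset.mem_insert.1 hx with h1 | h1
        · obtain ⟨m, hm⟩ := hex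
          exact Or.inr ⟨m, h1.trans hm⟩
        · rcases Finset.mem_insert.1 h1 with h1 | h1
          · exact Or.inl h1
          · obtain ⟨i, _, hi⟩ := Finset.mem_image.1 h1
            exact Or.inr ⟨i, hi.symm⟩
      rcases this with rfl | ⟨i, rfl⟩
      · exact Or.inl rfl
      have hi := hle i 2 h2
      have : i = 0 ∨ i = 1 ∨ i = 2 := by omega
      rcases this with rfl | rfl | rfl
      · exact Or.inr (Or.inl rfl)
      · exact Or.inr (Or.inr (Or.inl rfl))
      · exact Or.inr (Or.inr (Or.inr rfl))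
    · have h1 : l + d * (p + 1) ^ 1 - l = d * (p + 1) ^ 1 := by omega
      have h2 : l + d * (p + 1) ^ 0 - l = d * (p + 1) ^ 0 := by omega
      rw [h1, h2]; ring
    · have h1 : l + d * (p + 1) ^ 2 - l = d * (p + 1) ^ 2 := by omega
      have h2 : l + d * (p + 1) ^ 0 - l = d * (p + 1) ^ 0 := by omega
      rw [h1, h2]; ring
  · rintro ⟨hqp, m, rfl⟩
    have hsm : s ≤ m := by
      by_contra hh
      push Not at hh
      exact absurd (hk m hh) (by omega)
    exact final_pos hB hPG hAG hqp ⟨l, d, hd, Or.inr (Or.inl ⟨m, s, by omega, hsm,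
      Or.inr (by omega), rfl, rfl⟩)⟩

theorem final3_sizes (hRed : StRed) (hP : StPlane) (hP2 : StPlane2) (hB : StBlow)
    (hPG : StPG) (hAG : StAG) (hRed5 : StRed5) (hS : StSpace) (hV : StVeb) (q l d s k : ℕ) (hq : 2 ≤ q) (hd : 1 ≤ d) (hs : 4 ≤ s) :
    ((∀ i < s, l + d * ∑ j ∈ range i, q ^ j < k) →
      ((IsPrimePow q ∧ ∃ r, k = l + d * ∑ j ∈ range r, q ^ j) →
        FullGrowth k ((range s).image (fun i => l + d * ∑ j ∈ range i, q ^ j))) ∧
      (¬ (IsPrimePow q ∧ ∃ r, k = l + d * ∑ j ∈ range r, q ^ j) →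
        Filter.Tendsto (fun n : ℕ =>
          (m n k ((range s).image (fun i => l + d * ∑ j ∈ range i, q ^ j)) : ℝ) / (n : ℝ) ^ s)
          Filter.atTop (nhds 0))) ∧
    ((∀ i < s, l + d * q ^ i < k) →
      ((IsPrimePow q ∧ ∃ r, k = l + d * q ^ r) →
        FullGrowth k (insert l ((range s).image (fun i => l + d * q ^ i)))) ∧
      (¬ (IsPrimePow q ∧ ∃ r, k = l + d * q ^ r) →
        Filter.Tendsto (fun n : ℕ =>
          (m n k (insert l ((range s).image (fun i => l + d * q ^ i))) : ℝ) / (n : ℝ) ^ (s + 1))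
          Filter.atTop (nhds 0))) := by
  constructor
  · intro hk
    obtain ⟨h1, h2⟩ := final3_pg hRed hP hP2 hB hPG hAG hRed5 hS hV q l d s k hq hd hs hk
    refine ⟨h2, fun hno => ?_⟩
    have h3 := final_tendsto (fun hW => hno (h1 hW))
    have hcard : ((range s).image (fun i => l + d * ∑ j ∈ range i, q ^ j)).card = s := by
      rw [Finset.card_image_of_injective, Finset.card_range]
      intro i j hij
      have h4 : l + d * ∑ t ∈ range i, q ^ t = l + d * ∑ t ∈ range j, q ^ t := hij
      have h5 : ∑ t ∈ range i, q ^ t = ∑ t ∈ range j, q ^ t :=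
        Nat.eq_of_mul_eq_mul_left (by omega) (Nat.add_left_cancel h4)
      exact le_antisymm (final3_geomsum_le hq h5.le) (final3_geomsum_le hq h5.ge)
    rw [hcard] at h3
    exact h3
  · intro hk
    obtain ⟨h1, h2⟩ := final3_ag hRed hP hP2 hB hPG hAG hRed5 hS hV q l d s k hq hd hs hk
    refine ⟨h2, fun hno => ?_⟩
    have h3 := final_tendsto (fun hW => hno (h1 hW))
    have hcard : (insert l ((range s).image (fun i => l + d * q ^ i))).card = s + 1 := by
      rw [Finset.card_insert_of_notMem, Finset.card_image_of_injective, Finset.card_range]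
      · intro i j hij
        have h4 : l + d * q ^ i = l + d * q ^ j := hij
        have h5 : q ^ i = q ^ j := Nat.eq_of_mul_eq_mul_left (by omega) (Nat.add_left_cancel h4)
        exact Nat.pow_right_injective hq h5
      · intro hmem
        obtain ⟨i, _, hi⟩ := Finset.mem_image.1 hmem
        have : 0 < d * q ^ i := by positivity
        omega
    rw [hcard] at h3
    exact h3

end Pool.Agent.Lib.MP_5cdc53_co.PP
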