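import Pool.Agent.Lib.MP_5cdc53_co.PP.Stmts3

/-!
PP-Red5: reduction of a pair with five consecutive entries.
-/

set_option autoImplicit false

namespace Pool.Agent.Lib.MP_5cdc53_co.PP

open Finset

/-- repeated use of `StTop` -/
theorem red5_top (hTop : StTop) : ∀ (m k : ℕ) (L : Finset ℕ) (g : ℕ), L.card = m →
    (∀ l ∈ L, l < k) → g ∈ insert k L → WG k L → WG g (L.filter (fun l => l < g)) := by
  intro m
  induction m with
  | zero =>
    intro k L g hm hk hg hW
    rw [card_eq_zero] at hm
    subst hm
    rw [mem_insert] at hg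
    rcases hg with rfl | hg
    · simpa using hW
    · simp at hg
  | succ m ih =>
    intro k L g hm hk hg hW
    rw [mem_insert] at hg
    rcases hg with rfl | hg
    · rw [filter_true_of_mem hk]
      exact hW
    · have hne : L.Nonempty := ⟨g, hg⟩
      have hb : L.max' hne ∈ L := L.max'_mem hne
      have hmax : ∀ l ∈ L, l ≤ L.max' hne := fun l hl => L.le_max' l hl
      have hW' := hTop k L (L.max' hne) hb hmax (hk _ hb) hW
      have hgm := hmax g hg
      have h1 : g ∈ insert (L.max' hne) (L.erase (L.max' hne)) := by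
        rw [insert_erase hb]
        exact hg
      have h2 : ∀ l ∈ L.erase (L.max' hne), l < L.max' hne := fun l hl =>
        lt_of_le_of_ne (hmax l (mem_of_mem_erase hl)) (ne_of_mem_erase hl)
      have h3 := ih (L.max' hne) (L.erase (L.max' hne)) g (by
        rw [card_erase_of_mem hb, hm]; rfl) h2 h1 hW'
      have h4 : (L.erase (L.max' hne)).filter (fun l => l < g) = L.filter (fun l => l < g) := by
        ext l
        simp only [mem_filter, mem_erase]
        constructor
        · rintro ⟨⟨-, h⟩, h'⟩
          exact ⟨h, h'⟩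
        · rintro ⟨h, h'⟩
          exact ⟨⟨by omega, h⟩, h'⟩
      rw [h4] at h3
      exact h3

/-- repeated use of `StBot` -/
theorem red5_bot (hBot : StBot) : ∀ (m k : ℕ) (L : Finset ℕ) (a : ℕ), L.card = m →
    (∀ l ∈ L, l < k) → a ∈ L → WG k L → WG k (L.filter (fun l => a ≤ l)) := by
  intro m
  induction m with
  | zero =>
    intro k L a hm hk ha hW
    rw [card_eq_zero] at hm
    subst hm
    simp at ha
  | succ m ih =>
    intro k L a hm hk ha hW
    have hne : L.Nonempty := ⟨a, ha⟩
    have hb : L.min' hne ∈ L := L.min'_mem hne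
    have hmin : ∀ l ∈ L, L.min' hne ≤ l := fun l hl => L.min'_le l hl
    rcases Nat.lt_or_ge (L.min' hne) a with h | h
    · have hW' := hBot k L (L.min' hne) hb hmin hk hW
      have h3 := ih k (L.erase (L.min' hne)) a (by
        rw [card_erase_of_mem hb, hm]; rfl) (fun l hl => hk l (mem_of_mem_erase hl))
        (mem_erase.2 ⟨by omega, ha⟩) hW'
      have h4 : (L.erase (L.min' hne)).filter (fun l => a ≤ l) = L.filter (fun l => a ≤ l) := by
        ext l
        simp only [mem_filter, mem_erase]
        constructor
        · rintro ⟨⟨-, h⟩, h'⟩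
          exact ⟨h, h'⟩
        · rintro ⟨h, h'⟩
          exact ⟨⟨by omega, h⟩, h'⟩
      rw [h4] at h3
      exact h3
    · rw [filter_true_of_mem (fun l hl => le_trans h (hmin l hl))]
      exact hW

/-- Red5 -/
theorem stRed5 (hSub : StSub) (hBot : StBot) (hTop : StTop) (hQuo : StQuoG) : StRed5 := by
  intro k L a b c e g f2 f3 hk ha hb hc he hg hab hbc hce heg hcons h2 h3 hW
  have w1 := red5_top hTop L.card k L g rfl hk hg hW
  have w2 := red5_bot hBot _ g (L.filter (fun l => l < g)) a rfl
    (fun l hl => (mem_filter.1 hl).2) (mem_filter.2 ⟨ha, by omega⟩) w1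
  have hset : (L.filter (fun l => l < g)).filter (fun l => a ≤ l) = {a, b, c, e} := by
    ext x
    simp only [mem_filter, mem_insert, mem_singleton]
    constructor
    · rintro ⟨⟨hx, hxg⟩, hax⟩
      have := hcons x (mem_insert_of_mem hx) hax hxg.le
      omega
    · rintro (rfl | rfl | rfl | rfl)
      · exact ⟨⟨ha, by omega⟩, by omega⟩
      · exact ⟨⟨hb, by omega⟩, by omega⟩
      · exact ⟨⟨hc, by omega⟩, by omega⟩
      · exact ⟨⟨he, by omega⟩, by omega⟩
  rw [hset] at w2
  have hmem : ∀ l ∈ ({a, b, c, e} : Finset ℕ), a ≤ l ∧ l < g := by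
    intro l hl
    simp only [mem_insert, mem_singleton] at hl
    omega
  have w3 := hSub g {a, b, c, e} a (by simp) (fun l hl => (hmem l hl).1)
    (fun l hl => (hmem l hl).2) w2
  have hset2 : ({a, b, c, e} : Finset ℕ).image (fun l => l - a) = {0, b - a, c - a, e - a} := by
    simp only [image_insert, image_singleton, Nat.sub_self]
  rw [hset2] at w3
  have hpos : 0 < b - a := by omega
  obtain ⟨v, hv, -, w4⟩ := hQuo (g - a) {0, b - a, c - a, e - a} (b - a) (by simp) (by simp) hpos
    (by
      intro l hl
      simp only [mem_insert, mem_singleton] at hl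
      omega)
    (by
      intro l hl
      simp only [mem_insert, mem_singleton] at hl
      omega) w3
  refine ⟨v, by rw [hv]; ring, ?_⟩
  have hset3 : ({0, b - a, c - a, e - a} : Finset ℕ).image (fun l => l / (b - a)) =
      {0, 1, f2, f3} := by
    rw [h2, h3]
    simp only [image_insert, image_singleton, Nat.zero_div, Nat.div_self hpos,
      Nat.mul_div_cancel _ hpos]
  rw [hset3] at w4
  exact w4

end Pool.Agent.Lib.MP_5cdc53_co.PP
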