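import Pool.Agent.Lib.MP_5cdc53_co.PP.Stmts3

/-!
# PP/Space: linear spaces with projective planes from full growth (helper45)
-/

set_option autoImplicit false

namespace Pool.Agent.Lib.MP_5cdc53_co.PP

open Finset

theorem space_step (q v C1 C2 : ℕ) (hq : 2 ≤ q)
    (h1 : ∀ n : ℕ, 1 ≤ n → ∀ F : Finset (Finset (Fin n)), IsSystem n v {q + 1, q ^ 2 + q + 1} F →
      C1 * n < F.card → ∃ D : Finset (Fin n), D.card = q + 1 ∧ (∀ X ∈ F, D ⊆ X) ∧
        ∃ X ∈ F, ∃ Y ∈ F, X ∩ Y = D)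
    (h2 : ∀ n : ℕ, 1 ≤ n → ∀ F : Finset (Finset (Fin n)), IsSystem n v {q ^ 2 + q + 1} F →
      C2 < F.card → ∃ D : Finset (Fin n), D.card = q ^ 2 + q + 1 ∧ (∀ X ∈ F, D ⊆ X) ∧
        ∃ X ∈ F, ∃ Y ∈ F, X ∩ Y = D)
    (n : ℕ) (hn : 1 ≤ n) (F : Finset (Finset (Fin n)))
    (hF : IsSystem n v {0, 1, q + 1, q ^ 2 + q + 1} F) (hbig : (C1 + C2) * n ^ 3 < F.card) :
    ∃ (P : Finset (Fin n)) (A : Fin n → Fin n → Finset (Fin n)), P.card = v ∧ IsSpace P A q := by
  classical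
  have hq1 : q + 1 < q ^ 2 + q + 1 := by nlinarith
  -- members through two points
  set G2 : Fin n → Fin n → Finset (Finset (Fin n)) :=
    fun x y => F.filter (fun X => x ∈ X ∧ y ∈ X) with hG2
  set G3 : Fin n → Fin n → Fin n → Finset (Finset (Fin n)) :=
    fun x y z => F.filter (fun X => x ∈ X ∧ y ∈ X ∧ z ∈ X) with hG3
  have memG2 : ∀ x y X, X ∈ G2 x y ↔ X ∈ F ∧ x ∈ X ∧ y ∈ X := by intro x y X; simp [hG2]
  have memG3 : ∀ x y z X, X ∈ G3 x y z ↔ X ∈ F ∧ x ∈ X ∧ y ∈ X ∧ z ∈ X := by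
    intro x y z X; simp [hG3]
  have sys2 : ∀ x y, x ≠ y → IsSystem n v {q + 1, q ^ 2 + q + 1} (G2 x y) := by
    intro x y hxy
    refine ⟨fun X hX => hF.1 X ((memG2 _ _ _).1 hX).1, fun X hX Y hY hXY => ?_⟩
    have hX' := (memG2 _ _ _).1 hX
    have hY' := (memG2 _ _ _).1 hY
    have h3 := hF.2 X hX'.1 Y hY'.1 hXY
    have h4 : 2 ≤ (X ∩ Y).card := by
      rw [← Finset.card_pair hxy]
      apply Finset.card_le_card
      intro w hw
      rw [Finset.mem_insert, Finset.mem_singleton] at hw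
      rcases hw with rfl | rfl
      · exact Finset.mem_inter.2 ⟨hX'.2.1, hY'.2.1⟩
      · exact Finset.mem_inter.2 ⟨hX'.2.2, hY'.2.2⟩
    simp only [Finset.mem_insert, Finset.mem_singleton] at h3 ⊢
    omega
  have hA : ∀ x y, ∃ D : Finset (Fin n), (x ≠ y ∧ C1 * n < (G2 x y).card) → D.card = q + 1 ∧
      (∀ X ∈ G2 x y, D ⊆ X) ∧ ∃ X ∈ G2 x y, ∃ Y ∈ G2 x y, X ∩ Y = D := by
    intro x y
    by_cases h : x ≠ y ∧ C1 * n < (G2 x y).card
    · obtain ⟨D, hD⟩ := h1 n hn _ (sys2 x y h.1) h.2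
      exact ⟨D, fun _ => hD⟩
    · exact ⟨∅, fun h' => absurd h' h⟩
  choose A hA using hA
  -- good members
  have hgood : ∃ P ∈ F, (∀ x ∈ P, ∀ y ∈ P, x ≠ y → C1 * n < (G2 x y).card) ∧
      (∀ x ∈ P, ∀ y ∈ P, ∀ z ∈ P, x ≠ y → C1 * n < (G2 x y).card → z ∉ A x y →
        C2 < (G3 x y z).card) := by
    by_contra hno
    push Not at hno
    have hsub : F ⊆ ((univ : Finset (Fin n × Fin n)).filter
          (fun t => ¬ C1 * n < (G2 t.1 t.2).card)).biUnion (fun t => G2 t.1 t.2) ∪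
        ((univ : Finset (Fin n × Fin n × Fin n)).filter
          (fun t => ¬ C2 < (G3 t.1 t.2.1 t.2.2).card)).biUnion
            (fun t => G3 t.1 t.2.1 t.2.2) := by
      intro P hP
      by_cases hc : ∀ x ∈ P, ∀ y ∈ P, x ≠ y → C1 * n < (G2 x y).card
      · obtain ⟨x, hx, y, hy, z, hz, hxy, hr, hzA, hlt⟩ := hno P hP hc
        refine Finset.mem_union_right _ (Finset.mem_biUnion.2 ⟨(x, y, z), ?_, ?_⟩)
        · simpa using hlt
        · exact (memG3 _ _ _ _).2 ⟨hP, hx, hy, hz⟩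
      · push Not at hc
        obtain ⟨x, hx, y, hy, hxy, hlt⟩ := hc
        refine Finset.mem_union_left _ (Finset.mem_biUnion.2 ⟨(x, y), ?_, ?_⟩)
        · simpa using hlt
        · exact (memG2 _ _ _).2 ⟨hP, hx, hy⟩
    have hc1 := (Finset.card_le_card hsub).trans (Finset.card_union_le _ _)
    have hc2 : (((univ : Finset (Fin n × Fin n)).filter
          (fun t => ¬ C1 * n < (G2 t.1 t.2).card)).biUnion (fun t => G2 t.1 t.2)).card ≤
        (n * n) * (C1 * n) := by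
      refine (Finset.card_biUnion_le_card_mul _ _ (C1 * n) ?_).trans ?_
      · intro t ht
        rw [Finset.mem_filter] at ht
        exact not_lt.1 ht.2
      · apply Nat.mul_le_mul_right
        refine (Finset.card_filter_le _ _).trans ?_
        simp
    have hc3 : (((univ : Finset (Fin n × Fin n × Fin n)).filter
          (fun t => ¬ C2 < (G3 t.1 t.2.1 t.2.2).card)).biUnion
            (fun t => G3 t.1 t.2.1 t.2.2)).card ≤ (n * (n * n)) * C2 := by
      refine (Finset.card_biUnion_le_card_mul _ _ C2 ?_).trans ?_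
      · intro t ht
        rw [Finset.mem_filter] at ht
        exact not_lt.1 ht.2
      · apply Nat.mul_le_mul_right
        refine (Finset.card_filter_le _ _).trans ?_
        simp
    have : F.card ≤ (C1 + C2) * n ^ 3 := by
      calc F.card ≤ (n * n) * (C1 * n) + (n * (n * n)) * C2 := by omega
        _ = (C1 + C2) * n ^ 3 := by ring
    omega
  obtain ⟨P, hPF, hP2, hP3⟩ := hgood
  refine ⟨P, A, hF.1 P hPF, ⟨?_, ?_⟩⟩
  · intro x hx y hy hxy
    have hr := hP2 x hx y hy hxy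
    obtain ⟨hc, hsubs, X, hX, Y, hY, hXY⟩ := hA x y ⟨hxy, hr⟩
    have hX' := (memG2 _ _ _).1 hX
    have hY' := (memG2 _ _ _).1 hY
    have hPG : P ∈ G2 x y := (memG2 _ _ _).2 ⟨hPF, hx, hy⟩
    refine ⟨?_, ?_, hsubs P hPG, hc, ?_⟩
    · rw [← hXY]; exact Finset.mem_inter.2 ⟨hX'.2.1, hY'.2.1⟩
    · rw [← hXY]; exact Finset.mem_inter.2 ⟨hX'.2.2, hY'.2.2⟩
    · intro z hz w hw hzw
      have hsub : G2 x y ⊆ G2 z w := by
        intro Z hZ
        exact (memG2 _ _ _).2 ⟨((memG2 _ _ _).1 hZ).1, hsubs Z hZ hz, hsubs Z hZ hw⟩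
      have hr' : C1 * n < (G2 z w).card := lt_of_lt_of_le hr (Finset.card_le_card hsub)
      obtain ⟨hc', hsubs', _⟩ := hA z w ⟨hzw, hr'⟩
      refine Finset.eq_of_subset_of_card_le ?_ (by rw [hc, hc'])
      rw [← hXY]
      exact Finset.subset_inter (hsubs' X (hsub hX)) (hsubs' Y (hsub hY))
  · intro x hx y hy z hz hxy hzA
    have hr := hP2 x hx y hy hxy
    have hr3 := hP3 x hx y hy z hz hxy hr hzA
    obtain ⟨hc, hsubs, _⟩ := hA x y ⟨hxy, hr⟩
    have hsys3 : IsSystem n v {q ^ 2 + q + 1} (G3 x y z) := by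
      refine ⟨fun X hX => hF.1 X ((memG3 _ _ _ _).1 hX).1, fun X hX Y hY hXY => ?_⟩
      have hX' := (memG3 _ _ _ _).1 hX
      have hY' := (memG3 _ _ _ _).1 hY
      have h3 := hF.2 X hX'.1 Y hY'.1 hXY
      have hXG : X ∈ G2 x y := (memG2 _ _ _).2 ⟨hX'.1, hX'.2.1, hX'.2.2.1⟩
      have hYG : Y ∈ G2 x y := (memG2 _ _ _).2 ⟨hY'.1, hY'.2.1, hY'.2.2.1⟩
      have h4 : q + 2 ≤ (X ∩ Y).card := by
        have h5 : insert z (A x y) ⊆ X ∩ Y := by
          intro w hw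
          rcases Finset.mem_insert.1 hw with rfl | hw'
          · exact Finset.mem_inter.2 ⟨hX'.2.2.2, hY'.2.2.2⟩
          · exact Finset.mem_inter.2 ⟨hsubs X hXG hw', hsubs Y hYG hw'⟩
        have h6 := Finset.card_le_card h5
        rw [Finset.card_insert_of_notMem hzA, hc] at h6
        omega
      simp only [Finset.mem_insert, Finset.mem_singleton] at h3 ⊢
      omega
    obtain ⟨B, hBc, hBsub, X, hX, Y, hY, hXY⟩ := h2 n hn _ hsys3 hr3
    have hX' := (memG3 _ _ _ _).1 hX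
    have hY' := (memG3 _ _ _ _).1 hY
    have hBP : B ⊆ P := hBsub P ((memG3 _ _ _ _).2 ⟨hPF, hx, hy, hz⟩)
    refine ⟨B, hBP, ?_, ?_, ?_, hBc, ?_⟩
    · rw [← hXY]; exact Finset.mem_inter.2 ⟨hX'.2.1, hY'.2.1⟩
    · rw [← hXY]; exact Finset.mem_inter.2 ⟨hX'.2.2.1, hY'.2.2.1⟩
    · rw [← hXY]; exact Finset.mem_inter.2 ⟨hX'.2.2.2, hY'.2.2.2⟩
    · intro u hu w hw huw
      have hr' := hP2 u (hBP hu) w (hBP hw) huw
      obtain ⟨_, hs', _⟩ := hA u w ⟨huw, hr'⟩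
      have huXY : u ∈ X ∩ Y := by rw [hXY]; exact hu
      have hwXY : w ∈ X ∩ Y := by rw [hXY]; exact hw
      rw [← hXY]
      refine Finset.subset_inter (hs' X ?_) (hs' Y ?_)
      · exact (memG2 _ _ _).2 ⟨hX'.1, (Finset.mem_inter.1 huXY).1, (Finset.mem_inter.1 hwXY).1⟩
      · exact (memG2 _ _ _).2 ⟨hY'.1, (Finset.mem_inter.1 huXY).2, (Finset.mem_inter.1 hwXY).2⟩

theorem stSpace (hKer : StKerG) : StSpace := by
  classical
  intro q v hq hv ⟨ε, hε, hW⟩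
  have hq1 : q + 1 < q ^ 2 + q + 1 := by nlinarith
  obtain ⟨C1, hC1⟩ := hKer v {q + 1, q ^ 2 + q + 1} (q + 1) (by simp)
    (by intro l hl; simp only [Finset.mem_insert, Finset.mem_singleton] at hl; omega)
    (by intro l hl; simp only [Finset.mem_insert, Finset.mem_singleton] at hl; omega)
  obtain ⟨C2, hC2⟩ := hKer v {q ^ 2 + q + 1} (q ^ 2 + q + 1) (by simp)
    (by intro l hl; simp only [Finset.mem_singleton] at hl; omega)
    (by intro l hl; simp only [Finset.mem_singleton] at hl; omega)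
  have hcard2 : ({q + 1, q ^ 2 + q + 1} : Finset ℕ).card = 2 :=
    Finset.card_pair hq1.ne
  have hcard1 : ({q ^ 2 + q + 1} : Finset ℕ).card = 1 := Finset.card_singleton _
  rw [hcard2] at hC1
  rw [hcard1] at hC2
  have hcard4 : ({0, 1, q + 1, q ^ 2 + q + 1} : Finset ℕ).card = 4 := by
    rw [Finset.card_insert_of_notMem, Finset.card_insert_of_notMem, hcard2]
    · simp only [Finset.mem_insert, Finset.mem_singleton]; omega
    · simp only [Finset.mem_insert, Finset.mem_singleton]; omega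
  rw [hcard4] at hW
  obtain ⟨n0, hn0⟩ := exists_nat_gt (((C1 : ℝ) + C2 + 1) / ε)
  obtain ⟨n, hn, F, hF, hFc⟩ := hW (max 1 n0)
  have hn1 : 1 ≤ n := le_trans (le_max_left _ _) hn
  have hnn0 : n0 ≤ n := le_trans (le_max_right _ _) hn
  have hnpos : (0 : ℝ) < n := by exact_mod_cast hn1
  have hbig : ((C1 : ℝ) + C2 + 1) < ε * n := by
    have h1 : ((C1 : ℝ) + C2 + 1) / ε < n := lt_of_lt_of_le hn0 (by exact_mod_cast hnn0)
    rw [div_lt_iff₀ hε] at h1
    linarith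
  have hbig2 : ((C1 + C2 : ℕ) : ℝ) * (n : ℝ) ^ 3 < F.card := by
    have h3 : (0 : ℝ) < (n : ℝ) ^ 3 := by positivity
    calc ((C1 + C2 : ℕ) : ℝ) * (n : ℝ) ^ 3 < (ε * n) * (n : ℝ) ^ 3 := by
          apply mul_lt_mul_of_pos_right _ h3
          push_cast; linarith
      _ = ε * (n : ℝ) ^ 4 := by ring
      _ ≤ F.card := hFc
  have hbig3 : (C1 + C2) * n ^ 3 < F.card := by exact_mod_cast hbig2
  obtain ⟨P, A, h1, h2⟩ := space_step q v C1 C2 hq
    (fun n hn F hF hc => hC1 n hn F hF (by simpa using hc))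
    (fun n hn F hF hc => hC2 n hn F hF (by simpa using hc)) n hn1 F hF hbig3
  exact ⟨n, P, A, h1, h2⟩

end Pool.Agent.Lib.MP_5cdc53_co.PP
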