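import Pool.Agent.Lib.MP_5cdc53_co.PP.Stmts3

/-!
# PP-Veb: the number of points of a space whose planes have `q ^ 2 + q + 1` points
-/

set_option autoImplicit false

namespace Pool.Agent.Lib.MP_5cdc53_co.PP

open Finset

namespace Veb

variable {α : Type} [DecidableEq α] {P : Finset α} {A : α → α → Finset α} {q : ℕ}

theorem same (h : IsSpace P A q) {x y z w : α} (hx : x ∈ P) (hy : y ∈ P) (hxy : x ≠ y)
    (hz : z ∈ A x y) (hw : w ∈ A x y) (hzw : z ≠ w) : A z w = A x y :=
  (h.line x hx y hy hxy).2.2.2.2 z hz w hw hzw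

theorem left (h : IsSpace P A q) {x y : α} (hx : x ∈ P) (hy : y ∈ P) (hxy : x ≠ y) :
    x ∈ A x y := (h.line x hx y hy hxy).1

theorem right (h : IsSpace P A q) {x y : α} (hx : x ∈ P) (hy : y ∈ P) (hxy : x ≠ y) :
    y ∈ A x y := (h.line x hx y hy hxy).2.1

theorem sub (h : IsSpace P A q) {x y : α} (hx : x ∈ P) (hy : y ∈ P) (hxy : x ≠ y) :
    A x y ⊆ P := (h.line x hx y hy hxy).2.2.1

theorem cd (h : IsSpace P A q) {x y : α} (hx : x ∈ P) (hy : y ∈ P) (hxy : x ≠ y) :
    (A x y).card = q + 1 := (h.line x hx y hy hxy).2.2.2.1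

/-- two lines through `u` with a common further point are the same -/
theorem thru (h : IsSpace P A q) {u y z c : α} (hu : u ∈ P) (hy : y ∈ P) (hz : z ∈ P)
    (huy : u ≠ y) (huz : u ≠ z) (hc : c ≠ u) (h1 : c ∈ A u y) (h2 : c ∈ A u z) :
    A u y = A u z := by
  rw [← same h hu hy huy (left h hu hy huy) h1 hc.symm,
    ← same h hu hz huz (left h hu hz huz) h2 hc.symm]

/-- two lines of a plane meet -/
theorem meet (h : IsSpace P A q) (hq : 2 ≤ q) {B : Finset α} (hB : B ⊆ P)
    (hBc : B.card = q ^ 2 + q + 1) (hcl : ∀ u ∈ B, ∀ w ∈ B, u ≠ w → A u w ⊆ B)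
    {u w u' w' : α} (hu : u ∈ B) (hw : w ∈ B) (hu' : u' ∈ B) (hw' : w' ∈ B) (huw : u ≠ w)
    (huw' : u' ≠ w') : ∃ c, c ∈ A u w ∧ c ∈ A u' w' := by
  by_contra hno
  push Not at hno
  have hl : A u' w' ⊆ B := hcl u' hu' w' hw' huw'
  have hlP : ∀ z ∈ A u' w', z ∈ P := fun z hz => hB (hl hz)
  have huP := hB hu
  have hwP := hB hw
  have hul : u ∉ A u' w' := hno u (left h huP hwP huw)
  have hne : ∀ z ∈ A u' w', u ≠ z := fun z hz e => hul (e ▸ hz)
  have hdis : ∀ z ∈ A u' w', ∀ z' ∈ A u' w', z ≠ z' →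
      Disjoint ((A u z).erase u) ((A u z').erase u) := by
    intro z hz z' hz' hzz
    rw [Finset.disjoint_left]
    intro c hc hc'
    rw [Finset.mem_erase] at hc hc'
    have e := thru h huP (hlP z hz) (hlP z' hz') (hne z hz) (hne z' hz') hc.1 hc.2 hc'.2
    have e1 : A z z' = A u z := by
      refine same h huP (hlP z hz) (hne z hz) (right h huP (hlP z hz) (hne z hz)) ?_ hzz
      rw [e]
      exact right h huP (hlP z' hz') (hne z' hz')
    have e2 : A z z' = A u' w' := same h (hB hu') (hB hw') huw' hz hz' hzz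
    apply hul
    rw [← e2, e1]
    exact left h huP (hlP z hz) (hne z hz)
  have hc1 : ((A u' w').biUnion (fun z => (A u z).erase u)).card = (q + 1) * q := by
    rw [Finset.card_biUnion hdis, Finset.sum_congr rfl (g := fun _ => q), Finset.sum_const,
      cd h (hB hu') (hB hw') huw', smul_eq_mul]
    intro z hz
    rw [Finset.card_erase_of_mem (left h huP (hlP z hz) (hne z hz)),
      cd h huP (hlP z hz) (hne z hz)]
    rfl
  have hc2 : Disjoint (A u w) ((A u' w').biUnion (fun z => (A u z).erase u)) := by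
    rw [Finset.disjoint_left]
    intro c hc hc'
    rw [Finset.mem_biUnion] at hc'
    obtain ⟨z, hz, hcz⟩ := hc'
    rw [Finset.mem_erase] at hcz
    have e := thru h huP hwP (hlP z hz) huw (hne z hz) hcz.1 hc hcz.2
    apply hno z _ hz
    rw [e]
    exact right h huP (hlP z hz) (hne z hz)
  have hc3 : A u w ∪ ((A u' w').biUnion (fun z => (A u z).erase u)) ⊆ B := by
    apply Finset.union_subset (hcl u hu w hw huw)
    intro c hc
    rw [Finset.mem_biUnion] at hc
    obtain ⟨z, hz, hcz⟩ := hc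
    rw [Finset.mem_erase] at hcz
    exact hcl u hu z (hl hz) (hne z hz) hcz.2
  have hc4 := Finset.card_le_card hc3
  rw [Finset.card_union_of_disjoint hc2, hc1, cd h huP hwP huw, hBc] at hc4
  have : (q + 1) * q = q ^ 2 + q := by ring
  omega

/-- the cone over a subspace -/
theorem cone (h : IsSpace P A q) (hq : 2 ≤ q) {U : Finset α} (hU : U ⊆ P) (hne : U.Nonempty)
    (hcl : ∀ u ∈ U, ∀ w ∈ U, u ≠ w → A u w ⊆ U) {p : α} (hp : p ∈ P) (hpU : p ∉ U) :
    ∃ U' : Finset α, U' ⊆ P ∧ (∀ u ∈ U', ∀ w ∈ U', u ≠ w → A u w ⊆ U') ∧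
      U'.card = 1 + q * U.card := by
  have hpu : ∀ u ∈ U, p ≠ u := fun u hu e => hpU (e ▸ hu)
  have hsub : ∀ u ∈ U, A p u ⊆ U.biUnion (fun u => A p u) := by
    intro u hu c hc
    exact Finset.mem_biUnion.2 ⟨u, hu, hc⟩
  have hpm : p ∈ U.biUnion (fun u => A p u) := by
    obtain ⟨u, hu⟩ := hne
    exact hsub u hu (left h hp (hU hu) (hpu u hu))
  refine ⟨U.biUnion (fun u => A p u), ?_, ?_, ?_⟩
  · intro c hc
    obtain ⟨u, hu, hcu⟩ := Finset.mem_biUnion.1 hc
    exact sub h hp (hU hu) (hpu u hu) hcu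
  · intro a ha b hb hab
    obtain ⟨u, hu, hau⟩ := Finset.mem_biUnion.1 ha
    obtain ⟨u', hu', hbu⟩ := Finset.mem_biUnion.1 hb
    by_cases hap : a = p
    · rw [hap, same h hp (hU hu') (hpu u' hu') (left h hp (hU hu') (hpu u' hu')) hbu
        (fun e => hab (hap.trans e))]
      exact hsub u' hu'
    by_cases hbp : b = p
    · rw [hbp, same h hp (hU hu) (hpu u hu) hau (left h hp (hU hu) (hpu u hu)) hap]
      exact hsub u hu
    by_cases huu : u = u'
    · subst huu
      rw [same h hp (hU hu) (hpu u hu) hau hbu hab]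
      exact hsub u hu
    have hlu : A u u' ⊆ U := hcl u hu u' hu' huu
    obtain ⟨B, hBP, huB, huB', hpB, hBc, hBcl⟩ := h.plane u (hU hu) u' (hU hu') p hp huu
      (fun hm => hpU (hlu hm))
    have haB : a ∈ B := hBcl p hpB u huB (hpu u hu) hau
    have hbB : b ∈ B := hBcl p hpB u' huB' (hpu u' hu') hbu
    intro c hc
    have hcB : c ∈ B := hBcl a haB b hbB hab hc
    by_cases hcp : c = p
    · rw [hcp]
      exact hpm
    have hpc : p ≠ c := fun e => hcp e.symm
    obtain ⟨v, hv1, hv2⟩ := meet h hq hBP hBc hBcl hpB hcB huB huB' hpc huu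
    have hvU : v ∈ U := hlu hv2
    have e : A p v = A p c := same h hp (hBP hcB) hpc (left h hp (hBP hcB) hpc) hv1 (hpu v hvU)
    apply hsub v hvU
    rw [e]
    exact right h hp (hBP hcB) hpc
  · have hE : (U.biUnion (fun u => A p u)).erase p = U.biUnion (fun u => (A p u).erase p) := by
      ext c
      simp only [Finset.mem_erase, Finset.mem_biUnion]
      constructor
      · rintro ⟨h1, u, hu, h2⟩
        exact ⟨u, hu, h1, h2⟩
      · rintro ⟨u, hu, h1, h2⟩
        exact ⟨h1, u, hu, h2⟩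
    have hdis : ∀ z ∈ U, ∀ z' ∈ U, z ≠ z' → Disjoint ((A p z).erase p) ((A p z').erase p) := by
      intro z hz z' hz' hzz
      rw [Finset.disjoint_left]
      intro c hc hc'
      rw [Finset.mem_erase] at hc hc'
      have e := thru h hp (hU hz) (hU hz') (hpu z hz) (hpu z' hz') hc.1 hc.2 hc'.2
      have e1 : A z z' = A p z := by
        refine same h hp (hU hz) (hpu z hz) (right h hp (hU hz) (hpu z hz)) ?_ hzz
        rw [e]
        exact right h hp (hU hz') (hpu z' hz')
      apply hpU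
      apply hcl z hz z' hz' hzz
      rw [e1]
      exact left h hp (hU hz) (hpu z hz)
    have hc1 : (U.biUnion (fun u => (A p u).erase p)).card = U.card * q := by
      rw [Finset.card_biUnion hdis, Finset.sum_congr rfl (g := fun _ => q), Finset.sum_const,
        smul_eq_mul]
      intro z hz
      rw [Finset.card_erase_of_mem (left h hp (hU hz) (hpu z hz)), cd h hp (hU hz) (hpu z hz)]
      rfl
    have hc2 := Finset.card_erase_add_one hpm
    rw [hE, hc1] at hc2
    rw [← hc2]
    ring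

theorem iter (h : IsSpace P A q) (hq : 2 ≤ q) : ∀ (d m : ℕ) (U : Finset α), U ⊆ P →
    U.Nonempty → (∀ u ∈ U, ∀ w ∈ U, u ≠ w → A u w ⊆ U) → U.card = ∑ j ∈ range m, q ^ j →
    P.card ≤ U.card + d → ∃ m : ℕ, P.card = ∑ j ∈ range m, q ^ j := by
  intro d
  induction d with
  | zero =>
    intro m U hU _ _ hc hd
    have := Finset.eq_of_subset_of_card_le hU hd
    exact ⟨m, by rw [← this, hc]⟩
  | succ d ih =>
    intro m U hU hne hcl hc hd
    by_cases hPU : P ⊆ U
    · exact ⟨m, by rw [Finset.Subset.antisymm hPU hU, hc]⟩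
    · obtain ⟨p, hp, hpU⟩ := Finset.not_subset.1 hPU
      obtain ⟨U', hU', hcl', hc'⟩ := cone h hq hU hne hcl hp hpU
      have h1 : U.card ≤ q * U.card := Nat.le_mul_of_pos_left _ (by omega)
      refine ih (m + 1) U' hU' ?_ hcl' ?_ (by omega)
      · rw [← Finset.card_pos]
        omega
      · rw [hc', hc, Finset.sum_range_succ', Finset.mul_sum, add_comm, pow_zero]
        congr 1
        apply Finset.sum_congr rfl
        intro j _
        ring

end Veb

theorem stVeb : StVeb := by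
  intro α _ P A q hq hne h
  obtain ⟨x, hx⟩ := hne
  refine Veb.iter h hq P.card 1 {x} (Finset.singleton_subset_iff.2 hx)
    (Finset.singleton_nonempty x) ?_ (by simp) (by omega)
  intro u hu w hw huw
  exact absurd ((Finset.mem_singleton.1 hu).trans (Finset.mem_singleton.1 hw).symm) huw

end Pool.Agent.Lib.MP_5cdc53_co.PP
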