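import Pool.Agent.Lib.MP_5cdc53_co.PP.Assemble
import Pool.Agent.Lib.MP_5cdc53_co.PP.Final3
import Pool.Agent.Lib.MP_5cdc53_co.PP.KerG
import Pool.Agent.Lib.MP_5cdc53_co.PP.QuoG
import Pool.Agent.Lib.MP_5cdc53_co.PP.Red5
import Pool.Agent.Lib.MP_5cdc53_co.PP.Space
import Pool.Agent.Lib.MP_5cdc53_co.PP.Veb

/-!
# PP/Assemble3: complete answer for initial flat sizes (helper45)
-/

set_option autoImplicit false

namespace Pool.Agent.Lib.MP_5cdc53_co.PP

open Finset

theorem asm_stRed5 : StRed5 := stRed5 asm_stSub asm_stBot asm_stTop asm_stQuoG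
theorem asm_stSpace : StSpace := stSpace asm_stKerG

theorem asm_sizes (q l d s k : ℕ) (hq : 2 ≤ q) (hd : 1 ≤ d) (hs : 4 ≤ s) :
    ((∀ i < s, l + d * ∑ j ∈ range i, q ^ j < k) →
      ((IsPrimePow q ∧ ∃ r, k = l + d * ∑ j ∈ range r, q ^ j) →
        FullGrowth k ((range s).image (fun i => l + d * ∑ j ∈ range i, q ^ j))) ∧
      (¬ (IsPrimePow q ∧ ∃ r, k = l + d * ∑ j ∈ range r, q ^ j) →
        Filter.Tendsto (fun n : ℕ =>
          (m n k ((range s).image (fun i => l + d * ∑ j ∈ range i, q ^ j)) : ℝ) / (n : ℝ) ^ s)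
          Filter.atTop (nhds 0))) ∧
    ((∀ i < s, l + d * q ^ i < k) →
      ((IsPrimePow q ∧ ∃ r, k = l + d * q ^ r) →
        FullGrowth k (insert l ((range s).image (fun i => l + d * q ^ i)))) ∧
      (¬ (IsPrimePow q ∧ ∃ r, k = l + d * q ^ r) →
        Filter.Tendsto (fun n : ℕ =>
          (m n k (insert l ((range s).image (fun i => l + d * q ^ i))) : ℝ) / (n : ℝ) ^ (s + 1))
          Filter.atTop (nhds 0))) :=
  final3_sizes asm_stRed asm_stPlane asm_stPlane2 stBlow stPG stAG asm_stRed5 asm_stSpace stVeb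
    q l d s k hq hd hs

end Pool.Agent.Lib.MP_5cdc53_co.PP
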