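import Pool.Agent.Lib.MP_5cdc53_co.PP.Stmts2

/-!
Completion of a finite affine plane to a projective plane (module Comp).
-/

set_option autoImplicit false

namespace Pool.Agent.Lib.MP_5cdc53_co.PP

open Finset

namespace CompAux

variable {α : Type} [DecidableEq α] {P : Finset α} {A : α → α → Finset α} {q : ℕ}

/-- the set of lines -/
def lines (P : Finset α) (A : α → α → Finset α) : Finset (Finset α) :=
  P.offDiag.image (fun z => A z.1 z.2)

theorem comp_mem_lines {l : Finset α} :
    l ∈ lines P A ↔ ∃ x ∈ P, ∃ y ∈ P, x ≠ y ∧ A x y = l := by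
  unfold lines
  simp only [mem_image, mem_offDiag, Prod.exists]
  constructor
  · rintro ⟨a, b, ⟨ha, hb, hab⟩, h⟩
    exact ⟨a, ha, b, hb, hab, h⟩
  · rintro ⟨a, ha, b, hb, hab, h⟩
    exact ⟨a, b, ⟨ha, hb, hab⟩, h⟩

theorem comp_sub (h : IsAPlane P A q) {l : Finset α} (hl : l ∈ lines P A) : l ⊆ P := by
  obtain ⟨x, hx, y, hy, hxy, rfl⟩ := comp_mem_lines.mp hl
  exact (h.line x hx y hy hxy).2.2.1

theorem comp_card (h : IsAPlane P A q) {l : Finset α} (hl : l ∈ lines P A) : l.card = q := by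
  obtain ⟨x, hx, y, hy, hxy, rfl⟩ := comp_mem_lines.mp hl
  exact (h.line x hx y hy hxy).2.2.2.1

theorem comp_line_eq (h : IsAPlane P A q) {l : Finset α} (hl : l ∈ lines P A) {x y : α}
    (hx : x ∈ l) (hy : y ∈ l) (hxy : x ≠ y) : A x y = l := by
  obtain ⟨a, ha, b, hb, hab, rfl⟩ := comp_mem_lines.mp hl
  exact (h.line a ha b hb hab).2.2.2.2 x hx y hy hxy

theorem comp_line_mem {x y : α} (hx : x ∈ P) (hy : y ∈ P) (hxy : x ≠ y) : A x y ∈ lines P A :=
  comp_mem_lines.mpr ⟨x, hx, y, hy, hxy, rfl⟩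

theorem comp_two (h : IsAPlane P A q) {l m : Finset α} (hl : l ∈ lines P A) (hm : m ∈ lines P A)
    {x y : α} (hxy : x ≠ y) (hx : x ∈ l) (hy : y ∈ l) (hx' : x ∈ m) (hy' : y ∈ m) : l = m := by
  rw [← comp_line_eq h hl hx hy hxy, ← comp_line_eq h hm hx' hy' hxy]

/-- the lines through a point -/
def thr (P : Finset α) (A : α → α → Finset α) (x : α) : Finset (Finset α) :=
  (lines P A).filter (fun l => x ∈ l)

theorem comp_mem_thr {x : α} {l : Finset α} : l ∈ thr P A x ↔ l ∈ lines P A ∧ x ∈ l := by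
  unfold thr
  rw [mem_filter]

theorem comp_thr_card (h : IsAPlane P A q) (hq : 2 ≤ q) {x : α} (hx : x ∈ P) :
    (thr P A x).card = q + 1 := by
  have e : (thr P A x).biUnion (fun l => l.erase x) = P.erase x := by
    ext y
    simp only [mem_biUnion, mem_erase, comp_mem_thr]
    constructor
    · rintro ⟨l, ⟨hl, _⟩, hy, hyl⟩
      exact ⟨hy, comp_sub h hl hyl⟩
    · rintro ⟨hy, hyP⟩
      have := h.line x hx y hyP hy.symm
      exact ⟨A x y, ⟨comp_line_mem hx hyP hy.symm, this.1⟩, hy, this.2.1⟩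
  have hd : ∀ l ∈ thr P A x, ∀ m ∈ thr P A x, l ≠ m → Disjoint (l.erase x) (m.erase x) := by
    intro l hl m hm hlm
    rw [disjoint_left]
    intro y hy hy'
    rw [mem_erase] at hy hy'
    rw [comp_mem_thr] at hl hm
    exact hlm (comp_two h hl.1 hm.1 hy.1.symm hl.2 hy.2 hm.2 hy'.2)
  have hc := card_biUnion (s := thr P A x) (t := fun l => l.erase x) (by
    intro l hl m hm hlm
    exact hd l hl m hm hlm)
  rw [e, card_erase_of_mem hx, h.card] at hc
  have hs : ∑ l ∈ thr P A x, (l.erase x).card = (thr P A x).card * (q - 1) := by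
    rw [sum_const_nat]
    intro l hl
    rw [comp_mem_thr] at hl
    rw [card_erase_of_mem hl.2, comp_card h hl.1]
  rw [hs] at hc
  obtain ⟨r, rfl⟩ : ∃ r, q = r + 1 := ⟨q - 1, by omega⟩
  have hr : 0 < r := by omega
  simp only [add_tsub_cancel_right] at hc
  have e2 : (r + 1) ^ 2 - 1 = (r + 1 + 1) * r := by
    have : (r + 1) ^ 2 = (r + 1 + 1) * r + 1 := by ring
    omega
  rw [e2] at hc
  exact (Nat.eq_of_mul_eq_mul_right hr hc).symm

theorem comp_par (h : IsAPlane P A q) (hq : 2 ≤ q) {l : Finset α} (hl : l ∈ lines P A) {x : α}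
    (hx : x ∈ P) (hxl : x ∉ l) :
    ∃ m, (thr P A x).filter (fun m => Disjoint m l) = {m} := by
  rw [← card_eq_one]
  have e : (thr P A x).filter (fun m => ¬ Disjoint m l) = l.image (fun y => A x y) := by
    ext m
    simp only [mem_filter, mem_image, comp_mem_thr]
    constructor
    · rintro ⟨⟨hm, hxm⟩, hd⟩
      rw [not_disjoint_iff] at hd
      obtain ⟨y, hym, hyl⟩ := hd
      exact ⟨y, hyl, comp_line_eq h hm hxm hym (fun e => hxl (e ▸ hyl))⟩
    · rintro ⟨y, hyl, rfl⟩
      have hne : x ≠ y := fun e => hxl (e ▸ hyl)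
      have hyP := comp_sub h hl hyl
      have := h.line x hx y hyP hne
      refine ⟨⟨comp_line_mem hx hyP hne, this.1⟩, ?_⟩
      rw [not_disjoint_iff]
      exact ⟨y, this.2.1, hyl⟩
  have hi : (l.image (fun y => A x y)).card = q := by
    rw [card_image_of_injOn, comp_card h hl]
    intro y hy z hz hyz
    by_contra hne
    have hy' : y ∈ l := hy
    have hz' : z ∈ l := hz
    have hxy : x ≠ y := fun e => hxl (e ▸ hy')
    have hxz : x ≠ z := fun e => hxl (e ▸ hz')
    have h1 := h.line x hx y (comp_sub h hl hy') hxy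
    have h2 := h.line x hx z (comp_sub h hl hz') hxz
    simp only at hyz
    have hzm : z ∈ A x y := by rw [hyz]; exact h2.2.1
    have := comp_two h (comp_line_mem hx (comp_sub h hl hy') hxy) hl hne h1.2.1 hzm hy' hz'
    exact hxl (this ▸ h1.1)
  have hsum := card_filter_add_card_filter_not (s := thr P A x) (fun m => Disjoint m l)
  rw [e, hi, comp_thr_card h hq hx] at hsum
  omega

theorem comp_par_unique (h : IsAPlane P A q) (hq : 2 ≤ q) {l m n : Finset α}
    (hl : l ∈ lines P A) (hm : m ∈ lines P A) (hn : n ∈ lines P A) {x : α} (hxm : x ∈ m)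
    (hxn : x ∈ n) (h1 : Disjoint m l) (h2 : Disjoint n l) : m = n := by
  have hxl : x ∉ l := disjoint_left.mp h1 hxm
  obtain ⟨k, hk⟩ := comp_par h hq hl (comp_sub h hm hxm) hxl
  have a1 : m ∈ (thr P A x).filter (fun m => Disjoint m l) := by
    rw [mem_filter, comp_mem_thr]; exact ⟨⟨hm, hxm⟩, h1⟩
  have a2 : n ∈ (thr P A x).filter (fun m => Disjoint m l) := by
    rw [mem_filter, comp_mem_thr]; exact ⟨⟨hn, hxn⟩, h2⟩
  rw [hk, mem_singleton] at a1 a2
  rw [a1, a2]

/-- the parallel class of a line -/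
def cls (P : Finset α) (A : α → α → Finset α) (l : Finset α) : Finset (Finset α) :=
  (lines P A).filter (fun m => m = l ∨ Disjoint m l)

theorem comp_trans (h : IsAPlane P A q) (hq : 2 ≤ q) {l m n : Finset α}
    (hl : l ∈ lines P A) (hm : m ∈ lines P A) (hn : n ∈ lines P A) (h1 : l = m ∨ Disjoint l m)
    (h2 : m = n ∨ Disjoint m n) : l = n ∨ Disjoint l n := by
  rcases h1 with rfl | h1
  · exact h2
  rcases h2 with rfl | h2
  · exact Or.inr h1
  by_cases hd : Disjoint l n
  · exact Or.inr hd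
  · left
    rw [not_disjoint_iff] at hd
    obtain ⟨x, hxl, hxn⟩ := hd
    exact comp_par_unique h hq hm hl hn hxl hxn h1 h2.symm

theorem comp_cls_eq (h : IsAPlane P A q) (hq : 2 ≤ q) {l m : Finset α}
    (hl : l ∈ lines P A) (hm : m ∈ lines P A) : cls P A l = cls P A m ↔ (l = m ∨ Disjoint l m) := by
  constructor
  · intro e
    have : l ∈ cls P A m := by
      rw [← e]; unfold cls; rw [mem_filter]; exact ⟨hl, Or.inl rfl⟩
    unfold cls at this
    rw [mem_filter] at this
    exact this.2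
  · intro hlm
    have hml : m = l ∨ Disjoint m l := hlm.imp Eq.symm (fun d => d.symm)
    unfold cls
    ext n
    simp only [mem_filter]
    constructor
    · rintro ⟨hn, h1⟩
      exact ⟨hn, comp_trans h hq hn hl hm h1 hlm⟩
    · rintro ⟨hn, h1⟩
      exact ⟨hn, comp_trans h hq hn hm hl h1 hml⟩

/-- the points at infinity -/
def inf (P : Finset α) (A : α → α → Finset α) : Finset (Finset (Finset α)) :=
  (lines P A).image (cls P A)

theorem comp_line_thr (h : IsAPlane P A q) (hq : 2 ≤ q) {l : Finset α} (hl : l ∈ lines P A)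
    {x : α} (hx : x ∈ P) : ∃ m ∈ lines P A, x ∈ m ∧ cls P A m = cls P A l := by
  by_cases hxl : x ∈ l
  · exact ⟨l, hl, hxl, rfl⟩
  · obtain ⟨m, hm⟩ := comp_par h hq hl hx hxl
    have : m ∈ (thr P A x).filter (fun m => Disjoint m l) := by rw [hm, mem_singleton]
    rw [mem_filter, comp_mem_thr] at this
    exact ⟨m, this.1.1, this.1.2, (comp_cls_eq h hq this.1.1 hl).mpr (Or.inr this.2)⟩

theorem comp_inf_card (h : IsAPlane P A q) (hq : 2 ≤ q) {x : α} (hx : x ∈ P) :
    (inf P A).card = q + 1 := by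
  have e : inf P A = (thr P A x).image (cls P A) := by
    unfold inf
    ext c
    simp only [mem_image, comp_mem_thr]
    constructor
    · rintro ⟨l, hl, rfl⟩
      obtain ⟨m, hm, hxm, hc⟩ := comp_line_thr h hq hl hx
      exact ⟨m, ⟨hm, hxm⟩, hc⟩
    · rintro ⟨l, ⟨hl, _⟩, rfl⟩
      exact ⟨l, hl, rfl⟩
  rw [e, card_image_of_injOn, comp_thr_card h hq hx]
  intro l hl m hm hlm
  have hl' := comp_mem_thr.mp hl
  have hm' := comp_mem_thr.mp hm
  rcases (comp_cls_eq h hq hl'.1 hm'.1).mp hlm with h1 | h1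
  · exact h1
  · exact absurd hm'.2 (disjoint_left.mp h1 hl'.2)

/-- the extended line -/
def ext (P : Finset α) (A : α → α → Finset α) (l : Finset α) :
    Finset (α ⊕ Finset (Finset α)) :=
  l.image Sum.inl ∪ {Sum.inr (cls P A l)}

/-- the line at infinity -/
def infL (P : Finset α) (A : α → α → Finset α) : Finset (α ⊕ Finset (Finset α)) :=
  (inf P A).image Sum.inr

/-- all lines of the completion -/
def lines' (P : Finset α) (A : α → α → Finset α) : Finset (Finset (α ⊕ Finset (Finset α))) :=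
  (lines P A).image (ext P A) ∪ {infL P A}

/-- all points of the completion -/
def pts (P : Finset α) (A : α → α → Finset α) : Finset (α ⊕ Finset (Finset α)) :=
  P.image Sum.inl ∪ infL P A

theorem comp_inl_ext {l : Finset α} {x : α} : Sum.inl x ∈ ext P A l ↔ x ∈ l := by
  unfold ext; simp

theorem comp_inr_ext {l : Finset α} {c : Finset (Finset α)} :
    Sum.inr c ∈ ext P A l ↔ c = cls P A l := by
  unfold ext; simp

theorem comp_inl_infL {x : α} : Sum.inl x ∉ infL P A := by
  unfold infL; simp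

theorem comp_inr_infL {c : Finset (Finset α)} : Sum.inr c ∈ infL P A ↔ c ∈ inf P A := by
  unfold infL; simp

theorem comp_inl_pts {x : α} : Sum.inl x ∈ pts P A ↔ x ∈ P := by
  unfold pts
  rw [mem_union]
  constructor
  · rintro (h | h)
    · simpa using h
    · exact absurd h comp_inl_infL
  · intro h
    left
    simpa using h

theorem comp_inr_pts {c : Finset (Finset α)} : Sum.inr c ∈ pts P A ↔ c ∈ inf P A := by
  unfold pts
  rw [mem_union, comp_inr_infL]
  simp

theorem comp_cls_inf {l : Finset α} (hl : l ∈ lines P A) : cls P A l ∈ inf P A :=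
  mem_image_of_mem _ hl

theorem comp_mem' {L : Finset (α ⊕ Finset (Finset α))} :
    L ∈ lines' P A ↔ (∃ l ∈ lines P A, ext P A l = L) ∨ L = infL P A := by
  unfold lines'
  rw [mem_union, mem_image, mem_singleton]

theorem comp_sub' (h : IsAPlane P A q) {L : Finset (α ⊕ Finset (Finset α))}
    (hL : L ∈ lines' P A) : L ⊆ pts P A := by
  intro u hu
  rcases comp_mem'.mp hL with ⟨l, hl, rfl⟩ | rfl
  · rcases u with x | c
    · rw [comp_inl_ext] at hu
      exact comp_inl_pts.mpr (comp_sub h hl hu)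
    · rw [comp_inr_ext] at hu
      rw [comp_inr_pts, hu]
      exact comp_cls_inf hl
  · exact mem_union_right _ hu

theorem comp_card' (h : IsAPlane P A q) (hq : 2 ≤ q) {x : α} (hx : x ∈ P)
    {L : Finset (α ⊕ Finset (Finset α))} (hL : L ∈ lines' P A) : L.card = q + 1 := by
  rcases comp_mem'.mp hL with ⟨l, hl, rfl⟩ | rfl
  · unfold ext
    rw [card_union_of_disjoint (by simp), card_image_of_injective _ Sum.inl_injective,
      comp_card h hl, card_singleton]
  · unfold infL
    rw [card_image_of_injective _ Sum.inr_injective, comp_inf_card h hq hx]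

theorem comp_unique (h : IsAPlane P A q) (hq : 2 ≤ q) {L M : Finset (α ⊕ Finset (Finset α))}
    (hL : L ∈ lines' P A) (hM : M ∈ lines' P A) {u v : α ⊕ Finset (Finset α)} (huv : u ≠ v)
    (hu : u ∈ L) (hv : v ∈ L) (hu' : u ∈ M) (hv' : v ∈ M) : L = M := by
  have key : ∀ l ∈ lines P A, ∀ m ∈ lines P A, ∀ (x : α) (c : Finset (Finset α)),
      Sum.inl x ∈ ext P A l → Sum.inr c ∈ ext P A l → Sum.inl x ∈ ext P A m →
      Sum.inr c ∈ ext P A m → l = m := by
    intro l hl m hm x c h1 h2 h3 h4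
    rw [comp_inl_ext] at h1 h3
    rw [comp_inr_ext] at h2 h4
    rcases (comp_cls_eq h hq hl hm).mp (h2.symm.trans h4) with e | e
    · exact e
    · exact absurd h3 (disjoint_left.mp e h1)
  have key2 : ∀ l ∈ lines P A, u ∈ ext P A l → v ∈ ext P A l → u ∈ infL P A → v ∈ infL P A →
      False := by
    intro l hl h1 h2 h3 h4
    rcases u with x | c
    · exact comp_inl_infL h3
    rcases v with y | d
    · exact comp_inl_infL h4
    rw [comp_inr_ext] at h1 h2
    exact huv (by rw [h1, h2])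
  rcases comp_mem'.mp hL with ⟨l, hl, rfl⟩ | rfl
  · rcases comp_mem'.mp hM with ⟨m, hm, rfl⟩ | rfl
    · have : l = m := by
        rcases u with x | c <;> rcases v with y | d
        · rw [comp_inl_ext] at hu hv hu' hv'
          exact comp_two h hl hm (fun e => huv (by rw [e])) hu hv hu' hv'
        · exact key l hl m hm x d hu hv hu' hv'
        · exact key l hl m hm y c hv hu hv' hu'
        · rw [comp_inr_ext] at hu hv
          exact absurd (by rw [hu, hv]) huv
      rw [this]
    · exact (key2 l hl hu hv hu' hv').elim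
  · rcases comp_mem'.mp hM with ⟨m, hm, rfl⟩ | rfl
    · exact (key2 m hm hu' hv' hu hv).elim
    · rfl

theorem comp_exists (h : IsAPlane P A q) (hq : 2 ≤ q) {u v : α ⊕ Finset (Finset α)}
    (huv : u ≠ v) (hu : u ∈ pts P A) (hv : v ∈ pts P A) : ∃ L ∈ lines' P A, u ∈ L ∧ v ∈ L := by
  have key : ∀ (x : α) (c : Finset (Finset α)), x ∈ P → c ∈ inf P A →
      ∃ L ∈ lines' P A, Sum.inl x ∈ L ∧ Sum.inr c ∈ L := by
    intro x c hx hc
    unfold inf at hc
    rw [mem_image] at hc
    obtain ⟨l, hl, rfl⟩ := hc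
    obtain ⟨m, hm, hxm, hcm⟩ := comp_line_thr h hq hl hx
    exact ⟨ext P A m, comp_mem'.mpr (Or.inl ⟨m, hm, rfl⟩), comp_inl_ext.mpr hxm,
      comp_inr_ext.mpr hcm.symm⟩
  rcases u with x | c <;> rcases v with y | d
  · rw [comp_inl_pts] at hu hv
    have hxy : x ≠ y := fun e => huv (by rw [e])
    have := h.line x hu y hv hxy
    exact ⟨ext P A (A x y), comp_mem'.mpr (Or.inl ⟨_, comp_line_mem hu hv hxy, rfl⟩),
      comp_inl_ext.mpr this.1, comp_inl_ext.mpr this.2.1⟩
  · exact key x d (comp_inl_pts.mp hu) (comp_inr_pts.mp hv)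
  · obtain ⟨L, hL, h1, h2⟩ := key y c (comp_inl_pts.mp hv) (comp_inr_pts.mp hu)
    exact ⟨L, hL, h2, h1⟩
  · exact ⟨infL P A, comp_mem'.mpr (Or.inr rfl), comp_inr_infL.mpr (comp_inr_pts.mp hu),
      comp_inr_infL.mpr (comp_inr_pts.mp hv)⟩

open Classical in
/-- the line through two points of the completion -/
noncomputable def A' (P : Finset α) (A : α → α → Finset α) (u v : α ⊕ Finset (Finset α)) :
    Finset (α ⊕ Finset (Finset α)) :=
  if h : ∃ L ∈ lines' P A, u ∈ L ∧ v ∈ L then h.choose else ∅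

theorem comp_A' (h : IsAPlane P A q) (hq : 2 ≤ q) {u v : α ⊕ Finset (Finset α)} (huv : u ≠ v)
    {L : Finset (α ⊕ Finset (Finset α))} (hL : L ∈ lines' P A) (hu : u ∈ L) (hv : v ∈ L) :
    A' P A u v = L := by
  have hex : ∃ L ∈ lines' P A, u ∈ L ∧ v ∈ L := ⟨L, hL, hu, hv⟩
  unfold A'
  rw [dif_pos hex]
  exact comp_unique h hq hex.choose_spec.1 hL huv hex.choose_spec.2.1 hex.choose_spec.2.2 hu hv

end CompAux

open CompAux in
/-- Comp -/
theorem stComp : StComp := by
  intro α _ P A q hq h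
  have hP : P.Nonempty := by
    rw [← card_pos, h.card]
    positivity
  obtain ⟨x₀, hx₀⟩ := hP
  have hic := comp_inf_card h hq hx₀
  have hone : 1 < (inf P A).card := by omega
  obtain ⟨s, hs, t, ht, hst⟩ := one_lt_card.mp hone
  have hst' : (Sum.inr s : α ⊕ Finset (Finset α)) ≠ Sum.inr t := fun e => hst (Sum.inr_injective e)
  have hA : A' P A (Sum.inr s) (Sum.inr t) = infL P A :=
    comp_A' h hq hst' (comp_mem'.mpr (Or.inr rfl)) (comp_inr_infL.mpr hs) (comp_inr_infL.mpr ht)
  refine ⟨α ⊕ Finset (Finset α), inferInstance, pts P A, A' P A, Sum.inl, Sum.inr s, Sum.inr t,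
    ⟨?_, ?_⟩, comp_inr_pts.mpr hs, comp_inr_pts.mpr ht, hst', Sum.inl_injective, ?_, ?_, ?_⟩
  · unfold pts infL
    rw [card_union_of_disjoint, card_image_of_injective _ Sum.inl_injective,
      card_image_of_injective _ Sum.inr_injective, h.card, hic]
    · ring
    · rw [disjoint_left]
      intro u hu hu'
      rw [mem_image] at hu hu'
      obtain ⟨x, _, rfl⟩ := hu
      obtain ⟨c, _, hc⟩ := hu'
      exact Sum.inr_ne_inl hc
  · intro u hu v hv huv
    obtain ⟨L, hL, h1, h2⟩ := comp_exists h hq huv hu hv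
    rw [comp_A' h hq huv hL h1 h2]
    exact ⟨h1, h2, comp_sub' h hL, comp_card' h hq hx₀ hL,
      fun z hz w hw hzw => comp_A' h hq hzw hL hz hw⟩
  · intro x hx
    refine ⟨comp_inl_pts.mpr hx, ?_⟩
    rw [hA]
    exact comp_inl_infL
  · intro y hy hyn
    rw [hA] at hyn
    rcases y with x | c
    · exact ⟨x, comp_inl_pts.mp hy, rfl⟩
    · exact absurd (comp_inr_infL.mpr (comp_inr_pts.mp hy)) hyn
  · intro x hx y hy hxy w hw
    have hl := comp_line_mem (A := A) hx hy hxy
    have hh := h.line x hx y hy hxy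
    rw [comp_A' h hq (fun e => hxy (Sum.inl_injective e)) (comp_mem'.mpr (Or.inl ⟨_, hl, rfl⟩))
      (comp_inl_ext.mpr hh.1) (comp_inl_ext.mpr hh.2.1), comp_inl_ext]

end Pool.Agent.Lib.MP_5cdc53_co.PP
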