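import Pool.Agent.Lib.MP_5cdc53_co.PP.Stmts2

/-! Plane2: full growth of the affine plane pair forces a prime power. -/

set_option autoImplicit false

namespace Pool.Agent.Lib.MP_5cdc53_co.PP

open Finset

/-- a member of `M` is an affine plane -/
theorem planeP2_plane {n q : ℕ} {M : Finset (Finset (Fin n))}
    {A : Fin n → Fin n → Finset (Fin n)} (h : Lines (q ^ 2) q M A) {F : Finset (Fin n)}
    (hF : F ∈ M) : IsAPlane F A q :=
  ⟨h.card F hF, fun x hx y hy hxy => h.line F hF x hx y hy hxy⟩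

/-- a sub-family keeps the line structure -/
theorem planeP2_sub {n v f : ℕ} {M M' : Finset (Finset (Fin n))}
    {A : Fin n → Fin n → Finset (Fin n)} (h : Lines v f M A) (hM : M' ⊆ M) : Lines v f M' A :=
  ⟨fun F hF => h.card F (hM hF), fun F hF => h.line F (hM hF),
    fun F hF G hG => h.inter F (hM hF) G (hM hG)⟩

/-- Plane2 -/
theorem stPlane2 (h1 : StLines) (h2 : StColor) (h3 : StFewCfg2) (h4 : StDes2) : StPlane2 := by
  intro q hq hWG
  by_contra hpp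
  obtain ⟨c, hc, hWG⟩ := hWG
  have hcard : ({0, 1, q} : Finset ℕ).card = 3 := by
    rw [Finset.card_insert_of_notMem, Finset.card_insert_of_notMem, Finset.card_singleton]
    · simp; omega
    · simp; omega
  have hqv : q < q ^ 2 := by nlinarith
  obtain ⟨K, hK⟩ := h1 (q ^ 2) q hq hqv
  set T : ℝ := (2 : ℝ) ^ (10 * q ^ 2) with hT
  have hT0 : 0 < T := by positivity
  obtain ⟨N, hN⟩ := h3 (q ^ 2) q (c / (2 * T)) (by positivity)
  obtain ⟨n, hn, F, hF, hcF⟩ := hWG (max (max N 1) (⌈2 * (K : ℝ) / c⌉₊ + 1))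
  have hn1 : N ≤ n := ((le_max_left _ _).trans (le_max_left _ _)).trans hn
  have hn2 : 1 ≤ n := ((le_max_right _ _).trans (le_max_left _ _)).trans hn
  have hn3 : 2 * (K : ℝ) / c < n := by
    have h5 : (⌈2 * (K : ℝ) / c⌉₊ + 1 : ℕ) ≤ n := (le_max_right _ _).trans hn
    have h6 : ((⌈2 * (K : ℝ) / c⌉₊ + 1 : ℕ) : ℝ) ≤ n := by exact_mod_cast h5
    push_cast at h6
    linarith [Nat.le_ceil (2 * (K : ℝ) / c)]
  obtain ⟨M, hMF, A, hA, hFM⟩ := hK n hn2 F hF
  have hcfg : ∀ G ∈ M, ∃ p : Fin 10 → Fin n, (∀ i, p i ∈ G) ∧ Cfg2 A p := by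
    intro G hG
    by_contra hno
    refine hpp (h4 (Fin n) G A q hq (planeP2_plane hA hG) fun p hp hcf => hno ⟨p, hp, hcf⟩)
  classical
  have hn0 : 0 < n := hn2
  let p : Finset (Fin n) → Fin 10 → Fin n := fun G =>
    if hG : G ∈ M then (hcfg G hG).choose else fun _ => ⟨0, hn0⟩
  have hp : ∀ G ∈ M, (∀ i, p G i ∈ G) ∧ Cfg2 A (p G) := by
    intro G hG
    have h5 : p G = (hcfg G hG).choose := by simp only [p, dif_pos hG]
    rw [h5]
    exact (hcfg G hG).choose_spec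
  obtain ⟨M', hM', S, hS, hcol⟩ := h2 n (q ^ 2) M p fun G hG => ⟨hA.card G hG, (hp G hG).1⟩
  have h6 := hN n hn1 M' A (planeP2_sub hA hM') p S fun G hG => ⟨(hp G (hM' hG)).2, hS G hG⟩
  have h7 : (M.card : ℝ) ≤ T * M'.card := by
    rw [hT]
    exact_mod_cast hcol
  have h8 : (F.card : ℝ) ≤ M.card + K * (n : ℝ) ^ 2 := by exact_mod_cast hFM
  rw [hcard] at hcF
  have hnpos : (0 : ℝ) < n := by exact_mod_cast hn0
  have h9 : T * M'.card < T * (c / (2 * T) * (n : ℝ) ^ 3) := mul_lt_mul_of_pos_left h6 hT0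
  have h10 : T * (c / (2 * T) * (n : ℝ) ^ 3) = c / 2 * (n : ℝ) ^ 3 := by field_simp
  have h11 : (K : ℝ) * (n : ℝ) ^ 2 < c / 2 * (n : ℝ) ^ 3 := by
    rw [div_lt_iff₀ hc] at hn3
    have h12 : 0 < (n : ℝ) ^ 2 := by positivity
    nlinarith
  linarith

end Pool.Agent.Lib.MP_5cdc53_co.PP
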