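import Pool.Agent.Lib.MP_5cdc53_co.PP.Stmts

/-!
# Blueprint, part 3 (helper45): which `k` go with the flat sizes of projective spaces

All statements needed for: if `(k, L)` has full growth and `L ∪ {k}` has five consecutive
elements proportional to `0, 1, q + 1, q ^ 2 + q + 1, v` (after subtracting the first), then
`v = 1 + q + ... + q ^ m`.
-/

set_option autoImplicit false

namespace Pool.Agent.Lib.MP_5cdc53_co.PP

open Finset

/-- KerG: the kernel of an `(n, k, L)`-system with more than `C n ^ (|L| - 1)` members -/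
def StKerG : Prop := ∀ (k : ℕ) (L : Finset ℕ) (b : ℕ), b ∈ L → (∀ l ∈ L, b ≤ l) →
  (∀ l ∈ L, l < k) → ∃ C : ℕ, ∀ n : ℕ, 1 ≤ n → ∀ F : Finset (Finset (Fin n)),
  IsSystem n k L F → C * n ^ (L.card - 1) < F.card →
  ∃ D : Finset (Fin n), D.card = b ∧ (∀ X ∈ F, D ⊆ X) ∧ ∃ X ∈ F, ∃ Y ∈ F, X ∩ Y = D

/-- QuoG: quotient by atoms -/
def StQuoG : Prop := ∀ (k : ℕ) (L : Finset ℕ) (b : ℕ), 0 ∈ L → b ∈ L → 0 < b →
  (∀ l ∈ L, l = 0 ∨ b ≤ l) → (∀ l ∈ L, l < k) → WG k L →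
  ∃ k' : ℕ, k = b * k' ∧ (∀ l ∈ L, b ∣ l) ∧ WG k' (L.image (fun l => l / b))

/-- Red5: reduction of a pair with five consecutive entries -/
def StRed5 : Prop := ∀ (k : ℕ) (L : Finset ℕ) (a b c e g f2 f3 : ℕ), (∀ l ∈ L, l < k) →
  a ∈ L → b ∈ L → c ∈ L → e ∈ L → g ∈ insert k L → a < b → b < c → c < e → e < g →
  (∀ x ∈ insert k L, a ≤ x → x ≤ g → x = a ∨ x = b ∨ x = c ∨ x = e ∨ x = g) →
  c - a = f2 * (b - a) → e - a = f3 * (b - a) → WG k L →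
  ∃ v : ℕ, g - a = v * (b - a) ∧ WG v {0, 1, f2, f3}

/-- a finite linear space with lines of size `q + 1` in which three non-collinear points lie in a
subspace of size `q ^ 2 + q + 1` -/
structure IsSpace {α : Type} [DecidableEq α] (P : Finset α) (A : α → α → Finset α) (q : ℕ) :
    Prop where
  line : ∀ x ∈ P, ∀ y ∈ P, x ≠ y → x ∈ A x y ∧ y ∈ A x y ∧ A x y ⊆ P ∧
    (A x y).card = q + 1 ∧ ∀ z ∈ A x y, ∀ w ∈ A x y, z ≠ w → A z w = A x y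
  plane : ∀ x ∈ P, ∀ y ∈ P, ∀ z ∈ P, x ≠ y → z ∉ A x y → ∃ B, B ⊆ P ∧ x ∈ B ∧ y ∈ B ∧ z ∈ B ∧
    B.card = q ^ 2 + q + 1 ∧ ∀ u ∈ B, ∀ w ∈ B, u ≠ w → A u w ⊆ B

/-- Space: a weak growth pair `(v, {0, 1, q + 1, q ^ 2 + q + 1})` gives such a space on `v` points -/
def StSpace : Prop := ∀ q v : ℕ, 2 ≤ q → q ^ 2 + q + 1 < v → WG v {0, 1, q + 1, q ^ 2 + q + 1} →
  ∃ (n : ℕ) (P : Finset (Fin n)) (A : Fin n → Fin n → Finset (Fin n)), P.card = v ∧ IsSpace P A q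

/-- Veb: the number of points of such a space -/
def StVeb : Prop := ∀ (α : Type) [DecidableEq α] (P : Finset α) (A : α → α → Finset α) (q : ℕ),
  2 ≤ q → P.Nonempty → IsSpace P A q → ∃ m : ℕ, P.card = ∑ j ∈ range m, q ^ j

end Pool.Agent.Lib.MP_5cdc53_co.PP
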