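import Pool.Agent.Lib.MP_5cdc53_co.PP.Stmts2

/-!
# PP/Trans2: translations from the restricted minor Desargues property (helper45)
-/

set_option autoImplicit false

namespace Pool.Agent.Lib.MP_5cdc53_co.PP

/-- `x` and `y` lie on a common line of direction `u` (or are equal) -/
def ELn {V D : Type} (dir : V → V → D) (u : D) (x y : V) : Prop := x = y ∨ dir x y = u

section
variable {V D : Type} {dir : V → V → D}

theorem ELn.refl' (u : D) (x : V) : ELn dir u x x := Or.inl rfl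

theorem ELn.symm' (h : Aff V D dir) {u : D} {x y : V} (hxy : ELn dir u x y) : ELn dir u y x := by
  rcases hxy with h1 | h1
  · exact Or.inl h1.symm
  · right; rw [h.symm]; exact h1

theorem ELn.trans' (h : Aff V D dir) {u : D} {x y w : V} (hxy : ELn dir u x y)
    (hyw : ELn dir u y w) : ELn dir u x w := by
  rcases hxy with h1 | h1
  · rw [h1]; exact hyw
  rcases hyw with h2 | h2
  · rw [← h2]; exact Or.inr h1
  by_cases hx : x = y
  · rw [hx]; exact Or.inr h2
  by_cases hy : y = w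
  · rw [← hy]; exact Or.inr h1
  by_cases hxw : x = w
  · exact Or.inl hxw
  right
  have := h.trans y x w (Ne.symm hx) hy hxw (by rw [h.symm y x, h1, h2])
  rw [this, h.symm, h1]

theorem ELn.un {u v : D} (huv : u ≠ v) {x y : V} (h1 : ELn dir u x y)
    (h2 : ELn dir v x y) : x = y := by
  rcases h1 with h1 | h1
  · exact h1
  rcases h2 with h2 | h2
  · exact h2
  exact absurd (h1.symm.trans h2) huv

theorem ELn.meet (h : Aff V D dir) {u v : D} (huv : u ≠ v) (x y : V) :
    ∃ w, ELn dir u x w ∧ ELn dir v y w := by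
  obtain ⟨w, ⟨h1, h2⟩, _⟩ := h.meet x y u v huv
  refine ⟨w, ?_, ?_⟩
  · rcases h1 with h1 | h1
    · exact Or.inl h1.symm
    · exact Or.inr h1
  · rcases h2 with h2 | h2
    · exact Or.inl h2.symm
    · exact Or.inr h2

theorem ELn.dir_eq {u : D} {x y : V} (h1 : ELn dir u x y) (hne : x ≠ y) : dir x y = u := by
  rcases h1 with h1 | h1
  · exact absurd h1 hne
  · exact h1

/-- the arrows `P → P'` and `X → X'` of direction `o` are parallel -/
structure T2 (dir : V → V → D) (o : D) (P P' X X' : V) : Prop where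
  ne : P ≠ P'
  d1 : dir P P' = o
  ne' : X ≠ X'
  d2 : dir X X' = o
  off : ¬ ELn dir o P X
  par : dir P' X' = dir P X

theorem T2.symm' (h : Aff V D dir) {o : D} {P P' X X' : V} (t : T2 dir o P P' X X') :
    T2 dir o X X' P P' :=
  ⟨t.ne', t.d2, t.ne, t.d1, fun hh => t.off (hh.symm' h), by rw [h.symm X' P', t.par, h.symm]⟩

theorem T2.e1 {o : D} {P P' X X' : V} (t : T2 dir o P P' X X') : ELn dir o P P' := Or.inr t.d1
theorem T2.e2 {o : D} {P P' X X' : V} (t : T2 dir o P P' X X') : ELn dir o X X' := Or.inr t.d2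

theorem T2.rev (h : Aff V D dir) {o : D} {P P' X X' : V} (t : T2 dir o P P' X X') :
    T2 dir o P' P X' X :=
  ⟨t.ne.symm, by rw [h.symm]; exact t.d1, t.ne'.symm, by rw [h.symm]; exact t.d2,
    fun hh => t.off ((t.e1.trans' h hh).trans' h (t.e2.symm' h)), t.par.symm⟩

theorem T2.nPX {o : D} {P P' X X' : V} (t : T2 dir o P P' X X') : P ≠ X :=
  fun hh => t.off (Or.inl hh)

theorem T2.dne {o : D} {P P' X X' : V} (t : T2 dir o P P' X X') : dir P X ≠ o :=
  fun hh => t.off (Or.inr hh)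

theorem T2.ex (h : Aff V D dir) {o : D} {P P' X : V} (hne : P ≠ P') (hd : dir P P' = o)
    (hoff : ¬ ELn dir o P X) : ∃ X', T2 dir o P P' X X' := by
  have hPX : P ≠ X := fun hh => hoff (Or.inl hh)
  have hu : o ≠ dir P X := fun hh => hoff (Or.inr hh.symm)
  obtain ⟨W, h1, h2⟩ := ELn.meet h hu X P'
  have hWX : X ≠ W := by
    rintro rfl
    have h3 : ELn dir (dir P X) P P' := ELn.trans' h (Or.inr rfl) (h2.symm' h)
    have := h3.dir_eq hne
    exact hu (by rw [← hd, this])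
  have hWP : P' ≠ W := by
    rintro rfl
    exact hoff (ELn.trans' h (Or.inr hd) (h1.symm' h))
  exact ⟨W, hne, hd, hWX, h1.dir_eq hWX, hoff, h2.dir_eq hWP⟩

theorem T2.unique (h : Aff V D dir) {o : D} {P P' X Y X' Y' : V} (t : T2 dir o P P' X X')
    (t2 : T2 dir o P P' Y Y') (hXY : X = Y) : X' = Y' := by
  subst hXY
  have hu : o ≠ dir P X := t.dne.symm
  refine ELn.un hu ((t.e2.symm' h).trans' h t2.e2) ?_
  have h1 : ELn dir (dir P X) P' X' := Or.inr t.par
  have h2 : ELn dir (dir P X) P' Y' := Or.inr t2.par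
  exact (h1.symm' h).trans' h h2

theorem T2.unique' (h : Aff V D dir) {o : D} {P P' X Y X' Y' : V} (t : T2 dir o P P' X X')
    (t2 : T2 dir o P P' Y Y') (hXY : X' = Y') : X = Y :=
  (t.rev h).unique h (t2.rev h) hXY

theorem tr2_choose (h : Aff V D dir) (hB : Big dir 7) {o z : D} (hoz : o ≠ z) (x0 : V)
    (s : Fin 6 → V) (Q : Fin 6 → V → Prop)
    (hQ : ∀ i x y, ELn dir o x y → Q i x → Q i y → x = y) :
    ∃ C, (∀ i, ¬ ELn dir o (s i) C) ∧ ∀ i, ¬ Q i C := by
  classical
  have h1 : ∃ M, ∀ i, ¬ ELn dir o (s i) M := by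
    by_contra hno
    push Not at hno
    choose g hg using hno
    obtain ⟨S, hS, hSl⟩ := hB x0 z
    have hinj : Set.InjOn g (S : Set V) := by
      intro x hx y hy hxy
      have e1 : ELn dir o x y := ((hg x).symm' h).trans' h (by rw [hxy]; exact hg y)
      have f1 : ELn dir z x0 x := by
        rcases hSl x hx with hh | hh
        · exact Or.inl hh.symm
        · exact Or.inr hh
      have f2 : ELn dir z x0 y := by
        rcases hSl y hy with hh | hh
        · exact Or.inl hh.symm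
        · exact Or.inr hh
      exact ELn.un hoz e1 ((f1.symm' h).trans' h f2)
    have := Finset.card_le_card_of_injOn g (s := S) (t := Finset.univ)
      (fun x _ => Finset.mem_univ _) hinj
    simp at this
    omega
  obtain ⟨M, hM⟩ := h1
  by_contra hno
  push Not at hno
  obtain ⟨S, hS, hSl⟩ := hB M o
  have hE : ∀ x ∈ S, ELn dir o M x := by
    intro x hx
    rcases hSl x hx with hh | hh
    · exact Or.inl hh.symm
    · exact Or.inr hh
  have hex : ∀ x, ∃ i, x ∈ S → Q i x := by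
    intro x
    by_cases hx : x ∈ S
    · obtain ⟨i, hi⟩ := hno x (fun i hh => hM i (hh.trans' h ((hE x hx).symm' h)))
      exact ⟨i, fun _ => hi⟩
    · exact ⟨0, fun hh => absurd hh hx⟩
  choose g hg using hex
  have hinj : Set.InjOn g (S : Set V) := by
    intro x hx y hy hxy
    refine hQ (g x) x y (((hE x hx).symm' h).trans' h (hE y hy)) (hg x hx) ?_
    rw [hxy]; exact hg y hy
  have := Finset.card_le_card_of_injOn g (s := S) (t := Finset.univ)
    (fun x _ => Finset.mem_univ _) hinj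
  simp at this
  omega

theorem tr2_Lun {Lp : V → Prop} {z : D} (h2 : Aff2 V D dir Lp z) {o : D}
    (hoz : o ≠ z) {x y : V} (hx : Lp x) (hy : Lp y) (e : ELn dir o x y) : x = y := by
  by_contra hne
  have h3 := (h2.line x y hx hne).1 hy
  exact hoz ((e.dir_eq hne).symm.trans h3)

theorem tr2_Lz {Lp : V → Prop} {z : D} (h2 : Aff2 V D dir Lp z) {x y : V}
    (hx : Lp x) (hy : ¬ Lp y) : dir x y ≠ z := by
  intro hd
  have hne : x ≠ y := by rintro rfl; exact hy hx
  exact hy ((h2.line x y hx hne).2 hd)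

theorem tr2_Lex (h : Aff V D dir) {Lp : V → Prop} {z : D} (h2 : Aff2 V D dir Lp z) {o : D}
    (hoz : o ≠ z) (x : V) : ∃ y, Lp y ∧ ELn dir o x y := by
  obtain ⟨l, hl⟩ := h2.ex
  obtain ⟨w, h3, h4⟩ := ELn.meet h hoz x l
  refine ⟨w, ?_, h3⟩
  by_cases hlw : l = w
  · rw [← hlw]; exact hl
  · exact (h2.line l w hl hlw).2 (h4.dir_eq hlw)

/-- adjacent arrows -/
structure Adj2 (dir : V → V → D) (Lp : V → Prop) (z o : D) (P P' X X' : V) : Prop where
  l1 : ¬ Lp P
  l2 : ¬ Lp P'
  l3 : ¬ Lp X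
  l4 : ¬ Lp X'
  t : T2 dir o P P' X X'
  nz : dir P X ≠ z

theorem Adj2.symm' (h : Aff V D dir) {Lp : V → Prop} {z o : D} {P P' X X' : V}
    (a : Adj2 dir Lp z o P P' X X') : Adj2 dir Lp z o X X' P P' :=
  ⟨a.l3, a.l4, a.l1, a.l2, a.t.symm' h, by rw [h.symm]; exact a.nz⟩

theorem Adj2.close (h : Aff V D dir) {Lp : V → Prop} {z o : D} (hoz : o ≠ z)
    (hM : MD2 dir Lp z) {P P' X X' Y Y' : V} (a : Adj2 dir Lp z o P P' X X')
    (b : Adj2 dir Lp z o P P' Y Y') (hXY : ¬ ELn dir o X Y) : T2 dir o X X' Y Y' := by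
  have hP : ∀ {X X' : V}, T2 dir o P P' X X' → Par dir P P' X X' := by
    intro X X' t
    refine ⟨t.ne, t.nPX, ?_, t.ne', ?_, ?_, t.par⟩
    · rw [t.d1]; exact t.dne
    · rw [t.d1]; exact t.d2
    · intro hh
      exact t.off (t.e1.trans' h (by rw [hh]; exact (t.e2.symm' h)))
  have h1 := hM P P' X X' Y Y' a.l1 a.l2 a.l3 a.l4 b.l3 b.l4 (hP a.t) (hP b.t)
    (fun hh => hXY (Or.inl hh)) (by rw [a.t.d1]; exact fun hh => hXY (Or.inr hh))
    (by rw [a.t.d1]; exact hoz) a.nz b.nz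
  exact ⟨a.t.ne', a.t.d2, b.t.ne', b.t.d2, hXY, h1.2⟩

/-- two arrows with a common neighbour -/
def Con (dir : V → V → D) (Lp : V → Prop) (z o : D) (X X' Y Y' : V) : Prop :=
  ∃ C C', Adj2 dir Lp z o X X' C C' ∧ Adj2 dir Lp z o C C' Y Y'

theorem Con.symm' (h : Aff V D dir) {Lp : V → Prop} {z o : D} {X X' Y Y' : V}
    (c : Con dir Lp z o X X' Y Y') : Con dir Lp z o Y Y' X X' := by
  obtain ⟨C, C', h1, h2⟩ := c
  exact ⟨C, C', h2.symm' h, h1.symm' h⟩

theorem con_step (h : Aff V D dir) {Lp : V → Prop} {z o : D} (h2 : Aff2 V D dir Lp z)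
    (hB : Big dir 7) (hoz : o ≠ z) (hM : MD2 dir Lp z) {X0 X0' X1 X1' X2 X2' X3 X3' : V}
    (a : Adj2 dir Lp z o X0 X0' X1 X1') (b : Adj2 dir Lp z o X1 X1' X2 X2')
    (c : Adj2 dir Lp z o X2 X2' X3 X3') : Con dir Lp z o X0 X0' X3 X3' := by
  have hzun : ∀ A x y : V, ELn dir o x y → ELn dir z A x → ELn dir z A y → x = y := by
    intro A x y h3 h4 h5
    exact ELn.un hoz h3 ((h4.symm' h).trans' h h5)
  obtain ⟨C, hC, hQ⟩ := tr2_choose h hB hoz X0 ![X0, X1, X2, X3, X0, X0]
    ![Lp, ELn dir z X0, ELn dir z X1, ELn dir z X2, ELn dir z X3,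
      fun x => ∃ y, Lp y ∧ T2 dir o X0 X0' x y] (by
      intro i x y hxy hx hy
      fin_cases i
      · exact tr2_Lun h2 hoz hx hy hxy
      · exact hzun _ _ _ hxy hx hy
      · exact hzun _ _ _ hxy hx hy
      · exact hzun _ _ _ hxy hx hy
      · exact hzun _ _ _ hxy hx hy
      · obtain ⟨x1, hx1, tx⟩ := hx
        obtain ⟨y1, hy1, ty⟩ := hy
        have : x1 = y1 := tr2_Lun h2 hoz hx1 hy1
          (((tx.e2.symm' h).trans' h hxy).trans' h ty.e2)
        exact tx.unique' h ty this)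
  have c0 : ¬ ELn dir o X0 C := hC 0
  have c1 : ¬ ELn dir o X1 C := hC 1
  have c2 : ¬ ELn dir o X2 C := hC 2
  have c3 : ¬ ELn dir o X3 C := hC 3
  have q0 : ¬ Lp C := hQ 0
  have q1 : ¬ ELn dir z X0 C := hQ 1
  have q2 : ¬ ELn dir z X1 C := hQ 2
  have q3 : ¬ ELn dir z X2 C := hQ 3
  have q4 : ¬ ELn dir z X3 C := hQ 4
  have q5 : ¬ ∃ y, Lp y ∧ T2 dir o X0 X0' C y := hQ 5
  obtain ⟨C', tC⟩ := T2.ex h a.t.ne a.t.d1 c0
  have hC' : ¬ Lp C' := fun hh => q5 ⟨C', hh, tC⟩
  have e0 : Adj2 dir Lp z o X0 X0' C C' := ⟨a.l1, a.l2, q0, hC', tC, fun hh => q1 (Or.inr hh)⟩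
  have e1 : Adj2 dir Lp z o X1 X1' C C' := ⟨a.l3, a.l4, q0, hC', a.close h hoz hM e0 c1,
    fun hh => q2 (Or.inr hh)⟩
  have e2 : Adj2 dir Lp z o X2 X2' C C' := ⟨b.l3, b.l4, q0, hC', b.close h hoz hM e1 c2,
    fun hh => q3 (Or.inr hh)⟩
  have e3 : Adj2 dir Lp z o X3 X3' C C' := ⟨c.l3, c.l4, q0, hC', c.close h hoz hM e2 c3,
    fun hh => q4 (Or.inr hh)⟩
  exact ⟨C, C', e0, e3.symm' h⟩

/-- a system of arrows -/
structure Sys2 (dir : V → V → D) (Lp : V → Prop) (z o : D) (K : V → V → Prop) : Prop where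
  l1 : ∀ X X', K X X' → ¬ Lp X
  l2 : ∀ X X', K X X' → ¬ Lp X'
  ne : ∀ X X', K X X' → X ≠ X'
  dr : ∀ X X', K X X' → dir X X' = o
  par : ∀ X X' Y Y', K X X' → K Y Y' → ¬ ELn dir o X Y → T2 dir o X X' Y Y'
  ext : ∀ P P' X X', K P P' → T2 dir o P P' X X' → ¬ Lp X → ¬ Lp X' → dir P X ≠ z → K X X'
  ex : ∃ X X', K X X'

theorem Sys2.rev (h : Aff V D dir) {Lp : V → Prop} {z o : D} {K : V → V → Prop}
    (s : Sys2 dir Lp z o K) : Sys2 dir Lp z o (fun X X' => K X' X) where
  l1 := fun X X' hK => s.l2 X' X hK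
  l2 := fun X X' hK => s.l1 X' X hK
  ne := fun X X' hK => (s.ne X' X hK).symm
  dr := fun X X' hK => by rw [h.symm]; exact s.dr X' X hK
  par := by
    intro X X' Y Y' h1 h2 h3
    have e1 : ELn dir o X' X := Or.inr (s.dr X' X h1)
    have e2 : ELn dir o Y' Y := Or.inr (s.dr Y' Y h2)
    have h4 : ¬ ELn dir o X' Y' := fun hh =>
      h3 (((e1.symm' h).trans' h hh).trans' h e2)
    exact (s.par X' X Y' Y h1 h2 h4).rev h
  ext := by
    intro P P' X X' h1 t h3 h4 h5
    refine s.ext P' P X' X h1 (t.rev h) h4 h3 ?_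
    rw [t.par]; exact h5
  ex := by
    obtain ⟨X, X', hh⟩ := s.ex
    exact ⟨X', X, hh⟩

theorem sys2_exists (h : Aff V D dir) {Lp : V → Prop} {z : D} (h2 : Aff2 V D dir Lp z)
    (hB : Big dir 7) (hM : MD2 dir Lp z) {A B : V} (hA : ¬ Lp A) (hB' : ¬ Lp B) (hAB : A ≠ B)
    (hd : dir A B ≠ z) : ∃ K : V → V → Prop, Sys2 dir Lp z (dir A B) K ∧ K A B := by
  set o := dir A B with ho
  have hoz : o ≠ z := hd
  have hzun : ∀ A x y : V, ELn dir o x y → ELn dir z A x → ELn dir z A y → x = y := by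
    intro A x y h3 h4 h5
    exact ELn.un hoz h3 ((h4.symm' h).trans' h h5)
  -- a neighbour of (A, B)
  have hnb : ∃ C C', Adj2 dir Lp z o A B C C' := by
    obtain ⟨C, hC, hQ⟩ := tr2_choose h hB hoz A ![A, A, A, A, A, A]
      ![Lp, ELn dir z A, ELn dir z A, ELn dir z A, ELn dir z A,
        fun x => ∃ y, Lp y ∧ T2 dir o A B x y] (by
        intro i x y hxy hx hy
        fin_cases i
        · exact tr2_Lun h2 hoz hx hy hxy
        · exact hzun _ _ _ hxy hx hy
        · exact hzun _ _ _ hxy hx hy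
        · exact hzun _ _ _ hxy hx hy
        · exact hzun _ _ _ hxy hx hy
        · obtain ⟨x1, hx1, tx⟩ := hx
          obtain ⟨y1, hy1, ty⟩ := hy
          have : x1 = y1 := tr2_Lun h2 hoz hx1 hy1
            (((tx.e2.symm' h).trans' h hxy).trans' h ty.e2)
          exact tx.unique' h ty this)
    have c0 : ¬ ELn dir o A C := hC 0
    have q0 : ¬ Lp C := hQ 0
    have q1 : ¬ ELn dir z A C := hQ 1
    have q5 : ¬ ∃ y, Lp y ∧ T2 dir o A B C y := hQ 5
    obtain ⟨C', tC⟩ := T2.ex h hAB ho.symm c0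
    exact ⟨C, C', hA, hB', q0, fun hh => q5 ⟨C', hh, tC⟩, tC, fun hh => q1 (Or.inr hh)⟩
  have hst : ∀ {X0 X0' X1 X1' X2 X2' X3 X3' : V}, Adj2 dir Lp z o X0 X0' X1 X1' →
      Adj2 dir Lp z o X1 X1' X2 X2' → Adj2 dir Lp z o X2 X2' X3 X3' →
      Con dir Lp z o X0 X0' X3 X3' := fun a b c => con_step h h2 hB hoz hM a b c
  have hct : ∀ {X X' Y Y' W W' : V}, Con dir Lp z o X X' Y Y' → Adj2 dir Lp z o Y Y' W W' →
      Con dir Lp z o X X' W W' := by
    rintro X X' Y Y' W W' ⟨C, C', a, b⟩ c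
    exact hst a b c
  have hcc : ∀ {X X' Y Y' W W' : V}, Con dir Lp z o X X' Y Y' → Con dir Lp z o Y Y' W W' →
      Con dir Lp z o X X' W W' := by
    rintro X X' Y Y' W W' c ⟨C, C', a, b⟩
    exact hct (hct c a) b
  refine ⟨fun X X' => Con dir Lp z o A B X X', ⟨?_, ?_, ?_, ?_, ?_, ?_, ?_⟩, ?_⟩
  · rintro X X' ⟨C, C', a, b⟩; exact b.l3
  · rintro X X' ⟨C, C', a, b⟩; exact b.l4
  · rintro X X' ⟨C, C', a, b⟩; exact b.t.ne'
  · rintro X X' ⟨C, C', a, b⟩; exact b.t.d2
  · intro X X' Y Y' c1 c2 hXY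
    obtain ⟨C, C', a, b⟩ := hcc (c1.symm' h) c2
    exact (a.symm' h).close h hoz hM b hXY
  · intro P P' X X' c t hX hX' hnz
    have hP : ¬ Lp P := by obtain ⟨C, C', a, b⟩ := c; exact b.l3
    have hP' : ¬ Lp P' := by obtain ⟨C, C', a, b⟩ := c; exact b.l4
    exact hct c ⟨hP, hP', hX, hX', t, hnz⟩
  · obtain ⟨C, C', a⟩ := hnb
    exact ⟨A, B, C, C', a, a.symm' h⟩
  · obtain ⟨C, C', a⟩ := hnb
    exact ⟨C, C', a, a.symm' h⟩

section sys
variable (h : Aff V D dir) {Lp : V → Prop} {z o : D} (h2 : Aff2 V D dir Lp z)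
  (hB : Big dir 7) (hoz : o ≠ z) {K : V → V → Prop} (s : Sys2 dir Lp z o K)
include h h2 hB hoz s

theorem sys2_off (X Y Y2 : V) : ∃ C C', K C C' ∧ ¬ ELn dir o C X ∧ ¬ ELn dir z C Y ∧
    ¬ ELn dir z C Y2 := by
  have hzun : ∀ A x y : V, ELn dir o x y → ELn dir z A x → ELn dir z A y → x = y := by
    intro A x y h3 h4 h5
    exact ELn.un hoz h3 ((h4.symm' h).trans' h h5)
  obtain ⟨P, P', hP⟩ := s.ex
  obtain ⟨C, hC, hQ⟩ := tr2_choose h hB hoz P ![P, X, P, P, P, P]
    ![Lp, ELn dir z P, ELn dir z Y, ELn dir z Y2, ELn dir z P,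
      fun x => ∃ y, Lp y ∧ T2 dir o P P' x y] (by
      intro i x y hxy hx hy
      fin_cases i
      · exact tr2_Lun h2 hoz hx hy hxy
      · exact hzun _ _ _ hxy hx hy
      · exact hzun _ _ _ hxy hx hy
      · exact hzun _ _ _ hxy hx hy
      · exact hzun _ _ _ hxy hx hy
      · obtain ⟨x1, hx1, tx⟩ := hx
        obtain ⟨y1, hy1, ty⟩ := hy
        have : x1 = y1 := tr2_Lun h2 hoz hx1 hy1
          (((tx.e2.symm' h).trans' h hxy).trans' h ty.e2)
        exact tx.unique' h ty this)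
  have c0 : ¬ ELn dir o P C := hC 0
  have c1 : ¬ ELn dir o X C := hC 1
  have q0 : ¬ Lp C := hQ 0
  have q1 : ¬ ELn dir z P C := hQ 1
  have q2 : ¬ ELn dir z Y C := hQ 2
  have q3 : ¬ ELn dir z Y2 C := hQ 3
  have q5 : ¬ ∃ y, Lp y ∧ T2 dir o P P' C y := hQ 5
  obtain ⟨C', tC⟩ := T2.ex h (s.ne _ _ hP) (s.dr _ _ hP) c0
  exact ⟨C, C', s.ext P P' C C' hP tC q0 (fun hh => q5 ⟨C', hh, tC⟩)
    (fun hh => q1 (Or.inr hh)), fun hh => c1 (hh.symm' h), fun hh => q2 (hh.symm' h),
    fun hh => q3 (hh.symm' h)⟩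

theorem sys2_T1 {X X2 : V} (hX : ¬ Lp X) (hX' : ¬ ∃ Y, K X Y) (hX2 : ¬ Lp X2)
    (hX2' : ¬ ∃ Y, K X2 Y) (e : ELn dir o X X2) : X = X2 := by
  obtain ⟨C, C', hC, c1, c2, c3⟩ := sys2_off h h2 hB hoz s X X X2
  have c4 : ¬ ELn dir o C X2 := fun hh => c1 (hh.trans' h (e.symm' h))
  obtain ⟨W, tW⟩ := T2.ex h (s.ne _ _ hC) (s.dr _ _ hC) c1
  obtain ⟨W2, tW2⟩ := T2.ex h (s.ne _ _ hC) (s.dr _ _ hC) c4
  have hW : Lp W := by
    by_contra hW
    exact hX' ⟨W, s.ext C C' X W hC tW hX hW (fun hh => c2 (Or.inr hh))⟩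
  have hW2 : Lp W2 := by
    by_contra hW2
    exact hX2' ⟨W2, s.ext C C' X2 W2 hC tW2 hX2 hW2 (fun hh => c3 (Or.inr hh))⟩
  have : W = W2 := tr2_Lun h2 hoz hW hW2 (((tW.e2.symm' h).trans' h e).trans' h tW2.e2)
  exact tW.unique' h tW2 this

omit hB in
theorem sys2_T2 {E E' l : V} (hE : K E E') (hl : Lp l) (hoff : ¬ ELn dir o E l) :
    ∃ W, T2 dir o E E' W l ∧ ¬ Lp W ∧ ¬ ∃ Y, K W Y := by
  have e1 : ELn dir o E E' := Or.inr (s.dr _ _ hE)
  have hoff' : ¬ ELn dir o E' l := fun hh => hoff (e1.trans' h hh)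
  obtain ⟨W, tW⟩ := T2.ex h (s.ne _ _ hE).symm (by rw [h.symm]; exact s.dr _ _ hE) hoff'
  have tW' := tW.rev h
  refine ⟨W, tW', ?_, ?_⟩
  · intro hW
    exact tW'.ne' (tr2_Lun h2 hoz hW hl tW'.e2)
  · rintro ⟨Y, hY⟩
    have h3 := s.par E E' W Y hE hY tW'.off
    have : Y = l := h3.unique h tW' rfl
    rw [this] at hY
    exact s.l2 _ _ hY hl

theorem sys2_U (X : V) : ∃ Y, (∀ E E', K E E' → ¬ ELn dir o E X → T2 dir o E E' X Y) ∧
    (¬ Lp X → (¬ ∃ Y, K X Y) → Lp Y) ∧ (Lp X → ¬ Lp Y ∧ ¬ ∃ W, K W Y) := by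
  by_cases hL : Lp X
  · have s' := s.rev h
    obtain ⟨C, C', hC, c1, _, _⟩ := sys2_off h h2 hB hoz s X X X
    have e1 : ELn dir o C C' := Or.inr (s.dr _ _ hC)
    have c1' : ¬ ELn dir o C' X := fun hh => c1 (e1.trans' h hh)
    obtain ⟨Y, tY, hY1, hY2⟩ := sys2_T2 h h2 hoz s' (E := C') (E' := C) hC hL c1'
    refine ⟨Y, ?_, fun hh => absurd hL hh, fun _ => ⟨hY1, hY2⟩⟩
    intro E E' hE hoff
    have e2 : ELn dir o E E' := Or.inr (s.dr _ _ hE)
    have hoff' : ¬ ELn dir o E' X := fun hh => hoff (e2.trans' h hh)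
    obtain ⟨W, tW, hW1, hW2⟩ := sys2_T2 h h2 hoz s' (E := E') (E' := E) hE hL hoff'
    have hWY : W = Y := by
      refine sys2_T1 h h2 hB hoz s' hW1 hW2 hY1 hY2 ?_
      exact (tW.e2).trans' h (tY.e2.symm' h)
    rw [← hWY]
    exact tW.rev h
  · by_cases hS : ∃ Y, K X Y
    · obtain ⟨Y, hY⟩ := hS
      exact ⟨Y, fun E E' hE hoff => s.par E E' X Y hE hY hoff, fun _ hh => absurd ⟨Y, hY⟩ hh,
        fun hh => absurd hh hL⟩
    · obtain ⟨l, hl, el⟩ := tr2_Lex h h2 hoz X
      refine ⟨l, ?_, fun _ _ => hl, fun hh => absurd hh hL⟩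
      intro E E' hE hoff
      have hoff' : ¬ ELn dir o E l := fun hh => hoff (hh.trans' h (el.symm' h))
      obtain ⟨W, tW, hW1, hW2⟩ := sys2_T2 h h2 hoz s hE hl hoff'
      have hWX : W = X := by
        refine sys2_T1 h h2 hB hoz s hW1 hW2 hL hS ?_
        exact tW.e2.trans' h (el.symm' h)
      rw [← hWX]
      exact tW

theorem sys2_Z {X Y : V} (hX : ¬ Lp X) (hX' : ¬ ∃ Y, K X Y) (hY : ¬ Lp Y)
    (hY' : ¬ ∃ W, K Y W) (hoff : ¬ ELn dir o X Y) : dir X Y = z := by
  obtain ⟨W, e1, e2⟩ := ELn.meet h (Ne.symm hoz) X Y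
  -- e1 : z-line of X, e2 : o-line of Y
  have hXW : X ≠ W := by
    rintro rfl
    exact hoff (e2.symm' h)
  have hdXW : dir X W = z := e1.dir_eq hXW
  have hW : ¬ Lp W := by
    intro hW
    exact hX ((h2.line W X hW (Ne.symm hXW)).2 (by rw [h.symm]; exact hdXW))
  have hW' : ¬ ∃ W', K W W' := by
    rintro ⟨W', hK⟩
    obtain ⟨X', hU1, hU2, _⟩ := sys2_U h h2 hB hoz s X
    have hoff2 : ¬ ELn dir o W X := fun hh => hoff ((hh.symm' h).trans' h (e2.symm' h))
    have t := hU1 W W' hK hoff2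
    have hLX : Lp X' := hU2 hX hX'
    have hW'L : ¬ Lp W' := s.l2 _ _ hK
    have h3 := tr2_Lz h2 hLX hW'L
    apply h3
    rw [h.symm, t.par, h.symm]
    exact hdXW
  have : W = Y := sys2_T1 h h2 hB hoz s hW hW' hY hY' (e2.symm' h)
  rw [← this]
  exact hdXW

theorem sys2_trans {A B : V} (hAB : K A B) : ∃ σ : Equiv.Perm V,
    (∀ x y, x ≠ y → dir (σ x) (σ y) = dir x y) ∧ σ A = B ∧
    ∀ x, σ x ≠ x ∧ dir x (σ x) = o := by
  have s' := s.rev h
  choose f hf1 hf2 hf3 using fun X => sys2_U h h2 hB hoz s X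
  choose g hg1 hg2 hg3 using fun X => sys2_U h h2 hB hoz s' X
  have hfT : ∀ X, f X ≠ X ∧ dir X (f X) = o := by
    intro X
    obtain ⟨C, C', hC, c1, _, _⟩ := sys2_off h h2 hB hoz s X X X
    have t := hf1 X C C' hC c1
    exact ⟨t.ne'.symm, t.d2⟩
  have hgf : ∀ X, g (f X) = X := by
    intro X
    obtain ⟨C, C', hC, c1, _, _⟩ := sys2_off h h2 hB hoz s X X X
    have t := hf1 X C C' hC c1
    have t2 := hg1 (f X) C' C hC (t.rev h).off
    exact (t.rev h).unique h t2 rfl |>.symm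
  have hfg : ∀ X, f (g X) = X := by
    intro X
    obtain ⟨C, C', hC, c1, _, _⟩ := sys2_off h h2 hB hoz s' X X X
    have t := hg1 X C C' hC c1
    have t2 := hf1 (g X) C' C hC (t.rev h).off
    exact (t.rev h).unique h t2 rfl |>.symm
  have hfK : ∀ X X', K X X' → f X = X' := by
    intro X X' hK
    obtain ⟨C, C', hC, c1, _, _⟩ := sys2_off h h2 hB hoz s X X X
    exact (hf1 X C C' hC c1).unique h (s.par C C' X X' hC hK c1) rfl
  have hinj : ∀ X Y, X ≠ Y → f X ≠ f Y := by
    intro X Y hXY hh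
    apply hXY
    rw [← hgf X, ← hgf Y, hh]
  have hst : ∀ X Y, ¬ ELn dir o X Y → (∃ X', K X X') → dir (f X) (f Y) = dir X Y := by
    rintro X Y hoff ⟨X', hK⟩
    rw [hfK X X' hK]
    exact (hf1 Y X X' hK hoff).par
  have hdir : ∀ X Y, X ≠ Y → dir (f X) (f Y) = dir X Y := by
    intro X Y hXY
    by_cases hE : ELn dir o X Y
    · have e1 : ELn dir o X (f X) := Or.inr (hfT X).2
      have e2 : ELn dir o Y (f Y) := Or.inr (hfT Y).2
      have e3 : ELn dir o (f X) (f Y) := ((e1.symm' h).trans' h hE).trans' h e2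
      rw [e3.dir_eq (hinj X Y hXY), hE.dir_eq hXY]
    · by_cases hsX : ∃ X', K X X'
      · exact hst X Y hE hsX
      by_cases hsY : ∃ Y', K Y Y'
      · rw [h.symm, hst Y X (fun hh => hE (hh.symm' h)) hsY, h.symm]
      -- both are not starts
      have hne := hinj X Y hXY
      by_cases hLX : Lp X
      · by_cases hLY : Lp Y
        · have h3 : dir X Y = z := (h2.line X Y hLX hXY).1 hLY
          rw [h3]
          have h4 := hf3 X hLX
          have h5 := hf3 Y hLY
          refine sys2_Z h h2 hB hoz s' (X := f X) (Y := f Y) h4.1 h4.2 h5.1 h5.2 ?_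
          intro hh
          have e1 : ELn dir o X (f X) := Or.inr (hfT X).2
          have e2 : ELn dir o Y (f Y) := Or.inr (hfT Y).2
          exact hE ((e1.trans' h hh).trans' h (e2.symm' h))
        · -- mixed
          have hg : dir X Y ≠ z := tr2_Lz h2 hLX hLY
          have hgo : dir X Y ≠ o := fun hh => hE (Or.inr hh)
          obtain ⟨S, hS, hSl⟩ := hB X (dir X Y)
          have : ∃ W ∈ S, W ≠ X ∧ W ≠ Y := by
            classical
            by_contra hno
            push Not at hno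
            have hsub : S ⊆ {X, Y} := by
              intro W hW
              rw [Finset.mem_insert, Finset.mem_singleton]
              by_cases hWX : W = X
              · exact Or.inl hWX
              · exact Or.inr (hno W hW hWX)
            have := (Finset.card_le_card hsub).trans (Finset.card_insert_le _ _)
            rw [Finset.card_singleton] at this
            omega
          obtain ⟨W, hW, hWX, hWY⟩ := this
          have hXW : dir X W = dir X Y := by
            rcases hSl W hW with hh | hh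
            · exact absurd hh hWX
            · exact hh
          have hWL : ¬ Lp W := by
            intro hh
            exact hg (by rw [← hXW]; exact (h2.line X W hLX (Ne.symm hWX)).1 hh)
          have hWYd : dir W Y = dir X Y := by
            rw [h.trans X W Y (Ne.symm hWX) hXY hWY hXW, hXW]
          have hWYo : ¬ ELn dir o W Y := by
            rintro (hh | hh)
            · exact hWY hh
            · exact hgo (by rw [← hWYd]; exact hh)
          have hWXd : dir W X = dir X Y := by rw [h.symm]; exact hXW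
          have hWXo : ¬ ELn dir o W X := by
            rintro (hh | hh)
            · exact hWX hh
            · exact hgo (by rw [← hWXd]; exact hh)
          have hWs : ∃ W', K W W' := by
            by_contra hno
            exact hg (by rw [← hWYd]; exact sys2_Z h h2 hB hoz s hWL hno hLY hsY hWYo)
          have k1 := hst W X hWXo hWs
          have k2 := hst W Y hWYo hWs
          have e1 : ELn dir (dir X Y) (f W) (f X) := Or.inr (by rw [k1, hWXd])
          have e2 : ELn dir (dir X Y) (f W) (f Y) := Or.inr (by rw [k2, hWYd])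
          exact ((e1.symm' h).trans' h e2).dir_eq hne
      · by_cases hLY : Lp Y
        · -- mixed, other order
          have hg : dir Y X ≠ z := tr2_Lz h2 hLY hLX
          have hE' : ¬ ELn dir o Y X := fun hh => hE (hh.symm' h)
          have hgo : dir Y X ≠ o := fun hh => hE' (Or.inr hh)
          obtain ⟨S, hS, hSl⟩ := hB Y (dir Y X)
          have : ∃ W ∈ S, W ≠ Y ∧ W ≠ X := by
            classical
            by_contra hno
            push Not at hno
            have hsub : S ⊆ {Y, X} := by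
              intro W hW
              rw [Finset.mem_insert, Finset.mem_singleton]
              by_cases hWX : W = Y
              · exact Or.inl hWX
              · exact Or.inr (hno W hW hWX)
            have := (Finset.card_le_card hsub).trans (Finset.card_insert_le _ _)
            rw [Finset.card_singleton] at this
            omega
          obtain ⟨W, hW, hWX, hWY⟩ := this
          have hXW : dir Y W = dir Y X := by
            rcases hSl W hW with hh | hh
            · exact absurd hh hWX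
            · exact hh
          have hWL : ¬ Lp W := by
            intro hh
            exact hg (by rw [← hXW]; exact (h2.line Y W hLY (Ne.symm hWX)).1 hh)
          have hWYd : dir W X = dir Y X := by
            rw [h.trans Y W X (Ne.symm hWX) hXY.symm hWY hXW, hXW]
          have hWYo : ¬ ELn dir o W X := by
            rintro (hh | hh)
            · exact hWY hh
            · exact hgo (by rw [← hWYd]; exact hh)
          have hWXd : dir W Y = dir Y X := by rw [h.symm]; exact hXW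
          have hWXo : ¬ ELn dir o W Y := by
            rintro (hh | hh)
            · exact hWX hh
            · exact hgo (by rw [← hWXd]; exact hh)
          have hWs : ∃ W', K W W' := by
            by_contra hno
            exact hg (by rw [← hWYd]; exact sys2_Z h h2 hB hoz s hWL hno hLX hsX hWYo)
          have k1 := hst W Y hWXo hWs
          have k2 := hst W X hWYo hWs
          have e1 : ELn dir (dir Y X) (f W) (f Y) := Or.inr (by rw [k1, hWXd])
          have e2 : ELn dir (dir Y X) (f W) (f X) := Or.inr (by rw [k2, hWYd])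
          rw [((e2.symm' h).trans' h e1).dir_eq hne, h.symm]
        · have h3 : dir X Y = z := sys2_Z h h2 hB hoz s hLX hsX hLY hsY hE
          rw [h3]
          have h4 := hf2 X hLX hsX
          have h5 := hf2 Y hLY hsY
          exact (h2.line (f X) (f Y) h4 hne).1 h5
  exact ⟨⟨f, g, hgf, hfg⟩, hdir, hfK A B hAB, hfT⟩

end sys

theorem stTrans2 : StTrans2 := by
  intro V D dir Lp z h h2 hB hM
  -- translations with direction different from z
  have key : ∀ A B : V, A ≠ B → dir A B ≠ z → ∃ σ : Equiv.Perm V,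
      (∀ x y, x ≠ y → dir (σ x) (σ y) = dir x y) ∧ σ A = B ∧
      ∀ x, σ x ≠ x ∧ dir x (σ x) = dir A B := by
    intro A B hAB hd
    set o := dir A B with ho
    have hoz : o ≠ z := hd
    have hzun : ∀ A x y : V, ELn dir o x y → ELn dir z A x → ELn dir z A y → x = y := by
      intro A x y h3 h4 h5
      exact ELn.un hoz h3 ((h4.symm' h).trans' h h5)
    obtain ⟨C, hC, hQ⟩ := tr2_choose h hB hoz A ![A, A, A, A, A, A]
      ![Lp, ELn dir z A, ELn dir z A, ELn dir z A, ELn dir z A,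
        fun x => ∃ y, Lp y ∧ T2 dir o A B x y] (by
        intro i x y hxy hx hy
        fin_cases i
        · exact tr2_Lun h2 hoz hx hy hxy
        · exact hzun _ _ _ hxy hx hy
        · exact hzun _ _ _ hxy hx hy
        · exact hzun _ _ _ hxy hx hy
        · exact hzun _ _ _ hxy hx hy
        · obtain ⟨x1, hx1, tx⟩ := hx
          obtain ⟨y1, hy1, ty⟩ := hy
          have : x1 = y1 := tr2_Lun h2 hoz hx1 hy1
            (((tx.e2.symm' h).trans' h hxy).trans' h ty.e2)
          exact tx.unique' h ty this)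
    have c0 : ¬ ELn dir o A C := hC 0
    have q0 : ¬ Lp C := hQ 0
    have q5 : ¬ ∃ y, Lp y ∧ T2 dir o A B C y := hQ 5
    obtain ⟨C', tC⟩ := T2.ex h hAB ho.symm c0
    have hC' : ¬ Lp C' := fun hh => q5 ⟨C', hh, tC⟩
    obtain ⟨K, s, hK⟩ := sys2_exists h h2 hB hM q0 hC' tC.ne' (by rw [tC.d2]; exact hoz)
    rw [tC.d2] at s
    obtain ⟨σ, h3, h4, h5⟩ := sys2_trans h h2 hB hoz s hK
    refine ⟨σ, h3, ?_, h5⟩
    have tA : T2 dir o C C' A (σ A) :=
      ⟨tC.ne', tC.d2, (h5 A).1.symm, (h5 A).2, fun hh => c0 (hh.symm' h),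
        by rw [← h4]; exact h3 C A (fun hh => c0 (Or.inl hh.symm))⟩
    exact tA.unique h (tC.symm' h) rfl
  intro a b hab
  by_cases hd : dir a b = z
  · -- composition
    obtain ⟨u, v, w, huv, huw, hvw⟩ := h.dirs
    have : ∃ u : D, u ≠ z := by
      by_cases huz : u = z
      · exact ⟨v, fun hh => huv (by rw [huz, hh])⟩
      · exact ⟨u, huz⟩
    obtain ⟨u, hu⟩ := this
    obtain ⟨c, c2, h3, h4, h5, h6, h7⟩ := h.three a u
    have hcb : c ≠ b := by
      rintro rfl
      exact hu (by rw [← h6, hd])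
    have hcbz : dir c b ≠ z := by
      intro hh
      have := h.trans b a c (Ne.symm hab) (Ne.symm hcb) h3 (by rw [h.symm b a, hd, h.symm b c, hh])
      rw [h6, h.symm b a, hd] at this
      exact hu this
    have hcbu : dir c b ≠ u := by
      intro hh
      have := h.trans c a b (Ne.symm h3) hcb hab (by rw [h.symm c a, h6, hh])
      rw [hd, h.symm c a, h6] at this
      exact hu this.symm
    obtain ⟨σ, s1, s2, s3⟩ := key a c h3 (by rw [h6]; exact hu)
    obtain ⟨τ, t1, t2, t3⟩ := key c b hcb hcbz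
    refine ⟨σ.trans τ, ?_, ?_, ?_⟩
    · intro x y hxy
      show dir (τ (σ x)) (τ (σ y)) = dir x y
      rw [t1 _ _ (fun hh => hxy (σ.injective hh)), s1 _ _ hxy]
    · show τ (σ a) = b
      rw [s2, t2]
    · intro x hx
      have hx' : τ (σ x) = x := hx
      have h8 := (s3 x).2
      have h9 := (t3 (σ x)).2
      rw [hx', h.symm, h8, h6] at h9
      exact hcbu h9.symm
  · obtain ⟨σ, h3, h4, h5⟩ := key a b hab hd
    exact ⟨σ, h3, h4, fun x => (h5 x).1⟩

end

end Pool.Agent.Lib.MP_5cdc53_co.PP
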